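import Pool.Agent.H5.AB.StD

/-!
# Free moves and few orbits
-/

set_option autoImplicit false

namespace Pool.H5.AB

open Set Ordinal Pool.H62.VT Pool.H5.AA

variable {a : ℕ → ℕ} {I : Type} {M : Str a} {E E' EE : Set ℕ} {m c r : ℕ} [LinearOrder I]
  {kd : I → ℕ} {sz : ℕ → ℕ} {x : I → ℕ → ℕ} {Rn : Finset I} {k g g' : ℕ} {Nm : Finset I}

/-- simultaneous good label changes of finitely many cells -/
theorem labs_good (hF : FF M Rn E E' m c kd sz x) {ι : Type} (s : Finset ι) (ci : ι → I)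
    (γ : ∀ i, Equiv.Perm (Fin (sz (kd (ci i))))) (hγ : ∀ i ∈ s, GdL M kd sz x (kd (ci i)) (γ i))
    (hinj : ∀ i ∈ s, ∀ i' ∈ s, ci i = ci i' → i = i') (hnR : ∀ i ∈ s, ci i ∉ Rn) :
    PI M M ({q | q.1 = q.2 ∧ ∀ i ∈ s, q.1 ∉ cell kd sz x (ci i)} ∪
      {q | ∃ i ∈ s, q ∈ mvL x (ci i) (ci i) (γ i)}) := by
  classical
  induction s using Finset.induction_on with
  | empty =>
    refine (pi_id M univ).mono ?_
    rintro q (⟨hq, -⟩ | ⟨i, hi, -⟩)
    · exact ⟨mem_univ _, hq⟩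
    · exact absurd hi (Finset.notMem_empty _)
  | @insert i s his ih =>
    have h1 := ih (fun j hj => hγ j (Finset.mem_insert_of_mem hj))
      (fun j hj j' hj' => hinj j (Finset.mem_insert_of_mem hj) j' (Finset.mem_insert_of_mem hj'))
      (fun j hj => hnR j (Finset.mem_insert_of_mem hj))
    have h2 := hγ i (Finset.mem_insert_self _ _) (ci i) rfl
    refine (h1.trans h2).mono ?_
    have hcell : ∀ {y}, y ∉ cell kd sz x (ci i) → ∀ d < sz (kd (ci i)), y ≠ x (ci i) d := by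
      intro y hy d hd h
      exact hy (mem_cell.2 ⟨d, hd, h.symm⟩)
    rintro ⟨q1, q2⟩ (⟨hq, hq'⟩ | ⟨j, hj, hq⟩)
    · simp only at hq hq'
      subst hq
      refine ⟨q1, Or.inl ⟨rfl, fun j hj => hq' j (Finset.mem_insert_of_mem hj)⟩, Or.inl ⟨?_, rfl⟩⟩
      exact hcell (hq' i (Finset.mem_insert_self _ _))
    · obtain ⟨d, hd⟩ := hq
      rw [Prod.mk.injEq] at hd
      obtain ⟨rfl, rfl⟩ := hd
      rcases Finset.mem_insert.1 hj with rfl | hj'
      · refine ⟨x (ci j) d, Or.inl ⟨rfl, ?_⟩, Or.inr ⟨d, rfl⟩⟩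
        intro j' hj' hmem
        have h3 : x (ci j) d ∈ cell kd sz x (ci j) := mem_cell.2 ⟨d, d.2, rfl⟩
        have h4 := hinj j' (Finset.mem_insert_of_mem hj') j (Finset.mem_insert_self _ _)
          (cell_eq hF hmem h3 (Or.inr (Or.inl (hnR j' (Finset.mem_insert_of_mem hj')))))
        exact his (h4 ▸ hj')
      · refine ⟨x (ci j) (γ j d), Or.inr ⟨j, hj', d, rfl⟩, Or.inl ⟨?_, rfl⟩⟩
        apply hcell
        intro hmem
        have h3 : x (ci j) (γ j d) ∈ cell kd sz x (ci j) := mem_cell.2 ⟨γ j d, (γ j d).2, rfl⟩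
        have h4 := hinj j (Finset.mem_insert_of_mem hj') i (Finset.mem_insert_self _ _)
          (cell_eq hF h3 hmem (Or.inr (Or.inl (hnR j (Finset.mem_insert_of_mem hj')))))
        exact his (h4 ▸ hj')

theorem free_fam (hF : FF M Rn E E' m c kd sz x) (hN : ND M Rn E' c kd sz x Nm EE) {c' : ℕ}
    (kk gg : Fin c' → ℕ) (hinjj : ∀ j j', kk j = kk j' → gg j = gg j' → j = j')
    (p0 : Pos) (ι : Type) (j : ι → Fin c') (S S' : ι → Finset ℕ) (b : ι → Pos) (hι : Finite ι)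
    (hPI : PI M M (idOn EE ∪ p0))
    (hp0 : ∀ q ∈ p0, (q.1 ∉ EE ∧ ∀ i, q.1 ∉ cell kd sz x i) ∧ (q.2 ∉ EE ∧
      ∀ i, q.2 ∉ cell kd sz x i))
    (hb : ∀ i, S i ∈ CI kd sz x Nm (kk (j i)) (gg (j i)) ∧
      S' i ∈ CI kd sz x Nm (kk (j i)) (gg (j i)) ∧ MtS (b i) (S i) (S' i) ∧
      BI M kd sz x (kk (j i)) (b i))
    (hne : ∀ i i', i ≠ i' → S i ≠ S i')
    (hlt : ∀ i i', j i = j i' → LI kd sz x (kk (j i)) (S i) (S i') →
      LI kd sz x (kk (j i)) (S' i) (S' i')) :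
    PI M M (idOn EE ∪ p0 ∪ ⋃ i, b i) := by
  classical
  -- the cells
  have hex : ∀ i, ∃ (ci ci' : I) (γ : Equiv.Perm (Fin (sz (kd ci)))),
      S i = cell kd sz x ci ∧ S' i = cell kd sz x ci' ∧ b i = mvL x ci ci' γ ∧
      GdL M kd sz x (kd ci) γ ∧ ci ∉ Nm ∧ ci' ∉ Nm ∧ kd ci = kk (j i) ∧ kd ci' = kk (j i) ∧
      gap kd Nm ci = gg (j i) ∧ gap kd Nm ci' = gg (j i) := by
    intro i
    obtain ⟨⟨c1, h1, h2, h3, h4⟩, ⟨c2, h5, h6, h7, h8⟩, h9, ⟨c3, c4, γ, h10, h11, h12, h13⟩⟩ := hb i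
    rw [h13] at h9
    obtain ⟨e1, e2⟩ := mts_left h10 h11 h9
    have e3 : c3 = c1 := cell_inj hF (e1.symm.trans h4) (Or.inl (h10.trans h2.symm))
    have e4 : c4 = c2 := cell_inj hF (e2.symm.trans h8) (Or.inl (h11.trans h6.symm))
    subst e3
    subst e4
    generalize kk (j i) = κ at *
    subst h10
    exact ⟨c3, c4, γ, h4, h8, h13, h12, h1, h5, rfl, h11, h3, h7⟩
  choose ci ci' γ hS hS' hbi hγ hn hn' hk hk' hg hg' using hex
  have hcinj : ∀ i i', ci i = ci i' → i = i' := by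
    intro i i' h
    by_contra hcon
    exact hne i i' hcon (by rw [hS, hS, h])
  have hord : ∀ i i', kd (ci i) = kd (ci i') → ci i < ci i' → ci' i < ci' i' := by
    intro i i' hkk h
    by_cases hjj : j i = j i'
    · have h1 : LI kd sz x (kk (j i)) (S i) (S i') :=
        ⟨ci i, ci i', hk i, by rw [← hkk]; exact hk i, hS i, hS i', h⟩
      obtain ⟨d, d', -, -, h2, h3, h4⟩ := hlt i i' hjj h1
      rw [hS' i] at h2
      rw [hS' i'] at h3
      rw [cell_inj hF h2 (Or.inr (Or.inl fun h5 => hn' i (hN.ren h5))),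
        cell_inj hF h3 (Or.inr (Or.inl fun h5 => hn' i' (hN.ren h5)))]
      exact h4
    · have hgg : gg (j i) ≠ gg (j i') := fun h5 => hjj (hinjj _ _ (by rw [← hk, ← hk, hkk]) h5)
      have h6 : gap kd Nm (ci i) ≤ gap kd Nm (ci i') := gap_mono hkk h.le
      by_contra hcon
      have h7 : gap kd Nm (ci' i') ≤ gap kd Nm (ci' i) :=
        gap_mono (by rw [hk', hk', ← hk, ← hk, hkk]) (not_lt.1 hcon)
      rw [hg, hg] at h6
      rw [hg', hg'] at h7
      exact hgg (le_antisymm h6 h7)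
  have hord' : ∀ i i', kd (ci i) = kd (ci i') → (ci i < ci i' ↔ ci' i < ci' i') := by
    intro i i' hkk
    refine ⟨hord i i' hkk, fun h => ?_⟩
    rcases lt_trichotomy (ci i) (ci i') with h1 | h1 | h1
    · exact h1
    · have := hcinj _ _ h1
      subst this
      exact absurd h (lt_irrefl _)
    · exact absurd h (hord i' i hkk.symm h1).not_gt
  have hside : ∀ i, ∀ n ∈ Nm, kd n = kd (ci i) → (ci i < n ↔ ci' i < n) := fun i n hnn hkn =>
    gap_side (by rw [hk, hk']) (by rw [hg, hg']) hnn hkn (hn i) (hn' i)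
  -- moving the cells
  have hPI' : PI M M (idOn E' ∪ (p0 ∪ idOn (EE ∩ Dr E kd sz x))) := by
    refine hPI.mono ?_
    rintro q (hq | hq | hq)
    · exact Or.inl ⟨hN.sub hq.1, hq.2⟩
    · exact Or.inr hq
    · exact Or.inl ⟨hq.1.1, hq.2⟩
  have hDr : ∀ y, y ∉ EE → (∀ i, y ∉ cell kd sz x i) → y ∈ Dr E kd sz x := fun y h1 h2 =>
    ⟨fun h => h1 (hN.sub (hF.sub h)), fun i d hd h => h2 i (mem_cell.2 ⟨d, hd, h.symm⟩)⟩
  have hfree := hF.free (p0 ∪ idOn (EE ∩ Dr E kd sz x))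
    ({q | ∃ i, q = (ci i, ci' i)} ∪ {q | q.1 = q.2 ∧ q.1 ∈ Nm}) (by
      rintro ⟨q1, q2⟩ (hq | ⟨hq1, hq2⟩)
      · exact ⟨hDr _ (hp0 _ hq).1.1 (hp0 _ hq).1.2, hDr _ (hp0 _ hq).2.1 (hp0 _ hq).2.2⟩
      · simp only at hq1 hq2
        subst hq2
        exact ⟨hq1.2, hq1.2⟩) hPI' (by
      refine ⟨⟨?_, ?_⟩, ?_⟩
      · rintro ⟨q1, q2⟩ (⟨i, hq⟩ | ⟨hq, -⟩)
        · rw [Prod.mk.injEq] at hq
          obtain ⟨rfl, rfl⟩ := hq
          exact (hk i).trans (hk' i).symm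
        · simp only at hq
          subst hq
          rfl
      · rintro ⟨q1, q2⟩ (⟨i, hq⟩ | ⟨hq, hq'⟩) ⟨q1', q2'⟩ (⟨i', hr⟩ | ⟨hr, hr'⟩)
        · rw [Prod.mk.injEq] at hq hr
          obtain ⟨rfl, rfl⟩ := hq
          obtain ⟨rfl, rfl⟩ := hr
          constructor
          · intro h
            exact congrArg ci' (hcinj _ _ h)
          · intro h
            have hkk : kd (ci i) = kd (ci i') := by
              rw [hk, hk, ← hk', ← hk']
              exact congrArg kd h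
            rcases lt_trichotomy (ci i) (ci i') with h1 | h1 | h1
            · exact absurd h (hord i i' hkk h1).ne
            · exact h1
            · exact absurd h (hord i' i hkk.symm h1).ne'
        · rw [Prod.mk.injEq] at hq
          obtain ⟨rfl, rfl⟩ := hq
          simp only at hr hr'
          subst hr
          constructor
          · intro h
            have h3 : ci i = q1' := h
            exact absurd (h3 ▸ hr') (hn i)
          · intro h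
            have h3 : ci' i = q1' := h
            exact absurd (h3 ▸ hr') (hn' i)
        · rw [Prod.mk.injEq] at hr
          obtain ⟨rfl, rfl⟩ := hr
          simp only at hq hq'
          subst hq
          constructor
          · intro h
            have h3 : q1 = ci i' := h
            exact absurd (h3 ▸ hq') (hn i')
          · intro h
            have h3 : q1 = ci' i' := h
            exact absurd (h3 ▸ hq') (hn' i')
        · simp only at hq hr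
          subst hq
          subst hr
          exact Iff.rfl
      · rintro ⟨q1, q2⟩ (⟨i, hq⟩ | ⟨hq, hq'⟩) ⟨q1', q2'⟩ (⟨i', hr⟩ | ⟨hr, hr'⟩) hkk
        · rw [Prod.mk.injEq] at hq hr
          obtain ⟨rfl, rfl⟩ := hq
          obtain ⟨rfl, rfl⟩ := hr
          exact hord' i i' hkk
        · rw [Prod.mk.injEq] at hq
          obtain ⟨rfl, rfl⟩ := hq
          simp only at hr hr' hkk
          subst hr
          exact hside i q1' hr' hkk.symm
        · rw [Prod.mk.injEq] at hr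
          obtain ⟨rfl, rfl⟩ := hr
          simp only at hq hq' hkk
          subst hq
          have h1 := hside i' q1 hq' hkk
          have h2 : ci i' ≠ q1 := fun h => hn i' (h ▸ hq')
          have h3 : ci' i' ≠ q1 := fun h => hn' i' (h ▸ hq')
          show q1 < ci i' ↔ q1 < ci' i'
          rw [← not_le, ← not_le, le_iff_lt_or_eq, le_iff_lt_or_eq, h1]
          simp only [h2, h3, or_false]
        · simp only at hq hr
          subst hq
          subst hr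
          exact Iff.rfl) (fun i hi => Or.inr ⟨rfl, hN.ren hi⟩)
  -- label changes
  have hfin : Fintype ι := Fintype.ofFinite ι
  have hlab := labs_good hF Finset.univ ci γ (fun i _ => hγ i) (fun i _ i' _ h => hcinj i i' h)
    (fun i _ h => hn i (hN.ren h))
  refine (hlab.trans hfree).mono ?_
  rintro ⟨q1, q2⟩ ((hq | hq) | hq)
  · obtain ⟨hq1, hq2⟩ := hq
    simp only at hq1 hq2
    subst hq2
    refine ⟨q1, Or.inl ⟨rfl, ?_⟩, ?_⟩
    · intro i _ hmem
      exact hn i (hN.meet _ _ hmem hq1)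
    · by_cases h1 : q1 ∈ E
      · exact Or.inl (Or.inl ⟨h1, rfl⟩)
      by_cases h2 : ∃ i, q1 ∈ cell kd sz x i
      · obtain ⟨i, hi⟩ := h2
        obtain ⟨d, hd, h3⟩ := mem_cell.1 hi
        exact Or.inr ⟨(i, i), Or.inr ⟨rfl, hN.meet i _ hi hq1⟩, d, hd, by rw [← h3]⟩
      · refine Or.inl (Or.inr (Or.inr ⟨⟨hq1, h1, ?_⟩, rfl⟩))
        intro i d hd h3
        exact h2 ⟨i, mem_cell.2 ⟨d, hd, h3.symm⟩⟩
  · exact ⟨q1, Or.inl ⟨rfl, fun i _ => (hp0 _ hq).1.2 _⟩, Or.inl (Or.inr (Or.inl hq))⟩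
  · obtain ⟨i, hi⟩ := mem_iUnion.1 hq
    rw [hbi] at hi
    obtain ⟨d, hd⟩ := hi
    rw [Prod.mk.injEq] at hd
    obtain ⟨rfl, rfl⟩ := hd
    exact ⟨x (ci i) (γ i d), Or.inr ⟨i, Finset.mem_univ _, d, rfl⟩,
      Or.inr ⟨(ci i, ci' i), Or.inl ⟨i, rfl⟩, γ i d, (γ i d).2, rfl⟩⟩

/-- few orbits -/
theorem cel_fam (hF : FF M Rn E E' m c kd sz x) (hN : ND M Rn E' c kd sz x Nm EE) (n : ℕ) :
    ∃ R : Set (Fin n → ℕ), R.Finite ∧ ∀ u : Fin n → ℕ,
      (∀ i, u i ∉ EE ∧ ∀ j, u i ∉ cell kd sz x j) →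
      ∃ v ∈ R, Iso M univ M univ (idOn EE ∪ {q | ∃ i, q = (u i, v i)}) := by
  classical
  have hDr : ∀ y, y ∉ EE → (∀ i, y ∉ cell kd sz x i) → y ∈ Dr E kd sz x := fun y h1 h2 =>
    ⟨fun h => h1 (hN.sub (hF.sub h)), fun i d hd h => h2 i (mem_cell.2 ⟨d, hd, h.symm⟩)⟩
  -- the named points of the rest
  have hfin : (EE ∩ Dr E kd sz x).Finite := hN.fin.inter_of_left _
  obtain ⟨l, f, hf⟩ : ∃ (l : ℕ) (f : Fin l → ℕ), range f = EE ∩ Dr E kd sz x := by
    have := hfin.to_subtype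
    obtain ⟨l, ⟨e⟩⟩ := Finite.exists_equiv_fin (EE ∩ Dr E kd sz x : Set ℕ)
    refine ⟨l, fun i => (e.symm i : ℕ), ?_⟩
    ext y
    constructor
    · rintro ⟨i, rfl⟩
      exact (e.symm i).2
    · intro hy
      exact ⟨e ⟨y, hy⟩, by simp⟩
  obtain ⟨R, hR, hR2⟩ := hF.cel (n + l)
  -- tuples of the class of `r`
  let Cl : (Fin (n + l) → ℕ) → (Fin n → ℕ) → Prop := fun r u =>
    (∀ i, u i ∈ Dr E kd sz x) ∧ ∃ P : Pos, (∀ q ∈ P, q.1 ∈ Dr E kd sz x ∧ q.2 ∈ Dr E kd sz x) ∧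
      Mt P (Dr E kd sz x) (Dr E kd sz x) ∧ PI M M (idOn E' ∪ P) ∧
      ∀ i, (Fin.append u f i, r i) ∈ P
  have hch : ∀ r : Fin (n + l) → ℕ, ∃ v : Fin n → ℕ, (∃ u, Cl r u) → Cl r v := by
    intro r
    by_cases h : ∃ u, Cl r u
    · obtain ⟨u, hu⟩ := h
      exact ⟨u, fun _ => hu⟩
    · exact ⟨fun _ => 0, fun h' => absurd h' h⟩
  choose rep hrep using hch
  refine ⟨rep '' R, hR.image _, ?_⟩
  intro u hu
  have huD : ∀ i, u i ∈ Dr E kd sz x := fun i => hDr _ (hu i).1 (hu i).2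
  obtain ⟨r, hr, P, hP1, hP2, hP3, hP4⟩ := hR2 (Fin.append u f) (by
    intro i
    refine Fin.addCases (fun i => ?_) (fun i => ?_) i
    · rw [Fin.append_left]
      exact huD i
    · rw [Fin.append_right]
      have : f i ∈ EE ∩ Dr E kd sz x := hf ▸ mem_range_self i
      exact this.2)
  have hclu : Cl r u := ⟨huD, P, hP1, hP2, hP3, hP4⟩
  obtain ⟨-, P', hP1', hP2', hP3', hP4'⟩ := hrep r ⟨u, hclu⟩
  refine ⟨rep r, mem_image_of_mem _ hr, ?_⟩
  set P2 : Pos := {q | ∃ y, (q.1, y) ∈ P ∧ (q.2, y) ∈ P'} with hP2d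
  have hPI : PI M M (idOn E' ∪ P2) := by
    refine (hP3.trans hP3'.symm).mono ?_
    rintro ⟨q1, q2⟩ (⟨h1, h2⟩ | ⟨y, h1, h2⟩)
    · simp only at h1 h2
      subst h2
      exact ⟨q1, Or.inl ⟨h1, rfl⟩, Or.inl ⟨h1, rfl⟩⟩
    · exact ⟨y, Or.inr h1, Or.inr h2⟩
  have hfree := hF.free P2 {q | q.1 = q.2} (by
    rintro q ⟨y, h1, h2⟩
    exact ⟨(hP1 _ h1).1, (hP1' _ h2).1⟩) hPI (by
    refine ⟨⟨?_, ?_⟩, ?_⟩
    · rintro ⟨q1, q2⟩ h
      exact congrArg kd h
    · rintro ⟨q1, q2⟩ h ⟨q1', q2'⟩ h'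
      simp only [mem_setOf_eq] at h h'
      subst h
      subst h'
      exact Iff.rfl
    · rintro ⟨q1, q2⟩ h ⟨q1', q2'⟩ h' _
      simp only [mem_setOf_eq] at h h'
      subst h
      subst h'
      exact Iff.rfl) (fun i _ => rfl)
  have hcases : ∀ y, y ∈ E ∨ y ∈ Dr E kd sz x ∨ ∃ i, ∃ d < sz (kd i), y = x i d := by
    intro y
    by_cases h1 : y ∈ E
    · exact Or.inl h1
    by_cases h2 : ∃ i, ∃ d < sz (kd i), y = x i d
    · exact Or.inr (Or.inr h2)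
    · exact Or.inr (Or.inl ⟨h1, fun i d hd h => h2 ⟨i, d, hd, h⟩⟩)
  refine iso_of_total hfree ?_ ?_ ?_
  · intro y
    rcases hcases y with h | h | ⟨i, d, hd, rfl⟩
    · exact ⟨y, Or.inl (Or.inl ⟨h, rfl⟩)⟩
    · obtain ⟨z, hz, h1⟩ := hP2.1 y h
      obtain ⟨w, hw, h2⟩ := hP2'.2 z hz
      exact ⟨w, Or.inl (Or.inr ⟨z, h1, h2⟩)⟩
    · exact ⟨x i d, Or.inr ⟨(i, i), rfl, d, hd, rfl⟩⟩
  · intro y
    rcases hcases y with h | h | ⟨i, d, hd, rfl⟩
    · exact ⟨y, Or.inl (Or.inl ⟨h, rfl⟩)⟩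
    · obtain ⟨z, hz, h1⟩ := hP2'.1 y h
      obtain ⟨w, hw, h2⟩ := hP2.2 z hz
      exact ⟨w, Or.inl (Or.inr ⟨z, h2, h1⟩)⟩
    · exact ⟨x i d, Or.inr ⟨(i, i), rfl, d, hd, rfl⟩⟩
  · rintro ⟨q1, q2⟩ (⟨h1, h2⟩ | ⟨i, h1⟩)
    · simp only at h1 h2
      subst h2
      rcases hcases q1 with h | h | ⟨i, d, hd, rfl⟩
      · exact Or.inl (Or.inl ⟨h, rfl⟩)
      · have h3 : q1 ∈ range f := by
          rw [hf]
          exact ⟨h1, h⟩
        obtain ⟨i, rfl⟩ := h3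
        refine Or.inl (Or.inr ⟨r (Fin.natAdd n i), ?_, ?_⟩)
        · have h4 := hP4 (Fin.natAdd n i)
          rwa [Fin.append_right] at h4
        · have h4 := hP4' (Fin.natAdd n i)
          rwa [Fin.append_right] at h4
      · exact Or.inr ⟨(i, i), rfl, d, hd, rfl⟩
    · rw [Prod.mk.injEq] at h1
      obtain ⟨rfl, rfl⟩ := h1
      refine Or.inl (Or.inr ⟨r (Fin.castAdd l i), ?_, ?_⟩)
      · have h4 := hP4 (Fin.castAdd l i)
        rwa [Fin.append_left] at h4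
      · have h4 := hP4' (Fin.castAdd l i)
        rwa [Fin.append_left] at h4

end Pool.H5.AB
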