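import Pool.Agent.H5.AB.RatChain
import Pool.Agent.H5.AB.StF
import Pool.Agent.H5.HA.Lnb
import Pool.Agent.H22.VN.Cel
import Pool.Agent.H62.VT.Morley

/-!
# The chains of cells have bounded rank
-/

set_option autoImplicit false

namespace Pool.H5.AB

open Set Ordinal Pool.H62.VT Pool.H5.HA Pool.H22.VN

variable {a : ℕ → ℕ} {r : ℕ}

/-! ### The codes -/

/-- the point with the name `T` (a constant, or a label) in the cell `u` -/
def rkVal {s : ℕ} (y : ℕ → Fin s → ℕ) (T : ℕ ⊕ Fin s) (u : ℕ) : ℕ := Sum.elim id (y u) T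

/-- the fixed data of a code: the constants, a tuple of names, the cells in which they are, a symbol -/
abbrev RkIx (a : ℕ → ℕ) (r s : ℕ) : Type :=
  Finset ℕ × (Fin r → ℕ ⊕ Fin s) × (Fin r → Bool) × (Σ n : ℕ, Fin (a n) → Fin r)

/-- the space of the codes with witnesses -/
abbrev RkSp (a : ℕ → ℕ) (s : ℕ) : Type :=
  Str (fun _ => 2) × Str a × (ℕ → Fin s → ℕ) × (ℕ → Bool)

/-- the codes of chains of cells of size `s`, with witnesses -/
def RkCode (a : ℕ → ℕ) (r s : ℕ) (ix : RkIx a r s) : Set (RkSp a s) :=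
  {w | (∀ j b, ix.2.1 j = Sum.inl b → b ∈ ix.1) ∧
    (∀ n u v, n ≠ 0 → w.1 n ![u, v] = false) ∧
    (∀ u, w.1 0 ![u, u] = false) ∧
    (∀ u v, w.1 0 ![u, v] = true → w.2.2.2 u = true ∧ w.2.2.2 v = true) ∧
    (∀ u v c d, w.2.2.2 u = true → w.2.2.2 v = true → w.2.2.1 u c = w.2.2.1 v d → u = v ∧ c = d) ∧
    (∀ u c, w.2.2.2 u = true → w.2.2.1 u c ∉ ix.1) ∧
    (∀ (T : Fin r → ℕ ⊕ Fin s) (u u' : Fin r → ℕ) (n : ℕ) (v : Fin (a n) → Fin r),
      (∀ j b, T j = Sum.inl b → b ∈ ix.1) →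
      (∀ j c, T j = Sum.inr c → w.2.2.2 (u j) = true ∧ w.2.2.2 (u' j) = true) →
      (∀ j j' c c', T j = Sum.inr c → T j' = Sum.inr c' →
        (w.1 0 ![u j, u j'] = w.1 0 ![u' j, u' j'])) →
      w.2.1 n (fun i => rkVal w.2.2.1 (T (v i)) (u (v i))) =
        w.2.1 n (fun i => rkVal w.2.2.1 (T (v i)) (u' (v i)))) ∧
    (∀ u v, w.1 0 ![u, v] = true →
      w.2.1 ix.2.2.2.1 (fun i => rkVal w.2.2.1 (ix.2.1 (ix.2.2.2.2 i))
        (if ix.2.2.1 (ix.2.2.2.2 i) then v else u)) ≠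
      w.2.1 ix.2.2.2.1 (fun i => rkVal w.2.2.1 (ix.2.1 (ix.2.2.2.2 i))
        (if ix.2.2.1 (ix.2.2.2.2 i) then u else v)))}

theorem rkVal_cont {s : ℕ} (T : ℕ ⊕ Fin s) (u : ℕ) :
    Continuous (fun y : ℕ → Fin s → ℕ => rkVal y T u) := by
  unfold rkVal
  cases T with
  | inl b => exact continuous_const
  | inr c =>
    simp only [Sum.elim_inr]
    fun_prop

theorem rkEval_cont (n : ℕ) : Continuous
    (fun q : (Str a) × (Fin (a n) → ℕ) => q.1 n q.2) := by
  rw [continuous_prod_of_discrete_right]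
  intro b
  exact (continuous_apply b).comp (continuous_apply n)

theorem rkAtom_cont {s : ℕ} (n : ℕ) (T : Fin (a n) → ℕ ⊕ Fin s) (u : Fin (a n) → ℕ) :
    Continuous (fun w : RkSp a s => w.2.1 n (fun i => rkVal w.2.2.1 (T i) (u i))) := by
  have h1 := rkEval_cont (a := a) n
  have h2 : Continuous (fun w : RkSp a s =>
      (w.2.1, (fun i => rkVal w.2.2.1 (T i) (u i) : Fin (a n) → ℕ))) := by
    refine Continuous.prodMk (by fun_prop) (continuous_pi fun i => ?_)
    exact (rkVal_cont (T i) (u i)).comp (by fun_prop)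
  exact h1.comp h2

theorem rk_closed {X Y : Type} [TopologicalSpace X] [TopologicalSpace Y] [DiscreteTopology Y]
    (f : X → Y) (hf : Continuous f) (P : Y → Prop) : IsClosed {w | P (f w)} :=
  (isClosed_discrete {y | P y}).preimage hf

theorem rkCode_closed (s : ℕ) (ix : RkIx a r s) : IsClosed (RkCode a r s ix) := by
  have hZ : ∀ n u v, Continuous (fun w : RkSp a s => w.1 n ![u, v]) := fun n u v => by fun_prop
  have hD : ∀ u, Continuous (fun w : RkSp a s => w.2.2.2 u) := fun u => by fun_prop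
  have hy : ∀ u c, Continuous (fun w : RkSp a s => w.2.2.1 u c) := fun u c => by fun_prop
  unfold RkCode
  simp only [setOf_and]
  refine IsClosed.inter isClosed_const (IsClosed.inter ?_ (IsClosed.inter ?_ (IsClosed.inter ?_
    (IsClosed.inter ?_ (IsClosed.inter ?_ (IsClosed.inter ?_ ?_))))))
  · simp only [setOf_forall]
    refine isClosed_iInter fun n => isClosed_iInter fun u => isClosed_iInter fun v =>
      isClosed_iInter fun hn => ?_
    exact rk_closed _ (hZ n u v) (fun b => b = false)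
  · simp only [setOf_forall]
    refine isClosed_iInter fun u => ?_
    exact rk_closed _ (hZ 0 u u) (fun b => b = false)
  · simp only [setOf_forall]
    refine isClosed_iInter fun u => isClosed_iInter fun v => ?_
    exact rk_closed (fun w : RkSp a s => (w.1 0 ![u, v], w.2.2.2 u, w.2.2.2 v))
      ((hZ 0 u v).prodMk ((hD u).prodMk (hD v))) (fun b => b.1 = true → b.2.1 = true ∧ b.2.2 = true)
  · simp only [setOf_forall]
    refine isClosed_iInter fun u => isClosed_iInter fun v => isClosed_iInter fun c =>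
      isClosed_iInter fun d => ?_
    exact rk_closed (fun w : RkSp a s => (w.2.2.2 u, w.2.2.2 v, w.2.2.1 u c, w.2.2.1 v d))
      ((hD u).prodMk ((hD v).prodMk ((hy u c).prodMk (hy v d))))
      (fun b => b.1 = true → b.2.1 = true → b.2.2.1 = b.2.2.2 → u = v ∧ c = d)
  · simp only [setOf_forall]
    refine isClosed_iInter fun u => isClosed_iInter fun c => ?_
    exact rk_closed (fun w : RkSp a s => (w.2.2.2 u, w.2.2.1 u c))
      ((hD u).prodMk (hy u c))
      (fun b => b.1 = true → b.2 ∉ ix.1)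
  · simp only [setOf_forall]
    refine isClosed_iInter fun T => isClosed_iInter fun u => isClosed_iInter fun u' =>
      isClosed_iInter fun n => isClosed_iInter fun v => isClosed_iInter fun hT => ?_
    exact rk_closed (fun w : RkSp a s => ((fun j => (w.2.2.2 (u j), w.2.2.2 (u' j)) : Fin r → Bool × Bool),
        (fun j j' => (w.1 0 ![u j, u j'], w.1 0 ![u' j, u' j']) : Fin r → Fin r → Bool × Bool),
        w.2.1 n (fun i => rkVal w.2.2.1 (T (v i)) (u (v i))),
        w.2.1 n (fun i => rkVal w.2.2.1 (T (v i)) (u' (v i)))))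
      ((continuous_pi fun j => (hD _).prodMk (hD _)).prodMk
        ((continuous_pi fun j => continuous_pi fun j' => (hZ _ _ _).prodMk (hZ _ _ _)).prodMk
          ((rkAtom_cont n (fun i => T (v i)) fun i => u (v i)).prodMk
            (rkAtom_cont n (fun i => T (v i)) fun i => u' (v i)))))
      (fun b => (∀ j c, T j = Sum.inr c → (b.1 j).1 = true ∧ (b.1 j).2 = true) →
        (∀ j j' c c', T j = Sum.inr c → T j' = Sum.inr c' → (b.2.1 j j').1 = (b.2.1 j j').2) →
        b.2.2.1 = b.2.2.2)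
  · simp only [setOf_forall]
    refine isClosed_iInter fun u => isClosed_iInter fun v => ?_
    exact rk_closed (fun w : RkSp a s => (w.1 0 ![u, v],
        w.2.1 ix.2.2.2.1 (fun i => rkVal w.2.2.1 (ix.2.1 (ix.2.2.2.2 i))
          (if ix.2.2.1 (ix.2.2.2.2 i) then v else u)),
        w.2.1 ix.2.2.2.1 (fun i => rkVal w.2.2.1 (ix.2.1 (ix.2.2.2.2 i))
          (if ix.2.2.1 (ix.2.2.2.2 i) then u else v))))
      ((hZ 0 u v).prodMk ((rkAtom_cont ix.2.2.2.1 (fun i => ix.2.1 (ix.2.2.2.2 i))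
        fun i => if ix.2.2.1 (ix.2.2.2.2 i) then v else u).prodMk
          (rkAtom_cont ix.2.2.2.1 (fun i => ix.2.1 (ix.2.2.2.2 i))
        fun i => if ix.2.2.1 (ix.2.2.2.2 i) then u else v)))
      (fun b => b.1 = true → b.2.1 ≠ b.2.2)

/-- the codes of the chains of cells in the members of `K` -/
def RkK (a : ℕ → ℕ) (r : ℕ) (K : Set (Str a)) : Set (Str (fun _ => 2)) :=
  ⋃ s : ℕ, ⋃ ix : RkIx a r s, Prod.fst '' (RkCode a r s ix ∩ {w : RkSp a s | w.2.1 ∈ K})

theorem rkK_analytic (K : Set (Str a)) (hK : MeasureTheory.AnalyticSet K) :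
    MeasureTheory.AnalyticSet (RkK a r K) := by
  have i1 : PolishSpace (Str a) := morley_polish a
  have i2 : PolishSpace (Str (fun _ => 2)) := morley_polish _
  have i3 : PolishSpace (ℕ → Bool) := {}
  refine MeasureTheory.AnalyticSet.iUnion fun s => MeasureTheory.AnalyticSet.iUnion fun ix => ?_
  have i4 : PolishSpace (ℕ → Fin s → ℕ) := inferInstance
  have i5 : PolishSpace ((ℕ → Fin s → ℕ) × (ℕ → Bool)) := {}
  have i6 : PolishSpace (Str a × (ℕ → Fin s → ℕ) × (ℕ → Bool)) := {}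
  have i7 : PolishSpace (RkSp a s) := {}
  refine MeasureTheory.AnalyticSet.image_of_continuous ?_ continuous_fst
  have h1 : MeasureTheory.AnalyticSet (RkCode a r s ix) := (rkCode_closed s ix).analyticSet
  have h2 : MeasureTheory.AnalyticSet {w : RkSp a s | w.2.1 ∈ K} :=
    hK.preimage (f := fun w : RkSp a s => w.2.1) (by fun_prop)
  have h3 : RkCode a r s ix ∩ {w : RkSp a s | w.2.1 ∈ K} =
      ⋂ b : Bool, (if b then RkCode a r s ix else {w : RkSp a s | w.2.1 ∈ K}) := by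
    ext w
    simp only [mem_inter_iff, mem_iInter]
    constructor
    · rintro ⟨h1, h2⟩ b
      cases b
      · exact h2
      · exact h1
    · intro h
      exact ⟨h true, h false⟩
  rw [h3]
  refine MeasureTheory.AnalyticSet.iInter fun b => ?_
  cases b
  · exact h2
  · exact h1

/-- the codes contain no rational chains -/
theorem rkK_norat (K : Set (Str a)) (hW : ∀ M ∈ K, ¬ Pool.H22.VC.Wild (cod r M) univ) :
    ∀ Z ∈ RkK a r K, ∀ (n : ℕ) (f : ℚ → ℕ), ¬ ∀ p q, p ≠ q → (Z n ![f p, f q] = true ↔ p < q) := by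
  intro Z hZ n f hf
  simp only [RkK, mem_iUnion] at hZ
  obtain ⟨s, ⟨A, T0, b0, n0, v0⟩, ⟨Z', M, y, D⟩, ⟨hw, hMK⟩, hZe⟩ := hZ
  have hZe' : Z' = Z := hZe
  subst hZe'
  have hMK' : M ∈ K := hMK
  obtain ⟨h1, h2, h3, h4, h5, h6, h7, h8⟩ := hw
  simp only at h1 h2 h3 h4 h5 h6 h7 h8
  -- the symbol is the first one
  have hn : n = 0 := by
    by_contra hn
    have h := (hf 0 1 (by norm_num)).2 (by norm_num)
    rw [h2 n _ _ hn] at h
    exact absurd h (by simp)
  subst hn
  have hD : ∀ p, D (f p) = true := fun p =>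
    (h4 _ _ ((hf p (p + 1) (by linarith [lt_add_one p] : p ≠ p + 1)).2 (lt_add_one p))).1
  have hinj : ∀ p q, f p = f q → p = q := by
    intro p q hpq
    by_contra hne
    rcases lt_or_gt_of_ne hne with h | h
    · have := (hf p q hne).2 h
      rw [hpq, h3] at this
      exact absurd this (by simp)
    · have := (hf q p (Ne.symm hne)).2 h
      rw [hpq, h3] at this
      exact absurd this (by simp)
  refine no_rat_chain (cod r M) (hW M hMK') A A.finite_toSet s (fun p c => y (f p) c) ?_ ?_ ?_ ?_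
  · intro p q c d h
    obtain ⟨h9, h10⟩ := h5 _ _ _ _ (hD p) (hD q) h
    exact ⟨hinj p q h9, h10⟩
  · intro p c
    exact h6 _ _ (hD p)
  · intro t t' ht1 ht2 ht3
    funext n v
    show M n (fun i => Sum.elim id (fun p : ℚ × Fin s => y (f p.1) p.2) (t (v i))) =
      M n (fun i => Sum.elim id (fun p : ℚ × Fin s => y (f p.1) p.2) (t' (v i)))
    have key := h7 (fun j => Sum.map id Prod.snd (t j)) (fun j => Sum.elim (fun _ => 0) (fun p => f p.1) (t j))
      (fun j => Sum.elim (fun _ => 0) (fun p => f p.1) (t' j)) n v ?_ ?_ ?_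
    · have e1 : ∀ j, rkVal y (Sum.map id Prod.snd (t j)) (Sum.elim (fun _ => 0) (fun p => f p.1) (t j)) =
          Sum.elim id (fun p : ℚ × Fin s => y (f p.1) p.2) (t j) := by
        intro j
        rcases t j with b | ⟨p, c⟩
        · rfl
        · rfl
      have e2 : ∀ j, rkVal y (Sum.map id Prod.snd (t j)) (Sum.elim (fun _ => 0) (fun p => f p.1) (t' j)) =
          Sum.elim id (fun p : ℚ × Fin s => y (f p.1) p.2) (t' j) := by
        intro j
        rcases htj : t j with b | ⟨p, c⟩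
        · rw [(ht1 j b htj).2]
          rfl
        · obtain ⟨p', hp'⟩ := ht2 j p c htj
          rw [hp']
          rfl
      simp only [e1, e2] at key
      exact key
    · intro j b hb
      rcases htj : t j with b' | ⟨p, c⟩
      · rw [htj] at hb
        simp only [Sum.map_inl, id_eq, Sum.inl.injEq] at hb
        subst hb
        exact (ht1 j b' htj).1
      · rw [htj] at hb
        simp at hb
    · intro j c hc
      rcases htj : t j with b' | ⟨p, c'⟩
      · rw [htj] at hc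
        simp at hc
      · obtain ⟨p', hp'⟩ := ht2 j p c' htj
        rw [hp']
        exact ⟨hD _, hD _⟩
    · intro j j' c c' hc hc'
      rcases htj : t j with b' | ⟨p, d⟩
      · rw [htj] at hc
        simp at hc
      rcases htj' : t j' with b' | ⟨p', d'⟩
      · rw [htj'] at hc'
        simp at hc'
      obtain ⟨k, hk⟩ := ht2 j p d htj
      obtain ⟨k', hk'⟩ := ht2 j' p' d' htj'
      rw [hk, hk']
      have a1 := ht3 j j' p d p' d' k d k' d' htj htj' hk hk'
      have a2 := ht3 j' j p' d' p d k' d' k d htj' htj hk' hk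
      show Z' 0 ![f p, f p'] = Z' 0 ![f k, f k']
      by_cases hpp : p = p'
      · subst hpp
        have hkk : k = k' := by
          rcases lt_trichotomy k k' with h | h | h
          · exact absurd (a1.2 h) (lt_irrefl _)
          · exact h
          · exact absurd (a2.2 h) (lt_irrefl _)
        subst hkk
        rw [h3, h3]
      · have hkk : k ≠ k' := by
          rintro rfl
          rcases lt_or_gt_of_ne hpp with h | h
          · exact absurd (a1.1 h) (lt_irrefl _)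
          · exact absurd (a2.1 h) (lt_irrefl _)
        have b1 := hf p p' hpp
        have b2 := hf k k' hkk
        rw [Bool.eq_iff_iff, b1, b2]
        exact a1
  · refine ⟨fun j => Sum.map id (fun c => (b0 j, c)) (T0 j), ?_, ?_⟩
    · intro j b hb
      beta_reduce at hb
      rcases htj : T0 j with b' | c
      · rw [htj] at hb
        simp only [Sum.map_inl, id_eq, Sum.inl.injEq] at hb
        subst hb
        exact h1 j b' htj
      · rw [htj] at hb
        simp at hb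
    · intro h
      have h9 := h8 (f 0) (f 1) ((hf 0 1 (by norm_num)).2 (by norm_num))
      apply h9
      have h10 := congrFun (congrFun h n0) v0
      have e1 : ∀ j, Sum.elim id (fun p : Bool × Fin s => y (f (if p.1 then 1 else 0)) p.2)
          (Sum.map id (fun c => (b0 j, c)) (T0 j)) = rkVal y (T0 j) (if b0 j then f 1 else f 0) := by
        intro j
        rcases T0 j with b' | c
        · rfl
        · show y (f (if b0 j = true then 1 else 0)) c = y (if b0 j = true then f 1 else f 0) c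
          split_ifs <;> rfl
      have e2 : ∀ j, Sum.elim id (fun p : Bool × Fin s => y (f (if p.1 then 0 else 1)) p.2)
          (Sum.map id (fun c => (b0 j, c)) (T0 j)) = rkVal y (T0 j) (if b0 j then f 0 else f 1) := by
        intro j
        rcases T0 j with b' | c
        · rfl
        · show y (f (if b0 j = true then 0 else 1)) c = y (if b0 j = true then f 0 else f 1) c
          split_ifs <;> rfl
      simp only [cod, e1, e2] at h10
      exact h10

/-! ### Large rank gives many cells around a large interval -/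

section rank

variable {L : Type} [LinearOrder L]

theorem rk_up (e0 : L) (γ : Ordinal.{0}) (n : ℕ) : ∀ X : Set L, Rk (γ + n) X →
    ∃ e : ℕ → L, StrictMonoOn e (Iio n) ∧ (∀ i < n, e i ∈ X) ∧
      Rk γ (X ∩ {z | ∀ i < n, e i < z}) := by
  induction n with
  | zero =>
    intro X h
    refine ⟨fun _ => e0, fun i hi => absurd hi (Nat.not_lt_zero i), fun i hi =>
      absurd hi (Nat.not_lt_zero i), ?_⟩
    rw [Nat.cast_zero, add_zero] at h
    exact h.mono fun z hz => ⟨hz, fun i hi => absurd hi (Nat.not_lt_zero i)⟩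
  | succ n ih =>
    intro X h
    rw [Nat.cast_succ, ← add_assoc, Rk_iff] at h
    obtain ⟨x, hx, -, h1⟩ := h (γ + n) (by simp)
    obtain ⟨e, he, heX, h2⟩ := ih _ h1
    refine ⟨fun i => if i = 0 then x else e (i - 1), ?_, ?_, ?_⟩
    · intro i hi j hj hij
      simp only [mem_Iio] at hi hj
      have hj0 : j ≠ 0 := by omega
      show (if i = 0 then x else e (i - 1)) < (if j = 0 then x else e (j - 1))
      rw [if_neg hj0]
      by_cases hi0 : i = 0
      · rw [if_pos hi0]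
        exact (heX (j - 1) (by omega)).2
      · rw [if_neg hi0]
        exact he (show i - 1 < n by omega) (show j - 1 < n by omega) (by omega)
    · intro i hi
      show (if i = 0 then x else e (i - 1)) ∈ X
      by_cases hi0 : i = 0
      · rw [if_pos hi0]
        exact hx
      · rw [if_neg hi0]
        exact (heX (i - 1) (by omega)).1
    · refine h2.mono ?_
      rintro z ⟨⟨hz, hz1⟩, hz2⟩
      refine ⟨hz, fun i hi => ?_⟩
      show (if i = 0 then x else e (i - 1)) < z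
      by_cases hi0 : i = 0
      · rw [if_pos hi0]
        exact hz1
      · rw [if_neg hi0]
        exact hz2 (i - 1) (by omega)

theorem rk_down (e0 : L) (γ : Ordinal.{0}) (n : ℕ) : ∀ X : Set L, Rk (γ + n) X →
    ∃ e : ℕ → L, StrictMonoOn e (Iio n) ∧ (∀ i < n, e i ∈ X) ∧
      Rk γ (X ∩ {z | ∀ i < n, z < e i}) := by
  induction n with
  | zero =>
    intro X h
    refine ⟨fun _ => e0, fun i hi => absurd hi (Nat.not_lt_zero i), fun i hi =>
      absurd hi (Nat.not_lt_zero i), ?_⟩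
    rw [Nat.cast_zero, add_zero] at h
    exact h.mono fun z hz => ⟨hz, fun i hi => absurd hi (Nat.not_lt_zero i)⟩
  | succ n ih =>
    intro X h
    rw [Nat.cast_succ, ← add_assoc, Rk_iff] at h
    obtain ⟨x, hx, h1, -⟩ := h (γ + n) (by simp)
    obtain ⟨e, he, heX, h2⟩ := ih _ h1
    refine ⟨fun i => if i = n then x else e i, ?_, ?_, ?_⟩
    · intro i hi j hj hij
      simp only [mem_Iio] at hi hj
      have hi0 : i ≠ n := by omega
      show (if i = n then x else e i) < (if j = n then x else e j)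
      rw [if_neg hi0]
      by_cases hj0 : j = n
      · rw [if_pos hj0]
        exact (heX i (by omega)).2
      · rw [if_neg hj0]
        exact he (show i < n by omega) (show j < n by omega) hij
    · intro i hi
      show (if i = n then x else e i) ∈ X
      by_cases hi0 : i = n
      · rw [if_pos hi0]
        exact hx
      · rw [if_neg hi0]
        exact (heX i (by omega)).1
    · refine h2.mono ?_
      rintro z ⟨⟨hz, hz1⟩, hz2⟩
      refine ⟨hz, fun i hi => ?_⟩
      show z < (if i = n then x else e i)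
      by_cases hi0 : i = n
      · rw [if_pos hi0]
        exact hz1
      · rw [if_neg hi0]
        exact hz2 i (by omega)

end rank

/-! ### The code of a chain of cells -/

section code

variable {I : Type} {M : Str a} {E E' : Set ℕ} {m c : ℕ} [LinearOrder I]
  {kd : I → ℕ} {sz : ℕ → ℕ} {x : I → ℕ → ℕ} {Rn : Finset I} {k : ℕ}

/-- a point which is not in the cells of kind `k` between `p` and `q` -/
def RkOut (kd : I → ℕ) (sz : ℕ → ℕ) (x : I → ℕ → ℕ) (k : ℕ) (p q : Lk kd k) (b : ℕ) : Prop :=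
  b ∈ Rs kd sz x k ∨ ∃ i : Lk kd k, (i < p ∨ q < i) ∧ ∃ d < sz k, b = x i.1 d

/-- the point with the name `T` in the cell `i` -/
def rkV (kd : I → ℕ) (sz : ℕ → ℕ) (x : I → ℕ → ℕ) (k : ℕ) (T : ℕ ⊕ Fin (sz k)) (i : Lk kd k) : ℕ :=
  Sum.elim id (fun d => x i.1 d) T

theorem rk_pat (hF : FF M Rn E E' m c kd sz x) {p q : Lk kd k} (T : Fin r → ℕ ⊕ Fin (sz k))
    (u u' : Fin r → Lk kd k) (hT : ∀ j b, T j = Sum.inl b → RkOut kd sz x k p q b)
    (hu : ∀ j c, T j = Sum.inr c → p ≤ u j ∧ u j ≤ q ∧ p ≤ u' j ∧ u' j ≤ q)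
    (hp : ∀ j j' c c', T j = Sum.inr c → T j' = Sum.inr c' → (u j < u j' ↔ u' j < u' j'))
    (n : ℕ) (v : Fin (a n) → Fin r) :
    M n (fun i => rkV kd sz x k (T (v i)) (u (v i))) =
      M n (fun i => rkV kd sz x k (T (v i)) (u' (v i))) := by
  have hPI := (gs_kind hF k).ord ({g | ∃ j c, T j = Sum.inr c ∧ g = (u j, u' j)} ∪
    {g | g.1 = g.2 ∧ (g.1 < p ∨ q < g.1)}) (by
      rintro ⟨g1, g2⟩ (⟨j, c, hj, hg⟩ | ⟨hg, hg'⟩) ⟨h1, h2⟩ (⟨j', c', hj', hh⟩ | ⟨hh, hh'⟩)
      · rw [Prod.mk.injEq] at hg hh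
        obtain ⟨rfl, rfl⟩ := hg
        obtain ⟨rfl, rfl⟩ := hh
        exact hp j j' c c' hj hj'
      · rw [Prod.mk.injEq] at hg
        obtain ⟨rfl, rfl⟩ := hg
        simp only at hh hh'
        subst hh
        obtain ⟨k1, k2, k3, k4⟩ := hu j c hj
        rcases hh' with hh' | hh'
        · exact ⟨fun h => absurd (k1.trans_lt (h.trans hh')) (lt_irrefl _),
            fun h => absurd (k3.trans_lt (h.trans hh')) (lt_irrefl _)⟩
        · exact ⟨fun _ => k4.trans_lt hh', fun _ => k2.trans_lt hh'⟩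
      · rw [Prod.mk.injEq] at hh
        obtain ⟨rfl, rfl⟩ := hh
        simp only at hg hg'
        subst hg
        obtain ⟨k1, k2, k3, k4⟩ := hu j' c' hj'
        rcases hg' with hg' | hg'
        · exact ⟨fun _ => hg'.trans_le k3, fun _ => hg'.trans_le k1⟩
        · exact ⟨fun h => absurd (hg'.trans (h.trans_le k2)) (lt_irrefl _),
            fun h => absurd (hg'.trans (h.trans_le k4)) (lt_irrefl _)⟩
      · simp only at hg hh
        subst hg
        subst hh
        exact Iff.rfl)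
  refine hPI.1 n (fun i => (rkV kd sz x k (T (v i)) (u (v i)), rkV kd sz x k (T (v i)) (u' (v i))))
    fun i => ?_
  rcases hTi : T (v i) with b | d
  · show (b, b) ∈ _
    rcases hT _ b hTi with hb | ⟨i', hi', d, hd, rfl⟩
    · exact Or.inl ⟨hb, rfl⟩
    · exact Or.inr ⟨(i', i'), Or.inr ⟨rfl, hi'⟩, d, hd, rfl⟩
  · exact Or.inr ⟨(u (v i), u' (v i)), Or.inl ⟨v i, d, hTi, rfl⟩, d, d.2, rfl⟩

open Classical in
/-- the points of the cell with the code `u` -/
noncomputable def rkY (kd : I → ℕ) (sz : ℕ → ℕ) (x : I → ℕ → ℕ) (k : ℕ) : ℕ → Fin (sz k) → ℕ :=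
  fun u d => if h : ∃ i : Lk kd k, x i.1 0 = u then x h.choose.1 d else 0

open Classical in
/-- the codes of the cells between `p` and `q` -/
noncomputable def rkD (kd : I → ℕ) (x : I → ℕ → ℕ) (k : ℕ) (p q : Lk kd k) : ℕ → Bool :=
  fun u => decide (∃ i : Lk kd k, p ≤ i ∧ i ≤ q ∧ x i.1 0 = u)

open Classical in
/-- the code of the chain of the cells between `p` and `q` -/
noncomputable def rkZ (kd : I → ℕ) (x : I → ℕ → ℕ) (k : ℕ) (p q : Lk kd k) : Str (fun _ => 2) :=
  fun n t => decide (n = 0 ∧ ∃ i j : Lk kd k, p ≤ i ∧ i < j ∧ j ≤ q ∧ t 0 = x i.1 0 ∧ t 1 = x j.1 0)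

theorem rk_cinj (hF : FF M Rn E E' m c kd sz x) {i j : Lk kd k} {d d' : ℕ} (hd : d < sz k)
    (hd' : d' < sz k) (h : x i.1 d = x j.1 d') : i = j ∧ d = d' := by
  have := hF.inj i.1 j.1 d d' (by rw [i.2]; exact hd) (by rw [j.2]; exact hd') h
    (Or.inl (i.2.trans j.2.symm))
  exact ⟨Subtype.ext this.1, this.2⟩

theorem rkY_eq (hF : FF M Rn E E' m c kd sz x) (i : Lk kd k) (d : Fin (sz k)) :
    rkY kd sz x k (x i.1 0) d = x i.1 d := by
  have h : ∃ i' : Lk kd k, x i'.1 0 = x i.1 0 := ⟨i, rfl⟩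
  unfold rkY
  rw [dif_pos h, (rk_cinj hF (hF.pos k) (hF.pos k) h.choose_spec).1]

theorem rkVal_eq (hF : FF M Rn E E' m c kd sz x) (T : ℕ ⊕ Fin (sz k)) (i : Lk kd k) :
    rkVal (rkY kd sz x k) T (x i.1 0) = rkV kd sz x k T i := by
  rcases T with b | d
  · rfl
  · exact rkY_eq hF i d

theorem rkD_iff {p q : Lk kd k} {u : ℕ} :
    rkD kd x k p q u = true ↔ ∃ i : Lk kd k, p ≤ i ∧ i ≤ q ∧ x i.1 0 = u := by
  classical
  unfold rkD
  exact decide_eq_true_iff

theorem rkZ_iff {p q : Lk kd k} {n : ℕ} {u v : ℕ} : rkZ kd x k p q n ![u, v] = true ↔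
    n = 0 ∧ ∃ i j : Lk kd k, p ≤ i ∧ i < j ∧ j ≤ q ∧ u = x i.1 0 ∧ v = x j.1 0 := by
  classical
  unfold rkZ
  exact decide_eq_true_iff

theorem rkZ_lt (hF : FF M Rn E E' m c kd sz x) {p q i j : Lk kd k} (hi : p ≤ i ∧ i ≤ q)
    (hj : p ≤ j ∧ j ≤ q) : rkZ kd x k p q 0 ![x i.1 0, x j.1 0] = true ↔ i < j := by
  rw [rkZ_iff]
  constructor
  · rintro ⟨-, i', j', -, h, -, h1, h2⟩
    rw [(rk_cinj hF (hF.pos k) (hF.pos k) h1).1, (rk_cinj hF (hF.pos k) (hF.pos k) h2).1]
    exact h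
  · intro h
    exact ⟨rfl, i, j, hi.1, h, hj.2, rfl, rfl⟩

theorem rk_code (hF : FF M Rn E E' m c kd sz x) {p q : Lk kd k} (hpq : p < q)
    (A : Finset ℕ) (T0 : Fin r → ℕ ⊕ Fin (sz k)) (bb : Fin r → Bool) (n0 : ℕ)
    (v0 : Fin (a n0) → Fin r) (hA : ∀ b ∈ A, RkOut kd sz x k p q b)
    (hT0 : ∀ j b, T0 j = Sum.inl b → b ∈ A)
    (hvis : M n0 (fun i => rkV kd sz x k (T0 (v0 i)) (if bb (v0 i) then q else p)) ≠
      M n0 (fun i => rkV kd sz x k (T0 (v0 i)) (if bb (v0 i) then p else q))) :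
    (rkZ kd x k p q, M, rkY kd sz x k, rkD kd x k p q) ∈
      RkCode a r (sz k) (A, T0, bb, ⟨n0, v0⟩) := by
  classical
  refine ⟨hT0, ?_, ?_, ?_, ?_, ?_, ?_, ?_⟩
  · intro n u v hn
    rw [Bool.eq_false_iff]
    intro h
    exact hn (rkZ_iff.1 h).1
  · intro u
    rw [Bool.eq_false_iff]
    intro h
    obtain ⟨-, i, j, -, h1, -, h2, h3⟩ := rkZ_iff.1 h
    exact absurd (rk_cinj hF (hF.pos k) (hF.pos k) (h2.symm.trans h3)).1 h1.ne
  · intro u v h
    obtain ⟨-, i, j, h0, h1, h2, h3, h4⟩ := rkZ_iff.1 h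
    exact ⟨rkD_iff.2 ⟨i, h0, (h1.trans_le h2).le, h3.symm⟩,
      rkD_iff.2 ⟨j, (h0.trans_lt h1).le, h2, h4.symm⟩⟩
  · intro u v d d' hu hv h
    obtain ⟨i, -, -, rfl⟩ := rkD_iff.1 hu
    obtain ⟨j, -, -, rfl⟩ := rkD_iff.1 hv
    simp only [rkY_eq hF] at h
    obtain ⟨h1, h2⟩ := rk_cinj hF d.2 d'.2 h
    exact ⟨by rw [h1], Fin.ext h2⟩
  · intro u d hu hmem
    obtain ⟨i, hi1, hi2, rfl⟩ := rkD_iff.1 hu
    simp only [rkY_eq hF] at hmem
    rcases hA _ hmem with h | ⟨i', hi', d', hd', h⟩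
    · exact h i.1 i.2 d d.2 rfl
    · obtain ⟨rfl, -⟩ := rk_cinj hF d.2 hd' h
      rcases hi' with h1 | h1
      · exact absurd (hi1.trans_lt h1) (lt_irrefl _)
      · exact absurd (h1.trans_le hi2) (lt_irrefl _)
  · intro T u u' n v hT hu hZ
    have hex : ∀ w : ℕ, ∃ i : Lk kd k, rkD kd x k p q w = true → p ≤ i ∧ i ≤ q ∧ x i.1 0 = w := by
      intro w
      by_cases h : rkD kd x k p q w = true
      · obtain ⟨i, hi⟩ := rkD_iff.1 h
        exact ⟨i, fun _ => hi⟩
      · exact ⟨p, fun h' => absurd h' h⟩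
    choose ci hci using hex
    have key := rk_pat hF (p := p) (q := q) T (fun j => ci (u j)) (fun j => ci (u' j))
      (fun j b hb => hA b (hT j b hb)) (fun j c hc => by
        obtain ⟨h1, h2⟩ := hu j c hc
        obtain ⟨k1, k2, -⟩ := hci _ h1
        obtain ⟨k3, k4, -⟩ := hci _ h2
        exact ⟨k1, k2, k3, k4⟩) (fun j j' c c' hj hj' => by
        obtain ⟨h1, h2⟩ := hu j c hj
        obtain ⟨h1', h2'⟩ := hu j' c' hj'
        obtain ⟨k1, k2, k3⟩ := hci _ h1
        obtain ⟨k4, k5, k6⟩ := hci _ h2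
        obtain ⟨l1, l2, l3⟩ := hci _ h1'
        obtain ⟨l4, l5, l6⟩ := hci _ h2'
        have e := hZ j j' c c' hj hj'
        simp only at e
        rw [← k3, ← k6, ← l3, ← l6] at e
        show ci (u j) < ci (u j') ↔ ci (u' j) < ci (u' j')
        rw [← rkZ_lt hF ⟨k1, k2⟩ ⟨l1, l2⟩, ← rkZ_lt hF ⟨k4, k5⟩ ⟨l4, l5⟩, ← Bool.eq_iff_iff]
        exact e) n v
    have e1 : ∀ j, rkVal (rkY kd sz x k) (T j) (u j) = rkV kd sz x k (T j) (ci (u j)) := by
      intro j
      rcases hTj : T j with b | d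
      · rfl
      · have h1 := (hci _ (hu j d hTj).1).2.2
        conv_lhs => rw [← h1]
        exact rkVal_eq hF _ _
    have e2 : ∀ j, rkVal (rkY kd sz x k) (T j) (u' j) = rkV kd sz x k (T j) (ci (u' j)) := by
      intro j
      rcases hTj : T j with b | d
      · rfl
      · have h1 := (hci _ (hu j d hTj).2).2.2
        conv_lhs => rw [← h1]
        exact rkVal_eq hF _ _
    simp only [e1, e2]
    exact key
  · intro u v h
    obtain ⟨-, i, j, h0, h1, h2, rfl, rfl⟩ := rkZ_iff.1 h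
    have hiq : i ≤ q := (h1.trans_le h2).le
    have hpj : p ≤ j := (h0.trans_lt h1).le
    have e1 : ∀ l, rkVal (rkY kd sz x k) (T0 (v0 l)) (if bb (v0 l) then x j.1 0 else x i.1 0) =
        rkV kd sz x k (T0 (v0 l)) (if bb (v0 l) then j else i) := by
      intro l
      split_ifs <;> exact rkVal_eq hF _ _
    have e2 : ∀ l, rkVal (rkY kd sz x k) (T0 (v0 l)) (if bb (v0 l) then x i.1 0 else x j.1 0) =
        rkV kd sz x k (T0 (v0 l)) (if bb (v0 l) then i else j) := by
      intro l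
      split_ifs <;> exact rkVal_eq hF _ _
    have k1 := rk_pat hF (p := p) (q := q) T0 (fun l => if bb l then j else i)
      (fun l => if bb l then q else p) (fun j b hb => hA b (hT0 j b hb)) (by
        intro l c _
        cases bb l <;> simp [h0, hiq, hpj, h2, hpq.le]) (by
        intro l l' c c' _ _
        cases bb l <;> cases bb l' <;> simp [h1, hpq, h1.not_gt, hpq.not_gt]) n0 v0
    have k2 := rk_pat hF (p := p) (q := q) T0 (fun l => if bb l then i else j)
      (fun l => if bb l then p else q) (fun j b hb => hA b (hT0 j b hb)) (by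
        intro l c _
        cases bb l <;> simp [h0, hiq, hpj, h2, hpq.le]) (by
        intro l l' c c' _ _
        cases bb l <;> cases bb l' <;> simp [h1, hpq, h1.not_gt, hpq.not_gt]) n0 v0
    simp only at k1 k2 ⊢
    simp only [e1, e2]
    rw [k1, k2]
    exact hvis

end code

section final

open Pool.H62.VS Pool.H17.HS Pool.H63.PC

variable {I : Type} {M : Str a} {E E' : Set ℕ} {m c : ℕ} [LinearOrder I]
  {kd : I → ℕ} {sz : ℕ → ℕ} {x : I → ℕ → ℕ} {Rn : Finset I} {k : ℕ}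

/-- the type of the chain -/
def rkT : ℕ → Bool × Bool := fun n => if n = 0 then (true, false) else (false, false)

theorem rkT_ne (Z : Str e2) : rkT ≠ (bs Z).st rkT := by
  intro h
  have := congrFun h 0
  simp [rkT, bs] at this

theorem rk_ot (hF : FF M Rn E E' m c kd sz x) {p q i j : Lk kd k} (hi : p ≤ i ∧ i ≤ q)
    (hj : p ≤ j ∧ j ≤ q) (hij : i < j) : Ot (rkZ kd x k p q) rkT (x i.1 0) (x j.1 0) := by
  refine ⟨fun h => absurd (rk_cinj hF (hF.pos k) (hF.pos k) h).1 hij.ne, ?_⟩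
  funext n
  show (rkZ kd x k p q n ![x i.1 0, x j.1 0], rkZ kd x k p q n ![x j.1 0, x i.1 0]) = rkT n
  unfold rkT
  split_ifs with hn
  · subst hn
    have h1 := (rkZ_lt hF hi hj).2 hij
    have h2 : rkZ kd x k p q 0 ![x j.1 0, x i.1 0] = false := by
      rw [Bool.eq_false_iff]
      intro h
      exact absurd ((rkZ_lt hF hj hi).1 h) hij.not_gt
    rw [h1, h2]
  · have h3 : ∀ u v, rkZ kd x k p q n ![u, v] = false := by
      intro u v
      rw [Bool.eq_false_iff]
      intro h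
      exact hn (rkZ_iff.1 h).1
    rw [h3, h3]

theorem rk_gp (hF : FF M Rn E E' m c kd sz x) {p q : Lk kd k} (α : Ordinal.{0}) :
    ∀ i j : Lk kd k, p ≤ i → j ≤ q → Rk α (Ioi i ∩ Iio j) →
      Gp (Ot (rkZ kd x k p q) rkT) {u | rkD kd x k p q u = true} α (x i.1 0) (x j.1 0) := by
  induction α using WellFoundedLT.induction with
  | ind α ih =>
    intro i j hi hj h
    rw [Rk_iff] at h
    rw [Gp_iff]
    intro β hβ
    obtain ⟨z, ⟨hz1, hz2⟩, h1, h2⟩ := h β hβ
    have hz1' : i < z := hz1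
    have hz2' : z < j := hz2
    have hpz : p ≤ z := hi.trans hz1'.le
    have hzq : z ≤ q := hz2'.le.trans hj
    refine ⟨x z.1 0, rkD_iff.2 ⟨z, hpz, hzq, rfl⟩, rk_ot hF ⟨hi, hz1'.le.trans hzq⟩ ⟨hpz, hzq⟩ hz1',
      rk_ot hF ⟨hpz, hzq⟩ ⟨hpz.trans hz2'.le, hj⟩ hz2', ih β hβ i z hi hzq (h1.mono ?_),
      ih β hβ z j hpz hj (h2.mono ?_)⟩
    · rintro w ⟨⟨h3, h4⟩, h5⟩
      exact ⟨h3, h5⟩
    · rintro w ⟨⟨h3, h4⟩, h5⟩
      exact ⟨h5, h4⟩

theorem rk_ch (hF : FF M Rn E E' m c kd sz x) {p q : Lk kd k} :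
    Ch (bs (rkZ kd x k p q)) rkT {u | rkD kd x k p q u = true} := by
  have hot : ∀ i j : Lk kd k, (p ≤ i ∧ i ≤ q) → (p ≤ j ∧ j ≤ q) →
      (bs (rkZ kd x k p q)).c (x i.1 0) (x j.1 0) = rkT → i < j := by
    intro i j hi hj h
    have h1 := congrArg Prod.fst (congrFun h 0)
    exact (rkZ_lt hF hi hj).1 h1
  constructor
  · rintro u hu v hv huv
    obtain ⟨i, hi1, hi2, rfl⟩ := rkD_iff.1 hu
    obtain ⟨j, hj1, hj2, rfl⟩ := rkD_iff.1 hv
    rcases lt_trichotomy i j with h | h | h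
    · exact Or.inl (rk_ot hF ⟨hi1, hi2⟩ ⟨hj1, hj2⟩ h).2
    · exact absurd (by rw [h]) huv
    · right
      have h1 := (rk_ot hF ⟨hj1, hj2⟩ ⟨hi1, hi2⟩ h).2
      rw [(bs (rkZ kd x k p q)).sw (x j.1 0) (x i.1 0), h1]
  · rintro u hu v hv w hw - - - h1 h2
    obtain ⟨i, hi1, hi2, rfl⟩ := rkD_iff.1 hu
    obtain ⟨j, hj1, hj2, rfl⟩ := rkD_iff.1 hv
    obtain ⟨l, hl1, hl2, rfl⟩ := rkD_iff.1 hw
    have h3 := hot i j ⟨hi1, hi2⟩ ⟨hj1, hj2⟩ h1
    have h4 := hot j l ⟨hj1, hj2⟩ ⟨hl1, hl2⟩ h2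
    exact (rk_ot hF ⟨hi1, hi2⟩ ⟨hl1, hl2⟩ (h3.trans h4)).2

/-- the constants and the visible pair -/
theorem rk_vis (har : ∀ n, a n ≤ r) (hF : FF M Rn E E' m c kd sz x) {a0 b0 : ℕ}
    {ee : ℕ → Lk kd k} (hee : StrictMonoOn ee (Iio (a0 + b0 + 2)))
    (hsw : ¬ GQ (Q1 (QL M (Rs kd sz x k) kd sz x k)) (a0 + b0 + 2) (sw a0)) :
    ∃ (A : Finset ℕ) (T0 : Fin r → ℕ ⊕ Fin (sz k)) (bb : Fin r → Bool) (n0 : ℕ)
      (v0 : Fin (a n0) → Fin r), (∀ b ∈ A, RkOut kd sz x k (ee a0) (ee (a0 + 1)) b) ∧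
      (∀ j b, T0 j = Sum.inl b → b ∈ A) ∧
      (M n0 (fun i => rkV kd sz x k (T0 (v0 i)) (if bb (v0 i) then ee (a0 + 1) else ee a0)) ≠
      M n0 (fun i => rkV kd sz x k (T0 (v0 i)) (if bb (v0 i) then ee a0 else ee (a0 + 1)))) := by
  classical
  have hls := ls_kind hF k (subset_refl (Rs kd sz x k))
  have hswn : ∀ i < a0 + b0 + 2, sw a0 i < a0 + b0 + 2 := by
    intro i hi
    unfold sw
    split_ifs <;> omega
  have hswi : ∀ i j, sw a0 i = sw a0 j → i = j := by
    intro i j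
    unfold sw
    split_ifs <;> omega
  have h1 : ¬ Q1 (QL M (Rs kd sz x k) kd sz x k) (Gr (a0 + b0 + 2) ee (fun i => ee (sw a0 i))) := by
    intro hQ
    exact hsw (gq_of (gs_q1 hls) hee (fun i hi j hj => hee.lt_iff_lt (hswn i hi) (hswn j hj)) hswn hQ)
  unfold Q1 QL at h1
  set P0 : Pos := idOn (Rs kd sz x k) ∪ {q | ∃ g ∈ {q : Lk kd k × Lk kd k × Equiv.Perm (Fin (sz k)) |
    (q.1, q.2.1) ∈ Gr (a0 + b0 + 2) ee (fun i => ee (sw a0 i)) ∧ q.2.2 = 1},
      q ∈ mvL x g.1.1 g.2.1.1 g.2.2} with hP0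
  -- the points of the position
  have hmem : ∀ t ∈ P0, (t.1 = t.2 ∧ t.1 ∈ Rs kd sz x k) ∨
      ∃ i < a0 + b0 + 2, ∃ d : Fin (sz k), t = (x (ee i).1 d, x (ee (sw a0 i)).1 d) := by
    rintro t (⟨h2, h3⟩ | ⟨⟨g1, g2, g3⟩, ⟨⟨i, hi, h2⟩, h3⟩, d, hd⟩)
    · exact Or.inl ⟨h3, h2⟩
    · right
      simp only [Prod.mk.injEq] at h2 h3
      obtain ⟨rfl, rfl⟩ := h2
      subst h3
      exact ⟨i, hi, d, hd⟩
  have hne : ∀ i < a0 + b0 + 2, ∀ j < a0 + b0 + 2, ∀ d d' : Fin (sz k),
      x (ee i).1 d = x (ee j).1 d' ↔ i = j ∧ d = d' := by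
    intro i hi j hj d d'
    constructor
    · intro h
      obtain ⟨h2, h3⟩ := rk_cinj hF d.2 d'.2 h
      exact ⟨hee.injOn hi hj h2, Fin.ext h3⟩
    · rintro ⟨rfl, rfl⟩
      rfl
  have hrs : ∀ y ∈ Rs kd sz x k, ∀ (i : ℕ) (d : Fin (sz k)), y ≠ x (ee i).1 d :=
    fun y hy i d => hy (ee i).1 (ee i).2 d d.2
  have h2 : ∀ q ∈ P0, ∀ q' ∈ P0, (q.1 = q'.1 ↔ q.2 = q'.2) := by
    intro q hq q' hq'
    rcases hmem q hq with ⟨k1, k2⟩ | ⟨i, hi, d, rfl⟩ <;>
      rcases hmem q' hq' with ⟨k1', k2'⟩ | ⟨i', hi', d', rfl⟩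
    · rw [k1, k1']
    · constructor
      · intro h
        exact absurd h (hrs _ k2 _ _)
      · intro h
        rw [← k1] at h
        exact absurd h (hrs _ k2 _ _)
    · constructor
      · intro h
        exact absurd h.symm (hrs _ k2' _ _)
      · intro h
        rw [← k1'] at h
        exact absurd h.symm (hrs _ k2' _ _)
    · show x (ee i).1 d = x (ee i').1 d' ↔ x (ee (sw a0 i)).1 d = x (ee (sw a0 i')).1 d'
      rw [hne i hi i' hi', hne _ (hswn i hi) _ (hswn i' hi')]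
      constructor
      · rintro ⟨rfl, rfl⟩
        exact ⟨rfl, rfl⟩
      · rintro ⟨h3, rfl⟩
        exact ⟨hswi _ _ h3, rfl⟩
  have h3 : ∃ t : Fin r → ℕ × ℕ, (∀ i, t i ∈ P0) ∧
      cod r M (fun i => (t i).1) ≠ cod r M (fun i => (t i).2) := by
    by_contra hcon
    push Not at hcon
    exact h1 (PI_of_cod har hcon h2)
  obtain ⟨t, ht, hne2⟩ := h3
  obtain ⟨n0, hn0⟩ := Function.ne_iff.1 hne2
  obtain ⟨v0, hv0⟩ := Function.ne_iff.1 hn0
  have hcl : ∀ j, ∃ (T : ℕ ⊕ Fin (sz k)) (b1 : Bool),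
      (∀ b, T = Sum.inl b → RkOut kd sz x k (ee a0) (ee (a0 + 1)) b) ∧
      (t j).1 = rkV kd sz x k T (if b1 then ee (a0 + 1) else ee a0) ∧
      (t j).2 = rkV kd sz x k T (if b1 then ee a0 else ee (a0 + 1)) := by
    intro j
    rcases hmem _ (ht j) with ⟨k1, k2⟩ | ⟨i, hi, d, hd⟩
    · refine ⟨Sum.inl (t j).1, true, ?_, rfl, k1.symm⟩
      intro b hb
      rw [Sum.inl.injEq] at hb
      rw [← hb]
      exact Or.inl k2
    · rw [hd]
      by_cases hia : i = a0
      · subst hia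
        refine ⟨Sum.inr d, false, fun b hb => absurd hb (by simp), rfl, ?_⟩
        show x (ee (sw i i)).1 d = x (ee (i + 1)).1 d
        rw [show sw i i = i + 1 by simp [sw]]
      · by_cases hib : i = a0 + 1
        · subst hib
          refine ⟨Sum.inr d, true, fun b hb => absurd hb (by simp), rfl, ?_⟩
          show x (ee (sw a0 (a0 + 1))).1 d = x (ee a0).1 d
          rw [show sw a0 (a0 + 1) = a0 by simp [sw]]
        · have hs : sw a0 i = i := by simp [sw, hia, hib]
          refine ⟨Sum.inl (x (ee i).1 d), true, ?_, rfl, ?_⟩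
          · intro b hb
            rw [Sum.inl.injEq] at hb
            rw [← hb]
            refine Or.inr ⟨ee i, ?_, d, d.2, rfl⟩
            rcases lt_or_gt_of_ne hia with h4 | h4
            · exact Or.inl (hee hi (show a0 < a0 + b0 + 2 by omega) h4)
            · exact Or.inr (hee (show a0 + 1 < a0 + b0 + 2 by omega) hi (by omega))
          · show x (ee (sw a0 i)).1 d = x (ee i).1 d
            rw [hs]
  choose T0 bb hT0 hT1 hT2 using hcl
  have hfin : {b : ℕ | ∃ j, T0 j = Sum.inl b}.Finite := by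
    refine (Set.finite_range fun j => Sum.elim id (fun _ => 0) (T0 j)).subset ?_
    rintro b ⟨j, hj⟩
    exact ⟨j, by simp only [hj]; rfl⟩
  refine ⟨hfin.toFinset, T0, bb, n0, v0, ?_, ?_, ?_⟩
  · intro b hb
    rw [Finite.mem_toFinset] at hb
    obtain ⟨j, hj⟩ := hb
    exact hT0 j b hj
  · intro j b hj
    rw [Finite.mem_toFinset]
    exact ⟨j, hj⟩
  · intro h
    apply hv0
    show M n0 (fun i => (t (v0 i)).1) = M n0 (fun i => (t (v0 i)).2)
    simp only [hT1, hT2]
    exact h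

end final

/-- The chains of cells in the members of an analytic class of structures which are not wild have
bounded rank.
PROOF. Fix a size `s`. A code is a structure `Z : Str e2` such that for some `M ∈ K`, some finite set
`A`, some `y : ℕ → Fin s → ℕ` and some `D ⊆ ℕ`, with `R u v :⇔ Z 0 ![u, v] = true`:
`R` is a strict linear order on `D`, `R u v` implies `u, v ∈ D`, `Z n = false` for `n ≠ 0`;
`y u c` (`u ∈ D`, `c < s`) are pairwise different and not in `A`; the value `cod r M` of a tuple of points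
of `A` and of points `y u c`, `u ∈ D`, depends only on the pattern of the indices `u` with respect to `R`
(hypothesis `pat` of `no_rat_chain`); for some tuple `t` of points of `A` and of pairs in `Bool × Fin s`
the values of `t` with `(y u, y v)` and with `(y v, y u)` are different for all `u, v ∈ D` with `R u v`
(hypothesis `vis`). The set `K'` of the codes is analytic: all conditions on `(Z, M, y, D)` are closed for
fixed `s, A, t` (and a symbol), there are countably many `s, A, t`, and `K'` is a countable union of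
projections of `K × (closed)`. By `no_rat_chain` no `f : ℚ → ℕ` satisfies
`Z n ![f p, f q] = true ↔ p < q` (`p ≠ q`) (take `x p = y (f p)`). So `chain_bd` gives one `γ < ω₁`.
Let `M ∈ K`, `FF M …`, `k < c`, and let the swap `sw a0` of `a0 + b0 + 2` cells be visible:
only finitely many points are needed for this (`rk_vis`). Suppose `Rk (γ + ω) univ`. Choose
`a0` cells, then a cell `p`, then a cell `q`, then `b0` cells, in this order, such that the interval
between `p` and `q` has rank at least `γ` (`rk_up`, `rk_down`). The chain of the cells between `p` and `q`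
has a code (`rk_code`), and `Rk γ (Ioo p q)` gives `Gp R D γ p q` (`rk_gp`), a contradiction. -/
theorem rank_bound (har : ∀ n, a n ≤ r) (K : Set (Str a)) (hK : MeasureTheory.AnalyticSet K)
    (hW : ∀ M ∈ K, ¬ Pool.H22.VC.Wild (cod r M) univ) :
    ∃ ρ : Ordinal.{0}, ρ < ω₁ ∧ ∀ M ∈ K, ∀ (I : Type) [LinearOrder I] (Rn : Finset I) (E E' : Set ℕ)
      (m c : ℕ) (kd : I → ℕ) (sz : ℕ → ℕ) (x : I → ℕ → ℕ), FF M Rn E E' m c kd sz x → ∀ k < c,
      (∃ a0 b0, ¬ GQ (Q1 (QL M (Rs kd sz x k) kd sz x k)) (a0 + b0 + 2) (sw a0)) →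
        ¬ Rk ρ (univ : Set (Lk kd k)) := by
  obtain ⟨γ, hγ, hb⟩ := chain_bd (RkK a r K) (rkK_analytic K hK) (rkK_norat K hW)
  refine ⟨γ + ω, add_lt_omega_one hγ omega_lt_omega_one, ?_⟩
  intro M hM I _ Rn E E' m c kd sz x hF k hk hsw hR
  obtain ⟨a0, b0, hsw⟩ := hsw
  have hle : γ + ((b0 + 1 : ℕ) : Ordinal.{0}) + ((a0 + 1 : ℕ) : Ordinal.{0}) ≤ γ + ω := by
    rw [add_assoc, ← Nat.cast_add]
    exact add_le_add_right (natCast_lt_omega0 _).le γ
  obtain ⟨z0, hz0⟩ := (hF.inf k hk).nonempty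
  obtain ⟨e1, he1, -, h1⟩ := rk_up (⟨z0, hz0⟩ : Lk kd k) _ (a0 + 1) univ (hR.anti hle)
  obtain ⟨e2, he2, he2X, h2⟩ := rk_down (⟨z0, hz0⟩ : Lk kd k) γ (b0 + 1) _ h1
  set ee : ℕ → Lk kd k := fun i => if i ≤ a0 then e1 i else e2 (i - (a0 + 1)) with hee
  have e12 : ∀ i ≤ a0, ∀ j < b0 + 1, e1 i < e2 j := fun i hi j hj => (he2X j hj).2 i (by omega)
  have hmono : StrictMonoOn ee (Iio (a0 + b0 + 2)) := by
    intro i hi j hj hij
    simp only [mem_Iio] at hi hj
    show (if i ≤ a0 then e1 i else e2 (i - (a0 + 1))) < (if j ≤ a0 then e1 j else e2 (j - (a0 + 1)))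
    by_cases hj0 : j ≤ a0
    · rw [if_pos hj0, if_pos (by omega)]
      exact he1 (show i < a0 + 1 by omega) (show j < a0 + 1 by omega) hij
    · rw [if_neg hj0]
      by_cases hi0 : i ≤ a0
      · rw [if_pos hi0]
        exact e12 i hi0 _ (by omega)
      · rw [if_neg hi0]
        exact he2 (show i - (a0 + 1) < b0 + 1 by omega) (show j - (a0 + 1) < b0 + 1 by omega)
          (by omega)
  obtain ⟨A, T0, bb, n0, v0, hA, hT0, hvis⟩ := rk_vis har hF hmono hsw
  have hpq : ee a0 < ee (a0 + 1) := hmono (show a0 < a0 + b0 + 2 by omega)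
    (show a0 + 1 < a0 + b0 + 2 by omega) (Nat.lt_succ_self _)
  have hcode := rk_code hF hpq A T0 bb n0 v0 hA hT0 hvis
  have hZ : rkZ kd x k (ee a0) (ee (a0 + 1)) ∈ RkK a r K := by
    simp only [RkK, mem_iUnion]
    exact ⟨sz k, (A, T0, bb, ⟨n0, v0⟩), _, ⟨hcode, hM⟩, rfl⟩
  have hSC := hb _ hZ rkT (rkT_ne _) _ (rk_ch hF)
  refine hSC (x (ee a0).1 0) (rkD_iff.2 ⟨_, le_rfl, hpq.le, rfl⟩) (x (ee (a0 + 1)).1 0)
    (rkD_iff.2 ⟨_, hpq.le, le_rfl, rfl⟩) ⟨rk_ot hF ⟨le_rfl, hpq.le⟩ ⟨hpq.le, le_rfl⟩ hpq,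
      rk_gp hF γ _ _ le_rfl le_rfl (h2.mono ?_)⟩
  rintro z ⟨⟨-, hz1⟩, hz2⟩
  have ea : ee a0 = e1 a0 := if_pos le_rfl
  have eb : ee (a0 + 1) = e2 0 := by
    show (if a0 + 1 ≤ a0 then e1 (a0 + 1) else e2 (a0 + 1 - (a0 + 1))) = e2 0
    rw [if_neg (by omega), Nat.sub_self]
  refine ⟨?_, ?_⟩
  · show ee a0 < z
    rw [ea]
    exact hz1 a0 (by omega)
  · show z < ee (a0 + 1)
    rw [eb]
    exact hz2 0 (by omega)

end Pool.H5.AB
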