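import Pool.Agent.H5.AB.St
import Pool.Agent.H5.AA.Main

/-!
# The rank of the families, and decompositions
-/

set_option autoImplicit false

namespace Pool.H5.AB

open Set Ordinal Pool.H62.VT Pool.H5.AA Pool.H5.HA

/-- the rank is monotone under embeddings -/
theorem rk_image {α β : Type} [LinearOrder α] [LinearOrder β] (f : α → β) (hf : StrictMono f)
    (κ : Ordinal.{0}) : ∀ X : Set α, Rk κ X → Rk κ (f '' X) := by
  induction κ using WellFoundedLT.induction with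
  | ind κ ih =>
    intro X h
    rw [Rk_iff] at h ⊢
    intro ι hι
    obtain ⟨y, hy, h1, h2⟩ := h ι hι
    refine ⟨f y, ⟨y, hy, rfl⟩, (ih ι hι _ h1).mono ?_, (ih ι hι _ h2).mono ?_⟩
    · rintro _ ⟨z, ⟨hz, hzy⟩, rfl⟩
      exact ⟨⟨z, hz, rfl⟩, hf hzy⟩
    · rintro _ ⟨z, ⟨hz, hzy⟩, rfl⟩
      exact ⟨⟨z, hz, rfl⟩, hf hzy⟩

variable {a : ℕ → ℕ} {I : Type} {M : Str a} {E E' EE : Set ℕ} {m c r : ℕ} [LinearOrder I]
  {kd : I → ℕ} {sz : ℕ → ℕ} {x : I → ℕ → ℕ} {Rn : Finset I} {Nm : Finset I} {k g : ℕ}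

theorem rkC_of (hF : FF M Rn E E' m c kd sz x) {ρ : Ordinal.{0}}
    (h : ¬ Rk ρ (univ : Set (Lk kd k))) : RkC (CI kd sz x Nm k g) (LI kd sz x k) ρ := by
  intro irr tr tot
  letI := ordC (CI kd sz x Nm k g) (LI kd sz x k) irr tr tot
  intro hR
  have hex : ∀ S : Pf (CI kd sz x Nm k g), ∃ i : Lk kd k, S.val = cell kd sz x i.1 := by
    rintro ⟨S, i, hi, hk, hg, rfl⟩
    exact ⟨⟨i, hk⟩, rfl⟩
  choose f hf using hex
  have hmono : StrictMono f := by
    intro S T hST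
    obtain ⟨i, i', hi, hi', h1, h2, h3⟩ := (show LI kd sz x k S.val T.val from hST)
    rw [hf] at h1 h2
    show (f S).1 < (f T).1
    rw [cell_inj hF h1 (Or.inl ((f S).2.trans hi.symm)),
      cell_inj hF h2 (Or.inl ((f T).2.trans hi'.symm))]
    exact h3
  exact h ((rk_image f hmono ρ univ hR).mono (subset_univ _))

/-- Structures with free families in which swaps are visible and rotations are visible, of bounded
rank. -/
theorem dec_of_ff (har : ∀ n, a n ≤ r) (hr : 2 ≤ r) (hF : FF M Rn E E' m c kd sz x)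
    (hsw : ∀ k < c, ∃ a0 b0, ¬ GQ (Qi (QL M (Rs kd sz x k) kd sz x k)) (a0 + b0 + 2) (sw a0))
    (hrot : ∀ k < c, ∃ m0, ¬ GQ (Qi (QL M (Rs kd sz x k) kd sz x k)) m0 (rl m0))
    {ρ : Ordinal.{0}} (hρ : ∀ k < c, ¬ Rk ρ (univ : Set (Lk kd k))) : Dec M ρ := by
  obtain ⟨Nm, EE, hN⟩ := exists_nd har hr hF hsw hrot
  exact ⟨_, _, _, _, _, st_of_nd hF hN, fun j => rkC_of hF (hρ _ (kk_lt j))⟩

end Pool.H5.AB
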