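import Pool.Agent.H5.AB.Ro5
import Pool.Agent.H5.AB.StR
import Pool.Agent.H5.AB.RkB
import Pool.Agent.H22.CO.Def

/-!
# Analytic classes of structures with free families: countably many types
-/

set_option autoImplicit false

namespace Pool.H5.AB

open Set Ordinal Pool.H62.VT Pool.H5.AA Pool.H5.HA Pool.H22.VN Pool.H22.CO

variable {a : ℕ → ℕ} {r : ℕ}

/-- `M` has free families, and the rest is cellular -/
def HasFF (M : Str a) : Prop :=
  ∃ (I : Type) (_ : LinearOrder I) (Rn : Finset I) (E E' : Set ℕ) (m c : ℕ) (kd : I → ℕ)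
    (sz : ℕ → ℕ) (x : I → ℕ → ℕ), FF M Rn E E' m c kd sz x ∧ HCl M (Dr E kd sz x)

/-- `M` has free families, recognised by quantifier free types (level `0`), the rest is cellular -/
def HasFF0 (M : Str a) : Prop :=
  ∃ (I : Type) (_ : LinearOrder I) (Rn : Finset I) (E E' : Set ℕ) (c : ℕ) (kd : I → ℕ)
    (sz : ℕ → ℕ) (x : I → ℕ → ℕ), FF M Rn E E' 0 c kd sz x ∧ HCl M (Dr E kd sz x)

theorem HasFF0.ff {M : Str a} (h : HasFF0 M) : HasFF M := by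
  obtain ⟨I, _, Rn, E, E', c, kd, sz, x, h⟩ := h
  exact ⟨I, inferInstance, Rn, E, E', 0, c, kd, sz, x, h⟩

theorem ff_dec (har : ∀ n, a n ≤ r) (hr : 2 ≤ r) (K : Set (Str a))
    (hK : MeasureTheory.AnalyticSet K) (hW : ∀ M ∈ K, ¬ Pool.H22.VC.Wild (cod r M) univ)
    (hFF : ∀ M ∈ K, HasFF M) : ∃ ρ : Ordinal.{0}, ρ < ω₁ ∧ ∀ M ∈ K, Dec M ρ := by
  obtain ⟨ρ, hρ, hb⟩ := rank_bound har K hK hW
  refine ⟨ρ, hρ, fun M hM => ?_⟩
  obtain ⟨I, _, Rn, E, E', m, c, kd, sz, x, hF, -⟩ := hFF M hM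
  obtain ⟨I', _, Rn', E1, E1', kd', x', hF', hrot, -⟩ := ff_norm _ I Rn E E' kd x hF rfl
  refine dec_of_ff har hr hF' (fun k hk => hsw_of hF' hk) hrot fun k hk => ?_
  refine hb M hM I' Rn' E1 E1' m c kd' sz x' hF' k hk ?_
  obtain ⟨a0, b0, h⟩ := sw_of_nsym hF' hk
  exact ⟨a0, b0, fun h1 => h ((gq_q1 (ls_kind hF' k (subset_refl _))).1 h1)⟩

/-- Analytic classes of structures with free families which are not wild. -/
theorem ff_countable (har : ∀ n, a n ≤ r) (hr : 2 ≤ r) (K : Set (Str a))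
    (hK : MeasureTheory.AnalyticSet K) (hn : NoPerf K)
    (hW : ∀ M ∈ K, ¬ Pool.H22.VC.Wild (cod r M) univ) (hFF : ∀ M ∈ K, HasFF M) :
    ∃ C : Set (Str a), C.Countable ∧ ∀ x ∈ K, ∃ c ∈ C, ∃ σ : Equiv.Perm ℕ,
      ∀ (n : ℕ) (t : Fin (a n) → ℕ), c n (fun i => σ (t i)) = x n t := by
  obtain ⟨ρ, hρ, h⟩ := ff_dec har hr K hK hW hFF
  exact dec_countable K hK hn hρ h

end Pool.H5.AB
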