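import Pool.Agent.H5.AB.Fa1
import Pool.Agent.H22.VN.Cel
import Pool.Agent.H17.TC.Fam

/-!
# The disjoint union of families of cells as one linear order
-/

set_option autoImplicit false

namespace Pool.H5.AB

open Set Ordinal Pool.H62.VT Pool.H22.VC Pool.H17.TC Pool.H22.VN

variable {r n : ℕ} {K κ : Type}

/-- the cells of a family -/
@[ext]
structure Cl (F : Fam κ) : Type where
  /-- the cell -/
  val : κ → ℕ
  /-- it is a cell -/
  mem : val ∈ F.cells

/-- the order of the cells -/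
noncomputable abbrev clOrd {F : Fam κ} (h : F.OK) : LinearOrder (Cl F) where
  le c d := c = d ∨ F.lt c.val d.val
  lt c d := F.lt c.val d.val
  le_refl c := Or.inl rfl
  le_trans c d e h1 h2 := by
    rcases h1 with rfl | h1
    · exact h2
    · rcases h2 with rfl | h2
      · exact Or.inr h1
      · exact Or.inr (h.trans _ c.mem _ d.mem _ e.mem h1 h2)
  lt_iff_le_not_ge c d := by
    constructor
    · intro h1
      refine ⟨Or.inr h1, ?_⟩
      rintro (h2 | h2)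
      · subst h2
        exact h.irr _ d.mem h1
      · exact h.irr _ d.mem (h.trans _ d.mem _ c.mem _ d.mem h2 h1)
    · rintro ⟨h1 | h1, h2⟩
      · exact absurd (Or.inl h1.symm) h2
      · exact h1
  le_antisymm c d h1 h2 := by
    rcases h1 with h1 | h1
    · exact h1
    · rcases h2 with h2 | h2
      · exact h2.symm
      · exact absurd (h.trans _ c.mem _ d.mem _ c.mem h1 h2) (h.irr _ c.mem)
  le_total c d := by
    by_cases h1 : c = d
    · exact Or.inl (Or.inl h1)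
    · rcases h.total _ c.mem _ d.mem (fun h2 => h1 (Cl.ext h2)) with h2 | h2
      · exact Or.inl (Or.inr h2)
      · exact Or.inr (Or.inr h2)
  toDecidableLE := Classical.decRel _
  toDecidableEq := Classical.decEq _
  toDecidableLT := Classical.decRel _

variable {N : Col r K ℕ} {m : Fin n → ℕ} {G : ∀ b, Fam (Fin (m b))}

/-- all cells -/
abbrev IG (G : ∀ b, Fam (Fin (m b))) : Type := Σₗ b : Fin n, Cl (G b)

/-- the kind of a cell -/
def kG (i : IG G) : ℕ := ((ofLex i).1 : ℕ)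

/-- the sizes -/
noncomputable def sG (m : Fin n → ℕ) (k : ℕ) : ℕ := if h : k < n then m ⟨k, h⟩ else 1

/-- the points -/
noncomputable def xG (i : IG G) (d : ℕ) : ℕ :=
  if h : d < m (ofLex i).1 then (ofLex i).2.val ⟨d, h⟩ else 0

theorem sG_eq (b : Fin n) : sG m b = m b := by
  unfold sG
  rw [dif_pos b.2]

theorem xG_mem (i : IG G) (b : Fin n) (h : kG i = b) :
    (fun d : Fin (m b) => xG i d) ∈ (G b).cells := by
  obtain ⟨b', c⟩ := i
  have hb : b' = b := Fin.ext h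
  subst hb
  have h1 : (fun d : Fin (m b') => xG (⟨b', c⟩ : IG G) d) = c.val := by
    funext d
    exact dif_pos d.2
  rw [h1]
  exact c.mem

theorem xG_surj (b : Fin n) (c : Fin (m b) → ℕ) (hc : c ∈ (G b).cells) :
    ∃ i : IG G, kG i = b ∧ ∀ d : Fin (m b), xG i d = c d := by
  refine ⟨⟨b, ⟨c, hc⟩⟩, rfl, fun d => ?_⟩
  exact dif_pos d.2

theorem xG_eq (i i' : IG G) (b : Fin n) (h : kG i = b) (h' : kG i' = b)
    (he : ∀ d : Fin (m b), xG i d = xG i' d) : i = i' := by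
  obtain ⟨b1, c1⟩ := i
  obtain ⟨b2, c2⟩ := i'
  have hb1 : b1 = b := Fin.ext h
  have hb2 : b2 = b := Fin.ext h'
  subst hb1
  subst hb2
  have h1 : c1 = c2 := by
    apply Cl.ext
    funext d
    have h2 := he d
    have h3 : xG (⟨b2, c1⟩ : IG G) d = c1.val d := dif_pos d.2
    have h4 : xG (⟨b2, c2⟩ : IG G) d = c2.val d := dif_pos d.2
    rw [h3, h4] at h2
    exact h2
  rw [h1]

theorem xG_lt (hG : ∀ b, (G b).OK) (i i' : IG G) (b : Fin n) (h : kG i = b) (h' : kG i' = b) :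
    letI : ∀ b, LinearOrder (Cl (G b)) := fun b => clOrd (hG b)
    i < i' ↔ (G b).lt (fun d : Fin (m b) => xG i d) (fun d : Fin (m b) => xG i' d) := by
  letI : ∀ b, LinearOrder (Cl (G b)) := fun b => clOrd (hG b)
  obtain ⟨b1, c1⟩ := i
  obtain ⟨b2, c2⟩ := i'
  have hb1 : b1 = b := Fin.ext h
  have hb2 : b2 = b := Fin.ext h'
  subst hb1
  subst hb2
  have h3 : (fun d : Fin (m b2) => xG (⟨b2, c1⟩ : IG G) d) = c1.val := by
    funext d
    exact dif_pos d.2
  have h4 : (fun d : Fin (m b2) => xG (⟨b2, c2⟩ : IG G) d) = c2.val := by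
    funext d
    exact dif_pos d.2
  rw [h3, h4, Sigma.Lex.lt_def]
  constructor
  · rintro (h5 | ⟨h5, h6⟩)
    · exact absurd h5 (lt_irrefl _)
    · exact h6
  · intro h5
    exact Or.inr ⟨rfl, h5⟩

theorem xG_supp (i : IG G) (d : ℕ) (hd : d < sG m (kG i)) (b : Fin n) (hb : kG i = b) :
    xG i d ∈ (G b).supp := by
  rw [hb, sG_eq] at hd
  exact ⟨_, xG_mem i b hb, ⟨d, hd⟩, rfl⟩

theorem kG_lt (i : IG G) : kG i < n := (ofLex i).1.2

/-- the cells of a family are disjoint -/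
theorem xG_inj (hG : ∀ b, (G b).OK) (i i' : IG G) (d d' : ℕ) (hd : d < sG m (kG i))
    (hd' : d' < sG m (kG i')) (he : xG i d = xG i' d') (hk : kG i = kG i') : i = i' ∧ d = d' := by
  have m1 := xG_mem i ⟨kG i', kG_lt i'⟩ hk
  have m2 := xG_mem i' ⟨kG i', kG_lt i'⟩ rfl
  have hs : sG m (kG i') = m ⟨kG i', kG_lt i'⟩ := sG_eq ⟨kG i', kG_lt i'⟩
  rw [hk, hs] at hd
  rw [hs] at hd'
  have h3 := (hG ⟨kG i', kG_lt i'⟩).disj _ m1 _ m2 ⟨d, hd⟩ ⟨d', hd'⟩ he
  have h4 : i = i' := xG_eq i i' ⟨kG i', kG_lt i'⟩ hk rfl fun d => congrFun h3 d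
  subst h4
  refine ⟨rfl, ?_⟩
  have h5 := (hG ⟨kG i, kG_lt i⟩).inj _ m1 (a₁ := ⟨d, hd⟩) (a₂ := ⟨d', hd'⟩) he
  exact congrArg Fin.val h5

/-- the cells of one family can be moved -/
theorem xG_one {a : ℕ → ℕ} (har : ∀ n, a n ≤ r) {M : Pool.H62.VT.Str a}
    (hG : ∀ b, FN (cod r M) (G b)) (k : ℕ) (Γ : Set (IG G × IG G))
    (hΓ : letI : ∀ b, LinearOrder (Cl (G b)) := fun b => clOrd (hG b).ok
      MonK (kG (G := G)) Γ) (hk : ∀ g ∈ Γ, kG g.1 = k) :
    PI M M (idOn (Rs (kG (G := G)) (sG m) xG k) ∪ MV (kG (G := G)) (sG m) xG Γ) := by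
  classical
  letI : ∀ b, LinearOrder (Cl (G b)) := fun b => clOrd (hG b).ok
  have hok : ∀ b, (G b).OK := fun b => (hG b).ok
  by_cases hkn : k < n
  swap
  · refine (pi_id M univ).mono ?_
    rintro q (hq | ⟨g, hg, -⟩)
    · exact ⟨mem_univ _, hq.2⟩
    · exact absurd (hk g hg ▸ kG_lt g.1) hkn
  set b : Fin n := ⟨k, hkn⟩ with hb
  have hsk : sG m k = m b := sG_eq b
  have hk2 : ∀ g ∈ Γ, kG g.2 = k := fun g hg => (hΓ.1.1 g hg).symm.trans (hk g hg)
  -- the move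
  let f : IG G → IG G := fun i => if h : ∃ g ∈ Γ, g.1 = i then h.choose.2 else i
  have hf : ∀ g ∈ Γ, f g.1 = g.2 := by
    intro g hg
    have hex : ∃ g' ∈ Γ, g'.1 = g.1 := ⟨g, hg, rfl⟩
    have h1 := hex.choose_spec
    simp only [f, dif_pos hex]
    exact (hΓ.1.2 _ h1.1 g hg).1 h1.2
  let φ : (Fin (m b) → ℕ) → (Fin (m b) → ℕ) := fun c =>
    if hc : c ∈ (G b).cells then fun d => xG (f (toLex ⟨b, ⟨c, hc⟩⟩ : IG G)) d else c
  have hφ : ∀ i : IG G, kG i = k → φ (fun d => xG i d) = fun d : Fin (m b) => xG (f i) d := by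
    intro i hi
    have hc := xG_mem i b hi
    have h1 : (toLex ⟨b, ⟨_, hc⟩⟩ : IG G) = i :=
      xG_eq _ i b rfl hi fun d => dif_pos d.2
    simp only [φ, dif_pos hc, h1]
  have hcell : ∀ c ∈ (G b).cells, ∃ i : IG G, kG i = k ∧ c = fun d : Fin (m b) => xG i d := by
    intro c hc
    obtain ⟨i, hi, hx⟩ := xG_surj b c hc
    exact ⟨i, hi, funext fun d => (hx d).symm⟩
  have hRs : ∀ y, y ∈ Rs (kG (G := G)) (sG m) xG k → y ∉ (G b).supp := by
    rintro y hy ⟨c, hc, d, rfl⟩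
    obtain ⟨i, hi, rfl⟩ := hcell c hc
    exact hy i hi d (by rw [hsk]; exact d.2) rfl
  refine PI_of_cod har ?_ ?_
  · intro t ht
    -- the used cells
    have hus : ∀ c, Used (G b) (fun j => (t j).1) c → ∃ g ∈ Γ, c = fun d : Fin (m b) => xG g.1 d := by
      rintro c ⟨hc, j, d, hj⟩
      simp only at hj
      rcases ht j with h1 | ⟨g, hg, e, he, h1⟩
      · exact absurd ⟨c, hc, d, hj.symm⟩ (hRs _ h1.1)
      · obtain ⟨i, hi, rfl⟩ := hcell c hc
        rw [h1] at hj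
        simp only at hj
        have h2 := xG_inj hok g.1 i e d he (by rw [hi, hsk]; exact d.2) hj ((hk g hg).trans hi.symm)
        exact ⟨g, hg, by rw [h2.1]⟩
    have hMv : Mv (G b) (fun j => (t j).1) φ := by
      constructor
      · intro c hc
        obtain ⟨g, hg, rfl⟩ := hus c hc
        rw [hφ g.1 (hk g hg), hf g hg]
        exact xG_mem g.2 b (hk2 g hg)
      · intro c c' hc hc' he
        obtain ⟨g, hg, rfl⟩ := hus c hc
        obtain ⟨g', hg', rfl⟩ := hus c' hc'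
        rw [hφ g.1 (hk g hg), hf g hg, hφ g'.1 (hk g' hg'), hf g' hg'] at he
        have h1 : g.2 = g'.2 := xG_eq _ _ b (hk2 g hg) (hk2 g' hg') fun d => congrFun he d
        rw [(hΓ.1.2 g hg g' hg').2 h1]
    have hMon : Mon (G b) (fun j => (t j).1) φ := by
      intro c c' hc hc' hlt
      obtain ⟨k0⟩ := (hok b).nonempty
      have hu : Used (G b) (fun j => (t j).1) c := ⟨hc.1, (hc.2 k0).choose, k0, (hc.2 k0).choose_spec⟩
      have hu' : Used (G b) (fun j => (t j).1) c' :=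
        ⟨hc'.1, (hc'.2 k0).choose, k0, (hc'.2 k0).choose_spec⟩
      obtain ⟨g, hg, rfl⟩ := hus c hu
      obtain ⟨g', hg', rfl⟩ := hus c' hu'
      rw [hφ g.1 (hk g hg), hf g hg, hφ g'.1 (hk g' hg'), hf g' hg']
      have h1 : g.1 < g'.1 := (xG_lt hok g.1 g'.1 b (hk g hg) (hk g' hg')).2 hlt
      have h2 := (hΓ.2 g hg g' hg' ((hk g hg).trans (hk g' hg').symm)).1 h1
      exact (xG_lt hok g.2 g'.2 b (hk2 g hg) (hk2 g' hg')).1 h2
    rw [← (hG b).free (fun j => (t j).1) φ hMv hMon]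
    congr 1
    funext j
    rcases ht j with h1 | ⟨g, hg, e, he, h1⟩
    · rw [Fam.mv_out φ (hRs _ h1.1)]
      exact h1.2
    · have he' : e < m b := by
        rw [hk g hg, hsk] at he
        exact he
      have h2 := Fam.mv_cell (hok b) φ (xG_mem g.1 b (hk g hg)) ⟨e, he'⟩
      rw [hφ g.1 (hk g hg), hf g hg] at h2
      rw [h1]
      exact h2
  · have hs1 : ∀ g ∈ Γ, ∀ d < sG m (kG g.1), xG g.1 d ∉ Rs (kG (G := G)) (sG m) xG k := by
      intro g hg d hd h
      exact h g.1 (hk g hg) d (by rw [← hk g hg]; exact hd) rfl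
    have hs2 : ∀ g ∈ Γ, ∀ d < sG m (kG g.1), xG g.2 d ∉ Rs (kG (G := G)) (sG m) xG k := by
      intro g hg d hd h
      exact h g.2 (hk2 g hg) d (by rw [← hk g hg]; exact hd) rfl
    rintro ⟨q1, q2⟩ (⟨hq, hq2⟩ | ⟨g, hg, d, hd, hq⟩) ⟨q1', q2'⟩ (⟨hq', hq2'⟩ | ⟨g', hg', d', hd', hq'⟩)
    · simp only at hq2 hq2'
      rw [hq2, hq2']
    · rw [Prod.mk.injEq] at hq'
      obtain ⟨rfl, rfl⟩ := hq'
      simp only at hq hq2
      subst hq2
      constructor
      · intro he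
        have he' : q1 = xG g'.1 d' := he
        exact absurd (he' ▸ hq) (hs1 g' hg' d' hd')
      · intro he
        have he' : q1 = xG g'.2 d' := he
        exact absurd (he' ▸ hq) (hs2 g' hg' d' hd')
    · rw [Prod.mk.injEq] at hq
      obtain ⟨rfl, rfl⟩ := hq
      simp only at hq' hq2'
      subst hq2'
      constructor
      · intro he
        have he' : xG g.1 d = q1' := he
        exact absurd (he'.symm ▸ hq') (hs1 g hg d hd)
      · intro he
        have he' : xG g.2 d = q1' := he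
        exact absurd (he'.symm ▸ hq') (hs2 g hg d hd)
    · rw [Prod.mk.injEq] at hq hq'
      obtain ⟨rfl, rfl⟩ := hq
      obtain ⟨rfl, rfl⟩ := hq'
      constructor
      · intro he
        obtain ⟨h1, h2⟩ := xG_inj hok _ _ _ _ hd hd' he ((hk g hg).trans (hk g' hg').symm)
        simp only
        rw [(hΓ.1.2 g hg g' hg').1 h1, h2]
      · intro he
        have hd2 : d < sG m (kG g.2) := by
          rw [hk2 g hg, ← hk g hg]
          exact hd
        have hd2' : d' < sG m (kG g'.2) := by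
          rw [hk2 g' hg', ← hk g' hg']
          exact hd'
        obtain ⟨h1, h2⟩ := xG_inj hok _ _ _ _ hd2 hd2' he ((hk2 g hg).trans (hk2 g' hg').symm)
        simp only
        rw [(hΓ.1.2 g hg g' hg').2 h1, h2]

/-- the swap of a family which is visible -/
theorem xG_nsym {a : ℕ → ℕ} {M : Pool.H62.VT.Str a} (hG : ∀ b, FN (cod r M) (G b)) (k : ℕ)
    (hk : k < n) : ∃ Γ : Set (IG G × IG G), Γ.Finite ∧ InjK (kG (G := G)) Γ ∧
      (∀ g ∈ Γ, kG g.1 = k) ∧
      ¬ PI M M (idOn (Rs (kG (G := G)) (sG m) xG k) ∪ MV (kG (G := G)) (sG m) xG Γ) := by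
  classical
  have hsz : ∀ b : Fin n, sG m b = m b := sG_eq
  obtain ⟨t, φ, hM, hne⟩ := (hG ⟨k, hk⟩).nsym
  have hok := (hG ⟨k, hk⟩).ok
  refine ⟨{g | kG g.1 = k ∧ kG g.2 = k ∧ Used (G ⟨k, hk⟩) t (fun d => xG g.1 d) ∧
    ∀ d : Fin (m ⟨k, hk⟩), xG g.2 d = φ (fun d => xG g.1 d) d}, ?_, ⟨?_, ?_⟩, ?_, ?_⟩
  · refine Set.Finite.of_finite_image (f := fun g : IG G × IG G =>
      fun d : Fin (m ⟨k, hk⟩) => xG g.1 d) ?_ ?_
    · refine (used_finite hok t).1.subset ?_
      rintro _ ⟨g, ⟨-, -, h3, -⟩, rfl⟩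
      exact h3
    · rintro g ⟨h1, h2, -, h4⟩ g' ⟨h1', h2', -, h4'⟩ he
      simp only at he
      have e1 : g.1 = g'.1 := xG_eq g.1 g'.1 ⟨k, hk⟩ h1 h1' fun d => congrFun he d
      refine Prod.ext e1 (xG_eq g.2 g'.2 ⟨k, hk⟩ h2 h2' fun d => ?_)
      rw [h4, h4', he]
  · rintro g ⟨h1, h2, -⟩
    exact h1.trans h2.symm
  · rintro g ⟨h1, h2, h3, h4⟩ g' ⟨h1', h2', h3', h4'⟩
    constructor
    · intro he
      refine xG_eq g.2 g'.2 ⟨k, hk⟩ h2 h2' fun d => ?_
      rw [h4, h4', he]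
    · intro he
      have h5 : φ (fun d => xG g.1 d) = φ (fun d => xG g'.1 d) := by
        funext d
        rw [← h4, ← h4', he]
      have h6 := hM.2 _ _ h3 h3' h5
      exact xG_eq g.1 g'.1 ⟨k, hk⟩ h1 h1' fun d => congrFun h6 d
  · rintro g ⟨h1, -⟩
    exact h1
  · intro hP
    apply hne
    have h1 := cod_of_PI hP (fun j => (t j, (G ⟨k, hk⟩).mv φ (t j))) (by
      intro j
      by_cases hj : t j ∈ (G ⟨k, hk⟩).supp
      · right
        obtain ⟨c, hc, d, hcd⟩ := hj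
        have hu : Used (G ⟨k, hk⟩) t c := ⟨hc, j, d, hcd.symm⟩
        obtain ⟨i, hi, hx⟩ := xG_surj ⟨k, hk⟩ c hc
        obtain ⟨i', hi', hx'⟩ := xG_surj ⟨k, hk⟩ (φ c) (hM.1 c hu)
        have hxc : (fun d : Fin (m ⟨k, hk⟩) => xG i d) = c := funext hx
        refine ⟨(i, i'), ⟨hi, hi', ?_, ?_⟩, d, ?_, ?_⟩
        · rw [hxc]
          exact hu
        · intro e
          rw [hxc]
          exact hx' e
        · show (d : ℕ) < sG m (kG i)
          rw [hi, hsz]
          exact d.2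
        · show (t j, (G ⟨k, hk⟩).mv φ (t j)) = (xG i d, xG i' d)
          rw [hx, hx', ← hcd, Fam.mv_cell hok φ hc d]
      · left
        refine ⟨?_, (Fam.mv_out φ hj).symm⟩
        intro i hi d hd' he
        apply hj
        have h2 : sG m k = m ⟨k, hk⟩ := sG_eq ⟨k, hk⟩
        rw [h2] at hd'
        exact ⟨_, xG_mem i ⟨k, hk⟩ hi, ⟨d, hd'⟩, he.symm⟩)
    exact h1.symm

/-- infinitely many cells of every kind -/
theorem xG_inf (hG : ∀ b, (G b).OK) (k : ℕ) (hk : k < n) : {i : IG G | kG i = k}.Infinite := by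
  have h1 := (hG ⟨k, hk⟩).inf
  have h2 : (G ⟨k, hk⟩).cells = (fun (i : IG G) (d : Fin (m ⟨k, hk⟩)) => xG i d) ''
      {i : IG G | kG i = k} := by
    ext c
    constructor
    · intro hc
      obtain ⟨i, hi, hx⟩ := xG_surj ⟨k, hk⟩ c hc
      exact ⟨i, hi, funext hx⟩
    · rintro ⟨i, hi, rfl⟩
      exact xG_mem i ⟨k, hk⟩ hi
  rw [h2] at h1
  exact h1.of_image _

end Pool.H5.AB
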