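import Pool.Agent.H5.AB.Fa0
import Pool.Agent.H5.AB.Fa2
import Pool.Agent.H5.AB.Fin
import Pool.Agent.H22.VN.Hcl
import Pool.Agent.H17.TC.Rc1

/-!
# Free families and a rest which commutes give the structure `FF`
-/

set_option autoImplicit false

namespace Pool.H5.AB

open Set Ordinal Pool.H62.VT Pool.H22.VC Pool.H17.TC Pool.H22.VN

variable {r n : ℕ} {a : ℕ → ℕ} {m : Fin n → ℕ} {G : ∀ b, Fam (Fin (m b))}

/-- few orbits over finitely many more points of the rest -/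
theorem cel_more {M : Pool.H62.VT.Str a} {D F C : Set ℕ} (hC : C.Finite) (hCD : C ⊆ D)
    (h : ∀ n : ℕ, ∃ R : Set (Fin n → ℕ), R.Finite ∧ ∀ u : Fin n → ℕ, (∀ i, u i ∈ D) →
      ∃ v ∈ R, ∃ P : Pos, (∀ q ∈ P, q.1 ∈ D ∧ q.2 ∈ D) ∧ Mt P D D ∧ PI M M (idOn F ∪ P) ∧
        ∀ i, (u i, v i) ∈ P) (n : ℕ) :
    ∃ R : Set (Fin n → ℕ), R.Finite ∧ ∀ u : Fin n → ℕ, (∀ i, u i ∈ D) →
      ∃ v ∈ R, ∃ P : Pos, (∀ q ∈ P, q.1 ∈ D ∧ q.2 ∈ D) ∧ Mt P D D ∧
        PI M M (idOn (F ∪ C) ∪ P) ∧ ∀ i, (u i, v i) ∈ P := by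
  classical
  obtain ⟨l, f, hf⟩ : ∃ (l : ℕ) (f : Fin l → ℕ), range f = C := by
    have := hC.to_subtype
    obtain ⟨l, ⟨e⟩⟩ := Finite.exists_equiv_fin C
    refine ⟨l, fun i => (e.symm i : ℕ), ?_⟩
    ext y
    constructor
    · rintro ⟨i, rfl⟩
      exact (e.symm i).2
    · intro hy
      exact ⟨e ⟨y, hy⟩, by simp⟩
  obtain ⟨R, hR, hR2⟩ := h (n + l)
  let Cl : (Fin (n + l) → ℕ) → (Fin n → ℕ) → Prop := fun r u =>
    (∀ i, u i ∈ D) ∧ ∃ P : Pos, (∀ q ∈ P, q.1 ∈ D ∧ q.2 ∈ D) ∧ Mt P D D ∧ PI M M (idOn F ∪ P) ∧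
      ∀ i, (Fin.append u f i, r i) ∈ P
  have hch : ∀ r : Fin (n + l) → ℕ, ∃ v : Fin n → ℕ, (∃ u, Cl r u) → Cl r v := by
    intro r
    by_cases h : ∃ u, Cl r u
    · obtain ⟨u, hu⟩ := h
      exact ⟨u, fun _ => hu⟩
    · exact ⟨fun _ => 0, fun h' => absurd h' h⟩
  choose rep hrep using hch
  refine ⟨rep '' R, hR.image _, ?_⟩
  intro u hu
  obtain ⟨r, hr, P, hP1, hP2, hP3, hP4⟩ := hR2 (Fin.append u f) (by
    intro i
    refine Fin.addCases (fun i => ?_) (fun i => ?_) i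
    · rw [Fin.append_left]
      exact hu i
    · rw [Fin.append_right]
      have : f i ∈ C := hf ▸ mem_range_self i
      exact hCD this)
  obtain ⟨-, P', hP1', hP2', hP3', hP4'⟩ := hrep r ⟨u, hu, P, hP1, hP2, hP3, hP4⟩
  refine ⟨rep r, mem_image_of_mem _ hr, {q | ∃ y, (q.1, y) ∈ P ∧ (q.2, y) ∈ P'}, ?_, ⟨?_, ?_⟩,
    ?_, ?_⟩
  · rintro q ⟨y, h1, h2⟩
    exact ⟨(hP1 _ h1).1, (hP1' _ h2).1⟩
  · intro y hy
    obtain ⟨z, hz, h1⟩ := hP2.1 y hy
    obtain ⟨w, hw, h2⟩ := hP2'.2 z hz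
    exact ⟨w, hw, z, h1, h2⟩
  · intro w hw
    obtain ⟨z, hz, h1⟩ := hP2'.1 w hw
    obtain ⟨y, hy, h2⟩ := hP2.2 z hz
    exact ⟨y, hy, z, h2, h1⟩
  · refine (hP3.trans hP3'.symm).mono ?_
    rintro ⟨q1, q2⟩ (⟨h1 | h1, h2⟩ | ⟨y, h1, h2⟩)
    · simp only at h1 h2
      subst h2
      exact ⟨q1, Or.inl ⟨h1, rfl⟩, Or.inl ⟨h1, rfl⟩⟩
    · simp only at h1 h2
      subst h2
      rw [← hf] at h1
      obtain ⟨i, rfl⟩ := h1
      have e1 := hP4 (Fin.natAdd n i)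
      have e2 := hP4' (Fin.natAdd n i)
      rw [Fin.append_right] at e1 e2
      exact ⟨_, Or.inr e1, Or.inr e2⟩
    · exact ⟨y, Or.inr h1, Or.inr h2⟩
  · intro i
    have e1 := hP4 (Fin.castAdd l i)
    have e2 := hP4' (Fin.castAdd l i)
    rw [Fin.append_left] at e1 e2
    exact ⟨_, e1, e2⟩

/-- The structure `FF` from free families. -/
theorem hasFF0_of_fam (har : ∀ n, a n ≤ r) (hr : 2 ≤ r) (M : Pool.H62.VT.Str a)
    (hfin : (range (cod r M)).Finite) (hW : ¬ Pool.H22.VC.Wild (cod r M) univ)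
    (hG : ∀ b, FN (cod r M) (G b))
    (hmeet : ∀ b b', b ≠ b' →
      {c | c ∈ (G b).cells ∧ ∃ c' ∈ (G b').cells, (range c ∩ range c').Nonempty}.Finite)
    (hcomm : ∀ (A : Set ℕ) (ι : Type) [Finite ι] (e : ℕ → ι → ℕ), A.Finite →
      H17.TA.Hom (cod r M) A e → (∀ i c b, e i c ∉ (G b).supp) → ∀ (κ κ' : Type) [Finite κ]
        [Finite κ'] (τ : κ → ι) (τ' : κ' → ι), H17.TA.Perp (cod r M) A e τ τ')
    (hreco : ∀ b, ∃ C : Set ℕ, C.Finite ∧ ∀ c ∈ (G b).cells, ∀ q : Fin (m b) → ℕ,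
      TyEq (cod r M) C c q → ∃ c' ∈ (G b).cells, range c' = range q) : HasFF0 M := by
  classical
  letI : ∀ b, LinearOrder (Cl (G b)) := fun b => clOrd (hG b).ok
  have hok : ∀ b, (G b).OK := fun b => (hG b).ok
  have hsz : ∀ b : Fin n, sG m b = m b := sG_eq
  have hmpos : ∀ b, 0 < m b := by
    intro b
    obtain ⟨k0⟩ := (hok b).nonempty
    exact k0.pos
  -- the named cells
  have hRfin : {i : IG G | ∃ j : IG G, kG j ≠ kG i ∧ ∃ d < sG m (kG i), ∃ d' < sG m (kG j),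
      xG i d = xG j d'}.Finite := by
    have h1 : {i : IG G | ∃ j : IG G, kG j ≠ kG i ∧ ∃ d < sG m (kG i), ∃ d' < sG m (kG j),
        xG i d = xG j d'} ⊆ ⋃ b : Fin n, ⋃ b' : Fin n, ⋃ (_ : b ≠ b'),
        {i : IG G | kG i = b ∧ (fun d : Fin (m b) => xG i d) ∈ {c | c ∈ (G b).cells ∧
          ∃ c' ∈ (G b').cells, (range c ∩ range c').Nonempty}} := by
      rintro i ⟨j, hij, d, hd, d', hd', he⟩
      rw [mem_iUnion]
      refine ⟨⟨kG i, kG_lt i⟩, ?_⟩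
      rw [mem_iUnion]
      refine ⟨⟨kG j, kG_lt j⟩, ?_⟩
      rw [mem_iUnion]
      refine ⟨fun h => hij (congrArg Fin.val h).symm, rfl, xG_mem i _ rfl, _, xG_mem j _ rfl,
        xG i d, ?_, ?_⟩
      · have h2 : sG m (kG i) = m ⟨kG i, kG_lt i⟩ := sG_eq ⟨kG i, kG_lt i⟩
        rw [h2] at hd
        exact ⟨⟨d, hd⟩, rfl⟩
      · have h2 : sG m (kG j) = m ⟨kG j, kG_lt j⟩ := sG_eq ⟨kG j, kG_lt j⟩
        rw [h2] at hd'
        exact ⟨⟨d', hd'⟩, he.symm⟩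
    refine Set.Finite.subset ?_ h1
    refine finite_iUnion fun b => finite_iUnion fun b' => finite_iUnion fun hbb => ?_
    refine Set.Finite.of_finite_image (f := fun i : IG G => fun d : Fin (m b) => xG i d) ?_ ?_
    · refine (hmeet b b' hbb).subset ?_
      rintro _ ⟨i, ⟨-, h2⟩, rfl⟩
      exact h2
    · rintro i ⟨h2, -⟩ i' ⟨h2', -⟩ he
      exact xG_eq i i' b h2 h2' fun d => congrFun he d
  set Rn : Finset (IG G) := hRfin.toFinset with hRn
  have mR : ∀ i : IG G, i ∈ Rn ↔ ∃ j : IG G, kG j ≠ kG i ∧ ∃ d < sG m (kG i),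
      ∃ d' < sG m (kG j), xG i d = xG j d' := by
    intro i
    rw [hRn, Set.Finite.mem_toFinset]
    rfl
  have hinj : ∀ (i i' : IG G) (d d' : ℕ), d < sG m (kG i) → d' < sG m (kG i') →
      xG i d = xG i' d' → (kG i = kG i' ∨ i ∉ Rn ∨ i' ∉ Rn) → i = i' ∧ d = d' := by
    intro i i' d d' hd hd' he hc
    by_cases hk : kG i = kG i'
    · exact xG_inj hok i i' d d' hd hd' he hk
    · exfalso
      rcases hc with h1 | h1 | h1
      · exact hk h1
      · exact h1 ((mR i).2 ⟨i', fun h => hk h.symm, d, hd, d', hd', he⟩)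
      · exact h1 ((mR i').2 ⟨i, hk, d', hd', d, hd, he.symm⟩)
  -- the points of the named cells
  set E : Set ℕ := pts (kG (G := G)) (sG m) xG Rn with hE
  have hS : Sy M Rn E n (kG (G := G)) (sG m) xG := by
    refine ⟨kG_lt, hinj, ?_, ?_, fun k Γ hΓ hk => xG_one har hG k Γ hΓ hk⟩
    · rintro i hi d hd ⟨j, hj, e, he, hx⟩
      have := (hinj i j d e hd he hx (Or.inr (Or.inl hi))).1
      exact hi (this ▸ hj)
    · intro i hi d hd
      exact ⟨i, hi, d, hd, rfl⟩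
  obtain ⟨Z, hZR, hZ⟩ := exists_Z (kd := kG (G := G)) kG_lt Rn r
  choose C hCf hC using hreco
  set Ca : Set ℕ := ⋃ b, C b with hCa
  have hCaf : Ca.Finite := finite_iUnion hCf
  -- points of cells and supports
  have hsupp : ∀ y, (∃ i : IG G, ∃ d < sG m (kG i), y = xG i d) ↔ ∃ b, y ∈ (G b).supp := by
    intro y
    constructor
    · rintro ⟨i, d, hd', rfl⟩
      exact ⟨⟨kG i, kG_lt i⟩, xG_supp i d hd' _ rfl⟩
    · rintro ⟨b, c, hc, d, rfl⟩
      obtain ⟨i, hi, hx⟩ := xG_surj b c hc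
      refine ⟨i, d, ?_, (hx d).symm⟩
      rw [hi, hsz]
      exact d.2
  set D : Set ℕ := Dr E (kG (G := G)) (sG m) xG with hD
  have hDr : ∀ y, y ∈ D ↔ ¬ ∃ i : IG G, ∃ d < sG m (kG i), y = xG i d := by
    intro y
    constructor
    · rintro ⟨-, h1⟩ ⟨i, d, hd, he⟩
      exact h1 i d hd he
    · intro h1
      refine ⟨?_, fun i d hd he => h1 ⟨i, d, hd, he⟩⟩
      rintro ⟨i, -, d, hd, he⟩
      exact h1 ⟨i, d, hd, he⟩
  have hEZ : E ⊆ pts (kG (G := G)) (sG m) xG Z := by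
    rintro y ⟨i, hi, d, hd, he⟩
    exact ⟨i, hZR hi, d, hd, he⟩
  have hE' : pts (kG (G := G)) (sG m) xG Z ∪ Ca =
      (pts (kG (G := G)) (sG m) xG Z ∪ (Ca \ D)) ∪ (Ca ∩ D) := by
    rw [union_assoc, diff_union_inter]
  -- homogeneous sequences in the rest commute
  have hperp : ∀ (A : Set ℕ) (ι : Type) [Finite ι] (e : ℕ → ι → ℕ), A.Finite →
      pts (kG (G := G)) (sG m) xG Z ∪ (Ca \ D) ⊆ A →
      A ⊆ D ∪ (pts (kG (G := G)) (sG m) xG Z ∪ (Ca \ D)) →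
      H17.TA.Hom (cod r M) A e → (∀ i c, e i c ∈ D) → ∀ (κ κ' : Type) [Finite κ] [Finite κ']
        (τ : κ → ι) (τ' : κ' → ι), H17.TA.Perp (cod r M) A e τ τ' := by
    intro A ι _ e hA _ _ hH he κ κ' _ _ τ τ'
    refine hcomm A ι e hA hH (fun i c b hb => ?_) κ κ' τ τ'
    exact (hDr _).1 (he i c) ((hsupp _).2 ⟨b, hb⟩)
  have hdis : ∀ y ∈ D, y ∉ pts (kG (G := G)) (sG m) xG Z ∪ (Ca \ D) := by
    intro y hy hyZ
    rcases hyZ with ⟨i, -, d, hd', he⟩ | h1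
    · exact (hDr y).1 hy ⟨i, d, hd', he⟩
    · exact h1.2 hy
  have hfinF : (pts (kG (G := G)) (sG m) xG Z ∪ (Ca \ D)).Finite :=
    (pts_finite Z).union (hCaf.subset diff_subset)
  refine ⟨IG G, inferInstance, Rn, E, pts (kG (G := G)) (sG m) xG Z ∪ Ca, n, kG, sG m, xG, ?_,
    hS.hcl har hr hZR hZ (hEZ.trans subset_union_left) subset_union_left
      (hcl_of_perp har M hfin hW D _ hfinF hdis hperp)⟩
  refine { fin := (pts_finite Z).union hCaf, sub := hEZ.trans subset_union_left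
           kdc := kG_lt, pos := ?_, inj := hinj, notE := hS.notE, named := hS.named
           inf := fun k hk => xG_inf hok k hk, one := hS.one
           free := ?_, nsym := fun k hk => xG_nsym hG k hk, reco := ?_, cel := ?_ }
  · intro k
    unfold sG
    split_ifs with h
    · exact hmpos _
    · exact one_pos
  · intro p0 Γ hp0 hPI hΓ hR
    exact hS.free har hr hZR hZ (hEZ.trans subset_union_left) subset_union_left hp0 hPI hΓ hR
  · -- reco
    intro i q hB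
    have hi : kG i < n := kG_lt i
    have hs : sG m (kG i) = m ⟨kG i, hi⟩ := sG_eq ⟨kG i, hi⟩
    have hmem : ∀ d : Fin (m ⟨kG i, hi⟩), (xG i d, q d) ∈
        (idOn (pts (kG (G := G)) (sG m) xG Z ∪ Ca) ∪
          {p | ∃ d < sG m (kG i), p = (xG i d, q d)} : Pos) := fun d =>
      Or.inr ⟨d, by rw [hs]; exact d.2, rfl⟩
    have hCm : ∀ y ∈ C ⟨kG i, hi⟩, (y, y) ∈
        (idOn (pts (kG (G := G)) (sG m) xG Z ∪ Ca) ∪
          {p | ∃ d < sG m (kG i), p = (xG i d, q d)} : Pos) := fun y hy =>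
      Or.inl ⟨Or.inr (mem_iUnion.2 ⟨_, hy⟩), rfl⟩
    have hxi := xG_mem i ⟨kG i, hi⟩ rfl
    obtain ⟨c', hc', hr'⟩ := hC ⟨kG i, hi⟩ _ hxi (fun d => q d) (by
      refine ⟨?_, ?_, ?_⟩
      · intro d d' hdd
        have h1 := (hB.pi.2 _ (hmem d) _ (hmem d')).2 hdd
        exact (hok _).inj _ hxi h1
      · intro k y hy
        have h1 := hB.pi.2 _ (hmem k) _ (hCm y hy)
        exact h1.symm
      · intro t ht
        have h1 := cod_of_PI hB.pi (fun j => Sum.elim (fun y => (y, y))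
          (fun d : Fin (m ⟨kG i, hi⟩) => (xG i d, q d)) (t j)) (by
            intro j
            rcases htj : t j with y | d
            · simp only [Sum.elim_inl]
              exact hCm y (ht j y htj)
            · simp only [Sum.elim_inr]
              exact hmem d)
        refine Eq.trans ?_ (h1.symm.trans ?_)
        · congr 1
          funext j
          rcases t j with y | d
          · rfl
          · rfl
        · congr 1
          funext j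
          rcases t j with y | d
          · rfl
          · rfl)
    obtain ⟨i', hi', hx'⟩ := xG_surj ⟨kG i, hi⟩ c' hc'
    refine ⟨i', hi', fun y => ?_⟩
    rw [hs]
    constructor
    · rintro ⟨d, hd', rfl⟩
      have h1 : q d ∈ range (fun d : Fin (m ⟨kG i, hi⟩) => q d) := ⟨⟨d, hd'⟩, rfl⟩
      rw [← hr'] at h1
      obtain ⟨e, he⟩ := h1
      exact ⟨e, e.2, by rw [hx', he]⟩
    · rintro ⟨d, hd', rfl⟩
      have h1 : c' ⟨d, hd'⟩ ∈ range c' := ⟨_, rfl⟩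
      rw [hr'] at h1
      obtain ⟨e, he⟩ := h1
      refine ⟨e, e.2, ?_⟩
      simp only at he
      rw [he, ← hx']
  · -- cel
    intro l
    rw [hE']
    refine cel_more (hCaf.subset inter_subset_left) inter_subset_right ?_ l
    intro l
    exact cel_of_perp' har M hfin hW D _ hfinF hdis hperp l

/-- The structure `FF` from free families. -/
theorem hasFF_of_fam (har : ∀ n, a n ≤ r) (hr : 2 ≤ r) (M : Pool.H62.VT.Str a)
    (hfin : (range (cod r M)).Finite) (hW : ¬ Pool.H22.VC.Wild (cod r M) univ)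
    (hG : ∀ b, FN (cod r M) (G b))
    (hmeet : ∀ b b', b ≠ b' →
      {c | c ∈ (G b).cells ∧ ∃ c' ∈ (G b').cells, (range c ∩ range c').Nonempty}.Finite)
    (hcomm : ∀ (A : Set ℕ) (ι : Type) [Finite ι] (e : ℕ → ι → ℕ), A.Finite →
      H17.TA.Hom (cod r M) A e → (∀ i c b, e i c ∉ (G b).supp) → ∀ (κ κ' : Type) [Finite κ]
        [Finite κ'] (τ : κ → ι) (τ' : κ' → ι), H17.TA.Perp (cod r M) A e τ τ')
    (hreco : ∀ b, ∃ C : Set ℕ, C.Finite ∧ ∀ c ∈ (G b).cells, ∀ q : Fin (m b) → ℕ,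
      TyEq (cod r M) C c q → ∃ c' ∈ (G b).cells, range c' = range q) : HasFF M :=
  (hasFF0_of_fam har hr M hfin hW hG hmeet hcomm hreco).ff

end Pool.H5.AB
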