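import Pool.Agent.H5.AB.Fa3
import Pool.Agent.H17.TC.L8
import Pool.Agent.H22.VC.StepQ

/-!
# Structures which are not wild have free families
-/

set_option autoImplicit false

namespace Pool.H5.AB

open Set Ordinal Pool.H62.VT Pool.H22.VC Pool.H17.TC Pool.H22.VN Pool.H5.HA

variable {r : ℕ} {a : ℕ → ℕ}

/-- A structure of bounded arity which is not wild has free families. -/
theorem hasFF0 (har : ∀ n, a n ≤ r) (hr : 2 ≤ r) (M : Pool.H62.VT.Str a)
    (hW : ¬ Pool.H22.VC.Wild (cod r M) univ) : HasFF0 M := by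
  have hfin : (range (cod r M)).Finite := by
    by_contra h
    exact hW (stepQ (cod r M) h)
  obtain ⟨n, m, F, h1, h2, h3, h4⟩ := max_families hW hfin
  exact hasFF0_of_fam har hr M hfin hW (fun b => (h1 b).1) h2 h3 h4

/-- A structure of bounded arity which is not wild has free families. -/
theorem hasFF (har : ∀ n, a n ≤ r) (hr : 2 ≤ r) (M : Pool.H62.VT.Str a)
    (hW : ¬ Pool.H22.VC.Wild (cod r M) univ) : HasFF M :=
  (hasFF0 har hr M hW).ff

/-- Analytic classes of structures of bounded arity which are not wild. -/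
theorem main_countable (har : ∀ n, a n ≤ r) (hr : 2 ≤ r) (K : Set (Pool.H62.VT.Str a))
    (hK : MeasureTheory.AnalyticSet K) (hn : NoPerf K)
    (hW : ∀ M ∈ K, ¬ Pool.H22.VC.Wild (cod r M) univ) :
    ∃ C : Set (Pool.H62.VT.Str a), C.Countable ∧ ∀ x ∈ K, ∃ c ∈ C, ∃ σ : Equiv.Perm ℕ,
      ∀ (n : ℕ) (t : Fin (a n) → ℕ), c n (fun i => σ (t i)) = x n t :=
  ff_countable har hr K hK hn hW fun M hM => hasFF har hr M (hW M hM)

end Pool.H5.AB
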