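import Pool.Agent.H5.AB.Gs

/-!
# Systems of good labelled partial maps of a linear order

`(x, y, g) ∈ Γ` means: the cell `x` is mapped to the cell `y`, with the label change `g`.
-/

set_option autoImplicit false

namespace Pool.H5.AB

open Set Function

/-- a system of good labelled partial maps of a linear order -/
structure LS {L G : Type} [LinearOrder L] [Group G] (Q : Set (L × L × G) → Prop) : Prop where
  mono : ∀ Γ Γ', Γ ⊆ Γ' → Q Γ' → Q Γ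
  comp : ∀ Γ Γ', Q Γ → Q Γ' →
    Q {q | ∃ y g g', (q.1, y, g) ∈ Γ ∧ (y, q.2.1, g') ∈ Γ' ∧ q.2.2 = g' * g}
  inv : ∀ Γ, Q Γ → Q {q | (q.2.1, q.1, q.2.2⁻¹) ∈ Γ}
  ord : ∀ Γ : Set (L × L × G), (∀ q ∈ Γ, q.2.2 = 1) →
    (∀ q ∈ Γ, ∀ q' ∈ Γ, (q.1 < q'.1 ↔ q.2.1 < q'.2.1)) → Q Γ

variable {L G : Type} [LinearOrder L] [Group G] {Q : Set (L × L × G) → Prop} {n m p a b : ℕ}
  {σ τ ρ g : ℕ → ℕ} {lam mu nu : ℕ → G}

/-- the triples `(u i, v i, lam i)`, `i < n` -/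
def GrL (n : ℕ) (u v : ℕ → L) (lam : ℕ → G) : Set (L × L × G) :=
  {q | ∃ i < n, q = (u i, v i, lam i)}

/-- the map `i ↦ σ i` of `n` increasing points, with the label changes `lam i`, is good -/
def GQL (Q : Set (L × L × G) → Prop) (n : ℕ) (σ : ℕ → ℕ) (lam : ℕ → G) : Prop :=
  ∀ e : ℕ → L, StrictMonoOn e (Iio n) → Q (GrL n e (fun i => e (σ i)) lam)

/-- composition with order preserving maps on both sides -/
theorem LS.sandwich (h : LS Q) {u v u' v' : ℕ → L} (hQ : Q (GrL n u v lam))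
    (hu : ∀ i < n, ∀ j < n, (u' i < u' j ↔ u i < u j))
    (hv : ∀ i < n, ∀ j < n, (v i < v j ↔ v' i < v' j)) : Q (GrL n u' v' lam) := by
  have h1 : Q (GrL n u' u fun _ => 1) := by
    apply h.ord
    · rintro _ ⟨i, hi, rfl⟩
      rfl
    · rintro _ ⟨i, hi, rfl⟩ _ ⟨j, hj, rfl⟩
      exact hu i hi j hj
  have h3 : Q (GrL n v v' fun _ => 1) := by
    apply h.ord
    · rintro _ ⟨i, hi, rfl⟩
      rfl
    · rintro _ ⟨i, hi, rfl⟩ _ ⟨j, hj, rfl⟩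
      exact hv i hi j hj
  refine h.mono _ _ ?_ (h.comp _ _ (h.comp _ _ h1 hQ) h3)
  rintro _ ⟨i, hi, rfl⟩
  exact ⟨v i, lam i, 1, ⟨u i, 1, lam i, ⟨i, hi, rfl⟩, ⟨i, hi, rfl⟩, (mul_one _).symm⟩,
    ⟨i, hi, rfl⟩, (one_mul _).symm⟩

/-- the pattern of a good partial map is good -/
theorem gql_of (h : LS Q) {u v : ℕ → L} (hu : StrictMonoOn u (Iio n))
    (hv : ∀ i < n, ∀ j < n, (v i < v j ↔ σ i < σ j)) (hσ : ∀ i < n, σ i < n)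
    (hQ : Q (GrL n u v lam)) : GQL Q n σ lam := by
  intro e he
  refine h.sandwich hQ (fun i hi j hj => (he.lt_iff_lt hi hj).trans (hu.lt_iff_lt hi hj).symm)
    fun i hi j hj => (hv i hi j hj).trans (he.lt_iff_lt (hσ i hi) (hσ j hj)).symm

/-- conversely -/
theorem GQL.of (h : LS Q) {u v : ℕ → L} (hu : StrictMonoOn u (Iio n))
    (hv : ∀ i < n, ∀ j < n, (v i < v j ↔ σ i < σ j)) (hσ : ∀ i < n, σ i < n)
    (hQ : GQL Q n σ lam) : Q (GrL n u v lam) :=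
  h.sandwich (hQ u hu) (fun i hi j hj => Iff.rfl)
    fun i hi j hj => (hu.lt_iff_lt (hσ i hi) (hσ j hj)).trans (hv i hi j hj).symm

/-- subpatterns -/
theorem GQL.sub [Infinite L] (h : LS Q) (hQ : GQL Q n σ lam) (hσ : ∀ i < n, σ i < n)
    (hg : ∀ i < m, ∀ j < m, i < j → g i < g j) (hgn : ∀ i < m, g i < n) (hτ : ∀ i < m, τ i < m)
    (hp : ∀ i < m, ∀ j < m, (τ i < τ j ↔ σ (g i) < σ (g j)))
    (hl : ∀ i < m, mu i = lam (g i)) : GQL Q m τ mu := by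
  obtain ⟨e, he⟩ := exists_inc (L := L) n
  refine gql_of h (u := fun i => e (g i)) (v := fun i => e (σ (g i))) ?_ ?_ hτ ?_
  · intro i hi j hj hij
    exact he (hgn i hi) (hgn j hj) (hg i hi j hj hij)
  · intro i hi j hj
    exact (he.lt_iff_lt (hσ _ (hgn i hi)) (hσ _ (hgn j hj))).trans (hp i hi j hj).symm
  · refine h.mono _ _ ?_ (hQ e he)
    rintro _ ⟨i, hi, rfl⟩
    exact ⟨g i, hgn i hi, by simp only [hl i hi]⟩

theorem GQL.mul (h : LS Q) (hσ : GQL Q n σ lam) (hρ : GQL Q n ρ mu) (hn : ∀ i < n, σ i < n)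
    (hτ : ∀ i < n, τ i = ρ (σ i)) (hl : ∀ i < n, nu i = mu (σ i) * lam i) : GQL Q n τ nu := by
  intro e he
  refine h.mono _ _ ?_ (h.comp _ _ (hσ e he) (hρ e he))
  rintro _ ⟨i, hi, rfl⟩
  exact ⟨e (σ i), lam i, mu (σ i), ⟨i, hi, rfl⟩, ⟨σ i, hn i hi, by simp only [hτ i hi]⟩, hl i hi⟩

/-- division -/
theorem GQL.div (h : LS Q) (hσ : GQL Q n σ lam) (hρ : GQL Q n ρ mu) (hn : ∀ i < n, τ i < n)
    (hτ : ∀ i < n, ρ (τ i) = σ i) (hl : ∀ i < n, nu i = (mu (τ i))⁻¹ * lam i) :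
    GQL Q n τ nu := by
  intro e he
  refine h.mono _ _ ?_ (h.comp _ _ (hσ e he) (h.inv _ (hρ e he)))
  rintro _ ⟨i, hi, rfl⟩
  refine ⟨e (σ i), lam i, (mu (τ i))⁻¹, ⟨i, hi, rfl⟩, ⟨τ i, hn i hi, ?_⟩, hl i hi⟩
  simp only [hτ i hi, inv_inv]

theorem GQL.one (h : LS Q) (hσ : ∀ i < n, σ i = i) (hl : ∀ i < n, lam i = 1) :
    GQL Q n σ lam := by
  intro e he
  apply h.ord
  · rintro _ ⟨i, hi, rfl⟩
    exact hl i hi
  · rintro _ ⟨i, hi, rfl⟩ _ ⟨j, hj, rfl⟩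
    dsimp only
    rw [hσ i hi, hσ j hj]

theorem GQL.congr (h : LS Q) (hσ : GQL Q n σ lam) (hτ : ∀ i < n, τ i = σ i)
    (hl : ∀ i < n, mu i = lam i) : GQL Q n τ mu := by
  intro e he
  refine h.mono _ _ ?_ (hσ e he)
  rintro _ ⟨i, hi, rfl⟩
  exact ⟨i, hi, by simp only [hτ i hi, hl i hi]⟩

/-! ### Forgetting the labels -/

/-- good for some labels -/
def Qi (Q : Set (L × L × G) → Prop) (Γ : Set (L × L)) : Prop :=
  ∃ Γ', Q Γ' ∧ ∀ q ∈ Γ, ∃ g, (q.1, q.2, g) ∈ Γ'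

/-- good without label changes -/
def Q1 (Q : Set (L × L × G) → Prop) (Γ : Set (L × L)) : Prop :=
  Q {q | (q.1, q.2.1) ∈ Γ ∧ q.2.2 = 1}

theorem gs_qi (h : LS Q) : GS (Qi Q) := by
  refine ⟨?_, ?_, ?_, ?_⟩
  · rintro Γ Γ' h1 ⟨Γ'', h2, h3⟩
    exact ⟨Γ'', h2, fun q hq => h3 q (h1 hq)⟩
  · rintro Γ Γ' ⟨Δ, h1, h2⟩ ⟨Δ', h3, h4⟩
    refine ⟨_, h.comp _ _ h1 h3, ?_⟩
    rintro q ⟨y, hy1, hy2⟩
    obtain ⟨g, hg⟩ := h2 _ hy1
    obtain ⟨g', hg'⟩ := h4 _ hy2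
    exact ⟨g' * g, y, g, g', hg, hg', rfl⟩
  · rintro Γ ⟨Δ, h1, h2⟩
    refine ⟨_, h.inv _ h1, ?_⟩
    intro q hq
    obtain ⟨g, hg⟩ := h2 _ hq
    refine ⟨g⁻¹, ?_⟩
    show (q.2, q.1, g⁻¹⁻¹) ∈ Δ
    rw [inv_inv]
    exact hg
  · intro Γ hΓ
    have h1 : Q {q : L × L × G | (q.1, q.2.1) ∈ Γ ∧ q.2.2 = 1} :=
      h.ord _ (fun q hq => hq.2) (fun q hq q' hq' => hΓ _ hq.1 _ hq'.1)
    refine ⟨_, h1, ?_⟩
    intro q hq
    exact ⟨(1 : G), hq, rfl⟩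

theorem gs_q1 (h : LS Q) : GS (Q1 Q) := by
  refine ⟨?_, ?_, ?_, ?_⟩
  · intro Γ Γ' h1 h2
    refine h.mono _ _ ?_ h2
    intro q hq
    exact ⟨h1 hq.1, hq.2⟩
  · intro Γ Γ' h1 h2
    refine h.mono _ _ ?_ (h.comp _ _ h1 h2)
    rintro q ⟨⟨y, hy1, hy2⟩, hq⟩
    exact ⟨y, 1, 1, ⟨hy1, rfl⟩, ⟨hy2, rfl⟩, by rw [hq, mul_one]⟩
  · intro Γ h1
    refine h.mono _ _ ?_ (h.inv _ h1)
    rintro q ⟨hq1, hq2⟩
    refine ⟨hq1, ?_⟩
    show q.2.2⁻¹ = 1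
    rw [hq2, inv_one]
  · intro Γ hΓ
    exact h.ord _ (fun q hq => hq.2) (fun q hq q' hq' => hΓ _ hq.1 _ hq'.1)

theorem gq_q1 (h : LS Q) : GQ (Q1 Q) n σ ↔ GQL Q n σ (fun _ => 1) := by
  constructor
  · intro hQ e he
    refine h.mono _ _ ?_ (hQ e he)
    rintro _ ⟨i, hi, rfl⟩
    exact ⟨⟨i, hi, rfl⟩, rfl⟩
  · intro hQ e he
    refine h.mono _ _ ?_ (hQ e he)
    rintro ⟨q1, q2, q3⟩ ⟨⟨i, hi, h1⟩, h2⟩
    simp only [Prod.mk.injEq] at h1 h2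
    exact ⟨i, hi, by rw [h1.1, h1.2, h2]⟩

theorem gq_qi [Infinite L] (h : LS Q) (hσ : ∀ i < n, σ i < n) :
    GQ (Qi Q) n σ ↔ ∃ lam, GQL Q n σ lam := by
  constructor
  · intro hQ
    obtain ⟨e, he⟩ := exists_inc (L := L) n
    obtain ⟨Γ, h1, h2⟩ := hQ e he
    have h3 : ∀ i, ∃ g, i < n → (e i, e (σ i), g) ∈ Γ := by
      intro i
      by_cases hi : i < n
      · obtain ⟨g, hg⟩ := h2 _ ⟨i, hi, rfl⟩
        exact ⟨g, fun _ => hg⟩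
      · exact ⟨1, fun h => absurd h hi⟩
    choose lam hlam using h3
    refine ⟨lam, gql_of h (u := e) (v := fun i => e (σ i)) he ?_ hσ ?_⟩
    · intro i hi j hj
      exact he.lt_iff_lt (hσ i hi) (hσ j hj)
    · refine h.mono _ _ ?_ h1
      rintro _ ⟨i, hi, rfl⟩
      exact hlam i hi
  · rintro ⟨lam, hQ⟩ e he
    refine ⟨_, hQ e he, ?_⟩
    rintro _ ⟨i, hi, rfl⟩
    exact ⟨lam i, i, hi, rfl⟩

/-- the labels `nu1`, `nu2` at `p`, `p + 1` -/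
def lab2 (p : ℕ) (nu1 nu2 : G) (i : ℕ) : G := if i = p then nu1 else if i = p + 1 then nu2 else 1

/-- the label `mu` at `p` -/
def lab1 (p : ℕ) (mu : G) (i : ℕ) : G := if i = p then mu else 1

end Pool.H5.AB
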