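import Pool.Agent.H5.AB.Kd
import Pool.Agent.H5.AB.Ls

/-!
# Cells, label changes, and the labelled system of a kind
-/

set_option autoImplicit false

namespace Pool.H5.AB

open Set Ordinal Pool.H62.VT

variable {a : ℕ → ℕ} {I : Type} {M : Str a} {E E' : Set ℕ} {m c : ℕ} [LinearOrder I]
  {kd : I → ℕ} {sz : ℕ → ℕ} {x : I → ℕ → ℕ} {Rn : Finset I} {k : ℕ} {R R' : Set ℕ}

/-- the position moving the cell `i` (size `s`) to `i'` with the label change `g` -/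
def mvL (x : I → ℕ → ℕ) {s : ℕ} (i i' : I) (g : Equiv.Perm (Fin s)) : Pos :=
  {q | ∃ d : Fin s, q = (x i d, x i' (g d))}

/-- the labelled partial map `Γ` of cells of kind `k` is good over the set `R` of fixed points -/
def QL (M : Str a) (R : Set ℕ) (kd : I → ℕ) (sz : ℕ → ℕ) (x : I → ℕ → ℕ) (k : ℕ)
    (Γ : Set (Lk kd k × Lk kd k × Equiv.Perm (Fin (sz k)))) : Prop :=
  PI M M (idOn R ∪ {q | ∃ g ∈ Γ, q ∈ mvL x g.1.1 g.2.1.1 g.2.2})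

/-- the label change `g` is good in all cells of kind `k`, everything else fixed -/
def GdL (M : Str a) (kd : I → ℕ) (sz : ℕ → ℕ) (x : I → ℕ → ℕ) (k : ℕ)
    (g : Equiv.Perm (Fin (sz k))) : Prop :=
  ∀ i, kd i = k → PI M M (idOn {y | ∀ d < sz k, y ≠ x i d} ∪ mvL x i i g)

theorem QL.anti {Γ : Set (Lk kd k × Lk kd k × Equiv.Perm (Fin (sz k)))} (h : QL M R kd sz x k Γ)
    (hR : R' ⊆ R) : QL M R' kd sz x k Γ := by
  refine PI.mono h ?_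
  rintro q (hq | hq)
  · exact Or.inl ⟨hR hq.1, hq.2⟩
  · exact Or.inr hq

theorem ls_kind (hF : FF M Rn E E' m c kd sz x) (k : ℕ) (hR : R ⊆ Rs kd sz x k) :
    LS (QL M R kd sz x k) := by
  refine ⟨?_, ?_, ?_, ?_⟩
  · intro Γ Γ' h1 h2
    refine PI.mono h2 ?_
    rintro q (hq | ⟨g, hg, hq⟩)
    · exact Or.inl hq
    · exact Or.inr ⟨g, h1 hg, hq⟩
  · intro Γ Γ' h1 h2
    refine (PI.trans h1 h2).mono ?_
    rintro q (hq | ⟨g, ⟨y, g1, g2, hg1, hg2, hg⟩, d, rfl⟩)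
    · obtain ⟨q1, q2⟩ := q
      obtain ⟨hq1, hq2⟩ := hq
      simp only at hq1 hq2
      subst hq2
      exact ⟨q1, Or.inl ⟨hq1, rfl⟩, Or.inl ⟨hq1, rfl⟩⟩
    · refine ⟨x y.1 (g1 d), Or.inr ⟨_, hg1, d, rfl⟩, Or.inr ⟨_, hg2, g1 d, ?_⟩⟩
      rw [hg]
      rfl
  · intro Γ h1
    refine (PI.symm h1).mono ?_
    rintro q (hq | ⟨g, hg, d, rfl⟩)
    · obtain ⟨q1, q2⟩ := q
      obtain ⟨hq1, hq2⟩ := hq
      simp only at hq1 hq2
      subst hq2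
      exact Or.inl ⟨hq1, rfl⟩
    · refine Or.inr ⟨_, hg, g.2.2 d, ?_⟩
      show (x g.2.1.1 (g.2.2 d), x g.1.1 d) = (x g.2.1.1 (g.2.2 d), x g.1.1 (g.2.2⁻¹ (g.2.2 d)))
      simp
  · intro Γ h1 h2
    have h3 := (gs_kind hF k).ord {q | ∃ g ∈ Γ, q = (g.1, g.2.1)} (by
      rintro _ ⟨g, hg, rfl⟩ _ ⟨g', hg', rfl⟩
      exact h2 g hg g' hg')
    refine PI.mono h3 ?_
    rintro q (hq | ⟨g, hg, d, rfl⟩)
    · exact Or.inl ⟨hR hq.1, hq.2⟩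
    · refine Or.inr ⟨(g.1, g.2.1), ⟨g, hg, rfl⟩, d, d.2, ?_⟩
      rw [h1 g hg]
      rfl

/-- no label change is good -/
theorem gl_one : GdL M kd sz x k 1 := by
  intro i hi
  refine (pi_id M univ).mono ?_
  rintro q (hq | ⟨d, rfl⟩)
  · exact ⟨mem_univ _, hq.2⟩
  · exact ⟨mem_univ _, rfl⟩

/-- good label changes can be composed -/
theorem gl_mul {g g' : Equiv.Perm (Fin (sz k))} (h : GdL M kd sz x k g)
    (h' : GdL M kd sz x k g') : GdL M kd sz x k (g' * g) := by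
  intro i hi
  refine ((h i hi).trans (h' i hi)).mono ?_
  rintro q (hq | ⟨d, rfl⟩)
  · obtain ⟨q1, q2⟩ := q
    obtain ⟨hq1, hq2⟩ := hq
    simp only at hq1 hq2
    subst hq2
    exact ⟨q1, Or.inl ⟨hq1, rfl⟩, Or.inl ⟨hq1, rfl⟩⟩
  · exact ⟨x i (g d), Or.inr ⟨d, rfl⟩, Or.inr ⟨g d, rfl⟩⟩

/-- the cell `i` as a finite set -/
def cell (kd : I → ℕ) (sz : ℕ → ℕ) (x : I → ℕ → ℕ) (i : I) : Finset ℕ :=
  (Finset.range (sz (kd i))).image (x i)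

theorem mem_cell {i : I} {y : ℕ} : y ∈ cell kd sz x i ↔ ∃ d < sz (kd i), x i d = y := by
  unfold cell
  rw [Finset.mem_image]
  constructor
  · rintro ⟨d, hd, h⟩
    exact ⟨d, Finset.mem_range.1 hd, h⟩
  · rintro ⟨d, hd, h⟩
    exact ⟨d, Finset.mem_range.2 hd, h⟩

/-- cells with a common point are equal -/
theorem cell_eq (hF : FF M Rn E E' m c kd sz x) {i i' : I} {y : ℕ} (h : y ∈ cell kd sz x i)
    (h' : y ∈ cell kd sz x i') (hk : kd i = kd i' ∨ i ∉ Rn ∨ i' ∉ Rn) : i = i' := by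
  obtain ⟨d, hd, h1⟩ := mem_cell.1 h
  obtain ⟨d', hd', h1'⟩ := mem_cell.1 h'
  exact (hF.inj i i' d d' hd hd' (h1.trans h1'.symm) hk).1

theorem cell_ne (hF : FF M Rn E E' m c kd sz x) (i : I) : (cell kd sz x i).Nonempty :=
  ⟨x i 0, mem_cell.2 ⟨0, hF.pos _, rfl⟩⟩

end Pool.H5.AB
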