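import Pool.Agent.H5.AA.Def

/-!
# Free families of cells: definitions

The cells are indexed by a linear order `I`; `kd i < c` is the kind of the cell `i`, `sz k` the size
of the cells of kind `k`, and `x i d`, `d < sz (kd i)`, are the points of the cell `i`. Only the order
of cells of the same kind matters.
-/

set_option autoImplicit false

namespace Pool.H5.AB

open Set Ordinal Pool.H62.VT

variable {a : ℕ → ℕ} {I : Type}

/-- the position moving the cell `g.1` to the cell `g.2` for all `g ∈ Γ` -/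
def MV (kd : I → ℕ) (sz : ℕ → ℕ) (x : I → ℕ → ℕ) (Γ : Set (I × I)) : Pos :=
  {q | ∃ g ∈ Γ, ∃ d < sz (kd g.1), q = (x g.1 d, x g.2 d)}

/-- `Γ` is a partial injection respecting the kinds -/
def InjK (kd : I → ℕ) (Γ : Set (I × I)) : Prop :=
  (∀ g ∈ Γ, kd g.1 = kd g.2) ∧ ∀ g ∈ Γ, ∀ h ∈ Γ, (g.1 = h.1 ↔ g.2 = h.2)

/-- `Γ` preserves the kinds and the order inside each kind -/
def MonK [LT I] (kd : I → ℕ) (Γ : Set (I × I)) : Prop :=
  InjK kd Γ ∧ ∀ g ∈ Γ, ∀ h ∈ Γ, kd g.1 = kd h.1 → (g.1 < h.1 ↔ g.2 < h.2)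

/-- the points outside `E` and outside all cells -/
def Dr (E : Set ℕ) (kd : I → ℕ) (sz : ℕ → ℕ) (x : I → ℕ → ℕ) : Set ℕ :=
  {y | y ∉ E ∧ ∀ i, ∀ d < sz (kd i), y ≠ x i d}

/-- the points outside the cells of kind `k` -/
def Rs (kd : I → ℕ) (sz : ℕ → ℕ) (x : I → ℕ → ℕ) (k : ℕ) : Set ℕ :=
  {y | ∀ i, kd i = k → ∀ d < sz k, y ≠ x i d}

/-- `M` consists of the finite set `E`, of chains of cells of finitely many kinds, which can be moved
freely (those in the finite set `Rn` are named: their points are in `E`, and they may meet cells of `Rn`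
of other kinds), and of a rest with few orbits; `E' ⊇ E` is finite (it may contain points of cells),
`m` is a number. -/
structure FF (M : Str a) (Rn : Finset I) (E E' : Set ℕ) (m c : ℕ) [LinearOrder I] (kd : I → ℕ)
    (sz : ℕ → ℕ) (x : I → ℕ → ℕ) : Prop where
  fin : E'.Finite
  sub : E ⊆ E'
  kdc : ∀ i, kd i < c
  pos : ∀ k, 0 < sz k
  inj : ∀ i i' d d', d < sz (kd i) → d' < sz (kd i') → x i d = x i' d' →
    (kd i = kd i' ∨ i ∉ Rn ∨ i' ∉ Rn) → i = i' ∧ d = d'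
  notE : ∀ i, i ∉ Rn → ∀ d < sz (kd i), x i d ∉ E
  named : ∀ i ∈ Rn, ∀ d < sz (kd i), x i d ∈ E
  inf : ∀ k < c, {i | kd i = k}.Infinite
  /-- moving the cells of one kind by order preserving maps -/
  one : ∀ (k : ℕ) (Γ : Set (I × I)), MonK kd Γ → (∀ g ∈ Γ, kd g.1 = k) →
    PI M M (idOn (Rs kd sz x k) ∪ MV kd sz x Γ)
  /-- moving cells by order preserving maps, independently of the rest, the named cells are fixed -/
  free : ∀ (p0 : Pos) (Γ : Set (I × I)), (∀ q ∈ p0, q.1 ∈ Dr E kd sz x ∧ q.2 ∈ Dr E kd sz x) →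
    PI M M (idOn E' ∪ p0) → MonK kd Γ → (∀ i ∈ Rn, (i, i) ∈ Γ) →
      PI M M (idOn E ∪ p0 ∪ MV kd sz x Γ)
  /-- no kind is symmetric -/
  nsym : ∀ k < c, ∃ Γ : Set (I × I), Γ.Finite ∧ InjK kd Γ ∧ (∀ g ∈ Γ, kd g.1 = k) ∧
    ¬ PI M M (idOn (Rs kd sz x k) ∪ MV kd sz x Γ)
  /-- cells are recognised (finite level `m`, parameters `E'`), up to the labels -/
  reco : ∀ (i : I) (q : ℕ → ℕ),
    BF M univ M univ m (idOn E' ∪ {r | ∃ d < sz (kd i), r = (x i d, q d)}) →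
      ∃ i', kd i' = kd i ∧ ∀ y, (∃ d < sz (kd i), q d = y) ↔ ∃ d < sz (kd i), x i' d = y
  /-- the rest has finitely many orbits of `n`-tuples -/
  cel : ∀ n : ℕ, ∃ R : Set (Fin n → ℕ), R.Finite ∧ ∀ u : Fin n → ℕ, (∀ i, u i ∈ Dr E kd sz x) →
    ∃ v ∈ R, ∃ P : Pos, (∀ q ∈ P, q.1 ∈ Dr E kd sz x ∧ q.2 ∈ Dr E kd sz x) ∧
      Mt P (Dr E kd sz x) (Dr E kd sz x) ∧ PI M M (idOn E' ∪ P) ∧ ∀ i, (u i, v i) ∈ P

end Pool.H5.AB
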