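import Mathlib

/-!
# Monotone subsequences (Erdős and Szekeres)
-/

set_option autoImplicit false

namespace Pool.H5.AB

open Set Function

variable {L L' : Type} [LinearOrder L] [LinearOrder L']

theorem es_set (v : L → L') (k l : ℕ) (F : Finset L) (hv : InjOn v F) (hF : 2 ^ (k + l) ≤ F.card) :
    (∃ S ⊆ F, S.card = k ∧ StrictMonoOn v S) ∨ (∃ S ⊆ F, S.card = l ∧ StrictAntiOn v S) := by
  classical
  induction k generalizing l F with
  | zero => exact Or.inl ⟨∅, Finset.empty_subset _, rfl, fun x hx => absurd hx (by simp)⟩
  | succ k ihk =>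
    induction l generalizing F with
    | zero => exact Or.inr ⟨∅, Finset.empty_subset _, rfl, fun x hx => absurd hx (by simp)⟩
    | succ l ihl =>
      have hne : F.Nonempty := by
        rw [← Finset.card_pos]
        exact lt_of_lt_of_le (by positivity) hF
      obtain ⟨x, hx, hmin⟩ : ∃ x ∈ F, ∀ y ∈ F, x ≤ y := ⟨F.min' hne, F.min'_mem hne, fun y hy => F.min'_le y hy⟩
      set F1 := (F.erase x).filter (fun y => v x < v y) with hF1
      set F2 := (F.erase x).filter (fun y => ¬ v x < v y) with hF2
      have hcard : F1.card + F2.card = F.card - 1 := by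
        rw [hF1, hF2, Finset.card_filter_add_card_filter_not, Finset.card_erase_of_mem hx]
      have hp : 2 ^ (k + 1 + (l + 1)) = 2 ^ (k + (l + 1)) + 2 ^ (k + 1 + l) := by ring
      have hpos : 0 < 2 ^ (k + 1 + l) := by positivity
      have h12 : 2 ^ (k + (l + 1)) ≤ F1.card ∨ 2 ^ (k + 1 + l) ≤ F2.card := by
        have : 2 ^ (k + (l + 1)) = 2 ^ (k + 1 + l) := by ring
        omega
      have hs1 : F1 ⊆ F := (Finset.filter_subset _ _).trans (Finset.erase_subset _ _)
      have hs2 : F2 ⊆ F := (Finset.filter_subset _ _).trans (Finset.erase_subset _ _)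
      have hlt : ∀ y ∈ F.erase x, x < y := fun y hy =>
        lt_of_le_of_ne (hmin y (Finset.mem_of_mem_erase hy)) (Finset.ne_of_mem_erase hy).symm
      rcases h12 with h1 | h2
      · rcases ihk (l + 1) F1 (hv.mono hs1) h1 with ⟨S, hS, hc, hm⟩ | ⟨S, hS, hc, hm⟩
        · left
          have hxS : x ∉ S := fun h => by
            have := hS h
            simp [hF1] at this
          refine ⟨insert x S, Finset.insert_subset hx (hS.trans hs1), ?_, ?_⟩
          · rw [Finset.card_insert_of_notMem hxS, hc]
          · intro y hy z hz hyz
            rw [Finset.coe_insert] at hy hz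
            rcases hy with rfl | hy
            · rcases hz with rfl | hz
              · exact absurd hyz (lt_irrefl _)
              · exact (Finset.mem_filter.1 (hS hz)).2
            · rcases hz with rfl | hz
              · exact absurd hyz (hlt y (Finset.mem_filter.1 (hS hy)).1).not_gt
              · exact hm hy hz hyz
        · exact Or.inr ⟨S, hS.trans hs1, hc, hm⟩
      · rcases ihl F2 (hv.mono hs2) h2 with ⟨S, hS, hc, hm⟩ | ⟨S, hS, hc, hm⟩
        · exact Or.inl ⟨S, hS.trans hs2, hc, hm⟩
        · right
          have hxS : x ∉ S := fun h => by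
            have := hS h
            simp [hF2] at this
          refine ⟨insert x S, Finset.insert_subset hx (hS.trans hs2), ?_, ?_⟩
          · rw [Finset.card_insert_of_notMem hxS, hc]
          · intro y hy z hz hyz
            rw [Finset.coe_insert] at hy hz
            rcases hy with rfl | hy
            · rcases hz with rfl | hz
              · exact absurd hyz (lt_irrefl _)
              · have h3 := Finset.mem_filter.1 (hS hz)
                refine lt_of_le_of_ne (not_lt.1 h3.2) ?_
                intro h4
                exact hyz.ne (hv hx (Finset.mem_of_mem_erase h3.1) h4.symm)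
            · rcases hz with rfl | hz
              · exact absurd hyz (hlt y (Finset.mem_filter.1 (hS hy)).1).not_gt
              · exact hm hy hz hyz

/-- enumeration of a finite set -/
theorem exists_enum (S : Finset L) (n : ℕ) (hn : n ≤ S.card) (e0 : L) : ∃ e : ℕ → L,
    StrictMonoOn e (Iio n) ∧ ∀ i < n, e i ∈ S := by
  refine ⟨fun i => if hi : i < S.card then S.orderEmbOfFin rfl ⟨i, hi⟩ else e0, ?_, ?_⟩
  · intro i hi j hj hij
    simp only [mem_Iio] at hi hj
    simp only [dif_pos (lt_of_lt_of_le hi hn), dif_pos (lt_of_lt_of_le hj hn)]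
    exact (S.orderEmbOfFin rfl).strictMono hij
  · intro i hi
    simp only [dif_pos (lt_of_lt_of_le hi hn)]
    exact Finset.orderEmbOfFin_mem _ _ _

end Pool.H5.AB
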