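import Pool.Agent.H5.AB.Fa1
import Pool.Agent.H22.CO.Def

/-!
# The rest is cellular
-/

set_option autoImplicit false

namespace Pool.H5.AB

open Set Ordinal Pool.H62.VT Pool.H22.CO

variable {a : ℕ → ℕ} {I : Type} {M : Str a} {E : Set ℕ} {c s : ℕ} [LinearOrder I]
  {kd : I → ℕ} {sz : ℕ → ℕ} {x : I → ℕ → ℕ} {Rn : Finset I}

/-- The rest is cellular over a finite set which is large enough, hence cellular. -/
theorem Sy.hcl (h : Sy M Rn E c kd sz x) (har : ∀ n, a n ≤ s) (hs : 2 ≤ s) {Z : Finset I}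
    (hZR : Rn ⊆ Z) (hZ : open Classical in ∀ F : Finset I,
    F.card ≤ s → (∀ i ∈ F, i ∉ Rn) → ∀ κ, (F.filter (fun i => cls kd Rn i = κ)).card ≤
      ((Z \ Rn).filter (fun i => cls kd Rn i = κ)).card) {F : Set ℕ} (hEF : E ⊆ F)
    (hZF : pts kd sz x Z ⊆ F)
    (hX : ∃ (m : ℕ) (c q : ℕ → ℕ), (∀ y ∈ Dr E kd sz x, c y < m) ∧
      (∀ y ∈ Dr E kd sz x, ∀ y' ∈ Dr E kd sz x, c y = c y' → q y = q y' → y = y') ∧
      ∀ g : Equiv.Perm ℕ, (∀ y, y ∉ Dr E kd sz x → g y = y) →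
        (∀ y ∈ Dr E kd sz x, c (g y) = c y) →
        (∀ y ∈ Dr E kd sz x, ∀ y' ∈ Dr E kd sz x, (q y = q y' ↔ q (g y) = q (g y'))) →
        PI M M (idOn F ∪ {p | p.1 ∈ Dr E kd sz x ∧ p.2 = g p.1})) : HCl M (Dr E kd sz x) := by
  obtain ⟨m, c', q, h1, h2, h3⟩ := hX
  refine ⟨m, c', q, h1, h2, fun g hg hc hq => ⟨?_, hg⟩⟩
  have hgD : ∀ y ∈ Dr E kd sz x, g y ∈ Dr E kd sz x := by
    intro y hy
    by_contra hcon
    have h4 := hg _ hcon
    have h5 := g.injective h4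
    rw [h5] at hcon
    exact hcon hy
  have h4 := h.free har hs hZR hZ hEF hZF
    (p0 := {p | p.1 ∈ Dr E kd sz x ∧ p.2 = g p.1}) (Γ := {g | g.1 = g.2}) (by
      rintro p ⟨h5, h6⟩
      exact ⟨h5, h6 ▸ hgD _ h5⟩) (h3 g hg hc hq) (by
      refine ⟨⟨fun g hg => ?_, fun g hg g' hg' => ?_⟩, fun g hg g' hg' => ?_⟩
      · have h5 : g.1 = g.2 := hg
        rw [h5]
      · have h5 : g.1 = g.2 := hg
        have h6 : g'.1 = g'.2 := hg'
        rw [h5, h6]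
      · have h5 : g.1 = g.2 := hg
        have h6 : g'.1 = g'.2 := hg'
        intro _
        rw [h5, h6]) (fun i _ => rfl)
  intro n t
  refine (h4.1 n (fun i => (t i, g (t i))) fun i => ?_).symm
  by_cases hD : t i ∈ Dr E kd sz x
  · exact Or.inl (Or.inr ⟨hD, rfl⟩)
  · rw [hg _ hD]
    by_cases hE : t i ∈ E
    · exact Or.inl (Or.inl ⟨hE, rfl⟩)
    · right
      unfold Dr at hD
      simp only [mem_setOf_eq, not_and, not_forall, not_not] at hD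
      obtain ⟨j, d, hd, he⟩ := hD hE
      exact ⟨(j, j), rfl, d, hd, by rw [he]⟩

end Pool.H5.AB
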