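import Pool.Agent.H5.AB.StD
import Pool.Agent.H5.AA.Fre

/-!
# Simultaneous free moves of several families of cells
-/

set_option autoImplicit false

namespace Pool.H5.AB

open Set Ordinal Pool.H62.VT

variable {a : ℕ → ℕ} {I : Type} {M : Str a} {E E' : Set ℕ} {c s : ℕ} [LinearOrder I]
  {kd : I → ℕ} {sz : ℕ → ℕ} {x : I → ℕ → ℕ} {Rn : Finset I}

/-- families of cells, each of which can be moved freely; `Rn`: the named cells -/
structure Sy (M : Str a) (Rn : Finset I) (E : Set ℕ) (c : ℕ) (kd : I → ℕ) (sz : ℕ → ℕ)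
    (x : I → ℕ → ℕ) : Prop where
  kdc : ∀ i, kd i < c
  inj : ∀ i i' d d', d < sz (kd i) → d' < sz (kd i') → x i d = x i' d' →
    (kd i = kd i' ∨ i ∉ Rn ∨ i' ∉ Rn) → i = i' ∧ d = d'
  notE : ∀ i, i ∉ Rn → ∀ d < sz (kd i), x i d ∉ E
  named : ∀ i ∈ Rn, ∀ d < sz (kd i), x i d ∈ E
  one : ∀ (k : ℕ) (Γ : Set (I × I)), MonK kd Γ → (∀ g ∈ Γ, kd g.1 = k) →
    PI M M (idOn (Rs kd sz x k) ∪ MV kd sz x Γ)

/-- all kinds are moved simultaneously -/
theorem Sy.all (h : Sy M Rn E c kd sz x) {Γ : Set (I × I)} (hΓ : MonK kd Γ)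
    (hR : ∀ i ∈ Rn, (i, i) ∈ Γ) : PI M M (idOn (Dr E kd sz x ∪ E) ∪ MV kd sz x Γ) := by
  have key : ∀ n, PI M M (idOn (Dr E kd sz x ∪ E) ∪ MV kd sz x
      ({g | g ∈ Γ ∧ kd g.1 < n} ∪ {g | g.1 = g.2 ∧ n ≤ kd g.1})) := by
    intro n
    induction n with
    | zero =>
      refine (pi_id M univ).mono ?_
      rintro q (hq | ⟨g, ⟨-, h1⟩ | ⟨h1, -⟩, d, hd, rfl⟩)
      · exact ⟨mem_univ _, hq.2⟩
      · exact absurd h1 (Nat.not_lt_zero _)
      · exact ⟨mem_univ _, by rw [h1]⟩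
    | succ n ih =>
      have h1 := h.one n {g | g ∈ Γ ∧ kd g.1 = n}
        ⟨⟨fun g hg => hΓ.1.1 g hg.1, fun g hg g' hg' => hΓ.1.2 g hg.1 g' hg'.1⟩,
          fun g hg g' hg' => hΓ.2 g hg.1 g' hg'.1⟩ (fun g hg => hg.2)
      -- points of `E` are fixed by the second map
      have hE2 : ∀ y ∈ E, (y, y) ∈ (idOn (Rs kd sz x n) ∪
          MV kd sz x {g | g ∈ Γ ∧ kd g.1 = n} : Pos) := by
        intro y hy
        by_cases hRs : y ∈ Rs kd sz x n
        · exact Or.inl ⟨hRs, rfl⟩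
        · right
          unfold Rs at hRs
          simp only [mem_setOf_eq] at hRs
          push Not at hRs
          obtain ⟨i, hik, d, hd, rfl⟩ := hRs
          have hiR : i ∈ Rn := by
            by_contra hcon
            exact h.notE i hcon d (by rw [hik]; exact hd) hy
          exact ⟨(i, i), ⟨hR i hiR, hik⟩, d, by rw [hik]; exact hd, rfl⟩
      have hcell : ∀ i, kd i ≠ n → ∀ d < sz (kd i), (x i d, x i d) ∈ (idOn (Rs kd sz x n) ∪
          MV kd sz x {g | g ∈ Γ ∧ kd g.1 = n} : Pos) := by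
        intro i hi d hd
        by_cases hiR : i ∈ Rn
        · exact hE2 _ (h.named i hiR d hd)
        · refine Or.inl ⟨?_, rfl⟩
          intro j hj e he hx
          obtain ⟨h2, -⟩ := h.inj i j d e hd (by rw [hj]; exact he) hx (Or.inr (Or.inl hiR))
          exact hi (h2 ▸ hj)
      refine (ih.trans h1).mono ?_
      rintro ⟨q1, q2⟩ (⟨hq | hq, hq2⟩ | ⟨g, ⟨hg, hlt⟩ | ⟨hg, hle⟩, d, hd, hq⟩)
      · simp only at hq hq2
        subst hq2
        exact ⟨q1, Or.inl ⟨Or.inl hq, rfl⟩, Or.inl ⟨rs_D hq, rfl⟩⟩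
      · simp only at hq hq2
        subst hq2
        exact ⟨q1, Or.inl ⟨Or.inr hq, rfl⟩, hE2 q1 hq⟩
      · rw [Prod.mk.injEq] at hq
        obtain ⟨rfl, rfl⟩ := hq
        rcases Nat.lt_succ_iff_lt_or_eq.1 hlt with h2 | h2
        · have h3 : kd g.2 = kd g.1 := (hΓ.1.1 g hg).symm
          exact ⟨x g.2 d, Or.inr ⟨g, Or.inl ⟨hg, h2⟩, d, hd, rfl⟩,
            hcell g.2 (by omega) d (by rw [h3]; exact hd)⟩
        · exact ⟨x g.1 d, Or.inr ⟨(g.1, g.1), Or.inr ⟨rfl, h2.ge⟩, d, hd, rfl⟩,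
            Or.inr ⟨g, ⟨hg, h2⟩, d, hd, rfl⟩⟩
      · rw [Prod.mk.injEq] at hq
        obtain ⟨rfl, rfl⟩ := hq
        refine ⟨x g.1 d, Or.inr ⟨(g.1, g.1), Or.inr ⟨rfl, ?_⟩, d, hd, rfl⟩, ?_⟩
        · show n ≤ kd g.1
          omega
        · rw [← hg]
          exact hcell g.1 (by omega) d hd
  refine (key c).mono ?_
  rintro q (hq | ⟨g, hg, d, hd, rfl⟩)
  · exact Or.inl hq
  · exact Or.inr ⟨g, Or.inl ⟨hg, h.kdc _⟩, d, hd, rfl⟩

/-- the points of the cells in `Z` -/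
def pts (kd : I → ℕ) (sz : ℕ → ℕ) (x : I → ℕ → ℕ) (Z : Finset I) : Set ℕ :=
  {y | ∃ i ∈ Z, ∃ d < sz (kd i), y = x i d}

theorem pts_finite (Z : Finset I) : (pts kd sz x Z).Finite := by
  have h1 : pts kd sz x Z = ⋃ i ∈ Z, (fun d => x i d) '' Iio (sz (kd i)) := by
    ext y
    simp only [pts, mem_setOf_eq, mem_iUnion, mem_image, mem_Iio, exists_prop]
    constructor
    · rintro ⟨i, hi, d, hd, rfl⟩
      exact ⟨i, hi, d, hd, rfl⟩
    · rintro ⟨i, hi, d, hd, rfl⟩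
      exact ⟨i, hi, d, hd, rfl⟩
  rw [h1]
  exact Z.finite_toSet.biUnion fun i _ => (finite_Iio _).image _

open Classical in
/-- number of cells of the same class in `F` below `i` -/
noncomputable def rk (cl : I → ℕ) (F : Finset I) (i : I) : ℕ :=
  (F.filter (fun i' => cl i' = cl i ∧ i' < i)).card

theorem rk_lt {cl : I → ℕ} {F : Finset I} {i i' : I} (hi : i ∈ F) (hk : cl i = cl i')
    (h : i < i') : rk cl F i < rk cl F i' := by
  classical
  apply Finset.card_lt_card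
  refine Finset.ssubset_iff_subset_ne.2 ⟨?_, ?_⟩
  · intro p hp
    rw [Finset.mem_filter] at hp ⊢
    exact ⟨hp.1, hp.2.1.trans hk, hp.2.2.trans h⟩
  · intro he
    have h1 : i ∈ F.filter (fun i'' => cl i'' = cl i' ∧ i'' < i') :=
      Finset.mem_filter.2 ⟨hi, hk, h⟩
    rw [← he, Finset.mem_filter] at h1
    exact lt_irrefl _ h1.2.2

open Classical in
theorem rk_card {cl : I → ℕ} {F : Finset I} {i : I} (hi : i ∈ F) :
    rk cl F i < (F.filter (fun i' => cl i' = cl i)).card := by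
  apply Finset.card_lt_card
  refine Finset.ssubset_iff_subset_ne.2 ⟨?_, ?_⟩
  · intro p hp
    rw [Finset.mem_filter] at hp ⊢
    exact ⟨hp.1, hp.2.1⟩
  · intro he
    have h1 : i ∈ F.filter (fun i' => cl i' = cl i) := Finset.mem_filter.2 ⟨hi, rfl⟩
    rw [← he, Finset.mem_filter] at h1
    exact lt_irrefl _ h1.2.2

/-- increasing enumeration of a finite set -/
theorem exists_zl (S : Finset I) (hne : Nonempty I) :
    ∃ e : ℕ → I, (∀ l < S.card, e l ∈ S) ∧ ∀ l l', l < l' → l' < S.card → e l < e l' := by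
  classical
  obtain ⟨i0⟩ := hne
  refine ⟨fun l => if h : l < S.card then S.orderEmbOfFin rfl ⟨l, h⟩ else i0, ?_, ?_⟩
  · intro l hl
    beta_reduce
    rw [dif_pos hl]
    exact S.orderEmbOfFin_mem rfl ⟨l, hl⟩
  · intro l l' hll hl'
    beta_reduce
    rw [dif_pos (hll.trans hl'), dif_pos hl']
    exact (S.orderEmbOfFin rfl).strictMono hll

/-- a finite subset which is large enough for all subsets with at most `s` elements -/
theorem exists_big {L : Type} (S : Set L) (s : ℕ) : ∃ T : Finset L, (T : Set L) ⊆ S ∧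
    ∀ F : Finset L, (F : Set L) ⊆ S → F.card ≤ s → F.card ≤ T.card := by
  classical
  by_cases h : ∃ T : Finset L, (T : Set L) ⊆ S ∧ T.card = s
  · obtain ⟨T, h1, h2⟩ := h
    exact ⟨T, h1, fun F _ hF => hF.trans h2.ge⟩
  · have hfin : S.Finite := by
      by_contra hinf
      obtain ⟨T, h1, h2⟩ := Set.Infinite.exists_subset_card_eq hinf s
      exact h ⟨T, h1, h2⟩
    refine ⟨hfin.toFinset, by rw [Set.Finite.coe_toFinset], fun F hF _ => ?_⟩
    apply Finset.card_le_card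
    intro y hy
    rw [Set.Finite.mem_toFinset]
    exact hF hy

/-- the class of a cell: its kind and its gap -/
noncomputable def cls (kd : I → ℕ) (Rn : Finset I) (i : I) : ℕ :=
  kd i * (Rn.card + 1) + gap kd Rn i

theorem cls_eq {i i' : I} (h : cls kd Rn i = cls kd Rn i') :
    kd i = kd i' ∧ gap kd Rn i = gap kd Rn i' := by
  unfold cls at h
  have h1 := gap_le (kd := kd) (Nm := Rn) i
  have h2 := gap_le (kd := kd) (Nm := Rn) i'
  have h3 : kd i = kd i' := by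
    have e1 : (kd i * (Rn.card + 1) + gap kd Rn i) / (Rn.card + 1) = kd i := by
      rw [Nat.add_comm, Nat.add_mul_div_right _ _ (by omega), Nat.div_eq_of_lt h1, Nat.zero_add]
    have e2 : (kd i' * (Rn.card + 1) + gap kd Rn i') / (Rn.card + 1) = kd i' := by
      rw [Nat.add_comm, Nat.add_mul_div_right _ _ (by omega), Nat.div_eq_of_lt h2, Nat.zero_add]
    rw [← e1, h, e2]
  refine ⟨h3, ?_⟩
  rw [h3] at h
  omega

open Classical in
/-- a finite set of cells with room for `s` cells in every class -/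
theorem exists_Z (hk : ∀ i, kd i < c) (Rn : Finset I) (s : ℕ) : ∃ Z : Finset I, Rn ⊆ Z ∧
    ∀ F : Finset I, F.card ≤ s → (∀ i ∈ F, i ∉ Rn) → ∀ κ,
      (F.filter (fun i => cls kd Rn i = κ)).card ≤
        ((Z \ Rn).filter (fun i => cls kd Rn i = κ)).card := by
  choose T hT1 hT2 using fun κ : ℕ => exists_big {i : I | i ∉ Rn ∧ cls kd Rn i = κ} s
  refine ⟨Rn ∪ (Finset.range (c * (Rn.card + 1))).biUnion T, Finset.subset_union_left, ?_⟩
  intro F hF hFR κ
  by_cases he : F.filter (fun i => cls kd Rn i = κ) = ∅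
  · rw [he]
    exact Nat.zero_le _
  obtain ⟨i0, hi0⟩ := Finset.nonempty_iff_ne_empty.2 he
  rw [Finset.mem_filter] at hi0
  have hκ : κ < c * (Rn.card + 1) := by
    rw [← hi0.2]
    unfold cls
    have h1 := gap_le (kd := kd) (Nm := Rn) i0
    have h2 := hk i0
    calc kd i0 * (Rn.card + 1) + gap kd Rn i0 < kd i0 * (Rn.card + 1) + (Rn.card + 1) := by omega
      _ = (kd i0 + 1) * (Rn.card + 1) := by ring
      _ ≤ c * (Rn.card + 1) := Nat.mul_le_mul_right _ h2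
  have h1 := hT2 κ (F.filter (fun i => cls kd Rn i = κ)) (by
    intro i hi
    rw [Finset.mem_coe, Finset.mem_filter] at hi
    exact ⟨hFR i hi.1, hi.2⟩) ((Finset.card_filter_le _ _).trans hF)
  refine h1.trans (Finset.card_le_card ?_)
  intro i hi
  have h2 := hT1 κ (Finset.mem_coe.2 hi)
  rw [Finset.mem_filter, Finset.mem_sdiff, Finset.mem_union, Finset.mem_biUnion]
  exact ⟨⟨Or.inr ⟨κ, Finset.mem_range.2 hκ, hi⟩, h2.1⟩, h2.2⟩

/-- small sets of pairs suffice -/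
theorem pi_of_small {P : Pos} (har : ∀ n, a n ≤ s) (hs : 2 ≤ s)
    (h : ∀ Q : Finset (ℕ × ℕ), (Q : Set (ℕ × ℕ)) ⊆ P → Q.card ≤ s → PI M M (Q : Set (ℕ × ℕ))) :
    PI M M P := by
  classical
  constructor
  · intro n t ht
    refine (h (Finset.univ.image t) ?_ ?_).1 n t fun i => by simp
    · intro q hq
      rw [Finset.mem_coe, Finset.mem_image] at hq
      obtain ⟨i, -, rfl⟩ := hq
      exact ht i
    · refine Finset.card_image_le.trans ?_
      rw [Finset.card_univ, Fintype.card_fin]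
      exact har n
  · intro q hq q' hq'
    refine (h {q, q'} ?_ (Finset.card_le_two.trans hs)).2 q (by simp) q' (by simp)
    intro p hp
    rw [Finset.mem_coe, Finset.mem_insert, Finset.mem_singleton] at hp
    rcases hp with rfl | rfl
    · exact hq
    · exact hq'

/-- the target cells for a finite set `F` of cells -/
theorem exists_psi {Z : Finset I} (hne : Nonempty I) (hZ : open Classical in ∀ F : Finset I,
    F.card ≤ s → (∀ i ∈ F, i ∉ Rn) → ∀ κ, (F.filter (fun i => cls kd Rn i = κ)).card ≤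
      ((Z \ Rn).filter (fun i => cls kd Rn i = κ)).card) :
    ∃ zl : ℕ → ℕ → I, ∀ F : Finset I, F.card ≤ s → (∀ i ∈ F, i ∉ Rn) →
      MonK kd ({g | ∃ i ∈ F, g = (i, zl (cls kd Rn i) (rk (cls kd Rn) F i))} ∪
        {g | g.1 = g.2 ∧ g.1 ∈ Rn}) ∧ ∀ i ∈ F, zl (cls kd Rn i) (rk (cls kd Rn) F i) ∈ Z := by
  classical
  choose zl h1 h2 using fun κ : ℕ =>
    exists_zl ((Z \ Rn).filter (fun i => cls kd Rn i = κ)) hne
  refine ⟨zl, fun F hF hFR => ?_⟩
  have hlt : ∀ i ∈ F, rk (cls kd Rn) F i <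
      ((Z \ Rn).filter (fun i' => cls kd Rn i' = cls kd Rn i)).card := by
    intro i hi
    have h3 := rk_card (cl := cls kd Rn) hi
    exact h3.trans_le (hZ F hF hFR (cls kd Rn i))
  have hmem : ∀ i ∈ F, (zl (cls kd Rn i) (rk (cls kd Rn) F i) ∈ Z ∧
      zl (cls kd Rn i) (rk (cls kd Rn) F i) ∉ Rn) ∧
      cls kd Rn (zl (cls kd Rn i) (rk (cls kd Rn) F i)) = cls kd Rn i := by
    intro i hi
    have h3 := h1 (cls kd Rn i) _ (hlt i hi)
    rw [Finset.mem_filter, Finset.mem_sdiff] at h3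
    exact h3
  have hup : ∀ i ∈ F, ∀ i' ∈ F, kd i = kd i' → i < i' →
      zl (cls kd Rn i) (rk (cls kd Rn) F i) < zl (cls kd Rn i') (rk (cls kd Rn) F i') := by
    intro i hi i' hi' hk hlt'
    by_cases hg : gap kd Rn i = gap kd Rn i'
    · have hc : cls kd Rn i = cls kd Rn i' := by
        unfold cls
        rw [hk, hg]
      have h3 := h2 (cls kd Rn i') _ _ (rk_lt hi hc hlt') (hlt i' hi')
      rw [hc]
      exact h3
    · by_contra hcon
      obtain ⟨e1, e2⟩ := cls_eq (hmem i hi).2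
      obtain ⟨e3, e4⟩ := cls_eq (hmem i' hi').2
      have h4 := gap_mono (Nm := Rn) (e3.trans (hk.symm.trans e1.symm)) (not_lt.1 hcon)
      have h5 := gap_mono (Nm := Rn) hk hlt'.le
      omega
  refine ⟨⟨⟨?_, ?_⟩, ?_⟩, fun i hi => (hmem i hi).1.1⟩
  · rintro g (⟨i, hi, rfl⟩ | ⟨hg, -⟩)
    · exact (cls_eq (hmem i hi).2).1.symm
    · rw [hg]
  · rintro g (⟨i, hi, rfl⟩ | ⟨hg, hgR⟩) g' (⟨i', hi', rfl⟩ | ⟨hg', hgR'⟩)
    · constructor
      · intro he
        simp only at he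
        subst he
        rfl
      · intro he
        simp only at he
        have hk : kd i = kd i' := by
          rw [← (cls_eq (hmem i hi).2).1, ← (cls_eq (hmem i' hi').2).1, he]
        rcases lt_trichotomy i i' with h3 | h3 | h3
        · exact absurd he (hup i hi i' hi' hk h3).ne
        · exact h3
        · exact absurd he (hup i' hi' i hi hk.symm h3).ne'
    · constructor
      · intro he
        simp only at he
        exact absurd (he ▸ hgR') (hFR i hi)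
      · intro he
        simp only at he
        rw [← hg'] at he
        exact absurd (he ▸ hgR') (hmem i hi).1.2
    · constructor
      · intro he
        simp only at he
        exact absurd (he ▸ hgR) (hFR i' hi')
      · intro he
        simp only at he
        rw [← hg] at he
        exact absurd (he ▸ hgR) (hmem i' hi').1.2
    · rw [hg, hg']
  · rintro g (⟨i, hi, rfl⟩ | ⟨hg, hgR⟩) g' (⟨i', hi', rfl⟩ | ⟨hg', hgR'⟩) hk
    · constructor
      · exact hup i hi i' hi' hk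
      · intro h3
        simp only at h3 hk
        rcases lt_trichotomy i i' with h4 | h4 | h4
        · exact h4
        · subst h4
          exact absurd h3 (lt_irrefl _)
        · exact absurd h3 (lt_asymm (hup i' hi' i hi hk.symm h4))
    · simp only at hk ⊢
      rw [← hg']
      obtain ⟨e1, e2⟩ := cls_eq (hmem i hi).2
      exact gap_side (Nm := Rn) e1.symm e2.symm hgR' hk.symm (hFR i hi) (hmem i hi).1.2
    · simp only at hk ⊢
      rw [← hg]
      obtain ⟨e1, e2⟩ := cls_eq (hmem i' hi').2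
      have h3 := gap_side (Nm := Rn) e1.symm e2.symm hgR hk (hFR i' hi') (hmem i' hi').1.2
      have n1 : i' ≠ g.1 := fun h => hFR i' hi' (h ▸ hgR)
      have n2 : zl (cls kd Rn i') (rk (cls kd Rn) F i') ≠ g.1 := fun h =>
        (hmem i' hi').1.2 (h ▸ hgR)
      constructor
      · intro h4
        rcases lt_or_gt_of_ne n2 with h5 | h5
        · exact absurd (h3.2 h5) (lt_asymm h4)
        · exact h5
      · intro h4
        rcases lt_or_gt_of_ne n1 with h5 | h5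
        · exact absurd (h3.1 h5) (lt_asymm h4)
        · exact h5
    · rw [hg, hg']

/-- the pairs of a map preserving order and named cells preserve the classes -/
theorem cls_of_mon {Γ : Set (I × I)} (hΓ : MonK kd Γ) (hR : ∀ i ∈ Rn, (i, i) ∈ Γ) {g : I × I}
    (hg : g ∈ Γ) : cls kd Rn g.1 = cls kd Rn g.2 := by
  unfold cls
  have hk := hΓ.1.1 g hg
  rw [hk]
  congr 1
  unfold gap
  congr 1
  ext n
  rw [Finset.mem_filter, Finset.mem_filter, hk]
  constructor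
  · rintro ⟨h1, h2, h3⟩
    exact ⟨h1, h2, (hΓ.2 (n, n) (hR n h1) g hg (h2.trans hk.symm)).1 h3⟩
  · rintro ⟨h1, h2, h3⟩
    exact ⟨h1, h2, (hΓ.2 (n, n) (hR n h1) g hg (h2.trans hk.symm)).2 h3⟩

/-- Free moves, independently of the rest. -/
theorem Sy.free (h : Sy M Rn E c kd sz x) (har : ∀ n, a n ≤ s) (hs : 2 ≤ s) {Z : Finset I}
    (hZR : Rn ⊆ Z) (hZ : open Classical in ∀ F : Finset I,
    F.card ≤ s → (∀ i ∈ F, i ∉ Rn) → ∀ κ, (F.filter (fun i => cls kd Rn i = κ)).card ≤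
      ((Z \ Rn).filter (fun i => cls kd Rn i = κ)).card) (hE : E ⊆ E')
    (hZE : pts kd sz x Z ⊆ E') {p0 : Pos} {Γ : Set (I × I)}
    (hp0 : ∀ q ∈ p0, q.1 ∈ Dr E kd sz x ∧ q.2 ∈ Dr E kd sz x) (hPI : PI M M (idOn E' ∪ p0))
    (hΓ : MonK kd Γ) (hR : ∀ i ∈ Rn, (i, i) ∈ Γ) : PI M M (idOn E ∪ p0 ∪ MV kd sz x Γ) := by
  classical
  refine pi_of_small har hs fun Q hQ hQc => ?_
  -- the cells used by `Q`
  have h1 : ∀ q : ℕ × ℕ, ∃ g : Option (I × I), (g = none ∧ (q ∈ Q → q ∈ idOn E ∪ p0)) ∨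
      ∃ g' ∈ Γ, g = some g' ∧ g'.1 ∉ Rn ∧ ∃ d < sz (kd g'.1), q = (x g'.1 d, x g'.2 d) := by
    intro q
    by_cases hq : q ∈ Q
    · rcases hQ (Finset.mem_coe.2 hq) with hq' | ⟨g, hg, d, hd, he⟩
      · exact ⟨none, Or.inl ⟨rfl, fun _ => hq'⟩⟩
      · by_cases hgR : g.1 ∈ Rn
        · refine ⟨none, Or.inl ⟨rfl, fun _ => Or.inl ?_⟩⟩
          have h2 := (hΓ.1.2 (g.1, g.1) (hR _ hgR) g hg).1 rfl
          rw [he]
          refine ⟨h.named _ hgR d hd, ?_⟩
          simp only at h2 ⊢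
          rw [← h2]
        · exact ⟨some g, Or.inr ⟨g, hg, rfl, hgR, d, hd, he⟩⟩
    · exact ⟨none, Or.inl ⟨rfl, fun h => absurd h hq⟩⟩
  choose G hG using h1
  let Γ0 : Finset (I × I) := (Q.image G).eraseNone
  have hΓ0 : ∀ g, g ∈ Γ0 ↔ ∃ q ∈ Q, G q = some g := by
    intro g
    simp only [Γ0, Finset.mem_eraseNone, Finset.mem_image]
  have hsub : ∀ g ∈ Γ0, g ∈ Γ ∧ g.1 ∉ Rn := by
    intro g hg
    obtain ⟨q, hq, hj⟩ := (hΓ0 g).1 hg
    rcases hG q with ⟨h2, -⟩ | ⟨g', hg', h2, h3, -⟩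
    · rw [hj] at h2
      cases h2
    · rw [hj] at h2
      cases h2
      exact ⟨hg', h3⟩
  have hcard : Γ0.card ≤ s :=
    (Finset.card_eraseNone_le _).trans (Finset.card_image_le.trans hQc)
  by_cases hemp : Γ0 = ∅
  · -- no cells
    refine (hPI.mono ?_)
    intro q hq
    rcases hG q with ⟨-, h2⟩ | ⟨g', hg', h2, h3, h4⟩
    · rcases h2 (Finset.mem_coe.1 hq) with h5 | h5
      · exact Or.inl ⟨hE h5.1, h5.2⟩
      · exact Or.inr h5
    · have : g' ∈ Γ0 := (hΓ0 g').2 ⟨q, Finset.mem_coe.1 hq, h2⟩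
      rw [hemp] at this
      exact absurd this (Finset.notMem_empty _)
  obtain ⟨g0, -⟩ := Finset.nonempty_iff_ne_empty.2 hemp
  obtain ⟨zl, hzl⟩ := exists_psi (Rn := Rn) ⟨g0.1⟩ hZ
  let F1 : Finset I := Γ0.image Prod.fst
  let F2 : Finset I := Γ0.image Prod.snd
  have hF1R : ∀ i ∈ F1, i ∉ Rn := by
    intro i hi
    obtain ⟨g, hg, rfl⟩ := Finset.mem_image.1 hi
    exact (hsub g hg).2
  have hF2R : ∀ i ∈ F2, i ∉ Rn := by
    intro i hi hiR
    obtain ⟨g, hg, rfl⟩ := Finset.mem_image.1 hi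
    have h2 := (hΓ.1.2 (g.2, g.2) (hR _ hiR) g (hsub g hg).1).2 rfl
    simp only at h2
    exact (hsub g hg).2 (h2 ▸ hiR)
  obtain ⟨m1, z1⟩ := hzl F1 (Finset.card_image_le.trans hcard) hF1R
  obtain ⟨m2, z2⟩ := hzl F2 (Finset.card_image_le.trans hcard) hF2R
  have a1 := h.all m1 (fun i hi => Or.inr ⟨rfl, hi⟩)
  have a2 := h.all m2 (fun i hi => Or.inr ⟨rfl, hi⟩)
  -- the ranks agree
  have hcl : ∀ g ∈ Γ0, cls kd Rn g.1 = cls kd Rn g.2 := fun g hg =>
    cls_of_mon hΓ hR (hsub g hg).1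
  have hrk : ∀ g ∈ Γ0, rk (cls kd Rn) F1 g.1 = rk (cls kd Rn) F2 g.2 := by
    intro g hg
    have e1 : (F1.filter (fun i' => cls kd Rn i' = cls kd Rn g.1 ∧ i' < g.1)) =
        (Γ0.filter (fun g' => cls kd Rn g'.1 = cls kd Rn g.1 ∧ g'.1 < g.1)).image Prod.fst := by
      ext i
      simp only [F1, Finset.mem_filter, Finset.mem_image]
      constructor
      · rintro ⟨⟨g', hg', rfl⟩, h2⟩
        exact ⟨g', ⟨hg', h2⟩, rfl⟩
      · rintro ⟨g', ⟨hg', h2⟩, rfl⟩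
        exact ⟨⟨g', hg', rfl⟩, h2⟩
    have e2 : (F2.filter (fun i' => cls kd Rn i' = cls kd Rn g.2 ∧ i' < g.2)) =
        (Γ0.filter (fun g' => cls kd Rn g'.1 = cls kd Rn g.1 ∧ g'.1 < g.1)).image Prod.snd := by
      ext i
      simp only [F2, Finset.mem_filter, Finset.mem_image]
      have key : ∀ g' ∈ Γ0, (cls kd Rn g'.2 = cls kd Rn g.2 ∧ g'.2 < g.2 ↔
          cls kd Rn g'.1 = cls kd Rn g.1 ∧ g'.1 < g.1) := by
        intro g' hg'
        rw [hcl g hg, hcl g' hg']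
        constructor
        · rintro ⟨h2, h3⟩
          refine ⟨h2, (hΓ.2 g' (hsub g' hg').1 g (hsub g hg).1 ?_).2 h3⟩
          exact (cls_eq ((hcl g' hg').trans (h2.trans (hcl g hg).symm))).1
        · rintro ⟨h2, h3⟩
          refine ⟨h2, (hΓ.2 g' (hsub g' hg').1 g (hsub g hg).1 ?_).1 h3⟩
          exact (cls_eq ((hcl g' hg').trans (h2.trans (hcl g hg).symm))).1
      constructor
      · rintro ⟨⟨g', hg', rfl⟩, h2⟩
        exact ⟨g', ⟨hg', (key g' hg').1 h2⟩, rfl⟩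
      · rintro ⟨g', ⟨hg', h2⟩, rfl⟩
        exact ⟨⟨g', hg', rfl⟩, (key g' hg').2 h2⟩
    unfold rk
    rw [e1, e2, Finset.card_image_of_injOn, Finset.card_image_of_injOn]
    · intro g1 hg1 g2 hg2 he
      have q1 := (hsub g1 (Finset.mem_filter.1 (Finset.mem_coe.1 hg1)).1).1
      have q2 := (hsub g2 (Finset.mem_filter.1 (Finset.mem_coe.1 hg2)).1).1
      exact Prod.ext ((hΓ.1.2 g1 q1 g2 q2).2 he) he
    · intro g1 hg1 g2 hg2 he
      have q1 := (hsub g1 (Finset.mem_filter.1 (Finset.mem_coe.1 hg1)).1).1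
      have q2 := (hsub g2 (Finset.mem_filter.1 (Finset.mem_coe.1 hg2)).1).1
      exact Prod.ext he ((hΓ.1.2 g1 q1 g2 q2).1 he)
  refine ((a1.trans hPI).trans a2.symm).mono ?_
  intro q hq
  rcases hG q with ⟨-, h2⟩ | ⟨g, hg, h2, h3, d, hd, h4⟩
  · rcases h2 (Finset.mem_coe.1 hq) with h5 | h5
    · obtain ⟨q1, q2⟩ := q
      obtain ⟨h6, h7⟩ := h5
      simp only at h6 h7
      subst h7
      exact ⟨q1, ⟨q1, Or.inl ⟨Or.inr h6, rfl⟩, Or.inl ⟨hE h6, rfl⟩⟩, Or.inl ⟨Or.inr h6, rfl⟩⟩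
    · exact ⟨q.2, ⟨q.1, Or.inl ⟨Or.inl (hp0 q h5).1, rfl⟩, Or.inr h5⟩,
        Or.inl ⟨Or.inl (hp0 q h5).2, rfl⟩⟩
  · have hg0 : g ∈ Γ0 := (hΓ0 g).2 ⟨q, Finset.mem_coe.1 hq, h2⟩
    have f1 : g.1 ∈ F1 := Finset.mem_image_of_mem _ hg0
    have f2 : g.2 ∈ F2 := Finset.mem_image_of_mem _ hg0
    have hkk : kd g.1 = kd g.2 := hΓ.1.1 g hg
    have e1 : zl (cls kd Rn g.1) (rk (cls kd Rn) F1 g.1) =
        zl (cls kd Rn g.2) (rk (cls kd Rn) F2 g.2) := by
      rw [hcl g hg0, hrk g hg0]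
    have e2 : kd g.1 = kd (zl (cls kd Rn g.1) (rk (cls kd Rn) F1 g.1)) :=
      m1.1.1 _ (Or.inl ⟨g.1, f1, rfl⟩)
    subst h4
    refine ⟨x (zl (cls kd Rn g.1) (rk (cls kd Rn) F1 g.1)) d,
      ⟨x (zl (cls kd Rn g.1) (rk (cls kd Rn) F1 g.1)) d,
        Or.inr ⟨_, Or.inl ⟨g.1, f1, rfl⟩, d, hd, rfl⟩,
        Or.inl ⟨hZE ⟨_, z1 g.1 f1, d, by rw [← e2]; exact hd, rfl⟩, rfl⟩⟩,
      Or.inr ⟨_, Or.inl ⟨g.2, f2, rfl⟩, d, ?_, ?_⟩⟩
    · show d < sz (kd g.2)
      rw [← hkk]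
      exact hd
    · show (x g.2 d, x (zl (cls kd Rn g.1) (rk (cls kd Rn) F1 g.1)) d) =
        (x g.2 d, x (zl (cls kd Rn g.2) (rk (cls kd Rn) F2 g.2)) d)
      rw [e1]

end Pool.H5.AB
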