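import Pool.Agent.H5.AB.Gs
import Pool.Agent.H5.AB.Es

/-!
# The frame theorem
-/

set_option autoImplicit false

namespace Pool.H5.AB

open Set Function

variable {L : Type} [LinearOrder L] {Q : Set (L × L) → Prop} {n m p a b : ℕ} {σ τ ρ g : ℕ → ℕ}

/-- the pattern of the images of an increasing sequence -/
theorem pick (h : GS Q) {X : Finset L} {φ : L → L} (hQ : Q {q | q.1 ∈ X ∧ q.2 = φ q.1})
    {x : ℕ → L} (hx : ∀ i < n, ∀ j < n, i < j → x i < x j) (hX : ∀ i < n, x i ∈ X)
    (hσn : ∀ i < n, σ i < n) (hσi : ∀ i < n, ∀ j < n, σ i = σ j → i = j)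
    (hσ : ∀ i < n, ∀ j < n, σ i < σ j → φ (x i) < φ (x j)) : GQ Q n σ := by
  refine gq_of h (u := x) (v := fun i => φ (x i)) (fun i hi j hj hij => hx i hi j hj hij) ?_ hσn ?_
  · intro i hi j hj
    refine ⟨fun h1 => ?_, hσ i hi j hj⟩
    rcases lt_trichotomy (σ i) (σ j) with h2 | h2 | h2
    · exact h2
    · rw [hσi i hi j hj h2] at h1
      exact absurd h1 (lt_irrefl _)
    · exact absurd h1 (hσ j hj i hi h2).not_gt
  · refine h.mono _ _ ?_ hQ
    rintro _ ⟨i, hi, rfl⟩
    exact ⟨hX i hi, rfl⟩

section rot

variable {X : Finset L} {φ : L → L} {m0 : ℕ} {z : ℕ → L} {w : L}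

/-- no rotation: a point above `m0 - 1` points is not sent below them -/
theorem rot_up (h : GS Q) (hQ : Q {q | q.1 ∈ X ∧ q.2 = φ q.1})
    (hrot : ¬ GQ Q m0 (rl m0)) (hz : ∀ i < m0 - 1, ∀ j < m0 - 1, i < j → z i < z j)
    (hφ : ∀ i < m0 - 1, ∀ j < m0 - 1, i < j → φ (z i) < φ (z j)) (hX : ∀ i < m0 - 1, z i ∈ X)
    (hw : w ∈ X) (hzw : ∀ i < m0 - 1, z i < w) : ¬ φ w < φ (z 0) := by
  intro hlt
  apply hrot
  by_cases hm : m0 ≤ 1
  · apply GQ.one h
    intro i hi
    unfold rl
    split_ifs <;> omega
  have h0 : ∀ j < m0 - 1, φ w < φ (z j) := by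
    intro j hj
    rcases Nat.eq_zero_or_pos j with rfl | hj0
    · exact hlt
    · exact hlt.trans (hφ 0 (by omega) j hj hj0)
  refine pick h hQ (x := fun i => if i < m0 - 1 then z i else w) ?_ ?_ ?_ ?_ ?_
  · intro i hi j hj hij
    have h1 : i < m0 - 1 := by omega
    beta_reduce
    rw [if_pos h1]
    by_cases h2 : j < m0 - 1
    · rw [if_pos h2]
      exact hz i h1 j h2 hij
    · rw [if_neg h2]
      exact hzw i h1
  · intro i hi
    beta_reduce
    split_ifs with h1
    · exact hX i h1
    · exact hw
  · intro i hi
    unfold rl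
    split_ifs <;> omega
  · intro i hi j hj hij
    unfold rl at hij
    split_ifs at hij <;> omega
  · intro i hi j hj
    beta_reduce
    by_cases h1 : j < m0 - 1
    · rw [if_pos h1]
      by_cases h2 : i < m0 - 1
      · rw [if_pos h2]
        intro h3
        apply hφ i h2 j h1
        unfold rl at h3
        split_ifs at h3 <;> omega
      · rw [if_neg h2]
        intro _
        exact h0 j h1
    · intro h3
      exfalso
      unfold rl at h3
      split_ifs at h3 <;> omega

/-- no rotation, mirror image -/
theorem rot_dn (h : GS Q) (hQ : Q {q | q.1 ∈ X ∧ q.2 = φ q.1})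
    (hrot : ¬ GQ Q m0 (rl m0)) (hz : ∀ i < m0 - 1, ∀ j < m0 - 1, i < j → z i < z j)
    (hφ : ∀ i < m0 - 1, ∀ j < m0 - 1, i < j → φ (z i) < φ (z j)) (hX : ∀ i < m0 - 1, z i ∈ X)
    (hw : w ∈ X) (hzw : ∀ i < m0 - 1, w < z i) : ¬ φ (z (m0 - 2)) < φ w := by
  intro hlt
  apply hrot
  by_cases hm : m0 ≤ 1
  · apply GQ.one h
    intro i hi
    unfold rl
    split_ifs <;> omega
  have h0 : ∀ j < m0 - 1, φ (z j) < φ w := by
    intro j hj
    by_cases hj0 : j = m0 - 2
    · rw [hj0]
      exact hlt
    · exact (hφ j hj (m0 - 2) (by omega) (by omega)).trans hlt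
  have h1 : GQ Q m0 (rr 0 m0) := by
    refine pick h hQ (x := fun i => if i = 0 then w else z (i - 1)) ?_ ?_ ?_ ?_ ?_
    · intro i hi j hj hij
      beta_reduce
      rw [if_neg (show ¬ j = 0 by omega)]
      split_ifs with h1
      · exact hzw _ (by omega)
      · exact hz _ (by omega) _ (by omega) (by omega)
    · intro i hi
      beta_reduce
      split_ifs with h1
      · exact hw
      · exact hX _ (by omega)
    · intro i hi
      unfold rr
      split_ifs <;> omega
    · intro i hi j hj hij
      unfold rr at hij
      split_ifs at hij <;> omega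
    · intro i hi j hj
      beta_reduce
      by_cases h1 : i = 0
      · intro h3
        exfalso
        unfold rr at h3
        split_ifs at h3 <;> omega
      · rw [if_neg h1]
        by_cases h2 : j = 0
        · rw [if_pos h2]
          intro _
          exact h0 _ (by omega)
        · rw [if_neg h2]
          intro h3
          apply hφ _ (by omega) _ (by omega)
          unfold rr at h3
          split_ifs at h3 <;> omega
  refine GQ.div h (σ := fun i => i) (GQ.one h fun i _ => rfl) h1 ?_ ?_
  · intro i hi
    unfold rl
    split_ifs <;> omega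
  · intro i hi
    by_cases h3 : i + 1 < m0
    · have h4 : rl m0 i = i + 1 := by
        unfold rl
        rw [if_pos h3]
      rw [h4]
      unfold rr
      rw [if_neg (by omega), if_neg (by omega)]
      omega
    · have h4 : rl m0 i = 0 := by
        unfold rl
        rw [if_neg h3, if_pos (by omega)]
      rw [h4]
      unfold rr
      rw [if_neg (by omega), if_pos rfl]
      omega

end rot

section core

variable {X : Finset L} {φ : L → L} {l : ℕ} {gm gp z : ℕ → L} {u v : L}

/-- the images of a set above the frame points contain no long decreasing run -/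
theorem no_dec [Infinite L] (h : GS Q) (hQ : Q {q | q.1 ∈ X ∧ q.2 = φ q.1})
    (hsw : ¬ GQ Q (a + b + 2) (sw a)) (hz : ∀ i < a + b, ∀ j < a + b, i < j → z i < z j)
    (hφ : ∀ i < a + b, ∀ j < a + b, i < j → φ (z i) < φ (z j)) (hX : ∀ i < a + b, z i ∈ X)
    (hg : ∀ i < b + 2, ∀ j < b + 2, i < j → gp i < gp j)
    (hgφ : ∀ i < b + 2, ∀ j < b + 2, i < j → φ (gp j) < φ (gp i)) (hgX : ∀ i < b + 2, gp i ∈ X)
    (h1 : ∀ i < a + b, ∀ j < b + 2, z i < gp j) (h2 : ∀ i < a + b, ∀ j < b + 2, φ (z i) < φ (gp j)) :
    False := by
  apply hsw
  apply f2 h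
  refine pick h hQ (x := fun i => if i < a + b then z i else gp (i - (a + b))) ?_ ?_ ?_ ?_ ?_
  · intro i hi j hj hij
    beta_reduce
    by_cases h3 : j < a + b
    · rw [if_pos (by omega), if_pos h3]
      exact hz i (by omega) j h3 hij
    · rw [if_neg h3]
      split_ifs with h4
      · exact h1 i h4 _ (by omega)
      · exact hg _ (by omega) _ (by omega) (by omega)
  · intro i hi
    beta_reduce
    split_ifs with h4
    · exact hX i h4
    · exact hgX _ (by omega)
  · intro i hi
    unfold rv
    split_ifs <;> omega
  · intro i hi j hj hij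
    unfold rv at hij
    split_ifs at hij <;> omega
  · intro i hi j hj h5
    unfold rv at h5
    beta_reduce
    by_cases h3 : i < a + b
    · rw [if_pos h3]
      by_cases h4 : j < a + b
      · rw [if_pos h4]
        apply hφ i h3 j h4
        split_ifs at h5
        exact h5
      · rw [if_neg h4]
        exact h2 i h3 _ (by omega)
    · rw [if_neg h3]
      by_cases h4 : j < a + b
      · exfalso
        split_ifs at h5 <;> omega
      · rw [if_neg h4]
        apply hgφ _ (by omega) _ (by omega)
        split_ifs at h5 <;> omega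

/-- mirror image -/
theorem no_dec' [Infinite L] (h : GS Q) (hQ : Q {q | q.1 ∈ X ∧ q.2 = φ q.1})
    (hsw : ¬ GQ Q (a + b + 2) (sw a)) (hz : ∀ i < a + b, ∀ j < a + b, i < j → z i < z j)
    (hφ : ∀ i < a + b, ∀ j < a + b, i < j → φ (z i) < φ (z j)) (hX : ∀ i < a + b, z i ∈ X)
    (hg : ∀ i < a + 2, ∀ j < a + 2, i < j → gm i < gm j)
    (hgφ : ∀ i < a + 2, ∀ j < a + 2, i < j → φ (gm j) < φ (gm i)) (hgX : ∀ i < a + 2, gm i ∈ X)
    (h1 : ∀ i < a + b, ∀ j < a + 2, gm j < z i) (h2 : ∀ i < a + b, ∀ j < a + 2, φ (gm j) < φ (z i)) :
    False := by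
  apply hsw
  apply f2' h
  refine pick h hQ (x := fun i => if i < a + 2 then gm i else z (i - (a + 2))) ?_ ?_ ?_ ?_ ?_
  · intro i hi j hj hij
    beta_reduce
    by_cases h3 : j < a + 2
    · rw [if_pos (by omega), if_pos h3]
      exact hg i (by omega) j h3 hij
    · rw [if_neg h3]
      split_ifs with h4
      · exact h1 _ (by omega) i h4
      · exact hz _ (by omega) _ (by omega) (by omega)
  · intro i hi
    beta_reduce
    split_ifs with h4
    · exact hgX i h4
    · exact hX _ (by omega)
  · intro i hi
    unfold rv
    split_ifs <;> omega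
  · intro i hi j hj hij
    unfold rv at hij
    split_ifs at hij <;> omega
  · intro i hi j hj h5
    unfold rv at h5
    beta_reduce
    by_cases h3 : i < a + 2
    · rw [if_pos h3]
      by_cases h4 : j < a + 2
      · rw [if_pos h4]
        apply hgφ j h4 i h3
        split_ifs at h5 <;> omega
      · rw [if_neg h4]
        exact h2 _ (by omega) i h3
    · rw [if_neg h3]
      by_cases h4 : j < a + 2
      · exfalso
        split_ifs at h5 <;> omega
      · rw [if_neg h4]
        apply hφ _ (by omega) _ (by omega)
        split_ifs at h5 <;> omega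

/-- a frame: two increasing runs `gm`, `gp` of length `l`, `gm` below `gp` -/
structure Fr (X : Finset L) (φ : L → L) (l : ℕ) (gm gp : ℕ → L) : Prop where
  xm : ∀ i < l, gm i ∈ X
  xp : ∀ i < l, gp i ∈ X
  sm : ∀ i < l, ∀ j < l, i < j → gm i < gm j
  sp : ∀ i < l, ∀ j < l, i < j → gp i < gp j
  tm : ∀ i < l, ∀ j < l, i < j → φ (gm i) < φ (gm j)
  tp : ∀ i < l, ∀ j < l, i < j → φ (gp i) < φ (gp j)
  sc : ∀ i < l, ∀ j < l, gm i < gp j
  tc : ∀ i < l, ∀ j < l, φ (gm i) < φ (gp j)

theorem frame_up [Infinite L] (h : GS Q) (hQ : Q {q | q.1 ∈ X ∧ q.2 = φ q.1})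
    (hi : InjOn φ X) (hsw : ¬ GQ Q (a + b + 2) (sw a)) (hF : Fr X φ l gm gp)
    (hl : 2 * a + 2 * b + 3 ≤ l) (hu : u ∈ X) (h1 : ∀ i < l, gm i < u) (h2 : ∀ i < l, u < gp i) :
    φ u < φ (gp 0) := by
  by_contra hcon
  have hne : φ (gp 0) ≠ φ u := fun h3 => (h2 0 (by omega)).ne' (hi (hF.xp 0 (by omega)) hu h3)
  have h0 : φ (gp 0) < φ u := lt_of_le_of_ne (not_lt.1 hcon) hne
  have hneb : φ (gp b) ≠ φ u := fun h3 => (h2 b (by omega)).ne' (hi (hF.xp b (by omega)) hu h3)
  have hgm : ∀ i < l, φ (gm i) < φ u := fun i hi => (hF.tc i hi 0 (by omega)).trans h0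
  apply hsw
  rcases lt_or_gt_of_ne hneb with h3 | h3
  · -- far up
    have h4 : ∀ j ≤ b, φ (gp j) < φ u := by
      intro j hj
      rcases Nat.lt_or_ge j b with h5 | h5
      · exact (hF.tp j (by omega) b (by omega) h5).trans h3
      · rw [show j = b by omega]
        exact h3
    refine f3' h (m := b + 2) le_rfl ?_
    refine pick h hQ (x := fun i => if i < a + 1 then gm i else if i = a + 1 then u else
      gp (i - (a + 2))) ?_ ?_ ?_ ?_ ?_
    · intro i hi j hj hij
      beta_reduce
      by_cases c1 : j < a + 1
      · rw [if_pos (show i < a + 1 by omega), if_pos c1]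
        exact hF.sm i (by omega) j (by omega) hij
      rw [if_neg c1]
      by_cases c2 : j = a + 1
      · rw [if_pos c2, if_pos (show i < a + 1 by omega)]
        exact h1 i (by omega)
      rw [if_neg c2]
      by_cases c3 : i < a + 1
      · rw [if_pos c3]
        exact hF.sc i (by omega) _ (by omega)
      rw [if_neg c3]
      by_cases c4 : i = a + 1
      · rw [if_pos c4]
        exact h2 _ (by omega)
      rw [if_neg c4]
      exact hF.sp _ (by omega) _ (by omega) (by omega)
    · intro i hi
      beta_reduce
      split_ifs
      · exact hF.xm i (by omega)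
      · exact hu
      · exact hF.xp _ (by omega)
    · intro i hi
      unfold rr
      split_ifs <;> omega
    · intro i hi j hj hij
      unfold rr at hij
      split_ifs at hij <;> omega
    · intro i hi j hj h5
      unfold rr at h5
      beta_reduce
      by_cases c1 : i < a + 1
      · rw [if_pos c1]
        by_cases c2 : j < a + 1
        · rw [if_pos c2]
          apply hF.tm i (by omega) j (by omega)
          split_ifs at h5
          exact h5
        rw [if_neg c2]
        by_cases c3 : j = a + 1
        · rw [if_pos c3]
          exact hgm i (by omega)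
        rw [if_neg c3]
        exact hF.tc i (by omega) _ (by omega)
      rw [if_neg c1]
      by_cases c4 : i = a + 1
      · exfalso
        split_ifs at h5 <;> omega
      rw [if_neg c4]
      by_cases c2 : j < a + 1
      · exfalso
        split_ifs at h5 <;> omega
      rw [if_neg c2]
      by_cases c3 : j = a + 1
      · rw [if_pos c3]
        exact h4 _ (by omega)
      rw [if_neg c3]
      apply hF.tp _ (by omega) _ (by omega)
      split_ifs at h5 <;> omega
  · -- near: a swap
    have h4 : ∀ j < l, b ≤ j → φ u < φ (gp j) := by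
      intro j hj hbj
      rcases Nat.lt_or_ge b j with h5 | h5
      · exact h3.trans (hF.tp b (by omega) j hj h5)
      · rw [show j = b by omega]
        exact h3
    refine pick h hQ (x := fun i => if i < a then gm i else if i = a then u else
      if i = a + 1 then gp 0 else gp (b + (i - (a + 2)))) ?_ ?_ ?_ ?_ ?_
    · intro i hi j hj hij
      beta_reduce
      by_cases c1 : j < a
      · rw [if_pos (show i < a by omega), if_pos c1]
        exact hF.sm i (by omega) j (by omega) hij
      rw [if_neg c1]
      by_cases c2 : j = a
      · rw [if_pos c2, if_pos (show i < a by omega)]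
        exact h1 i (by omega)
      rw [if_neg c2]
      by_cases c3 : j = a + 1
      · rw [if_pos c3]
        split_ifs with c4
        · exact hF.sc i (by omega) 0 (by omega)
        · exact h2 0 (by omega)
        · exfalso
          omega
        · exfalso
          omega
      rw [if_neg c3]
      split_ifs with c4 c5 c6
      · exact hF.sc i (by omega) _ (by omega)
      · exact h2 _ (by omega)
      · by_cases c7 : b + (j - (a + 2)) = 0
        · exfalso
          omega
        · exact hF.sp 0 (by omega) _ (by omega) (by omega)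
      · exact hF.sp _ (by omega) _ (by omega) (by omega)
    · intro i hi
      beta_reduce
      split_ifs
      · exact hF.xm i (by omega)
      · exact hu
      · exact hF.xp _ (by omega)
      · exact hF.xp _ (by omega)
    · intro i hi
      unfold sw
      split_ifs <;> omega
    · intro i hi j hj hij
      unfold sw at hij
      split_ifs at hij <;> omega
    · intro i hi j hj h5
      unfold sw at h5
      beta_reduce
      by_cases c1 : i < a
      · rw [if_pos c1]
        by_cases c2 : j < a
        · rw [if_pos c2]
          apply hF.tm i (by omega) j (by omega)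
          split_ifs at h5 <;> omega
        rw [if_neg c2]
        split_ifs with c3 c4
        · exact hgm i (by omega)
        · exact hF.tc i (by omega) _ (by omega)
        · exact hF.tc i (by omega) _ (by omega)
      rw [if_neg c1]
      by_cases c4 : i = a
      · rw [if_pos c4]
        by_cases c5 : j < a + 2
        · exfalso
          split_ifs at h5 <;> omega
        rw [if_neg (by omega), if_neg (by omega), if_neg (by omega)]
        exact h4 _ (by omega) (by omega)
      rw [if_neg c4]
      by_cases c6 : i = a + 1
      · rw [if_pos c6]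
        by_cases c7 : j < a
        · exfalso
          split_ifs at h5 <;> omega
        rw [if_neg c7]
        by_cases c8 : j = a
        · rw [if_pos c8]
          exact h0
        rw [if_neg c8]
        by_cases c9 : j = a + 1
        · exfalso
          split_ifs at h5 <;> omega
        rw [if_neg c9]
        by_cases c10 : b + (j - (a + 2)) = 0
        · exfalso
          omega
        · exact hF.tp 0 (by omega) _ (by omega) (by omega)
      rw [if_neg c6]
      by_cases c7 : j < a + 2
      · exfalso
        split_ifs at h5 <;> omega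
      rw [if_neg (by omega), if_neg (by omega), if_neg (by omega)]
      apply hF.tp _ (by omega) _ (by omega)
      split_ifs at h5 <;> omega

theorem frame_dn [Infinite L] (h : GS Q) (hQ : Q {q | q.1 ∈ X ∧ q.2 = φ q.1})
    (hi : InjOn φ X) (hsw : ¬ GQ Q (a + b + 2) (sw a)) (hF : Fr X φ l gm gp)
    (hl : 2 * a + 2 * b + 3 ≤ l) (hu : u ∈ X) (h1 : ∀ i < l, gm i < u) (h2 : ∀ i < l, u < gp i) :
    φ (gm (l - 1)) < φ u := by
  by_contra hcon
  have hne : φ u ≠ φ (gm (l - 1)) := fun h3 =>
    (h1 (l - 1) (by omega)).ne' (hi hu (hF.xm _ (by omega)) h3)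
  have h0 : φ u < φ (gm (l - 1)) := lt_of_le_of_ne (not_lt.1 hcon) hne
  have hneb : φ u ≠ φ (gm (l - 1 - a)) := fun h3 =>
    (h1 (l - 1 - a) (by omega)).ne' (hi hu (hF.xm _ (by omega)) h3)
  have hgp : ∀ i < l, φ u < φ (gp i) := fun i hi => h0.trans (hF.tc _ (by omega) i hi)
  apply hsw
  rcases lt_or_gt_of_ne hneb with h3 | h3
  · -- far down
    have h4 : ∀ j < l, l - 1 - a ≤ j → φ u < φ (gm j) := by
      intro j hj hbj
      rcases Nat.lt_or_ge (l - 1 - a) j with h5 | h5
      · exact h3.trans (hF.tm _ (by omega) j hj h5)
      · rw [show j = l - 1 - a by omega]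
        exact h3
    refine f3 h (m := a + 2) le_rfl ?_
    refine pick h hQ (x := fun i => if i < a + 1 then gm (l - 1 - a + i) else
      if i = a + 1 then u else gp (i - (a + 2))) ?_ ?_ ?_ ?_ ?_
    · intro i hi j hj hij
      beta_reduce
      by_cases c1 : j < a + 1
      · rw [if_pos (show i < a + 1 by omega), if_pos c1]
        exact hF.sm _ (by omega) _ (by omega) (by omega)
      rw [if_neg c1]
      by_cases c2 : j = a + 1
      · rw [if_pos c2, if_pos (show i < a + 1 by omega)]
        exact h1 _ (by omega)
      rw [if_neg c2]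
      by_cases c3 : i < a + 1
      · rw [if_pos c3]
        exact hF.sc _ (by omega) _ (by omega)
      rw [if_neg c3]
      by_cases c4 : i = a + 1
      · rw [if_pos c4]
        exact h2 _ (by omega)
      rw [if_neg c4]
      exact hF.sp _ (by omega) _ (by omega) (by omega)
    · intro i hi
      beta_reduce
      split_ifs
      · exact hF.xm _ (by omega)
      · exact hu
      · exact hF.xp _ (by omega)
    · intro i hi
      unfold rl
      split_ifs <;> omega
    · intro i hi j hj hij
      unfold rl at hij
      split_ifs at hij <;> omega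
    · intro i hi j hj h5
      unfold rl at h5
      beta_reduce
      by_cases c2 : j = a + 1
      · exfalso
        split_ifs at h5 <;> omega
      by_cases c1 : i < a + 1
      · rw [if_pos c1]
        by_cases c3 : j < a + 1
        · rw [if_pos c3]
          apply hF.tm _ (by omega) _ (by omega)
          split_ifs at h5 <;> omega
        rw [if_neg c3, if_neg c2]
        exact hF.tc _ (by omega) _ (by omega)
      rw [if_neg c1]
      by_cases c4 : i = a + 1
      · rw [if_pos c4]
        by_cases c3 : j < a + 1
        · rw [if_pos c3]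
          exact h4 _ (by omega) (by omega)
        rw [if_neg c3, if_neg c2]
        exact hgp _ (by omega)
      rw [if_neg c4]
      by_cases c3 : j < a + 1
      · exfalso
        split_ifs at h5 <;> omega
      rw [if_neg c3, if_neg c2]
      apply hF.tp _ (by omega) _ (by omega)
      split_ifs at h5 <;> omega
  · -- near: a swap
    have h4 : ∀ j ≤ l - 1 - a, φ (gm j) < φ u := by
      intro j hj
      rcases Nat.lt_or_ge j (l - 1 - a) with h5 | h5
      · exact (hF.tm j (by omega) _ (by omega) h5).trans h3
      · rw [show j = l - 1 - a by omega]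
        exact h3
    refine pick h hQ (x := fun i => if i < a then gm (l - 2 * a + i) else
      if i = a then gm (l - 1) else if i = a + 1 then u else gp (i - (a + 2))) ?_ ?_ ?_ ?_ ?_
    · intro i hi j hj hij
      beta_reduce
      by_cases c1 : j < a
      · rw [if_pos (show i < a by omega), if_pos c1]
        exact hF.sm _ (by omega) _ (by omega) (by omega)
      rw [if_neg c1]
      by_cases c2 : j = a
      · rw [if_pos c2, if_pos (show i < a by omega)]
        exact hF.sm _ (by omega) _ (by omega) (by omega)
      rw [if_neg c2]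
      by_cases c3 : j = a + 1
      · rw [if_pos c3]
        split_ifs with c4
        · exact h1 _ (by omega)
        · exact h1 _ (by omega)
        · exfalso
          omega
        · exfalso
          omega
      rw [if_neg c3]
      split_ifs with c4 c5 c6
      · exact hF.sc _ (by omega) _ (by omega)
      · exact hF.sc _ (by omega) _ (by omega)
      · exact h2 _ (by omega)
      · exact hF.sp _ (by omega) _ (by omega) (by omega)
    · intro i hi
      beta_reduce
      split_ifs
      · exact hF.xm _ (by omega)
      · exact hF.xm _ (by omega)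
      · exact hu
      · exact hF.xp _ (by omega)
    · intro i hi
      unfold sw
      split_ifs <;> omega
    · intro i hi j hj hij
      unfold sw at hij
      split_ifs at hij <;> omega
    · intro i hi j hj h5
      unfold sw at h5
      beta_reduce
      by_cases c1 : i < a
      · rw [if_pos c1]
        by_cases c2 : j < a
        · rw [if_pos c2]
          apply hF.tm _ (by omega) _ (by omega)
          split_ifs at h5 <;> omega
        rw [if_neg c2]
        split_ifs with c3 c4
        · exact hF.tm _ (by omega) _ (by omega) (by omega)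
        · exact h4 _ (by omega)
        · exact hF.tc _ (by omega) _ (by omega)
      rw [if_neg c1]
      by_cases c4 : i = a
      · rw [if_pos c4]
        by_cases c5 : j < a + 2
        · exfalso
          split_ifs at h5 <;> omega
        rw [if_neg (by omega), if_neg (by omega), if_neg (by omega)]
        exact hF.tc _ (by omega) _ (by omega)
      rw [if_neg c4]
      by_cases c6 : i = a + 1
      · rw [if_pos c6]
        by_cases c7 : j < a
        · exfalso
          split_ifs at h5 <;> omega
        rw [if_neg c7]
        by_cases c8 : j = a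
        · rw [if_pos c8]
          exact h0
        rw [if_neg c8]
        by_cases c9 : j = a + 1
        · exfalso
          split_ifs at h5 <;> omega
        rw [if_neg c9]
        exact hgp _ (by omega)
      rw [if_neg c6]
      by_cases c7 : j < a + 2
      · exfalso
        split_ifs at h5 <;> omega
      rw [if_neg (by omega), if_neg (by omega), if_neg (by omega)]
      apply hF.tp _ (by omega) _ (by omega)
      split_ifs at h5 <;> omega

/-- inside the frame the order is preserved -/
theorem frame_in [Infinite L] (h : GS Q) (hQ : Q {q | q.1 ∈ X ∧ q.2 = φ q.1})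
    (hi : InjOn φ X) (hsw : ¬ GQ Q (a + b + 2) (sw a)) (hF : Fr X φ l gm gp)
    (hl : 2 * a + 2 * b + 3 ≤ l) (hu : u ∈ X) (h1 : ∀ i < l, gm i < u) (h2 : ∀ i < l, u < gp i)
    (hv : v ∈ X) (h1' : ∀ i < l, gm i < v) (h2' : ∀ i < l, v < gp i) (huv : u < v) :
    φ u < φ v := by
  by_contra hcon
  have hne : φ v ≠ φ u := fun h3 => huv.ne' (hi hv hu h3)
  have h0 : φ v < φ u := lt_of_le_of_ne (not_lt.1 hcon) hne
  have e1 := frame_up h hQ hi hsw hF hl hu h1 h2
  have e2 := frame_up h hQ hi hsw hF hl hv h1' h2'
  have e3 := frame_dn h hQ hi hsw hF hl hu h1 h2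
  have e4 := frame_dn h hQ hi hsw hF hl hv h1' h2'
  have gu : ∀ i < l, φ u < φ (gp i) := by
    intro i hi
    rcases Nat.eq_zero_or_pos i with rfl | hi0
    · exact e1
    · exact e1.trans (hF.tp 0 (by omega) i hi hi0)
  have gv : ∀ i < l, φ v < φ (gp i) := by
    intro i hi
    rcases Nat.eq_zero_or_pos i with rfl | hi0
    · exact e2
    · exact e2.trans (hF.tp 0 (by omega) i hi hi0)
  have gu' : ∀ i < l, φ (gm i) < φ u := by
    intro i hi
    rcases Nat.lt_or_ge i (l - 1) with h3 | h3
    · exact (hF.tm i hi _ (by omega) h3).trans e3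
    · rw [show i = l - 1 by omega]
      exact e3
  have gv' : ∀ i < l, φ (gm i) < φ v := by
    intro i hi
    rcases Nat.lt_or_ge i (l - 1) with h3 | h3
    · exact (hF.tm i hi _ (by omega) h3).trans e4
    · rw [show i = l - 1 by omega]
      exact e4
  apply hsw
  refine pick h hQ (x := fun i => if i < a then gm i else if i = a then u else
    if i = a + 1 then v else gp (i - (a + 2))) ?_ ?_ ?_ ?_ ?_
  · intro i hi j hj hij
    beta_reduce
    by_cases c1 : j < a
    · rw [if_pos (show i < a by omega), if_pos c1]
      exact hF.sm _ (by omega) _ (by omega) (by omega)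
    rw [if_neg c1]
    by_cases c2 : j = a
    · rw [if_pos c2, if_pos (show i < a by omega)]
      exact h1 _ (by omega)
    rw [if_neg c2]
    by_cases c3 : j = a + 1
    · rw [if_pos c3]
      split_ifs with c4
      · exact h1' _ (by omega)
      · exact huv
      · exfalso
        omega
      · exfalso
        omega
    rw [if_neg c3]
    split_ifs with c4 c5 c6
    · exact hF.sc _ (by omega) _ (by omega)
    · exact h2 _ (by omega)
    · exact h2' _ (by omega)
    · exact hF.sp _ (by omega) _ (by omega) (by omega)
  · intro i hi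
    beta_reduce
    split_ifs
    · exact hF.xm _ (by omega)
    · exact hu
    · exact hv
    · exact hF.xp _ (by omega)
  · intro i hi
    unfold sw
    split_ifs <;> omega
  · intro i hi j hj hij
    unfold sw at hij
    split_ifs at hij <;> omega
  · intro i hi j hj h5
    unfold sw at h5
    beta_reduce
    by_cases c1 : i < a
    · rw [if_pos c1]
      by_cases c2 : j < a
      · rw [if_pos c2]
        apply hF.tm _ (by omega) _ (by omega)
        split_ifs at h5 <;> omega
      rw [if_neg c2]
      split_ifs with c3 c4
      · exact gu' _ (by omega)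
      · exact gv' _ (by omega)
      · exact hF.tc _ (by omega) _ (by omega)
    rw [if_neg c1]
    by_cases c4 : i = a
    · rw [if_pos c4]
      by_cases c5 : j < a + 2
      · exfalso
        split_ifs at h5 <;> omega
      rw [if_neg (by omega), if_neg (by omega), if_neg (by omega)]
      exact gu _ (by omega)
    rw [if_neg c4]
    by_cases c6 : i = a + 1
    · rw [if_pos c6]
      by_cases c7 : j < a
      · exfalso
        split_ifs at h5 <;> omega
      rw [if_neg c7]
      by_cases c8 : j = a
      · rw [if_pos c8]
        exact h0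
      rw [if_neg c8]
      by_cases c9 : j = a + 1
      · exfalso
        split_ifs at h5 <;> omega
      rw [if_neg c9]
      exact gv _ (by omega)
    rw [if_neg c6]
    by_cases c7 : j < a + 2
    · exfalso
      split_ifs at h5 <;> omega
    rw [if_neg (by omega), if_neg (by omega), if_neg (by omega)]
    apply hF.tp _ (by omega) _ (by omega)
    split_ifs at h5 <;> omega

end core

end Pool.H5.AB
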