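import Pool.Agent.H5.AB.Frame

/-!
# The frame theorem, final form
-/

set_option autoImplicit false

namespace Pool.H5.AB

open Set Function

variable {L : Type} [LinearOrder L] {Q : Set (L × L) → Prop} {a b m0 : ℕ}

/-- number of named points needed -/
def fA (a b m0 : ℕ) : ℕ := 2 * m0 + (a + b) + 1

/-- number of points needed above and below for a frame of length `l` -/
def fN (a b l : ℕ) : ℕ := 2 ^ (l + (a + b + 2))

/-- THE FRAME THEOREM. -/
theorem frame_exists [Infinite L] (h : GS Q) (hsw : ¬ GQ Q (a + b + 2) (sw a))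
    (hrot : ¬ GQ Q m0 (rl m0)) (X : Finset L) (φ : L → L) (hi : InjOn φ X)
    (hQ : Q {q | q.1 ∈ X ∧ q.2 = φ q.1}) (Z Wm Wp : Finset L) (hZ : Z ⊆ X) (hWm : Wm ⊆ X)
    (hWp : Wp ⊆ X) (cZ : fA a b m0 ≤ Z.card) {l : ℕ}
    (cm : fN a b l ≤ Wm.card) (cp : fN a b l ≤ Wp.card)
    (mZ : StrictMonoOn φ Z) (hup : ∀ w ∈ Wp, ∀ y ∈ X, y ∉ Wp → y < w)
    (hdn : ∀ w ∈ Wm, ∀ y ∈ X, y ∉ Wm → w < y) (hZW : ∀ z ∈ Z, z ∉ Wm ∧ z ∉ Wp) :
    ∃ gm gp : ℕ → L, Fr X φ l gm gp ∧ (∀ i < l, gm i ∈ Wm) ∧ ∀ i < l, gp i ∈ Wp := by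
  classical
  unfold fA at cZ
  unfold fN at cm cp
  obtain ⟨z, hz, hzZ⟩ := exists_enum Z (2 * m0 + (a + b) + 1) cZ (Classical.arbitrary L)
  have hzX : ∀ i < 2 * m0 + (a + b) + 1, z i ∈ X := fun i hi => hZ (hzZ i hi)
  have hzφ : ∀ i < 2 * m0 + (a + b) + 1, ∀ j < 2 * m0 + (a + b) + 1, i < j → φ (z i) < φ (z j) :=
    fun i hi j hj hij => mZ (hzZ i hi) (hzZ j hj) (hz hi hj hij)
  have hzz : ∀ i < 2 * m0 + (a + b) + 1, ∀ j < 2 * m0 + (a + b) + 1, i < j → z i < z j :=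
    fun i hi j hj hij => hz hi hj hij
  -- images of the upper points
  have up : ∀ w ∈ Wp, ∀ i < m0 + (a + b) + 1, φ (z i) < φ w := by
    intro w hw i hi'
    have h1 := rot_up h hQ hrot (z := fun j => z (i + j)) (w := w)
      (fun j hj k hk hjk => hzz _ (by omega) _ (by omega) (by omega))
      (fun j hj k hk hjk => hzφ _ (by omega) _ (by omega) (by omega))
      (fun j hj => hzX _ (by omega)) (hWp hw)
      (fun j hj => hup w hw _ (hzX _ (by omega)) (hZW _ (hzZ _ (by omega))).2)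
    refine lt_of_le_of_ne (not_lt.1 h1) ?_
    intro h2
    have h3 := hi (hzX i (by omega)) (hWp hw) h2
    have h4 := hup w hw _ (hzX i (by omega)) (hZW _ (hzZ i (by omega))).2
    rw [h3] at h4
    exact lt_irrefl _ h4
  have dn : ∀ w ∈ Wm, ∀ i, m0 ≤ i → i < 2 * m0 + (a + b) + 1 → φ w < φ (z i) := by
    intro w hw i hi1 hi2
    by_cases hm : m0 ≤ 1
    · -- the hypothesis on rotations is contradictory
      exfalso
      apply hrot
      apply GQ.one h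
      intro k hk
      unfold rl
      split_ifs <;> omega
    have h1 := rot_dn h hQ hrot (z := fun j => z (i + 2 + j - m0)) (w := w)
      (fun j hj k hk hjk => hzz _ (by omega) _ (by omega) (by omega))
      (fun j hj k hk hjk => hzφ _ (by omega) _ (by omega) (by omega))
      (fun j hj => hzX _ (by omega)) (hWm hw)
      (fun j hj => hdn w hw _ (hzX _ (by omega)) (hZW _ (hzZ _ (by omega))).1)
    beta_reduce at h1
    rw [show i + 2 + (m0 - 2) - m0 = i by omega] at h1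
    refine lt_of_le_of_ne (not_lt.1 h1) ?_
    intro h2
    have h3 := hi (hWm hw) (hzX i (by omega)) h2
    have h4 := hdn w hw _ (hzX i (by omega)) (hZW _ (hzZ i (by omega))).1
    rw [h3] at h4
    exact lt_irrefl _ h4
  -- the runs
  have rp : ∃ gp : ℕ → L, (∀ i < l, gp i ∈ Wp) ∧
      (∀ i < l, ∀ j < l, i < j → gp i < gp j) ∧
      ∀ i < l, ∀ j < l, i < j → φ (gp i) < φ (gp j) := by
    rcases es_set φ (l) (b + 2) Wp (hi.mono hWp)
      ((Nat.pow_le_pow_right (by norm_num) (by omega)).trans cp) with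
      ⟨S, hS, hc, hm⟩ | ⟨S, hS, hc, hm⟩
    · obtain ⟨g, hg1, hg2⟩ := exists_enum S _ hc.ge (Classical.arbitrary L)
      exact ⟨g, fun i hi => hS (hg2 i hi), fun i hi j hj hij => hg1 hi hj hij,
        fun i hi j hj hij => hm (hg2 i hi) (hg2 j hj) (hg1 hi hj hij)⟩
    · exfalso
      obtain ⟨g, hg1, hg2⟩ := exists_enum S _ hc.ge (Classical.arbitrary L)
      refine no_dec h hQ hsw (z := z) (gp := g)
        (fun i hi j hj hij => hzz _ (by omega) _ (by omega) hij)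
        (fun i hi j hj hij => hzφ _ (by omega) _ (by omega) hij)
        (fun i hi => hzX _ (by omega)) (fun i hi j hj hij => hg1 hi hj hij)
        (fun i hi j hj hij => hm (hg2 i hi) (hg2 j hj) (hg1 hi hj hij))
        (fun i hi => hWp (hS (hg2 i hi)))
        (fun i hi j hj => hup _ (hS (hg2 j hj)) _ (hzX _ (by omega)) (hZW _ (hzZ _ (by omega))).2)
        (fun i hi j hj => up _ (hS (hg2 j hj)) i (by omega))
  have rm : ∃ gm : ℕ → L, (∀ i < l, gm i ∈ Wm) ∧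
      (∀ i < l, ∀ j < l, i < j → gm i < gm j) ∧
      ∀ i < l, ∀ j < l, i < j → φ (gm i) < φ (gm j) := by
    rcases es_set φ (l) (a + 2) Wm (hi.mono hWm)
      ((Nat.pow_le_pow_right (by norm_num) (by omega)).trans cm) with
      ⟨S, hS, hc, hm⟩ | ⟨S, hS, hc, hm⟩
    · obtain ⟨g, hg1, hg2⟩ := exists_enum S _ hc.ge (Classical.arbitrary L)
      exact ⟨g, fun i hi => hS (hg2 i hi), fun i hi j hj hij => hg1 hi hj hij,
        fun i hi j hj hij => hm (hg2 i hi) (hg2 j hj) (hg1 hi hj hij)⟩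
    · exfalso
      obtain ⟨g, hg1, hg2⟩ := exists_enum S _ hc.ge (Classical.arbitrary L)
      refine no_dec' h hQ hsw (z := fun i => z (2 * m0 + 1 + i)) (gm := g)
        (fun i hi j hj hij => hzz _ (by omega) _ (by omega) (by omega))
        (fun i hi j hj hij => hzφ _ (by omega) _ (by omega) (by omega))
        (fun i hi => hzX _ (by omega)) (fun i hi j hj hij => hg1 hi hj hij)
        (fun i hi j hj hij => hm (hg2 i hi) (hg2 j hj) (hg1 hi hj hij))
        (fun i hi => hWm (hS (hg2 i hi)))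
        (fun i hi j hj => hdn _ (hS (hg2 j hj)) _ (hzX _ (by omega)) (hZW _ (hzZ _ (by omega))).1)
        (fun i hi j hj => dn _ (hS (hg2 j hj)) _ (by omega) (by omega))
  obtain ⟨gp, p1, p2, p3⟩ := rp
  obtain ⟨gm, q1, q2, q3⟩ := rm
  have hF : Fr X φ (l) gm gp := by
    refine ⟨fun i hi => hWm (q1 i hi), fun i hi => hWp (p1 i hi), q2, p2, q3, p3, ?_, ?_⟩
    · intro i hi j hj
      exact (hdn _ (q1 i hi) _ (hzX 0 (by omega)) (hZW _ (hzZ 0 (by omega))).1).trans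
        (hup _ (p1 j hj) _ (hzX 0 (by omega)) (hZW _ (hzZ 0 (by omega))).2)
    · intro i hi j hj
      exact (dn _ (q1 i hi) m0 le_rfl (by omega)).trans (up _ (p1 j hj) m0 (by omega))
  exact ⟨gm, gp, hF, q1, p1⟩

/-- the order is preserved in the middle -/
theorem frame_thm [Infinite L] (h : GS Q) (hsw : ¬ GQ Q (a + b + 2) (sw a))
    (hrot : ¬ GQ Q m0 (rl m0)) (X : Finset L) (φ : L → L) (hi : InjOn φ X)
    (hQ : Q {q | q.1 ∈ X ∧ q.2 = φ q.1}) (Z Wm Wp : Finset L) (hZ : Z ⊆ X) (hWm : Wm ⊆ X)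
    (hWp : Wp ⊆ X) (cZ : fA a b m0 ≤ Z.card) {l : ℕ} (hl : 2 * a + 2 * b + 3 ≤ l)
    (cm : fN a b l ≤ Wm.card) (cp : fN a b l ≤ Wp.card)
    (mZ : StrictMonoOn φ Z) (hup : ∀ w ∈ Wp, ∀ y ∈ X, y ∉ Wp → y < w)
    (hdn : ∀ w ∈ Wm, ∀ y ∈ X, y ∉ Wm → w < y) (hZW : ∀ z ∈ Z, z ∉ Wm ∧ z ∉ Wp) :
    ∀ u ∈ X, ∀ v ∈ X, u ∉ Wm → u ∉ Wp → v ∉ Wm → v ∉ Wp → u < v → φ u < φ v := by
  obtain ⟨gm, gp, hF, q1, p1⟩ := frame_exists h hsw hrot X φ hi hQ Z Wm Wp hZ hWm hWp cZ cm cp mZ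
    hup hdn hZW
  intro u hu v hv um upp vm vp huv
  exact frame_in h hQ hi hsw hF hl hu (fun i hi => hdn _ (q1 i hi) u hu um)
    (fun i hi => hup _ (p1 i hi) u hu upp) hv (fun i hi => hdn _ (q1 i hi) v hv vm)
    (fun i hi => hup _ (p1 i hi) v hv vp) huv

end Pool.H5.AB
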