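import Mathlib

/-!
# Systems of good partial maps of a linear order
-/

set_option autoImplicit false

namespace Pool.H5.AB

open Set Function

/-- a system of good partial maps (sets of pairs) of a linear order -/
structure GS {L : Type} [LinearOrder L] (Q : Set (L × L) → Prop) : Prop where
  mono : ∀ Γ Γ', Γ ⊆ Γ' → Q Γ' → Q Γ
  comp : ∀ Γ Γ', Q Γ → Q Γ' → Q {q | ∃ y, (q.1, y) ∈ Γ ∧ (y, q.2) ∈ Γ'}
  inv : ∀ Γ, Q Γ → Q {q | (q.2, q.1) ∈ Γ}
  ord : ∀ Γ : Set (L × L), (∀ g ∈ Γ, ∀ h ∈ Γ, (g.1 < h.1 ↔ g.2 < h.2)) → Q Γ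

variable {L : Type} [LinearOrder L] {Q : Set (L × L) → Prop} {n m p a b : ℕ} {σ τ ρ g : ℕ → ℕ}

/-- the pairs `(u i, v i)`, `i < n` -/
def Gr (n : ℕ) (u v : ℕ → L) : Set (L × L) := {q | ∃ i < n, q = (u i, v i)}

/-- the map `i ↦ σ i` of `n` increasing points is good -/
def GQ (Q : Set (L × L) → Prop) (n : ℕ) (σ : ℕ → ℕ) : Prop :=
  ∀ e : ℕ → L, StrictMonoOn e (Iio n) → Q (Gr n e (fun i => e (σ i)))

/-- the pattern of a good partial map is good -/
theorem gq_of (h : GS Q) {u v : ℕ → L} (hu : StrictMonoOn u (Iio n))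
    (hv : ∀ i < n, ∀ j < n, (v i < v j ↔ σ i < σ j)) (hσ : ∀ i < n, σ i < n)
    (hQ : Q (Gr n u v)) : GQ Q n σ := by
  intro e he
  have h1 : Q (Gr n e u) := by
    apply h.ord
    rintro _ ⟨i, hi, rfl⟩ _ ⟨j, hj, rfl⟩
    exact (he.lt_iff_lt hi hj).trans (hu.lt_iff_lt hi hj).symm
  have h3 : Q (Gr n v (fun i => e (σ i))) := by
    apply h.ord
    rintro _ ⟨i, hi, rfl⟩ _ ⟨j, hj, rfl⟩
    exact (hv i hi j hj).trans (he.lt_iff_lt (hσ i hi) (hσ j hj)).symm
  refine h.mono _ _ ?_ (h.comp _ _ (h.comp _ _ h1 hQ) h3)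
  rintro _ ⟨i, hi, rfl⟩
  exact ⟨v i, ⟨u i, ⟨i, hi, rfl⟩, ⟨i, hi, rfl⟩⟩, ⟨i, hi, rfl⟩⟩

/-- conversely -/
theorem GQ.of (h : GS Q) {u v : ℕ → L} (hu : StrictMonoOn u (Iio n))
    (hv : ∀ i < n, ∀ j < n, (v i < v j ↔ σ i < σ j)) (hσ : ∀ i < n, σ i < n)
    (hQ : GQ Q n σ) : Q (Gr n u v) := by
  have h1 := hQ u hu
  have h3 : Q (Gr n (fun i => u (σ i)) v) := by
    apply h.ord
    rintro _ ⟨i, hi, rfl⟩ _ ⟨j, hj, rfl⟩
    exact (hu.lt_iff_lt (hσ i hi) (hσ j hj)).trans (hv i hi j hj).symm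
  refine h.mono _ _ ?_ (h.comp _ _ h1 h3)
  rintro _ ⟨i, hi, rfl⟩
  exact ⟨u (σ i), ⟨i, hi, rfl⟩, ⟨i, hi, rfl⟩⟩

theorem exists_inc [Infinite L] (n : ℕ) : ∃ e : ℕ → L, StrictMonoOn e (Iio n) := by
  obtain ⟨s, hs⟩ := Infinite.exists_subset_card_eq L n
  have e0 : L := Classical.arbitrary L
  refine ⟨fun i => if hi : i < n then s.orderEmbOfFin hs ⟨i, hi⟩ else e0, ?_⟩
  intro i hi j hj hij
  simp only [mem_Iio] at hi hj
  simp only [dif_pos hi, dif_pos hj]
  exact (s.orderEmbOfFin hs).strictMono hij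

/-- subpatterns -/
theorem GQ.sub [Infinite L] (h : GS Q) (hQ : GQ Q n σ) (hσ : ∀ i < n, σ i < n)
    (hg : ∀ i < m, ∀ j < m, i < j → g i < g j) (hgn : ∀ i < m, g i < n) (hτ : ∀ i < m, τ i < m)
    (hp : ∀ i < m, ∀ j < m, (τ i < τ j ↔ σ (g i) < σ (g j))) : GQ Q m τ := by
  obtain ⟨e, he⟩ := exists_inc (L := L) n
  refine gq_of h (u := fun i => e (g i)) (v := fun i => e (σ (g i))) ?_ ?_ hτ ?_
  · intro i hi j hj hij
    exact he (hgn i hi) (hgn j hj) (hg i hi j hj hij)
  · intro i hi j hj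
    exact (he.lt_iff_lt (hσ _ (hgn i hi)) (hσ _ (hgn j hj))).trans (hp i hi j hj).symm
  · refine h.mono _ _ ?_ (hQ e he)
    rintro _ ⟨i, hi, rfl⟩
    exact ⟨g i, hgn i hi, rfl⟩

theorem GQ.mul (h : GS Q) (hσ : GQ Q n σ) (hρ : GQ Q n ρ) (hn : ∀ i < n, σ i < n)
    (hτ : ∀ i < n, τ i = ρ (σ i)) : GQ Q n τ := by
  intro e he
  refine h.mono _ _ ?_ (h.comp _ _ (hσ e he) (hρ e he))
  rintro _ ⟨i, hi, rfl⟩
  exact ⟨e (σ i), ⟨i, hi, rfl⟩, ⟨σ i, hn i hi, by simp only [hτ i hi]⟩⟩

/-- division -/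
theorem GQ.div (h : GS Q) (hσ : GQ Q n σ) (hρ : GQ Q n ρ) (hn : ∀ i < n, τ i < n)
    (hτ : ∀ i < n, ρ (τ i) = σ i) : GQ Q n τ := by
  intro e he
  refine h.mono _ _ ?_ (h.comp _ _ (hσ e he) (h.inv _ (hρ e he)))
  rintro _ ⟨i, hi, rfl⟩
  exact ⟨e (σ i), ⟨i, hi, rfl⟩, ⟨τ i, hn i hi, by simp only [hτ i hi]⟩⟩

theorem GQ.one (h : GS Q) (hσ : ∀ i < n, σ i = i) : GQ Q n σ := by
  intro e he
  apply h.ord
  rintro _ ⟨i, hi, rfl⟩ _ ⟨j, hj, rfl⟩
  dsimp only
  rw [hσ i hi, hσ j hj]

theorem GQ.congr (h : GS Q) (hσ : GQ Q n σ) (hτ : ∀ i < n, τ i = σ i) : GQ Q n τ := by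
  intro e he
  refine h.mono _ _ ?_ (hσ e he)
  rintro _ ⟨i, hi, rfl⟩
  exact ⟨i, hi, by simp only [hτ i hi]⟩

/-- the swap of `p` and `p + 1` -/
def sw (p i : ℕ) : ℕ := if i = p then p + 1 else if i = p + 1 then p else i

/-- the last of the first `m` points goes to the front -/
def rl (m i : ℕ) : ℕ := if i + 1 < m then i + 1 else if i + 1 = m then 0 else i

/-- the first of the `m` points after the first `p` goes to the end -/
def rr (p m i : ℕ) : ℕ := if i < p then i else if i = p then p + m - 1 else i - 1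

/-- the `d` points after the first `p` are reversed -/
def rv (p d i : ℕ) : ℕ := if i < p then i else if i < p + d then 2 * p + d - 1 - i else i

/-- a visible swap stays visible in larger contexts -/
theorem sw_sub [Infinite L] (h : GS Q) {a' n : ℕ} (hQ : GQ Q n (sw a')) (ha : a ≤ a')
    (hb : a' + b + 2 ≤ n) : GQ Q (a + b + 2) (sw a) := by
  refine hQ.sub h (g := fun i => (a' - a) + i) ?_ ?_ ?_ ?_ ?_
  · intro i hi
    unfold sw
    split_ifs <;> omega
  · intro i _ j _ hij
    omega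
  · intro i hi
    omega
  · intro i hi
    unfold sw
    split_ifs <;> omega
  · intro i hi j hj
    unfold sw
    split_ifs <;> omega

/-- F2: a reversed run of length `b + 2` behind `a + b` points -/
theorem f2 [Infinite L] (h : GS Q) (hQ : GQ Q (a + b + (b + 2)) (rv (a + b) (b + 2))) :
    GQ Q (a + b + 2) (sw a) := by
  have h1 : GQ Q (a + b + 2) (rv a (b + 2)) := by
    refine hQ.sub h (g := fun i => if i < a then i else i + b) ?_ ?_ ?_ ?_ ?_
    · intro i hi
      unfold rv
      split_ifs <;> omega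
    · intro i hi j hj hij
      beta_reduce
      split_ifs <;> omega
    · intro i hi
      beta_reduce
      split_ifs <;> omega
    · intro i hi
      unfold rv
      split_ifs <;> omega
    · intro i hi j hj
      unfold rv
      split_ifs <;> omega
  have h2 : GQ Q (a + b + 2) (sw (a + b)) := by
    refine hQ.sub h (g := fun i => i) ?_ ?_ ?_ ?_ ?_
    · intro i hi
      unfold rv
      split_ifs <;> omega
    · intro i hi j hj hij
      exact hij
    · intro i hi
      omega
    · intro i hi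
      unfold sw
      split_ifs <;> omega
    · intro i hi j hj
      unfold rv sw
      split_ifs <;> omega
  have h3 : GQ Q (a + b + 2) (fun i => sw (a + b) (rv a (b + 2) i)) := by
    refine h1.mul h h2 ?_ fun i hi => rfl
    intro i hi
    unfold rv
    split_ifs <;> omega
  refine h3.mul h h1 ?_ ?_
  · intro i hi
    unfold rv sw
    split_ifs <;> omega
  · intro i hi
    unfold rv sw
    split_ifs <;> omega

/-- F2, mirror image: a reversed run of length `a + 2` before `a + b` points -/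
theorem f2' [Infinite L] (h : GS Q) (hQ : GQ Q ((a + 2) + (a + b)) (rv 0 (a + 2))) :
    GQ Q (a + b + 2) (sw a) := by
  have h1 : GQ Q (a + b + 2) (rv 0 (a + 2)) := by
    refine hQ.sub h (g := fun i => i) ?_ ?_ ?_ ?_ ?_
    · intro i hi
      unfold rv
      split_ifs <;> omega
    · intro i hi j hj hij
      exact hij
    · intro i hi
      omega
    · intro i hi
      unfold rv
      split_ifs <;> omega
    · intro i hi j hj
      rfl
  have h2 : GQ Q (a + b + 2) (sw 0) := by
    refine hQ.sub h (g := fun i => i + a) ?_ ?_ ?_ ?_ ?_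
    · intro i hi
      unfold rv
      split_ifs <;> omega
    · intro i hi j hj hij
      omega
    · intro i hi
      omega
    · intro i hi
      unfold sw
      split_ifs <;> omega
    · intro i hi j hj
      unfold rv sw
      split_ifs <;> omega
  have h3 : GQ Q (a + b + 2) (fun i => sw 0 (rv 0 (a + 2) i)) := by
    refine h1.mul h h2 ?_ fun i hi => rfl
    intro i hi
    unfold rv
    split_ifs <;> omega
  refine h3.mul h h1 ?_ ?_
  · intro i hi
    unfold rv sw
    split_ifs <;> omega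
  · intro i hi
    unfold rv sw
    split_ifs <;> omega

/-- F3: the last of `m` points goes to the front, `b + 1` points behind -/
theorem f3 [Infinite L] (h : GS Q) (hm : a + 2 ≤ m) (hQ : GQ Q (m + (b + 1)) (rl m)) :
    GQ Q (a + b + 2) (sw a) := by
  have h1 : GQ Q (m + b) (rl m) := by
    refine hQ.sub h (g := fun i => i) ?_ ?_ ?_ ?_ ?_
    · intro i hi
      unfold rl
      split_ifs <;> omega
    · intro i hi j hj hij
      exact hij
    · intro i hi
      omega
    · intro i hi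
      unfold rl
      split_ifs <;> omega
    · intro i hi j hj
      rfl
  have h2 : GQ Q (m + b) (rl (m - 1)) := by
    refine hQ.sub h (g := fun i => i + 1) ?_ ?_ ?_ ?_ ?_
    · intro i hi
      unfold rl
      split_ifs <;> omega
    · intro i hi j hj hij
      omega
    · intro i hi
      omega
    · intro i hi
      unfold rl
      split_ifs <;> omega
    · intro i hi j hj
      unfold rl
      split_ifs <;> omega
  have h3 : GQ Q (m + b) (sw (m - 2)) := by
    refine h1.div h h2 ?_ ?_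
    · intro i hi
      unfold sw
      split_ifs <;> omega
    · intro i hi
      unfold rl sw
      split_ifs <;> omega
  exact sw_sub h h3 (by omega) (by omega)

/-- F3, mirror image: the first of `m` points goes to the end, `a + 1` points in front -/
theorem f3' [Infinite L] (h : GS Q) (hm : b + 2 ≤ m) (hQ : GQ Q (a + 1 + m) (rr (a + 1) m)) :
    GQ Q (a + b + 2) (sw a) := by
  have h1 : GQ Q (a + m) (rr a m) := by
    refine hQ.sub h (g := fun i => i + 1) ?_ ?_ ?_ ?_ ?_
    · intro i hi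
      unfold rr
      split_ifs <;> omega
    · intro i hi j hj hij
      omega
    · intro i hi
      omega
    · intro i hi
      unfold rr
      split_ifs <;> omega
    · intro i hi j hj
      unfold rr
      split_ifs <;> omega
  have h2 : GQ Q (a + m) (rr (a + 1) (m - 1)) := by
    refine hQ.sub h (g := fun i => i) ?_ ?_ ?_ ?_ ?_
    · intro i hi
      unfold rr
      split_ifs <;> omega
    · intro i hi j hj hij
      exact hij
    · intro i hi
      omega
    · intro i hi
      unfold rr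
      split_ifs <;> omega
    · intro i hi j hj
      unfold rr
      split_ifs <;> omega
  have h3 : GQ Q (a + m) (sw a) := by
    refine h1.div h h2 ?_ ?_
    · intro i hi
      unfold sw
      split_ifs <;> omega
    · intro i hi
      unfold rr sw
      split_ifs <;> omega
  exact sw_sub h h3 le_rfl (by omega)

end Pool.H5.AB
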