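import Pool.Agent.H5.AB.Def
import Pool.Agent.H5.AB.Gs

/-!
# The system of good maps of the cells of one kind
-/

set_option autoImplicit false

namespace Pool.H5.AB

open Set Ordinal Pool.H62.VT

variable {a : ℕ → ℕ} {I : Type} {M : Str a} {E E' : Set ℕ} {m c : ℕ} [LinearOrder I]
  {kd : I → ℕ} {sz : ℕ → ℕ} {x : I → ℕ → ℕ} {Rn : Finset I} {k : ℕ}

/-- the cells of kind `k` -/
abbrev Lk (kd : I → ℕ) (k : ℕ) : Type := {i : I // kd i = k}

/-- the partial map `Γ` of cells of kind `k` is good: together with the identity outside the cells of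
kind `k` it is a partial isomorphism -/
def QK (M : Str a) (kd : I → ℕ) (sz : ℕ → ℕ) (x : I → ℕ → ℕ) (k : ℕ)
    (Γ : Set (Lk kd k × Lk kd k)) : Prop :=
  PI M M (idOn (Rs kd sz x k) ∪ {q | ∃ g ∈ Γ, ∃ d < sz k, q = (x g.1.1 d, x g.2.1 d)})

theorem rs_cell (hF : FF M Rn E E' m c kd sz x) {i : I} (hi : kd i ≠ k) (hn : i ∉ Rn) {d : ℕ}
    (hd : d < sz (kd i)) : x i d ∈ Rs kd sz x k := by
  intro j hj e he h
  obtain ⟨h1, -⟩ := hF.inj i j d e hd (by rw [hj]; exact he) h (Or.inr (Or.inl hn))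
  rw [h1] at hi
  exact hi hj

/-- a point of `E` which is not in a named cell of kind `k` -/
theorem rs_E (hF : FF M Rn E E' m c kd sz x) {y : ℕ} (hy : y ∈ E)
    (hn : ∀ i ∈ Rn, kd i = k → ∀ d < sz k, y ≠ x i d) : y ∈ Rs kd sz x k := by
  intro i hi d hd h
  by_cases hr : i ∈ Rn
  · exact hn i hr hi d hd h
  · apply hF.notE i hr d (by rw [hi]; exact hd)
    rw [← h]
    exact hy

theorem rs_D {y : ℕ} (hy : y ∈ Dr E kd sz x) : y ∈ Rs kd sz x k := by
  intro i hi d hd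
  exact hy.2 i d (by rw [hi]; exact hd)

/-- a point outside the cells of kind `k` is in `E`, in the rest, or in another cell -/
theorem rs_cases {y : ℕ} (hy : y ∈ Rs kd sz x k) :
    y ∈ E ∨ y ∈ Dr E kd sz x ∨ ∃ i, kd i ≠ k ∧ ∃ d < sz (kd i), y = x i d := by
  by_cases h1 : y ∈ E
  · exact Or.inl h1
  · by_cases h2 : ∃ i, kd i ≠ k ∧ ∃ d < sz (kd i), y = x i d
    · exact Or.inr (Or.inr h2)
    · refine Or.inr (Or.inl ⟨h1, fun i d hd h => ?_⟩)
      by_cases hi : kd i = k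
      · exact hy i hi d (by rw [← hi]; exact hd) h
      · exact h2 ⟨i, hi, d, hd, h⟩

theorem pi_id (M : Str a) (S : Set ℕ) : PI M M (idOn S) := (BF_refl M univ S 0).pi

theorem gs_kind (hF : FF M Rn E E' m c kd sz x) (k : ℕ) : GS (QK M kd sz x k) := by
  refine ⟨?_, ?_, ?_, ?_⟩
  · intro Γ Γ' h1 h2
    refine PI.mono h2 ?_
    rintro q (hq | ⟨g, hg, d, hd, rfl⟩)
    · exact Or.inl hq
    · exact Or.inr ⟨g, h1 hg, d, hd, rfl⟩
  · intro Γ Γ' h1 h2
    refine (PI.trans h1 h2).mono ?_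
    rintro q (hq | ⟨g, ⟨y, hg1, hg2⟩, d, hd, rfl⟩)
    · obtain ⟨q1, q2⟩ := q
      obtain ⟨hq1, hq2⟩ := hq
      simp only at hq1 hq2
      subst hq2
      exact ⟨q1, Or.inl ⟨hq1, rfl⟩, Or.inl ⟨hq1, rfl⟩⟩
    · exact ⟨x y.1 d, Or.inr ⟨_, hg1, d, hd, rfl⟩, Or.inr ⟨_, hg2, d, hd, rfl⟩⟩
  · intro Γ h1
    refine (PI.symm h1).mono ?_
    rintro q (hq | ⟨g, hg, d, hd, rfl⟩)
    · obtain ⟨q1, q2⟩ := q
      obtain ⟨hq1, hq2⟩ := hq
      simp only at hq1 hq2
      subst hq2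
      exact Or.inl ⟨hq1, rfl⟩
    · exact Or.inr ⟨_, hg, d, hd, rfl⟩
  · intro Γ hΓ
    have hone := hF.one k {g | ∃ h ∈ Γ, g = (h.1.1, h.2.1)} (by
        refine ⟨⟨?_, ?_⟩, ?_⟩
        · rintro g ⟨h, hh, rfl⟩
          exact h.1.2.trans h.2.2.symm
        · rintro g ⟨h, hh, rfl⟩ g' ⟨h', hh', rfl⟩
          have h1 := hΓ h hh h' hh'
          have h2 := hΓ h' hh' h hh
          constructor
          · intro he
            have he' : h.1 = h'.1 := Subtype.ext he
            rw [he'] at h1 h2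
            simp only [lt_self_iff_false, false_iff] at h1 h2
            exact congrArg Subtype.val (le_antisymm (not_lt.1 h2) (not_lt.1 h1))
          · intro he
            have he' : h.2 = h'.2 := Subtype.ext he
            rw [he'] at h1 h2
            simp only [lt_self_iff_false, iff_false] at h1 h2
            exact congrArg Subtype.val (le_antisymm (not_lt.1 h2) (not_lt.1 h1))
        · rintro g ⟨h, hh, rfl⟩ g' ⟨h', hh', rfl⟩ he
          exact hΓ h hh h' hh')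
      (by
        rintro g ⟨h, hh, rfl⟩
        exact h.1.2)
    refine hone.mono ?_
    rintro q (hq | ⟨g, hg, d, hd, rfl⟩)
    · exact Or.inl hq
    · refine Or.inr ⟨(g.1.1, g.2.1), ⟨g, hg, rfl⟩, d, ?_, rfl⟩
      show d < sz (kd g.1.1)
      rw [g.1.2]
      exact hd

end Pool.H5.AB
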