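import Mathlib

/-!
# Points near the ends of a linear order
-/

set_option autoImplicit false

namespace Pool.H5.AB

open Set

variable {L : Type} [LinearOrder L]

/-- PROOF. Induction on `N`: there is a finite final segment `T` such that `N ≤ T.card` or
`∀ y ∉ T, ∃ y' ∉ T, y < y'` (step: if the complement of `T` has a maximum `y`, take `insert y T`; the
complement is not empty because `L` is infinite). In the first case take `W = T`. In the second case
choose the points of `W` outside `T` one after the other above all points of `X` outside `T` and above the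
points chosen before. -/
theorem up_points [Infinite L] (N : ℕ) : ∃ T : Finset L, (∀ t ∈ T, ∀ y, t < y → y ∈ T) ∧
    ∀ X : Finset L, ∃ W : Finset L, N ≤ W.card ∧ (W = T ∨ Disjoint W T) ∧
      ∀ w ∈ W, ∀ y ∈ X, y ∉ T → y < w := by
  classical
  have key : ∀ N : ℕ, ∃ T : Finset L, (∀ t ∈ T, ∀ y, t < y → y ∈ T) ∧
      (N ≤ T.card ∨ ∀ y, y ∉ T → ∃ y', y' ∉ T ∧ y < y') := by
    intro N
    induction N with
    | zero => exact ⟨∅, by simp, Or.inl (Nat.zero_le _)⟩
    | succ N ih =>
      obtain ⟨T, hT, h | h⟩ := ih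
      · by_cases hc : ∀ y, y ∉ T → ∃ y', y' ∉ T ∧ y < y'
        · exact ⟨T, hT, Or.inr hc⟩
        · push Not at hc
          obtain ⟨y, hy, hy'⟩ := hc
          refine ⟨insert y T, ?_, Or.inl ?_⟩
          · intro t ht z htz
            rw [Finset.mem_insert] at ht ⊢
            rcases ht with rfl | ht
            · right
              by_contra hz
              exact absurd htz (not_lt.2 (hy' z hz))
            · exact Or.inr (hT t ht z htz)
          · rw [Finset.card_insert_of_notMem hy]
            omega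
      · exact ⟨T, hT, Or.inr h⟩
  obtain ⟨T, hT, h⟩ := key N
  refine ⟨T, hT, fun X => ?_⟩
  rcases h with h | h
  · refine ⟨T, h, Or.inl rfl, fun w hw y _ hy => ?_⟩
    by_contra hc
    rcases (not_lt.1 hc).lt_or_eq with h1 | h1
    · exact hy (hT w hw y h1)
    · exact hy (h1 ▸ hw)
  · have step : ∀ S : Finset L, (∀ y ∈ S, y ∉ T) → ∃ w, w ∉ T ∧ ∀ y ∈ S, y < w := by
      intro S hS
      by_cases hne : S.Nonempty
      · obtain ⟨w, hw, hlt⟩ := h (S.max' hne) (hS _ (S.max'_mem hne))
        exact ⟨w, hw, fun y hy => lt_of_le_of_lt (S.le_max' y hy) hlt⟩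
      · obtain ⟨w, hw⟩ := Infinite.exists_notMem_finset T
        refine ⟨w, hw, fun y hy => ?_⟩
        exact absurd ⟨y, hy⟩ hne
    have main : ∀ n : ℕ, ∃ W : Finset L, W.card = n ∧ (∀ w ∈ W, w ∉ T) ∧
        ∀ w ∈ W, ∀ y ∈ X, y ∉ T → y < w := by
      intro n
      induction n with
      | zero => exact ⟨∅, rfl, by simp, by simp⟩
      | succ n ih =>
        obtain ⟨W, h1, h2, h3⟩ := ih
        obtain ⟨w, hw, hlt⟩ := step ((X.filter fun y => y ∉ T) ∪ W) (by
          intro y hy
          rw [Finset.mem_union, Finset.mem_filter] at hy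
          rcases hy with hy | hy
          · exact hy.2
          · exact h2 y hy)
        have hwW : w ∉ W := fun h4 => lt_irrefl w (hlt w (Finset.mem_union_right _ h4))
        refine ⟨insert w W, by rw [Finset.card_insert_of_notMem hwW, h1], ?_, ?_⟩
        · intro v hv
          rcases Finset.mem_insert.1 hv with rfl | hv
          · exact hw
          · exact h2 v hv
        · intro v hv y hy hyT
          rcases Finset.mem_insert.1 hv with rfl | hv
          · exact hlt y (Finset.mem_union_left _ (Finset.mem_filter.2 ⟨hy, hyT⟩))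
          · exact h3 v hv y hy hyT
    obtain ⟨W, h1, h2, h3⟩ := main N
    exact ⟨W, h1.ge, Or.inr (Finset.disjoint_left.2 h2), h3⟩

/-- the mirror image -/
theorem dn_points [Infinite L] (N : ℕ) : ∃ T : Finset L, (∀ t ∈ T, ∀ y, y < t → y ∈ T) ∧
    ∀ X : Finset L, ∃ W : Finset L, N ≤ W.card ∧ (W = T ∨ Disjoint W T) ∧
      ∀ w ∈ W, ∀ y ∈ X, y ∉ T → w < y :=
  have : Infinite Lᵒᵈ := inferInstanceAs (Infinite L)
  up_points (L := Lᵒᵈ) N

end Pool.H5.AB
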