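import Pool.Agent.H5.AB.Cl
import Pool.Agent.H5.AA.Fre

/-!
# Finitely many witnesses, and locality of good label changes
-/

set_option autoImplicit false

namespace Pool.H5.AB

open Set Ordinal Pool.H62.VT

variable {a : ℕ → ℕ} {I : Type} {M : Str a} {E E' : Set ℕ} {m c r : ℕ} [LinearOrder I]
  {kd : I → ℕ} {sz : ℕ → ℕ} {x : I → ℕ → ℕ} {Rn : Finset I} {k : ℕ}

/-- Finitely many fixed points see all bad patterns of at most `n1` cells. PROOF. Let `e` be an increasing
sequence of `n1` cells (`exists_inc`). There are finitely many triples `(n, σ, lam)`, `n ≤ n1`,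
`σ : Fin n → Fin n`, `lam : Fin n → Perm (Fin (sz k))`. If the pattern is bad over `Rs k` then
`¬ QL M (Rs k) … (GrL n e (e ∘ σ) lam)` (otherwise `gql_of`); by `Pool.H5.AA.pi_of_fin` some finite part `P` of
the position is not a partial isomorphism; let `F` be the union of the (finite) sets
`{y | y ∈ Rs k ∧ (y, y) ∈ P}`. If `GQL (QL M F …) n σ lam` then `QL M F … (GrL n e (e ∘ σ) lam)`, which
contains `P`. -/
theorem exists_wit [Infinite (Lk kd k)] (hF : FF M Rn E E' m c kd sz x) (n1 : ℕ) :
    ∃ F : Set ℕ, F.Finite ∧ F ⊆ Rs kd sz x k ∧ ∀ n ≤ n1, ∀ σ : ℕ → ℕ, (∀ i < n, σ i < n) →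
      ∀ lam, GQL (QL M F kd sz x k) n σ lam → GQL (QL M (Rs kd sz x k) kd sz x k) n σ lam := by
  classical
  have hls : LS (QL M (Rs kd sz x k) kd sz x k) := ls_kind hF k Subset.rfl
  obtain ⟨e, he⟩ := exists_inc (L := Lk kd k) n1
  have one : ∀ (n : ℕ), n ≤ n1 → ∀ σ : ℕ → ℕ, (∀ i < n, σ i < n) →
      ∀ lam : ℕ → Equiv.Perm (Fin (sz k)), ∃ F : Set ℕ, F.Finite ∧ F ⊆ Rs kd sz x k ∧
        (QL M F kd sz x k (GrL n e (fun i => e (σ i)) lam) →
          GQL (QL M (Rs kd sz x k) kd sz x k) n σ lam) := by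
    intro n hn σ hσ lam
    have hen : StrictMonoOn e (Iio n) := fun i hi j hj hij =>
      he (lt_of_lt_of_le hi hn) (lt_of_lt_of_le hj hn) hij
    by_cases hb : QL M (Rs kd sz x k) kd sz x k (GrL n e (fun i => e (σ i)) lam)
    · refine ⟨∅, finite_empty, empty_subset _, fun _ => ?_⟩
      exact gql_of hls hen (fun i hi j hj => hen.lt_iff_lt (hσ i hi) (hσ j hj)) hσ hb
    · have hb' : ∃ P : Pos, P ⊆ idOn (Rs kd sz x k) ∪
          {q | ∃ g ∈ GrL n e (fun i => e (σ i)) lam, q ∈ mvL x g.1.1 g.2.1.1 g.2.2} ∧ P.Finite ∧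
          ¬ PI M M P := by
        by_contra hc
        push Not at hc
        exact hb (Pool.H5.AA.pi_of_fin hc)
      obtain ⟨P, hP1, hP2, hP3⟩ := hb'
      refine ⟨{y | y ∈ Rs kd sz x k ∧ (y, y) ∈ P}, ?_, fun y hy => hy.1, fun hq => ?_⟩
      · refine (hP2.image Prod.fst).subset ?_
        rintro y ⟨-, hy⟩
        exact ⟨(y, y), hy, rfl⟩
      · exfalso
        apply hP3
        refine PI.mono hq ?_
        intro q hq'
        rcases hP1 hq' with ⟨h1, h2⟩ | h1
        · left
          obtain ⟨q1, q2⟩ := q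
          simp only at h1 h2
          subst h2
          exact ⟨⟨h1, hq'⟩, rfl⟩
        · exact Or.inr h1
  have ext : ∀ (d : Σ n : Fin (n1 + 1), (Fin n → Fin n) × (Fin n → Equiv.Perm (Fin (sz k)))),
      ∃ F : Set ℕ, F.Finite ∧ F ⊆ Rs kd sz x k ∧
        (QL M F kd sz x k (GrL d.1 e
          (fun i => e (if hi : i < d.1 then (d.2.1 ⟨i, hi⟩ : ℕ) else i))
          (fun i => if hi : i < d.1 then d.2.2 ⟨i, hi⟩ else 1)) →
          GQL (QL M (Rs kd sz x k) kd sz x k) d.1
            (fun i => if hi : i < d.1 then (d.2.1 ⟨i, hi⟩ : ℕ) else i)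
            (fun i => if hi : i < d.1 then d.2.2 ⟨i, hi⟩ else 1)) := by
    rintro ⟨n, σ, lam⟩
    refine one n.1 (Nat.lt_succ_iff.1 n.2) _ ?_ _
    intro i hi
    simp only [dif_pos hi]
    exact (σ ⟨i, hi⟩).2
  choose F hF1 hF2 hF3 using ext
  refine ⟨⋃ d, F d, finite_iUnion hF1, iUnion_subset hF2, ?_⟩
  intro n hn σ hσ lam hQ
  let d : Σ n : Fin (n1 + 1), (Fin n → Fin n) × (Fin n → Equiv.Perm (Fin (sz k))) :=
    ⟨⟨n, Nat.lt_succ_iff.2 hn⟩, fun i => ⟨σ i.1, hσ i.1 i.2⟩, fun i => lam i.1⟩
  have hen : StrictMonoOn e (Iio n) := fun i hi j hj hij =>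
    he (lt_of_lt_of_le hi hn) (lt_of_lt_of_le hj hn) hij
  have h1 := (hQ e hen).anti (subset_iUnion F d)
  have h2 := hF3 d (by
    have hls' : LS (QL M (F d) kd sz x k) := ls_kind hF k (hF2 d)
    refine hls'.mono _ _ ?_ h1
    rintro _ ⟨i, hi, rfl⟩
    refine ⟨i, hi, ?_⟩
    have hi' : i < n := hi
    simp only [d, dif_pos hi'])
  refine GQL.congr hls h2 ?_ ?_
  · intro i hi
    simp only [d, dif_pos hi]
  · intro i hi
    simp only [d, dif_pos hi]

/-- A label change which is good over `r` cells below and `r` cells above is good over everything.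
PROOF. Let `kd i = k`, `p` the position in question. `PI M M p` concerns at most `r` pairs of `p` at a time
(`2 ≤ r` for the second half of `PI`, `a n ≤ r` for the first). These pairs use a finite set `C` of cells of
kind `k`, `i ∈ C`, with at most `r` elements below `i` and at most `r` above. Let `e` be the increasing
enumeration of `C`, `u ≤ r` the number of elements below `i`, `v ≤ r` above. `GQL.sub` gives
`GQL (QL …) (u + 1 + v) id (lab1 u g)`; apply it to `e`: `e u = i`; the position contains the given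
pairs (a point outside the cell `i` is in `Rs k` or in a cell of kind `k`). -/
theorem lab_all (har : ∀ n, a n ≤ r) (hr : 2 ≤ r) (hF : FF M Rn E E' m c kd sz x)
    [Infinite (Lk kd k)] (g : Equiv.Perm (Fin (sz k)))
    (h : GQL (QL M (Rs kd sz x k) kd sz x k) (r + r + 1) (fun i => i) (lab1 r g)) :
    GdL M kd sz x k g := by
  classical
  intro i hi
  have hls : LS (QL M (Rs kd sz x k) kd sz x k) := ls_kind hF k Subset.rfl
  let i0 : Lk kd k := ⟨i, hi⟩
  have key : ∀ S : Finset (ℕ × ℕ), S.card ≤ r →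
      (∀ q ∈ S, q ∈ idOn {y | ∀ d < sz k, y ≠ x i d} ∪ mvL x i i g) →
      PI M M (S : Set (ℕ × ℕ)) := by
    intro S hS hSP
    let f : ℕ × ℕ → Lk kd k := fun q =>
      if h : ∃ j : Lk kd k, ∃ d < sz k, q.1 = x j.1 d then h.choose else i0
    have hf : ∀ q, (∃ j : Lk kd k, ∃ d < sz k, q.1 = x j.1 d) → ∃ d < sz k, q.1 = x (f q).1 d := by
      intro q h
      have := h.choose_spec
      simp only [f, dif_pos h]
      exact this
    let C : Finset (Lk kd k) := insert i0 (S.image f)
    have hC : C.card ≤ r + 1 := by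
      refine (Finset.card_insert_le _ _).trans ?_
      have := Finset.card_image_le (s := S) (f := f)
      omega
    set N := C.card with hN
    let w' : Fin N ↪o Lk kd k := C.orderEmbOfFin rfl
    let w : ℕ → Lk kd k := fun i => if hi : i < N then w' ⟨i, hi⟩ else i0
    have hw' : ∀ y, y ∈ C → ∃ i, i < N ∧ w i = y := by
      intro y hy
      have hr : y ∈ Set.range w' := by
        rw [Finset.range_orderEmbOfFin]
        exact hy
      obtain ⟨i, rfl⟩ := hr
      exact ⟨i.1, i.2, by simp only [w, dif_pos i.2]⟩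
    have hw : StrictMonoOn w (Iio N) := by
      intro i hi j hj hij
      simp only [mem_Iio] at hi hj
      simp only [w, dif_pos hi, dif_pos hj]
      exact w'.strictMono hij
    obtain ⟨iz, hiz, hwz⟩ := hw' i0 (Finset.mem_insert_self _ _)
    have h1 : GQL (QL M (Rs kd sz x k) kd sz x k) N (fun i => i) (lab1 iz g) := by
      refine h.sub hls (g := fun j => r - iz + j) (fun i hi => hi) ?_ ?_ (fun i hi => hi) ?_ ?_
      · intro i hi j hj hij
        omega
      · intro j hj
        omega
      · intro i hi j hj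
        omega
      · intro j hj
        unfold lab1
        split_ifs <;> first | rfl | omega
    refine PI.mono (h1 w hw) ?_
    intro q hq
    rcases hSP q hq with ⟨h2, h3⟩ | ⟨d, hd⟩
    · obtain ⟨q1, q2⟩ := q
      simp only at h2 h3
      subst h3
      by_cases hR : q1 ∈ Rs kd sz x k
      · exact Or.inl ⟨hR, rfl⟩
      · right
        have hex : ∃ j : Lk kd k, ∃ d < sz k, q1 = x j.1 d := by
          by_contra hc
          apply hR
          intro j hj d hd hx
          exact hc ⟨⟨j, hj⟩, d, hd, hx⟩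
        obtain ⟨d, hd, hxd⟩ := hf (q1, q1) hex
        obtain ⟨j, hj, hwj⟩ := hw' (f (q1, q1))
          (Finset.mem_insert_of_mem (Finset.mem_image_of_mem f hq))
        have hne : j ≠ iz := by
          rintro rfl
          rw [hwz] at hwj
          rw [← hwj] at hxd
          exact h2 d hd hxd
        refine ⟨_, ⟨j, hj, rfl⟩, ⟨⟨d, hd⟩, ?_⟩⟩
        have : lab1 iz g j = 1 := by
          unfold lab1
          rw [if_neg hne]
        simp only [this, hwj]
        rw [← hxd]
        simp only [Equiv.Perm.coe_one, id_eq]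
        rw [← hxd]
    · right
      refine ⟨_, ⟨iz, hiz, rfl⟩, ⟨d, ?_⟩⟩
      have : lab1 iz g iz = g := by
        unfold lab1
        rw [if_pos rfl]
      simp only [this, hwz]
      exact hd
  constructor
  · intro n t ht
    have h1 := key (Finset.univ.image t) (by
      refine Finset.card_image_le.trans ?_
      rw [Finset.card_univ, Fintype.card_fin]
      exact har n) (by
      intro q hq
      obtain ⟨j, -, rfl⟩ := Finset.mem_image.1 hq
      exact ht j)
    exact h1.1 n t (fun j => Finset.mem_coe.2 (Finset.mem_image_of_mem t (Finset.mem_univ j)))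
  · intro q hq q' hq'
    have h1 := key {q, q'} ((Finset.card_insert_le _ _).trans (by
      rw [Finset.card_singleton]
      exact hr)) (by
      intro p hp
      rcases Finset.mem_insert.1 hp with rfl | hp
      · exact hq
      · rw [Finset.mem_singleton.1 hp]
        exact hq')
    exact h1.2 q (by simp) q' (by simp)

end Pool.H5.AB
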