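import Pool.Agent.H5.AB.Rec
import Pool.Agent.H5.AB.Wit
import Pool.Agent.H5.AB.Seg

/-!
# The parameters for the recognition exist
-/

set_option autoImplicit false

namespace Pool.H5.AB

open Set Ordinal Pool.H62.VT

variable {a : ℕ → ℕ} {I : Type} {M : Str a} {E E' : Set ℕ} {m c r : ℕ} [LinearOrder I]
  {kd : I → ℕ} {sz : ℕ → ℕ} {x : I → ℕ → ℕ} {Rn : Finset I} {k a0 b0 m0 : ℕ}

theorem exists_kp (har : ∀ n, a n ≤ r) (hr : 2 ≤ r) (hF : FF M Rn E E' m c kd sz x) (hk : k < c)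
    (hsw : ∃ a0 b0, ¬ GQ (Qi (QL M (Rs kd sz x k) kd sz x k)) (a0 + b0 + 2) (sw a0))
    (hrot : ∃ m0, ¬ GQ (Qi (QL M (Rs kd sz x k) kd sz x k)) m0 (rl m0)) :
    ∃ (a0 b0 m0 : ℕ) (F : Set ℕ) (T T' Z : Finset (Lk kd k)), KP M kd sz x k r a0 b0 m0 F T T' Z := by
  classical
  have hinf : Infinite (Lk kd k) := (hF.inf k hk).to_subtype
  obtain ⟨a0, b0, hsw⟩ := hsw
  obtain ⟨m0, hrot⟩ := hrot
  obtain ⟨F, hFf, hFs, hFw⟩ := exists_wit (k := k) hF (a0 + b0 + 2 + m0 + (r + r + 1))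
  have hls := ls_kind hF k (subset_refl (Rs kd sz x k))
  have hlsF := ls_kind hF k hFs
  obtain ⟨T, hT, hT2⟩ := up_points (L := Lk kd k)
    (fN a0 b0 (lN a0 b0 r (Nat.card (Equiv.Perm (Fin (sz k))))))
  obtain ⟨T', hT', hT2'⟩ := dn_points (L := Lk kd k)
    (fN a0 b0 (lN a0 b0 r (Nat.card (Equiv.Perm (Fin (sz k))))))
  have hZ : ((T ∪ T' : Finset (Lk kd k)) : Set (Lk kd k))ᶜ.Infinite :=
    (T ∪ T').finite_toSet.infinite_compl
  obtain ⟨Z, hZ1, hZ2⟩ := hZ.exists_subset_card_eq (fA a0 b0 m0 + (2 * r + 2))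
  refine ⟨a0, b0, m0, F, T, T', Z, hFf, hFs, ?_, ?_, ?_, hT, hT', ?_, ?_, ?_, by omega, by omega⟩
  · intro h
    have hσ : ∀ i < a0 + b0 + 2, sw a0 i < a0 + b0 + 2 := by
      intro i hi
      unfold sw
      split_ifs <;> omega
    obtain ⟨lam, hl⟩ := (gq_qi hlsF hσ).1 h
    exact hsw ((gq_qi hls hσ).2 ⟨lam, hFw _ (by omega) _ hσ lam hl⟩)
  · intro h
    have hσ : ∀ i < m0, rl m0 i < m0 := by
      intro i hi
      unfold rl
      split_ifs <;> omega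
    obtain ⟨lam, hl⟩ := (gq_qi hlsF hσ).1 h
    exact hrot ((gq_qi hls hσ).2 ⟨lam, hFw _ (by omega) _ hσ lam hl⟩)
  · intro g hg
    exact lab_all har hr hF g (hFw _ (by omega) _ (fun i hi => hi) _ hg)
  · intro X
    obtain ⟨W, h1, -, h3⟩ := hT2 X
    exact ⟨W, h1, h3⟩
  · intro X
    obtain ⟨W, h1, -, h3⟩ := hT2' X
    exact ⟨W, h1, h3⟩
  · intro z hz
    have h1 := hZ1 hz
    rw [mem_compl_iff, Finset.mem_coe, Finset.mem_union, not_or] at h1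
    exact h1

end Pool.H5.AB
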