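import Pool.Agent.H5.AB.Es

/-!
# The pigeonhole principle for labels
-/

set_option autoImplicit false

namespace Pool.H5.AB

open Set Function

/-- among `n * |G|` labels one occurs `n` times -/
theorem pig {G : Type} [Finite G] [Nonempty G] (lam : ℕ → G) (n l : ℕ)
    (hl : n * Nat.card G ≤ l) : ∃ (c : G) (g : ℕ → ℕ), (∀ i < n, ∀ j < n, i < j → g i < g j) ∧
      (∀ i < n, g i < l) ∧ ∀ i < n, lam (g i) = c := by
  classical
  have hfin : Fintype G := Fintype.ofFinite G
  rcases Nat.eq_zero_or_pos n with rfl | hn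
  · exact ⟨Classical.arbitrary G, id, by simp, by simp, by simp⟩
  have hex : ∃ c : G, n ≤ ((Finset.range l).filter (fun i => lam i = c)).card := by
    by_contra hcon
    push Not at hcon
    have h1 : (Finset.range l).card = ∑ c : G, ((Finset.range l).filter (fun i => lam i = c)).card :=
      Finset.card_eq_sum_card_fiberwise (fun i _ => Finset.mem_coe.2 (Finset.mem_univ _))
    rw [Finset.card_range] at h1
    have h2 : ∑ c : G, ((Finset.range l).filter (fun i => lam i = c)).card < ∑ _c : G, n :=
      Finset.sum_lt_sum_of_nonempty Finset.univ_nonempty fun c _ => hcon c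
    rw [Finset.sum_const, Finset.card_univ, smul_eq_mul, ← Nat.card_eq_fintype_card,
      mul_comm] at h2
    omega
  obtain ⟨c, hc⟩ := hex
  obtain ⟨g, hg1, hg2⟩ := exists_enum _ n hc 0
  refine ⟨c, g, fun i hi j hj hij => hg1 hi hj hij, fun i hi => ?_, fun i hi => ?_⟩
  · exact Finset.mem_range.1 (Finset.mem_filter.1 (hg2 i hi)).1
  · exact (Finset.mem_filter.1 (hg2 i hi)).2

end Pool.H5.AB
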