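import Pool.Agent.H5.AB.FrameT
import Pool.Agent.H5.AB.Ls
import Pool.Agent.H5.AB.Pig

/-!
# The labels are recognised
-/

set_option autoImplicit false

namespace Pool.H5.AB

open Set Function

variable {L G : Type} [LinearOrder L] [Group G] {Q : Set (L × L × G) → Prop} {n a b m0 : ℕ}

/-- order preserving part of a good labelled map -/
theorem pickL [Infinite L] (h : LS Q) {X : Finset L} {φ : L → L} {γ : L → G}
    (hQ : Q {q | q.1 ∈ X ∧ q.2.1 = φ q.1 ∧ q.2.2 = γ q.1}) {x : ℕ → L}
    (hx : ∀ i < n, ∀ j < n, i < j → x i < x j) (hX : ∀ i < n, x i ∈ X)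
    (hφ : ∀ i < n, ∀ j < n, i < j → φ (x i) < φ (x j)) :
    GQL Q n (fun i => i) (fun i => γ (x i)) := by
  refine gql_of h (u := x) (v := fun i => φ (x i)) (fun i hi j hj hij => hx i hi j hj hij) ?_
    (fun i hi => hi) ?_
  · intro i hi j hj
    constructor
    · intro h1
      by_contra hcon
      rcases Nat.eq_or_lt_of_le (not_lt.1 hcon) with h2 | h2
      · subst h2
        exact lt_irrefl _ h1
      · exact absurd h1 (hφ j hj i hi h2).not_gt
    · exact hφ i hi j hj
  · refine h.mono _ _ ?_ hQ
    rintro _ ⟨i, hi, rfl⟩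
    exact ⟨hX i hi, rfl, rfl⟩

/-- length of the frame needed for the labels -/
def lN (a b n2 g : ℕ) : ℕ := 2 * a + 2 * b + 3 + n2 * g

/-- THE LABEL THEOREM. -/
theorem label_thm [Infinite L] [Finite G] (h : LS Q) (hsw : ¬ GQ (Qi Q) (a + b + 2) (sw a))
    (hrot : ¬ GQ (Qi Q) m0 (rl m0)) (n2 : ℕ) (X : Finset L) (φ : L → L) (γ : L → G)
    (hi : InjOn φ X) (hQ : Q {q | q.1 ∈ X ∧ q.2.1 = φ q.1 ∧ q.2.2 = γ q.1})
    (Z Wm Wp : Finset L) (hZ : Z ⊆ X) (hWm : Wm ⊆ X) (hWp : Wp ⊆ X)
    (cZ : fA a b m0 ≤ Z.card) (cZ2 : 2 * n2 + 2 ≤ Z.card)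
    (cm : fN a b (lN a b n2 (Nat.card G)) ≤ Wm.card)
    (cp : fN a b (lN a b n2 (Nat.card G)) ≤ Wp.card)
    (mZ : StrictMonoOn φ Z) (lZ : ∀ z ∈ Z, γ z = 1)
    (hup : ∀ w ∈ Wp, ∀ y ∈ X, y ∉ Wp → y < w)
    (hdn : ∀ w ∈ Wm, ∀ y ∈ X, y ∉ Wm → w < y) (hZW : ∀ z ∈ Z, z ∉ Wm ∧ z ∉ Wp)
    (u : L) (hu : u ∈ X) (hum : u ∉ Wm) (hup' : u ∉ Wp) :
    GQL Q (n2 + n2 + 1) (fun i => i) (lab1 n2 (γ u)) := by
  classical
  have hg := gs_qi h
  have hQi : Qi Q {q | q.1 ∈ X ∧ q.2 = φ q.1} := by
    refine ⟨_, hQ, ?_⟩
    rintro q ⟨hq1, hq2⟩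
    exact ⟨γ q.1, hq1, hq2, rfl⟩
  obtain ⟨gm, gp, hF, q1, p1⟩ := frame_exists hg hsw hrot X φ hi hQi Z Wm Wp hZ hWm hWp cZ cm cp mZ
    hup hdn hZW
  have hl : 2 * a + 2 * b + 3 ≤ lN a b n2 (Nat.card G) := by
    unfold lN
    omega
  have hl2 : n2 * Nat.card G ≤ lN a b n2 (Nat.card G) := by
    unfold lN
    omega
  set l := lN a b n2 (Nat.card G) with hldef
  have below : ∀ y ∈ X, y ∉ Wm → ∀ i < l, gm i < y := fun y hy hym i hi => hdn _ (q1 i hi) y hy hym
  have above : ∀ y ∈ X, y ∉ Wp → ∀ i < l, y < gp i := fun y hy hyp i hi => hup _ (p1 i hi) y hy hyp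
  have up : ∀ y ∈ X, y ∉ Wm → y ∉ Wp → ∀ i < l, φ y < φ (gp i) := by
    intro y hy hym hyp i hi'
    have e := frame_up hg hQi hi hsw hF hl hy (below y hy hym) (above y hy hyp)
    rcases Nat.eq_zero_or_pos i with rfl | hi0
    · exact e
    · exact e.trans (hF.tp 0 (by omega) i hi' hi0)
  have dn : ∀ y ∈ X, y ∉ Wm → y ∉ Wp → ∀ i < l, φ (gm i) < φ y := by
    intro y hy hym hyp i hi'
    have e := frame_dn hg hQi hi hsw hF hl hy (below y hy hym) (above y hy hyp)
    rcases Nat.lt_or_ge i (l - 1) with h3 | h3
    · exact (hF.tm i hi' _ (by omega) h3).trans e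
    · rw [show i = l - 1 by omega]
      exact e
  have mid : ∀ y ∈ X, y ∉ Wm → y ∉ Wp → ∀ y' ∈ X, y' ∉ Wm → y' ∉ Wp → y < y' → φ y < φ y' :=
    fun y hy hym hyp y' hy' hym' hyp' hlt => frame_in hg hQi hi hsw hF hl hy (below y hy hym)
      (above y hy hyp) hy' (below y' hy' hym') (above y' hy' hyp') hlt
  by_cases huZ : u ∈ Z
  · rw [lZ u huZ]
    apply GQL.one h (fun i _ => rfl)
    intro i _
    unfold lab1
    split_ifs <;> rfl
  have hcard : (Z.filter (fun z => z < u)).card + (Z.filter (fun z => ¬ z < u)).card = Z.card :=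
    Finset.card_filter_add_card_filter_not _
  have hcase : n2 + 1 ≤ (Z.filter (fun z => z < u)).card ∨
      n2 + 1 ≤ (Z.filter (fun z => ¬ z < u)).card := by omega
  rcases hcase with hc | hc
  · -- many named points below
    obtain ⟨z, hz1, hz2⟩ := exists_enum _ _ hc u
    have hzZ : ∀ i < n2 + 1, z i ∈ Z := fun i hi => (Finset.mem_filter.1 (hz2 i hi)).1
    have hzu : ∀ i < n2 + 1, z i < u := fun i hi => (Finset.mem_filter.1 (hz2 i hi)).2
    obtain ⟨c, g, hg1, hg2, hg3⟩ := pig (fun i => γ (gp i)) n2 l hl2
    have A := pickL (n := n2 + n2 + 1) h hQ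
      (x := fun i => if i < n2 then z i else if i = n2 then u else gp (g (i - (n2 + 1)))) (by
        intro i hi j hj hij
        beta_reduce
        by_cases c1 : j < n2
        · rw [if_pos (show i < n2 by omega), if_pos c1]
          exact hz1 (show i < n2 + 1 by omega) (show j < n2 + 1 by omega) hij
        rw [if_neg c1]
        by_cases c2 : j = n2
        · rw [if_pos c2, if_pos (show i < n2 by omega)]
          exact hzu i (by omega)
        rw [if_neg c2]
        by_cases c3 : i < n2
        · rw [if_pos c3]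
          exact above _ (hZ (hzZ i (by omega))) (hZW _ (hzZ i (by omega))).2 _ (hg2 _ (by omega))
        rw [if_neg c3]
        by_cases c4 : i = n2
        · rw [if_pos c4]
          exact above u hu hup' _ (hg2 _ (by omega))
        rw [if_neg c4]
        exact hF.sp _ (hg2 _ (by omega)) _ (hg2 _ (by omega))
          (hg1 _ (by omega) _ (by omega) (by omega))) (by
        intro i hi
        beta_reduce
        split_ifs
        · exact hZ (hzZ i (by omega))
        · exact hu
        · exact hF.xp _ (hg2 _ (by omega))) (by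
        intro i hi j hj hij
        beta_reduce
        by_cases c1 : j < n2
        · rw [if_pos (show i < n2 by omega), if_pos c1]
          exact mZ (hzZ i (by omega)) (hzZ j (by omega))
            (hz1 (show i < n2 + 1 by omega) (show j < n2 + 1 by omega) hij)
        rw [if_neg c1]
        by_cases c2 : j = n2
        · rw [if_pos c2, if_pos (show i < n2 by omega)]
          exact mid _ (hZ (hzZ i (by omega))) (hZW _ (hzZ i (by omega))).1
            (hZW _ (hzZ i (by omega))).2 u hu hum hup' (hzu i (by omega))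
        rw [if_neg c2]
        by_cases c3 : i < n2
        · rw [if_pos c3]
          exact up _ (hZ (hzZ i (by omega))) (hZW _ (hzZ i (by omega))).1
            (hZW _ (hzZ i (by omega))).2 _ (hg2 _ (by omega))
        rw [if_neg c3]
        by_cases c4 : i = n2
        · rw [if_pos c4]
          exact up u hu hum hup' _ (hg2 _ (by omega))
        rw [if_neg c4]
        exact hF.tp _ (hg2 _ (by omega)) _ (hg2 _ (by omega))
          (hg1 _ (by omega) _ (by omega) (by omega)))
    have H := pickL (n := n2 + n2 + 1) h hQ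
      (x := fun i => if i < n2 + 1 then z i else gp (g (i - (n2 + 1)))) (by
        intro i hi j hj hij
        beta_reduce
        by_cases c1 : j < n2 + 1
        · rw [if_pos (show i < n2 + 1 by omega), if_pos c1]
          exact hz1 (show i < n2 + 1 by omega) c1 hij
        rw [if_neg c1]
        by_cases c3 : i < n2 + 1
        · rw [if_pos c3]
          exact above _ (hZ (hzZ i (by omega))) (hZW _ (hzZ i (by omega))).2 _ (hg2 _ (by omega))
        rw [if_neg c3]
        exact hF.sp _ (hg2 _ (by omega)) _ (hg2 _ (by omega))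
          (hg1 _ (by omega) _ (by omega) (by omega))) (by
        intro i hi
        beta_reduce
        split_ifs
        · exact hZ (hzZ i (by omega))
        · exact hF.xp _ (hg2 _ (by omega))) (by
        intro i hi j hj hij
        beta_reduce
        by_cases c1 : j < n2 + 1
        · rw [if_pos (show i < n2 + 1 by omega), if_pos c1]
          exact mZ (hzZ i (by omega)) (hzZ j (by omega))
            (hz1 (show i < n2 + 1 by omega) c1 hij)
        rw [if_neg c1]
        by_cases c3 : i < n2 + 1
        · rw [if_pos c3]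
          exact up _ (hZ (hzZ i (by omega))) (hZW _ (hzZ i (by omega))).1
            (hZW _ (hzZ i (by omega))).2 _ (hg2 _ (by omega))
        rw [if_neg c3]
        exact hF.tp _ (hg2 _ (by omega)) _ (hg2 _ (by omega))
          (hg1 _ (by omega) _ (by omega) (by omega)))
    refine A.div h H (fun i hi => hi) (fun i hi => rfl) ?_
    intro i hi
    unfold lab1
    beta_reduce
    by_cases c1 : i < n2
    · rw [if_neg (by omega), if_pos (show i < n2 + 1 by omega), if_pos c1,
        lZ _ (hzZ i (by omega))]
      simp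
    by_cases c2 : i = n2
    · rw [if_pos c2, if_pos (show i < n2 + 1 by omega), if_neg c1, if_pos c2,
        lZ _ (hzZ i (by omega))]
      simp
    rw [if_neg c2, if_neg (show ¬ i < n2 + 1 by omega), if_neg c1, if_neg c2,
      hg3 _ (by omega)]
    simp
  · -- many named points above
    obtain ⟨z, hz1, hz2⟩ := exists_enum _ _ hc u
    have hzZ : ∀ i < n2 + 1, z i ∈ Z := fun i hi => (Finset.mem_filter.1 (hz2 i hi)).1
    have hzu : ∀ i < n2 + 1, u < z i := fun i hi => by
      refine lt_of_le_of_ne (not_lt.1 (Finset.mem_filter.1 (hz2 i hi)).2) ?_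
      intro he
      exact huZ (he ▸ hzZ i hi)
    obtain ⟨c, g, hg1, hg2, hg3⟩ := pig (fun i => γ (gm i)) n2 l hl2
    have A := pickL (n := n2 + n2 + 1) h hQ
      (x := fun i => if i < n2 then gm (g i) else if i = n2 then u else z (i - (n2 + 1))) (by
        intro i hi j hj hij
        beta_reduce
        by_cases c1 : j < n2
        · rw [if_pos (show i < n2 by omega), if_pos c1]
          exact hF.sm _ (hg2 _ (by omega)) _ (hg2 _ (by omega))
            (hg1 _ (by omega) _ (by omega) (by omega))
        rw [if_neg c1]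
        by_cases c2 : j = n2
        · rw [if_pos c2, if_pos (show i < n2 by omega)]
          exact below u hu hum _ (hg2 _ (by omega))
        rw [if_neg c2]
        by_cases c3 : i < n2
        · rw [if_pos c3]
          exact below _ (hZ (hzZ _ (by omega))) (hZW _ (hzZ _ (by omega))).1 _ (hg2 _ (by omega))
        rw [if_neg c3]
        by_cases c4 : i = n2
        · rw [if_pos c4]
          exact hzu _ (by omega)
        rw [if_neg c4]
        exact hz1 (show i - (n2 + 1) < n2 + 1 by omega) (show j - (n2 + 1) < n2 + 1 by omega)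
          (by omega)) (by
        intro i hi
        beta_reduce
        split_ifs
        · exact hF.xm _ (hg2 _ (by omega))
        · exact hu
        · exact hZ (hzZ _ (by omega))) (by
        intro i hi j hj hij
        beta_reduce
        by_cases c1 : j < n2
        · rw [if_pos (show i < n2 by omega), if_pos c1]
          exact hF.tm _ (hg2 _ (by omega)) _ (hg2 _ (by omega))
            (hg1 _ (by omega) _ (by omega) (by omega))
        rw [if_neg c1]
        by_cases c2 : j = n2
        · rw [if_pos c2, if_pos (show i < n2 by omega)]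
          exact dn u hu hum hup' _ (hg2 _ (by omega))
        rw [if_neg c2]
        by_cases c3 : i < n2
        · rw [if_pos c3]
          exact dn _ (hZ (hzZ _ (by omega))) (hZW _ (hzZ _ (by omega))).1
            (hZW _ (hzZ _ (by omega))).2 _ (hg2 _ (by omega))
        rw [if_neg c3]
        by_cases c4 : i = n2
        · rw [if_pos c4]
          exact mid u hu hum hup' _ (hZ (hzZ _ (by omega))) (hZW _ (hzZ _ (by omega))).1
            (hZW _ (hzZ _ (by omega))).2 (hzu _ (by omega))
        rw [if_neg c4]
        exact mZ (hzZ _ (by omega)) (hzZ _ (by omega))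
          (hz1 (show i - (n2 + 1) < n2 + 1 by omega) (show j - (n2 + 1) < n2 + 1 by omega)
            (by omega)))
    have H := pickL (n := n2 + n2 + 1) h hQ
      (x := fun i => if i < n2 then gm (g i) else z (i - n2)) (by
        intro i hi j hj hij
        beta_reduce
        by_cases c1 : j < n2
        · rw [if_pos (show i < n2 by omega), if_pos c1]
          exact hF.sm _ (hg2 _ (by omega)) _ (hg2 _ (by omega))
            (hg1 _ (by omega) _ (by omega) (by omega))
        rw [if_neg c1]
        by_cases c3 : i < n2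
        · rw [if_pos c3]
          exact below _ (hZ (hzZ _ (by omega))) (hZW _ (hzZ _ (by omega))).1 _ (hg2 _ (by omega))
        rw [if_neg c3]
        exact hz1 (show i - n2 < n2 + 1 by omega) (show j - n2 < n2 + 1 by omega)
          (by omega)) (by
        intro i hi
        beta_reduce
        split_ifs
        · exact hF.xm _ (hg2 _ (by omega))
        · exact hZ (hzZ _ (by omega))) (by
        intro i hi j hj hij
        beta_reduce
        by_cases c1 : j < n2
        · rw [if_pos (show i < n2 by omega), if_pos c1]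
          exact hF.tm _ (hg2 _ (by omega)) _ (hg2 _ (by omega))
            (hg1 _ (by omega) _ (by omega) (by omega))
        rw [if_neg c1]
        by_cases c3 : i < n2
        · rw [if_pos c3]
          exact dn _ (hZ (hzZ _ (by omega))) (hZW _ (hzZ _ (by omega))).1
            (hZW _ (hzZ _ (by omega))).2 _ (hg2 _ (by omega))
        rw [if_neg c3]
        exact mZ (hzZ _ (by omega)) (hzZ _ (by omega))
          (hz1 (show i - n2 < n2 + 1 by omega) (show j - n2 < n2 + 1 by omega)
            (by omega)))
    refine A.div h H (fun i hi => hi) (fun i hi => rfl) ?_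
    intro i hi
    unfold lab1
    beta_reduce
    by_cases c1 : i < n2
    · rw [if_neg (by omega), if_pos c1, if_pos c1, hg3 _ c1]
      simp
    by_cases c2 : i = n2
    · rw [if_pos c2, if_neg c1, if_neg c1, if_pos c2, lZ _ (hzZ _ (by omega))]
      simp
    rw [if_neg c2, if_neg c1, if_neg c1, if_neg c2, lZ _ (hzZ _ (by omega)),
      lZ _ (hzZ _ (by omega))]
    simp

end Pool.H5.AB
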