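import Pool.Agent.H5.AB.Ls
import Pool.Agent.H5.AB.Pig

/-!
# Rotations with label changes
-/

set_option autoImplicit false

namespace Pool.H5.AB

open Set Function

variable {L G : Type} [LinearOrder L] [Group G] {Q : Set (L × L × G) → Prop} {n m p a b : ℕ}
  {σ τ ρ g : ℕ → ℕ} {lam mu nu : ℕ → G}

/-- NORMAL FORM. If all rotations are good for some label changes then there is one label `mu` such
that the rotations which change only the label of the wrapped point, by `mu`, are good. PROOF. For fixed
`m ≥ 1` let `n = m * Nat.card G + 1`, `hl : GQL Q n (rl n) lam`. Some label `h1` occurs at `m` of the places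
`i < n - 1` (pigeonhole). `GQL.sub` gives `A : GQL Q m (rl m) (h1, …, h1, lam (n - 1))` (`m - 1` of these
places and the last place) and `H : GQL Q m id (h1, …, h1)` (the `m` places). `GQL.div` of `A` by `H`
(`ρ = id`, `τ = rl m`) gives `P m (h1⁻¹ * lam (n - 1))`, where
`P m mu = GQL Q m (rl m) (lab1 (m - 1) mu)`. By `GQL.sub` (`g i = i + 1`), `P (m + 1) mu` implies `P m mu`;
`P 0 mu` is trivial. As `G` is finite, one `mu` satisfies `P m mu` for arbitrarily large `m`
(e.g. `Finite.exists_infinite_fiber`), so for all `m`. -/
theorem rot_normal [Infinite L] [Finite G] (h : LS Q)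
    (hr : ∀ m, ∃ lam, GQL Q m (rl m) lam) :
    ∃ mu : G, ∀ m, GQL Q m (rl m) (lab1 (m - 1) mu) := by
  have hrl : ∀ n i, i < n → rl n i < n := by
    intro n i hi
    unfold rl
    split_ifs <;> omega
  have key : ∀ m, ∃ mu : G, GQL Q m (rl m) (lab1 (m - 1) mu) := by
    intro m
    rcases Nat.eq_zero_or_pos m with rfl | hm
    · exact ⟨1, GQL.one h (fun i hi => absurd hi (Nat.not_lt_zero i))
        (fun i hi => absurd hi (Nat.not_lt_zero i))⟩
    obtain ⟨lam, hl⟩ := hr (m * Nat.card G + 1)
    set n := m * Nat.card G with hn
    obtain ⟨h1, g, g1, g2, g3⟩ := pig lam m n le_rfl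
    have gij : ∀ i < m, ∀ j < m, (g i < g j ↔ i < j) := by
      intro i hi j hj
      rcases lt_trichotomy i j with h3 | h3 | h3
      · exact ⟨fun _ => h3, fun _ => g1 i hi j hj h3⟩
      · subst h3
        exact ⟨fun h => absurd h (lt_irrefl _), fun h => absurd h (lt_irrefl _)⟩
      · have := g1 j hj i hi h3
        exact ⟨fun h => absurd h (by omega), fun h => absurd h (by omega)⟩
    have A : GQL Q m (rl m) (fun i => if i + 1 < m then h1 else lam n) := by
      refine hl.sub h (g := fun i => if i + 1 < m then g i else n) (fun i hi => hrl _ _ hi) ?_ ?_
        (fun i hi => hrl _ _ hi) ?_ ?_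
      · intro i hi j hj hij
        beta_reduce
        split_ifs
        · exact g1 i hi j hj hij
        · exact g2 i hi
        · omega
        · omega
      · intro i hi
        beta_reduce
        split_ifs
        · have := g2 i hi
          omega
        · omega
      · intro i hi j hj
        have e : ∀ i < m, rl (n + 1) (if i + 1 < m then g i else n) =
            if i + 1 < m then g i + 1 else 0 := by
          intro i hi
          have := g2 i hi
          split_ifs
          · unfold rl
            rw [if_pos (by omega)]
          · unfold rl
            rw [if_neg (by omega), if_pos rfl]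
        beta_reduce
        rw [e i hi, e j hj]
        have := gij i hi j hj
        unfold rl
        split_ifs <;> omega
      · intro i hi
        beta_reduce
        split_ifs
        · rw [g3 i hi]
        · rfl
    have H : GQL Q m (fun i => i) (fun _ => h1) := by
      refine hl.sub h (g := g) (fun i hi => hrl _ _ hi) g1 ?_ (fun i hi => hi) ?_ ?_
      · intro i hi
        have := g2 i hi
        omega
      · intro i hi j hj
        have e : ∀ i < m, rl (n + 1) (g i) = g i + 1 := by
          intro i hi
          have := g2 i hi
          unfold rl
          rw [if_pos (by omega)]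
        rw [e i hi, e j hj]
        have := gij i hi j hj
        omega
      · intro i hi
        exact (g3 i hi).symm
    refine ⟨h1⁻¹ * lam n, A.div h H (fun i hi => hrl _ _ hi) (fun i hi => rfl) ?_⟩
    intro i hi
    unfold lab1
    beta_reduce
    split_ifs
    · omega
    · rfl
    · simp
    · omega
  have down : ∀ (mu : G) (m : ℕ), GQL Q (m + 1) (rl (m + 1)) (lab1 (m + 1 - 1) mu) →
      GQL Q m (rl m) (lab1 (m - 1) mu) := by
    intro mu m hP
    refine hP.sub h (g := fun i => i + 1) (fun i hi => hrl _ _ hi) (fun i hi j hj hij => by omega)
      (fun i hi => by omega) (fun i hi => hrl _ _ hi) ?_ ?_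
    · intro i hi j hj
      unfold rl
      beta_reduce
      split_ifs <;> omega
    · intro i hi
      unfold lab1
      beta_reduce
      split_ifs <;> first | rfl | omega
  choose f hf using key
  obtain ⟨mu, hmu⟩ := Finite.exists_infinite_fiber f
  have hinf : (f ⁻¹' {mu}).Infinite := Set.infinite_coe_iff.1 hmu
  refine ⟨mu, fun m => ?_⟩
  obtain ⟨m', hm', hlt⟩ := hinf.exists_gt m
  have hP : GQL Q m' (rl m') (lab1 (m' - 1) mu) := by
    have h1 := hf m'
    have h2 : f m' = mu := hm'
    rw [h2] at h1
    exact h1
  have hd : ∀ d, GQL Q (m + d) (rl (m + d)) (lab1 (m + d - 1) mu) →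
      GQL Q m (rl m) (lab1 (m - 1) mu) := by
    intro d
    induction d with
    | zero => exact fun h1 => h1
    | succ d ih => exact fun h1 => ih (down mu (m + d) h1)
  apply hd (m' - m)
  rw [show m + (m' - m) = m' by omega]
  exact hP

/-- Powers of the rotation: the last `k` points go to the front, with the label change `mu`.
(`0 ≤ k ≤ n`.) Induction on `k`: the power `k` followed by the rotation `rl n`; the
point which is last after `k` steps is the point `n - 1 - k`; it gets the label `mu`. -/
theorem rot_powL (h : LS Q) {mu : G} (hr : GQL Q n (rl n) (lab1 (n - 1) mu)) (k : ℕ) (hk : k ≤ n) :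
    GQL Q n (fun i => if i + k < n then i + k else i + k - n)
      (fun i => if i + k < n then 1 else mu) := by
  induction k with
  | zero =>
    refine GQL.one h ?_ ?_
    · intro i hi
      rw [if_pos (by omega), Nat.add_zero]
    · intro i hi
      rw [if_pos (by omega)]
  | succ k ih =>
    refine (ih (by omega)).mul h hr ?_ ?_ ?_
    · intro i hi
      beta_reduce
      split_ifs <;> omega
    · intro i hi
      beta_reduce
      by_cases c : i + k < n
      · rw [if_pos c]
        unfold rl
        split_ifs <;> omega
      · rw [if_neg c]
        unfold rl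
        split_ifs <;> omega
    · intro i hi
      beta_reduce
      by_cases c : i + k < n
      · rw [if_pos c, if_pos c]
        unfold lab1
        by_cases c2 : i + k = n - 1
        · rw [if_pos c2, if_neg (by omega), mul_one]
        · rw [if_neg c2, if_pos (by omega), mul_one]
      · rw [if_neg c, if_neg c]
        unfold lab1
        rw [if_neg (by omega), if_neg (by omega), one_mul]

private theorem conj_sw (h : LS Q) {T r : ℕ → ℕ} {Tl rlab : ℕ → G} (hT : GQL Q n T Tl)
    (hR : GQL Q n r rlab) (hr : ∀ i < n, r i < n) (hp : p + 1 < n)
    (hTR : ∀ i < n, r (sw p i) = T (r i)) (hl : ∀ i < n, i ≠ p → i ≠ p + 1 → Tl (r i) = 1) :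
    ∃ nu1 nu2, GQL Q n (sw p) (lab2 p nu1 nu2) := by
  have S : GQL Q n (fun i => T (r i)) (fun i => Tl (r i) * rlab i) :=
    hR.mul h hT hr (fun i hi => rfl) (fun i hi => rfl)
  have D : GQL Q n (sw p) (fun i => (rlab (sw p i))⁻¹ * (Tl (r i) * rlab i)) := by
    refine S.div h hR ?_ hTR (fun i hi => rfl)
    intro i hi
    unfold sw
    split_ifs <;> omega
  refine ⟨(rlab (sw p p))⁻¹ * (Tl (r p) * rlab p),
    (rlab (sw p (p + 1)))⁻¹ * (Tl (r (p + 1)) * rlab (p + 1)), D.congr h (fun i hi => rfl) ?_⟩
  intro i hi
  unfold lab2
  by_cases c : i = p
  · rw [if_pos c, c]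
  · by_cases c2 : i = p + 1
    · rw [if_neg c, if_pos c2, c2]
    · rw [if_neg c, if_neg c2, hl i hi c c2]
      have : sw p i = i := by
        unfold sw
        rw [if_neg c, if_neg c2]
      rw [this, one_mul, inv_mul_cancel]

/-- If a point is fixed and the rotation of `m` points above it (first case), or below it (second case),
is good with one label change, and all rotations with one label change are good, then the swaps of
neighbours of `m + 1` points are good with label changes only at the swapped points. PROOF. Divide
the rotation of `m + 1` points by the given pattern `ρ`: first case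
`ρ 0 = 0, ρ i = i + 1 (1 ≤ i < m), ρ m = 1`: the quotient (first `rl (m + 1)`, then the inverse of `ρ`) is
`0 ↦ m`, `m ↦ 0`, all other points are fixed, the label changes are `1` except at `0` and `m`. Second case
`ρ = rl m` on the first `m` points, `ρ m = m`: the quotient is the swap of `m - 1`, `m`, with label changes
only there. Then conjugate with powers of the rotation (`rot_powL`, `GQL.mul`, `GQL.div`): the
quotient is a swap of two cyclic neighbours with label changes only there; conjugation by the
rotation by `k` moves the two places to any given place `p`, `p + 1`, and the labels of the other points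
are conjugated `1`s, so `1`. -/
theorem rot_fixL (h : LS Q) {mu mu' : G} (hr : ∀ m, GQL Q m (rl m) (lab1 (m - 1) mu)) (hm : 1 ≤ m)
    (hc : GQL Q (m + 1) (fun i => if i = 0 then 0 else if i < m then i + 1 else 1) (lab1 m mu') ∨
      GQL Q (m + 1) (rl m) (lab1 (m - 1) mu')) (hp : p < m) :
    ∃ nu1 nu2, GQL Q (m + 1) (sw p) (lab2 p nu1 nu2) := by
  have R := hr (m + 1)
  rw [Nat.add_sub_cancel] at R
  have hR : ∀ k, k ≤ m + 1 → GQL Q (m + 1) (fun i => if i + k < m + 1 then i + k else i + k - (m + 1))
      (fun i => if i + k < m + 1 then 1 else mu) := by
    intro k hk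
    refine rot_powL h ?_ k hk
    rw [Nat.add_sub_cancel]
    exact R
  rcases hc with hc | hc
  · have T : GQL Q (m + 1) (fun i => if i = 0 then m else if i = m then 0 else i)
        (fun i => if i = 0 then mu'⁻¹ else if i = m then mu else 1) := by
      refine R.div h hc ?_ ?_ ?_
      · intro i hi
        beta_reduce
        split_ifs <;> omega
      · intro i hi
        unfold rl
        beta_reduce
        split_ifs <;> omega
      · intro i hi
        unfold lab1
        beta_reduce
        by_cases c : i = 0
        · rw [if_pos c, if_pos c, if_pos rfl, if_neg (by omega), mul_one]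
        · rw [if_neg c, if_neg c]
          by_cases c2 : i = m
          · rw [if_pos c2, if_pos c2, if_neg (by omega), inv_one, one_mul]
          · rw [if_neg c2, if_neg c2, if_neg c2, inv_one, one_mul]
    refine conj_sw h T (hR (m - p) (by omega)) ?_ (by omega) ?_ ?_
    · intro i hi
      beta_reduce
      split_ifs <;> omega
    · intro i hi
      unfold sw
      beta_reduce
      split_ifs <;> omega
    · intro i hi h1 h2
      beta_reduce
      by_cases c : i + (m - p) < m + 1
      · rw [if_pos c, if_neg (by omega), if_neg (by omega)]
      · rw [if_neg c, if_neg (by omega), if_neg (by omega)]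
  · have T : GQL Q (m + 1) (sw (m - 1))
        (fun i => if i = m then mu'⁻¹ * mu else 1) := by
      refine R.div h hc ?_ ?_ ?_
      · intro i hi
        unfold sw
        split_ifs <;> omega
      · intro i hi
        unfold rl sw
        split_ifs <;> omega
      · intro i hi
        beta_reduce
        by_cases c : i = m
        · have e : sw (m - 1) i = m - 1 := by
            unfold sw
            rw [if_neg (by omega), if_pos (by omega)]
          rw [e, if_pos c]
          unfold lab1
          rw [if_pos rfl, if_pos c]
        · have e : sw (m - 1) i ≠ m - 1 := by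
            unfold sw
            split_ifs <;> omega
          rw [if_neg c]
          unfold lab1
          rw [if_neg e, if_neg c, inv_one, one_mul]
    refine conj_sw h T (hR (m - 1 - p) (by omega)) ?_ (by omega) ?_ ?_
    · intro i hi
      beta_reduce
      split_ifs <;> omega
    · intro i hi
      unfold sw
      beta_reduce
      split_ifs <;> omega
    · intro i hi h1 h2
      beta_reduce
      by_cases c : i + (m - 1 - p) < m + 1
      · rw [if_pos c, if_neg (by omega)]
      · rw [if_neg c, if_neg (by omega)]

end Pool.H5.AB
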