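import Pool.Agent.H5.AB.LsRot

/-!
# Rotated orders with label changes
-/

set_option autoImplicit false

namespace Pool.H5.AB

open Set Function

variable {L G : Type} [LinearOrder L] [Group G] {Q : Set (L × L × G) → Prop} {n m p a b : ℕ}
  {σ τ ρ g : ℕ → ℕ} {lam mu nu : ℕ → G}

/-- the order rotated at `z`: first the points above `z`, then the points below `z` -/
def rlt (z x y : L) : Prop := (z < x ∧ y < z) ∨ ((z < x ↔ z < y) ∧ x < y)

/-- the label of a point in the rotated presentation -/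
def tw (mu : G) (z x : L) : G := if x < z then mu else 1

/-- A finite set `F` with the point `z` is mapped to an increasing sequence `e 0, e 1, …`, in rotated
order, `z ↦ e 0`, with the label change `mu⁻¹` for the points below `z`. PROOF. Let `w` be the increasing
enumeration of `F`, `N` the number of points, `w iz = z`. Consider the INVERSE map: `e j ↦` the `j`-th point in
rotated order: `e j ↦ w (j + iz)` for `j + iz < N`, `e j ↦ w (j + iz - N)` otherwise, with the label change `mu` in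
the second case: this is `rot_powL` with `k = iz` followed by the order preserving map `e ↦ w`. Take
the inverse (`h.inv`). For `w i`, `i > iz`, the number `j = i - iz` is one plus the number of points of `F`
between `z` and `w i`; for `i < iz`, `j = i + N - iz` is one plus the number of points of `F` above `z` plus the
number of points below `w i`. In both cases it is one plus the number of `y ∈ F`, `y ≠ z`, with
`rlt z y (w i)`. -/
theorem rot_to (h : LS Q) {mu : G} (hr : ∀ m, GQL Q m (rl m) (lab1 (m - 1) mu)) (z : L)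
    (F : Finset L) (hz : z ∈ F) (e : ℕ → L) (he : StrictMonoOn e (Iio F.card)) :
    Q {q | (q.1 = z ∧ q.2.1 = e 0 ∧ q.2.2 = 1) ∨ (q.1 ∈ F ∧ q.1 ≠ z ∧
      q.2.1 = e ({y | y ∈ F ∧ y ≠ z ∧ rlt z y q.1}.ncard + 1) ∧ q.2.2 = (tw mu z q.1)⁻¹)} := by
  classical
  set N := F.card with hN
  let w' : Fin N ↪o L := F.orderEmbOfFin rfl
  let w : ℕ → L := fun i => if hi : i < N then w' ⟨i, hi⟩ else z
  have hw' : ∀ y, y ∈ F ↔ ∃ i, i < N ∧ w i = y := by
    intro y
    constructor
    · intro hy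
      have hr : y ∈ Set.range w' := by
        rw [Finset.range_orderEmbOfFin]
        exact hy
      obtain ⟨i, rfl⟩ := hr
      exact ⟨i.1, i.2, by simp only [w, dif_pos i.2]⟩
    · rintro ⟨i, hi, rfl⟩
      simp only [w, dif_pos hi]
      exact F.orderEmbOfFin_mem rfl _
  have hw : ∀ i < N, ∀ j < N, (w i < w j ↔ i < j) := by
    intro i hi j hj
    simp only [w, dif_pos hi, dif_pos hj]
    rw [w'.lt_iff_lt, Fin.lt_def]
  have hwi : ∀ i < N, ∀ j < N, w i = w j → i = j := by
    intro i hi j hj hij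
    have h1 := hw i hi j hj
    have h2 := hw j hj i hi
    rw [hij] at h1 h2
    simp only [lt_self_iff_false, false_iff] at h1 h2
    omega
  obtain ⟨iz, hiz, hwz⟩ := (hw' z).1 hz
  have R := rot_powL h (hr N) iz (by omega)
  have R1 : Q (GrL N w (fun j => w (if j + iz < N then j + iz else j + iz - N))
      (fun i => if i + iz < N then 1 else mu)) :=
    R w (fun i hi j hj hij => (hw i hi j hj).2 hij)
  have R2 : Q (GrL N e (fun j => w (if j + iz < N then j + iz else j + iz - N))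
      (fun i => if i + iz < N then 1 else mu)) :=
    h.sandwich R1 (fun i hi j hj => (he.lt_iff_lt hi hj).trans (hw i hi j hj).symm)
      (fun i hi j hj => Iff.rfl)
  refine h.mono _ _ ?_ (h.inv _ R2)
  rintro ⟨q1, q2, q3⟩ (⟨h1, h2, h3⟩ | ⟨h1, h2, h3, h4⟩)
  · simp only at h1 h2 h3
    subst h1 h2 h3
    refine ⟨0, by omega, ?_⟩
    simp only [Nat.zero_add, if_pos hiz, hwz, inv_one]
  · simp only at h1 h2 h3 h4
    obtain ⟨i, hi, hwq⟩ := (hw' q1).1 h1
    have hne : i ≠ iz := by
      rintro rfl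
      exact h2 (hwq.symm.trans hwz)
    have hset : {y | y ∈ F ∧ y ≠ z ∧ rlt z y q1} =
        w '' {l | l < N ∧ l ≠ iz ∧ ((iz < i ∧ iz < l ∧ l < i) ∨ (i < iz ∧ (iz < l ∨ l < i)))} := by
      ext y
      constructor
      · rintro ⟨hy1, hy2, hy3⟩
        obtain ⟨l, hl, rfl⟩ := (hw' y).1 hy1
        have hlz : l ≠ iz := by
          rintro rfl
          exact hy2 hwz
        refine ⟨l, ⟨hl, hlz, ?_⟩, rfl⟩
        unfold rlt at hy3
        rw [← hwz, ← hwq, hw _ hiz _ hl, hw _ hi _ hiz, hw _ hiz _ hi, hw _ hl _ hi] at hy3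
        omega
      · rintro ⟨l, ⟨hl, hlz, hl2⟩, rfl⟩
        refine ⟨(hw' _).2 ⟨l, hl, rfl⟩, fun h5 => hlz (hwi _ hl _ hiz (h5.trans hwz.symm)), ?_⟩
        unfold rlt
        rw [← hwz, ← hwq, hw _ hiz _ hl, hw _ hi _ hiz, hw _ hiz _ hi, hw _ hl _ hi]
        omega
    have hinj : InjOn w
        {l | l < N ∧ l ≠ iz ∧ ((iz < i ∧ iz < l ∧ l < i) ∨ (i < iz ∧ (iz < l ∨ l < i)))} := by
      rintro l ⟨hl, -⟩ l' ⟨hl', -⟩ hll
      exact hwi _ hl _ hl' hll
    rw [hset, ncard_image_of_injOn hinj] at h3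
    rcases Nat.lt_or_gt_of_ne hne with hlt | hgt
    · -- below z
      have hs : {l | l < N ∧ l ≠ iz ∧ ((iz < i ∧ iz < l ∧ l < i) ∨ (i < iz ∧ (iz < l ∨ l < i)))} =
          ((Finset.Ioo iz N ∪ Finset.range i : Finset ℕ) : Set ℕ) := by
        ext l
        simp only [Set.mem_setOf_eq, Finset.coe_union, Finset.coe_Ioo, Finset.coe_range,
          Set.mem_union, Set.mem_Ioo, Set.mem_Iio]
        omega
      have hdis : Disjoint (Finset.Ioo iz N) (Finset.range i) := by
        rw [Finset.disjoint_left]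
        intro l hl1 hl2
        rw [Finset.mem_Ioo] at hl1
        rw [Finset.mem_range] at hl2
        omega
      rw [hs, Set.ncard_coe_finset, Finset.card_union_of_disjoint hdis, Nat.card_Ioo,
        Finset.card_range] at h3
      have htw : tw mu z q1 = mu := by
        unfold tw
        rw [if_pos]
        rw [← hwz, ← hwq]
        exact (hw _ hi _ hiz).2 hlt
      refine ⟨i + N - iz, by omega, ?_⟩
      beta_reduce
      rw [if_neg (by omega), if_neg (by omega)]
      simp only [Prod.mk.injEq]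
      refine ⟨?_, ?_, ?_⟩
      · rw [h3]
        congr 1
        omega
      · rw [← hwq]
        congr 1
        omega
      · rw [h4, htw, inv_inv]
    · -- above z
      have hs : {l | l < N ∧ l ≠ iz ∧ ((iz < i ∧ iz < l ∧ l < i) ∨ (i < iz ∧ (iz < l ∨ l < i)))} =
          ((Finset.Ioo iz i : Finset ℕ) : Set ℕ) := by
        ext l
        simp only [Set.mem_setOf_eq, Finset.coe_Ioo, Set.mem_Ioo]
        omega
      rw [hs, Set.ncard_coe_finset, Nat.card_Ioo] at h3
      have htw : tw mu z q1 = 1 := by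
        unfold tw
        rw [if_neg]
        rw [← hwz, ← hwq, hw _ hi _ hiz]
        omega
      refine ⟨i - iz, by omega, ?_⟩
      beta_reduce
      rw [if_pos (by omega), if_pos (by omega)]
      simp only [Prod.mk.injEq]
      refine ⟨?_, ?_, ?_⟩
      · rw [h3]
        congr 1
        omega
      · rw [← hwq]
        congr 1
        omega
      · rw [h4, htw, inv_inv]

/-- Every finite partial map which preserves the order rotated at `z`, together with `z ↦ z`, is good
in the rotated presentation. PROOF. `rot_to` for the set `F` of the first components and `z`, and for the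
set `F'` of the second components and `z` (`Γ` is injective because `rlt z` is a strict linear order
on the points different from `z`, so the sets have the same number of elements, and for `(x, y) ∈ Γ` the
two numbers `ncard + 1` are equal), with the same `e` (`exists_inc`); compose with the inverse. The label
change of `(x, y)` is `(tw z y) * (tw z x)⁻¹`. -/
theorem rot_good [Infinite L] (h : LS Q) {mu : G} (hr : ∀ m, GQL Q m (rl m) (lab1 (m - 1) mu))
    (z : L) {Γ : Set (L × L)} (hf : Γ.Finite) (hz : ∀ g ∈ Γ, g.1 ≠ z ∧ g.2 ≠ z)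
    (hm : ∀ g ∈ Γ, ∀ g' ∈ Γ, (rlt z g.1 g'.1 ↔ rlt z g.2 g'.2)) :
    Q {q | q = (z, z, 1) ∨ ((q.1, q.2.1) ∈ Γ ∧ q.2.2 = tw mu z q.2.1 * (tw mu z q.1)⁻¹)} := by
  classical
  have irr : ∀ u, ¬ rlt z u u := by
    rintro u (⟨h1, h2⟩ | ⟨-, h2⟩)
    · exact lt_asymm h1 h2
    · exact lt_irrefl _ h2
  have tot : ∀ u v, u ≠ z → v ≠ z → u ≠ v → rlt z u v ∨ rlt z v u := by
    intro u v hu hv huv
    unfold rlt
    rcases lt_trichotomy u v with h1 | h1 | h1
    · by_cases c1 : z < u
      · exact Or.inl (Or.inr ⟨⟨fun _ => c1.trans h1, fun _ => c1⟩, h1⟩)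
      · by_cases c2 : z < v
        · exact Or.inr (Or.inl ⟨c2, lt_of_le_of_ne (not_lt.1 c1) hu⟩)
        · exact Or.inl (Or.inr ⟨⟨fun h => absurd h c1, fun h => absurd h c2⟩, h1⟩)
    · exact absurd h1 huv
    · by_cases c1 : z < v
      · exact Or.inr (Or.inr ⟨⟨fun _ => c1.trans h1, fun _ => c1⟩, h1⟩)
      · by_cases c2 : z < u
        · exact Or.inl (Or.inl ⟨c2, lt_of_le_of_ne (not_lt.1 c1) hv⟩)
        · exact Or.inr (Or.inr ⟨⟨fun h => absurd h c1, fun h => absurd h c2⟩, h1⟩)
  have hinj : ∀ g ∈ Γ, ∀ g' ∈ Γ, (g.1 = g'.1 ↔ g.2 = g'.2) := by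
    intro g hg g' hg'
    constructor
    · intro h1
      by_contra h2
      rcases tot _ _ (hz g hg).2 (hz g' hg').2 h2 with h3 | h3
      · have := (hm g hg g' hg').2 h3
        rw [h1] at this
        exact irr _ this
      · have := (hm g' hg' g hg).2 h3
        rw [h1] at this
        exact irr _ this
    · intro h1
      by_contra h2
      rcases tot _ _ (hz g hg).1 (hz g' hg').1 h2 with h3 | h3
      · have := (hm g hg g' hg').1 h3
        rw [h1] at this
        exact irr _ this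
      · have := (hm g' hg' g hg).1 h3
        rw [h1] at this
        exact irr _ this
  let Γf : Finset (L × L) := hf.toFinset
  have hΓf : ∀ g, g ∈ Γf ↔ g ∈ Γ := fun g => hf.mem_toFinset
  let F1 : Finset L := Γf.image Prod.fst
  let F2 : Finset L := Γf.image Prod.snd
  have hF1 : ∀ y, y ∈ F1 ↔ ∃ g ∈ Γ, g.1 = y := by
    intro y
    simp only [F1, Finset.mem_image, hΓf]
  have hF2 : ∀ y, y ∈ F2 ↔ ∃ g ∈ Γ, g.2 = y := by
    intro y
    simp only [F2, Finset.mem_image, hΓf]
  have hz1 : z ∉ F1 := by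
    intro h1
    obtain ⟨g, hg, h2⟩ := (hF1 z).1 h1
    exact (hz g hg).1 h2
  have hz2 : z ∉ F2 := by
    intro h1
    obtain ⟨g, hg, h2⟩ := (hF2 z).1 h1
    exact (hz g hg).2 h2
  have i1 : Set.InjOn Prod.fst (Γf : Set (L × L)) := by
    intro g hg g' hg' h1
    have h2 := (hinj g ((hΓf g).1 hg) g' ((hΓf g').1 hg')).1 h1
    exact Prod.ext h1 h2
  have i2 : Set.InjOn Prod.snd (Γf : Set (L × L)) := by
    intro g hg g' hg' h1
    have h2 := (hinj g ((hΓf g).1 hg) g' ((hΓf g').1 hg')).2 h1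
    exact Prod.ext h2 h1
  have c1 : (insert z F1).card = Γf.card + 1 := by
    rw [Finset.card_insert_of_notMem hz1, Finset.card_image_of_injOn i1]
  have c2 : (insert z F2).card = Γf.card + 1 := by
    rw [Finset.card_insert_of_notMem hz2, Finset.card_image_of_injOn i2]
  obtain ⟨e, he⟩ := exists_inc (L := L) (Γf.card + 1)
  have A := rot_to h hr z (insert z F1) (Finset.mem_insert_self _ _) e (by rw [c1]; exact he)
  have A' := rot_to h hr z (insert z F2) (Finset.mem_insert_self _ _) e (by rw [c2]; exact he)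
  have hcard : ∀ g ∈ Γ, {y | y ∈ insert z F1 ∧ y ≠ z ∧ rlt z y g.1}.ncard =
      {y | y ∈ insert z F2 ∧ y ≠ z ∧ rlt z y g.2}.ncard := by
    intro g hg
    have e1 : {y | y ∈ insert z F1 ∧ y ≠ z ∧ rlt z y g.1} =
        Prod.fst '' {g' | g' ∈ Γ ∧ rlt z g'.1 g.1} := by
      ext y
      constructor
      · rintro ⟨h1, h2, h3⟩
        obtain ⟨g', hg', rfl⟩ := (hF1 y).1 ((Finset.mem_insert.1 h1).resolve_left h2)
        exact ⟨g', ⟨hg', h3⟩, rfl⟩
      · rintro ⟨g', ⟨hg', h3⟩, rfl⟩
        exact ⟨Finset.mem_insert_of_mem ((hF1 _).2 ⟨g', hg', rfl⟩), (hz g' hg').1, h3⟩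
    have e2 : {y | y ∈ insert z F2 ∧ y ≠ z ∧ rlt z y g.2} =
        Prod.snd '' {g' | g' ∈ Γ ∧ rlt z g'.1 g.1} := by
      ext y
      constructor
      · rintro ⟨h1, h2, h3⟩
        obtain ⟨g', hg', rfl⟩ := (hF2 y).1 ((Finset.mem_insert.1 h1).resolve_left h2)
        exact ⟨g', ⟨hg', (hm g' hg' g hg).2 h3⟩, rfl⟩
      · rintro ⟨g', ⟨hg', h3⟩, rfl⟩
        exact ⟨Finset.mem_insert_of_mem ((hF2 _).2 ⟨g', hg', rfl⟩), (hz g' hg').2,
          (hm g' hg' g hg).1 h3⟩
    rw [e1, e2, ncard_image_of_injOn, ncard_image_of_injOn]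
    · rintro g1 ⟨h1, -⟩ g2 ⟨h2, -⟩ h3
      exact i2 ((hΓf g1).2 h1) ((hΓf g2).2 h2) h3
    · rintro g1 ⟨h1, -⟩ g2 ⟨h2, -⟩ h3
      exact i1 ((hΓf g1).2 h1) ((hΓf g2).2 h2) h3
  refine h.mono _ _ ?_ (h.comp _ _ A (h.inv _ A'))
  rintro ⟨q1, q2, q3⟩ (h1 | ⟨h1, h2⟩)
  · simp only [Prod.mk.injEq] at h1
    obtain ⟨rfl, rfl, rfl⟩ := h1
    refine ⟨e 0, 1, 1, Or.inl ⟨rfl, rfl, rfl⟩, Or.inl ⟨rfl, rfl, inv_one⟩, (mul_one _).symm⟩
  · simp only at h1 h2
    refine ⟨e ({y | y ∈ insert z F1 ∧ y ≠ z ∧ rlt z y q1}.ncard + 1), (tw mu z q1)⁻¹, tw mu z q2,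
      Or.inr ⟨?_, (hz _ h1).1, rfl, rfl⟩, Or.inr ⟨?_, (hz _ h1).2, ?_, rfl⟩, h2⟩
    · exact Finset.mem_insert_of_mem ((hF1 _).2 ⟨_, h1, rfl⟩)
    · exact Finset.mem_insert_of_mem ((hF2 _).2 ⟨_, h1, rfl⟩)
    · have := hcard _ h1
      simp only at this ⊢
      rw [this]

end Pool.H5.AB
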