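import Pool.Agent.H5.AB.Ls
import Pool.Agent.H5.AB.Pig

/-!
# Swaps with label changes
-/

set_option autoImplicit false

namespace Pool.H5.AB

open Set Function

variable {L G : Type} [LinearOrder L] [Group G] {Q : Set (L × L × G) → Prop} {n m p a b : ℕ}
  {σ τ ρ g : ℕ → ℕ} {lam mu nu : ℕ → G}

private theorem sw_l (p : ℕ) : sw p p = p + 1 := by simp [sw]

private theorem sw_r (p : ℕ) : sw p (p + 1) = p := by simp [sw]

private theorem sw_o {p i : ℕ} (h1 : i ≠ p) (h2 : i ≠ p + 1) : sw p i = i := by
  rw [sw, if_neg h1, if_neg h2]

private theorem lb_l (p : ℕ) (u v : G) : lab2 p u v p = u := by simp [lab2]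

private theorem lb_r (p : ℕ) (u v : G) : lab2 p u v (p + 1) = v := by simp [lab2]

private theorem lb_o {p i : ℕ} (u v : G) (h1 : i ≠ p) (h2 : i ≠ p + 1) : lab2 p u v i = 1 := by
  rw [lab2, if_neg h1, if_neg h2]

/-- A swap whose only label changes are those of the two swapped cells gives the swap without label
changes, in a smaller context. PROOF (see `GQL.mul`, `GQL.div`, `GQL.sub`; the label of a composition,
first `g` then `g'`, is `g' * g`). Put `B p q = GQL Q (p + q + 2) (sw p) (lab2 p nu1 nu2)`; by `GQL.sub` it
holds for `(p, q) = (a + 1, b)`, `(a, b + 1)`, `(a, b)`. On `a + b + 3` points let `s1` be the swap of `a`,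
`a + 1` (`B a (b + 1)`) and `s2` the swap of `a + 1`, `a + 2` (`B (a + 1) b`).
First `s1`, then `s2`: `a ↦ a + 2` with the label `nu1 * nu1`, `a + 1 ↦ a` with `nu2`, `a + 2 ↦ a + 1`. The
subpattern without the point `a + 2` (`g i = if i < a + 2 then i else i + 1`) is
`C = GQL Q (a + b + 2) (sw a) (lab2 a (nu1 * nu1) nu2)`. `C` divided by `B a b`
(`GQL.div`, `ρ = sw a`, `τ = id`) is `D1 = GQL Q (a + b + 2) id (lab2 a nu1 1)`.
First `s2`, then `s1`: `a ↦ a + 1` with `nu1`, `a + 1 ↦ a + 2` with `nu1`, `a + 2 ↦ a` with `nu2 * nu2`. The
subpattern without the point `a` (`g i = if i < a then i else i + 1`) is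
`C' = GQL Q (a + b + 2) (sw a) (lab2 a nu1 (nu2 * nu2))`; divided by `B a b` it is
`D2 = GQL Q (a + b + 2) id (lab2 a 1 nu2)`.
`D1` then `D2` (`GQL.mul`) is `GQL Q (a + b + 2) id (lab2 a nu1 nu2)`; its inverse (division of
`GQL.one` by it) followed by `B a b` is the swap without label changes: label at `a` is
`nu1 * nu1⁻¹`, at `a + 1` it is `nu2 * nu2⁻¹`. -/
theorem swap_two [Infinite L] (h : LS Q) {nu1 nu2 : G}
    (hB : GQL Q (a + b + 4) (sw (a + 1)) (lab2 (a + 1) nu1 nu2)) :
    GQL Q (a + b + 2) (sw a) (fun _ => 1) := by
  have hswb : ∀ p n i, p + 1 < n → i < n → sw p i < n := by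
    intro p n i hp hi
    unfold sw
    split_ifs <;> omega
  have B1 : GQL Q (a + b + 3) (sw a) (lab2 a nu1 nu2) := by
    refine hB.sub h (g := fun i => i + 1) (fun i hi => hswb _ _ _ (by omega) hi) ?_ ?_
      (fun i hi => hswb _ _ _ (by omega) hi) ?_ ?_
    · intro i hi j hj hij
      omega
    · intro i hi
      omega
    · intro i hi j hj
      unfold sw
      split_ifs <;> omega
    · intro i hi
      unfold lab2
      split_ifs <;> first | rfl | omega
  have B2 : GQL Q (a + b + 3) (sw (a + 1)) (lab2 (a + 1) nu1 nu2) := by
    refine hB.sub h (g := fun i => i) (fun i hi => hswb _ _ _ (by omega) hi) ?_ ?_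
      (fun i hi => hswb _ _ _ (by omega) hi) ?_ ?_
    · intro i hi j hj hij
      exact hij
    · intro i hi
      omega
    · intro i hi j hj
      exact Iff.rfl
    · intro i hi
      rfl
  have B0 : GQL Q (a + b + 2) (sw a) (lab2 a nu1 nu2) := by
    refine hB.sub h (g := fun i => i + 1) (fun i hi => hswb _ _ _ (by omega) hi) ?_ ?_
      (fun i hi => hswb _ _ _ (by omega) hi) ?_ ?_
    · intro i hi j hj hij
      omega
    · intro i hi
      omega
    · intro i hi j hj
      unfold sw
      split_ifs <;> omega
    · intro i hi
      unfold lab2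
      split_ifs <;> first | rfl | omega
  have S12 : GQL Q (a + b + 3) (fun i => sw (a + 1) (sw a i))
      (fun i => lab2 (a + 1) nu1 nu2 (sw a i) * lab2 a nu1 nu2 i) :=
    B1.mul h B2 (fun i hi => hswb _ _ _ (by omega) hi) (fun i hi => rfl) (fun i hi => rfl)
  have S21 : GQL Q (a + b + 3) (fun i => sw a (sw (a + 1) i))
      (fun i => lab2 a nu1 nu2 (sw (a + 1) i) * lab2 (a + 1) nu1 nu2 i) :=
    B2.mul h B1 (fun i hi => hswb _ _ _ (by omega) hi) (fun i hi => rfl) (fun i hi => rfl)
  have C : GQL Q (a + b + 2) (sw a) (lab2 a (nu1 * nu1) nu2) := by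
    refine S12.sub h (g := fun i => if i < a + 2 then i else i + 1)
      (fun i hi => hswb _ _ _ (by omega) (hswb _ _ _ (by omega) hi)) ?_ ?_
      (fun i hi => hswb _ _ _ (by omega) hi) ?_ ?_
    · intro i hi j hj hij
      beta_reduce
      split_ifs <;> omega
    · intro i hi
      beta_reduce
      split_ifs <;> omega
    · have e : ∀ i, sw (a + 1) (sw a (if i < a + 2 then i else i + 1)) =
          if i < a then i else if i = a then a + 2 else if i = a + 1 then a else i + 1 := by
        intro i
        rcases lt_trichotomy i a with h1 | h1 | h1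
        · rw [if_pos (by omega), sw_o (p := a) (i := i) (by omega) (by omega),
            sw_o (by omega) (by omega), if_pos h1]
        · subst h1
          rw [if_pos (by omega), sw_l, sw_l, if_neg (by omega), if_pos rfl]
        · by_cases h2 : i = a + 1
          · subst h2
            rw [if_pos (by omega), sw_r, sw_o (by omega) (by omega), if_neg (by omega),
              if_neg (by omega), if_pos rfl]
          · rw [if_neg (by omega), sw_o (p := a) (i := i + 1) (by omega) (by omega),
              sw_o (by omega) (by omega),
              if_neg (by omega), if_neg (by omega), if_neg h2]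
      intro i hi j hj
      beta_reduce
      rw [e, e]
      unfold sw
      split_ifs <;> omega
    · intro i hi
      beta_reduce
      rcases lt_trichotomy i a with h1 | h1 | h1
      · rw [if_pos (by omega), sw_o (by omega) (by omega), lb_o _ _ (by omega) (by omega),
          lb_o _ _ (by omega) (by omega), lb_o _ _ (by omega) (by omega), one_mul]
      · subst h1
        rw [if_pos (by omega), sw_l, lb_l, lb_l, lb_l]
      · by_cases h2 : i = a + 1
        · subst h2
          rw [if_pos (by omega), sw_r, lb_r, lb_r, lb_o _ _ (by omega) (by omega), one_mul]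
        · rw [if_neg (by omega), sw_o (by omega) (by omega), lb_o _ _ (by omega) (by omega),
            lb_o _ _ (by omega) (by omega), lb_o _ _ (by omega) (by omega), one_mul]
  have C' : GQL Q (a + b + 2) (sw a) (lab2 a nu1 (nu2 * nu2)) := by
    refine S21.sub h (g := fun i => if i < a then i else i + 1)
      (fun i hi => hswb _ _ _ (by omega) (hswb _ _ _ (by omega) hi)) ?_ ?_
      (fun i hi => hswb _ _ _ (by omega) hi) ?_ ?_
    · intro i hi j hj hij
      beta_reduce
      split_ifs <;> omega
    · intro i hi
      beta_reduce
      split_ifs <;> omega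
    · have e : ∀ i, sw a (sw (a + 1) (if i < a then i else i + 1)) =
          if i < a then i else if i = a then a + 2 else if i = a + 1 then a else i + 1 := by
        intro i
        rcases lt_trichotomy i a with h1 | h1 | h1
        · rw [if_pos h1, sw_o (p := a + 1) (i := i) (by omega) (by omega),
            sw_o (by omega) (by omega), if_pos h1]
        · subst h1
          rw [if_neg (by omega), sw_l, sw_o (by omega) (by omega), if_neg (by omega), if_pos rfl]
        · by_cases h2 : i = a + 1
          · subst h2
            rw [if_neg (by omega), sw_r, sw_r, if_neg (by omega), if_neg (by omega), if_pos rfl]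
          · rw [if_neg (by omega), sw_o (p := a + 1) (i := i + 1) (by omega) (by omega),
              sw_o (by omega) (by omega),
              if_neg (by omega), if_neg (by omega), if_neg h2]
      intro i hi j hj
      beta_reduce
      rw [e, e]
      unfold sw
      split_ifs <;> omega
    · intro i hi
      beta_reduce
      rcases lt_trichotomy i a with h1 | h1 | h1
      · rw [if_pos h1, sw_o (by omega) (by omega), lb_o _ _ (by omega) (by omega),
          lb_o _ _ (by omega) (by omega), lb_o _ _ (by omega) (by omega), one_mul]
      · subst h1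
        rw [if_neg (by omega), sw_l, lb_l, lb_l, lb_o _ _ (by omega) (by omega), one_mul]
      · by_cases h2 : i = a + 1
        · subst h2
          rw [if_neg (by omega), sw_r, lb_r, lb_r, lb_r]
        · rw [if_neg (by omega), sw_o (by omega) (by omega), lb_o _ _ (by omega) (by omega),
            lb_o _ _ (by omega) (by omega), lb_o _ _ (by omega) (by omega), one_mul]
  have D1 : GQL Q (a + b + 2) (fun i => i) (lab2 a nu1 1) := by
    refine C.div h B0 (fun i hi => hi) (fun i hi => rfl) ?_
    intro i hi
    unfold lab2
    split_ifs <;> simp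
  have D2 : GQL Q (a + b + 2) (fun i => i) (lab2 a 1 nu2) := by
    refine C'.div h B0 (fun i hi => hi) (fun i hi => rfl) ?_
    intro i hi
    unfold lab2
    split_ifs <;> simp
  have D : GQL Q (a + b + 2) (fun i => i) (lab2 a nu1 nu2) := by
    refine D1.mul h D2 (fun i hi => hi) (fun i hi => rfl) ?_
    intro i hi
    unfold lab2
    split_ifs <;> simp
  have Di : GQL Q (a + b + 2) (fun i => i) (fun i => (lab2 a nu1 nu2 i)⁻¹) := by
    have h1 : GQL Q (a + b + 2) (fun i => i) (fun _ => (1 : G)) :=
      GQL.one h (fun i hi => rfl) (fun i hi => rfl)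
    refine h1.div h D (fun i hi => hi) (fun i hi => rfl) ?_
    intro i hi
    simp
  refine Di.mul h B0 (fun i hi => hi) (fun i hi => rfl) ?_
  intro i hi
  simp

/-- A visible swap stays visible, in a larger context, if all label changes are allowed. PROOF. Let
`a' = (a + 3) * Nat.card G`, `b' = (b + 3) * Nat.card G`. Suppose
`hl : GQL Q (a' + b' + 2) (sw a') lam`. By the pigeonhole principle some label `h1` occurs at `a + 3` of
the places `i < a'`, and some label `h2` occurs at `b + 3` of the places `i ≥ a' + 2`
(e.g. `Finset.exists_le_card_fiber_of_mul_le_card_of_maps_to`, then enumerate the places increasingly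
with `Finset.orderEmbOfFin`). `GQL.sub` gives, for all `p ≤ a + 3`, `q ≤ b + 3`, the pattern
`A p q = GQL Q (p + q + 2) (sw p) (h1, …, h1, lam a', lam (a' + 1), h2, …, h2)` (`p` times `h1`, `q` times `h2`) and
`H p q = GQL Q (p + q) id (h1, …, h1, h2, …, h2)`. Divide `A (a + 1) (b + 1)` by `H (a + 3) (b + 1)`
(`GQL.div`, `ρ = id`, `τ = sw (a + 1)`): all label changes except those at `a + 1`, `a + 2` become `1`.
Now `swap_two`. -/
theorem swap_lab [Infinite L] [Finite G] (h : LS Q)
    (hsw : ¬ GQL Q (a + b + 2) (sw a) (fun _ => 1)) :
    ∃ a' b', ∀ lam, ¬ GQL Q (a' + b' + 2) (sw a') lam := by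
  by_contra hc
  push Not at hc
  apply hsw
  obtain ⟨lam, hl⟩ := hc ((a + 3) * Nat.card G) ((b + 3) * Nat.card G)
  set a' := (a + 3) * Nat.card G with ha'
  set b' := (b + 3) * Nat.card G with hb'
  obtain ⟨h1, g1, g11, g12, g13⟩ := pig lam (a + 3) a' le_rfl
  obtain ⟨h2, g2, g21, g22, g23⟩ := pig (fun i => lam (a' + 2 + i)) (b + 3) b' le_rfl
  have hswb : ∀ p n i, p + 1 < n → i < n → sw p i < n := by
    intro p n i hp hi
    unfold sw
    split_ifs <;> omega
  have A : GQL Q (a + b + 4) (sw (a + 1)) (fun i => if i < a + 1 then h1 else
      if i = a + 1 then lam a' else if i = a + 2 then lam (a' + 1) else h2) := by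
    refine hl.sub h (g := fun i => if i < a + 1 then g1 i else if i < a + 3 then a' + (i - (a + 1))
      else a' + 2 + g2 (i - (a + 3))) (fun i hi => hswb _ _ _ (by omega) hi) ?_ ?_
      (fun i hi => hswb _ _ _ (by omega) hi) ?_ ?_
    · intro i hi j hj hij
      beta_reduce
      have e1 := g11 i
      have e2 := g12 i
      have e3 := g21 (i - (a + 3))
      by_cases c1 : j < a + 1
      · rw [if_pos (show i < a + 1 by omega), if_pos c1]
        exact g11 i (by omega) j (by omega) hij
      · rw [if_neg c1]
        by_cases c2 : j < a + 3
        · rw [if_pos c2]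
          split_ifs
          · have := g12 i (by omega)
            omega
          · omega
          · omega
        · rw [if_neg c2]
          split_ifs
          · have := g12 i (by omega)
            omega
          · omega
          · have := g21 (i - (a + 3)) (by omega) (j - (a + 3)) (by omega) (by omega)
            omega
    · intro i hi
      beta_reduce
      split_ifs
      · have := g12 i (by omega)
        omega
      · omega
      · have := g22 (i - (a + 3)) (by omega)
        omega
    · have e : ∀ i, i < a + b + 4 → sw a' (if i < a + 1 then g1 i else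
          if i < a + 3 then a' + (i - (a + 1)) else a' + 2 + g2 (i - (a + 3))) =
          if i < a + 1 then g1 i else if i = a + 1 then a' + 1 else if i = a + 2 then a'
            else a' + 2 + g2 (i - (a + 3)) := by
        intro i hi
        by_cases c1 : i < a + 1
        · have := g12 i (by omega)
          rw [if_pos c1, if_pos c1, sw_o (by omega) (by omega)]
        · rw [if_neg c1, if_neg c1]
          by_cases c2 : i = a + 1
          · rw [if_pos (by omega), if_pos c2, c2, Nat.sub_self, Nat.add_zero, sw_l]
          · rw [if_neg c2]
            by_cases c3 : i = a + 2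
            · rw [if_pos (by omega), if_pos c3, c3, show a + 2 - (a + 1) = 1 by omega, sw_r]
            · rw [if_neg c3, if_neg (by omega), sw_o (by omega) (by omega)]
      intro i hi j hj
      beta_reduce
      rw [e i hi, e j hj]
      have i1 : i < a + 1 → g1 i < a' := fun c => g12 i (by omega)
      have j1 : j < a + 1 → g1 j < a' := fun c => g12 j (by omega)
      have ij : i < a + 1 → j < a + 1 → (g1 i < g1 j ↔ i < j) := by
        intro c c'
        rcases lt_trichotomy i j with h3 | h3 | h3
        · exact ⟨fun _ => h3, fun _ => g11 i (by omega) j (by omega) h3⟩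
        · subst h3
          exact ⟨fun h => absurd h (lt_irrefl _), fun h => absurd h (lt_irrefl _)⟩
        · have := g11 j (by omega) i (by omega) h3
          exact ⟨fun h => absurd h (by omega), fun h => absurd h (by omega)⟩
      have ij' : a + 3 ≤ i → a + 3 ≤ j → (g2 (i - (a + 3)) < g2 (j - (a + 3)) ↔ i < j) := by
        intro c c'
        rcases lt_trichotomy i j with h3 | h3 | h3
        · exact ⟨fun _ => h3, fun _ => g21 _ (by omega) _ (by omega) (by omega)⟩
        · subst h3
          exact ⟨fun h => absurd h (lt_irrefl _), fun h => absurd h (lt_irrefl _)⟩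
        · have := g21 (j - (a + 3)) (by omega) (i - (a + 3)) (by omega) (by omega)
          exact ⟨fun h => absurd h (by omega), fun h => absurd h (by omega)⟩
      unfold sw
      split_ifs <;> omega
    · intro i hi
      beta_reduce
      by_cases c1 : i < a + 1
      · rw [if_pos c1, if_pos c1, g13 i (by omega)]
      · rw [if_neg c1, if_neg c1]
        by_cases c2 : i = a + 1
        · subst c2
          simp
        · by_cases c3 : i = a + 2
          · subst c3
            simp
          · rw [if_neg c2, if_neg c3, if_neg (by omega)]
            exact (g23 _ (by omega)).symm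
  have H : GQL Q (a + b + 4) (fun i => i) (fun i => if i < a + 3 then h1 else h2) := by
    refine hl.sub h (g := fun i => if i < a + 3 then g1 i else a' + 2 + g2 (i - (a + 3)))
      (fun i hi => hswb _ _ _ (by omega) hi) ?_ ?_ (fun i hi => hi) ?_ ?_
    · intro i hi j hj hij
      beta_reduce
      split_ifs
      · exact g11 i (by omega) j (by omega) hij
      · have := g12 i (by omega)
        omega
      · omega
      · have := g21 (i - (a + 3)) (by omega) (j - (a + 3)) (by omega) (by omega)
        omega
    · intro i hi
      beta_reduce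
      split_ifs
      · have := g12 i (by omega)
        omega
      · have := g22 (i - (a + 3)) (by omega)
        omega
    · have e : ∀ i, i < a + b + 4 → sw a' (if i < a + 3 then g1 i else
          a' + 2 + g2 (i - (a + 3))) = if i < a + 3 then g1 i else a' + 2 + g2 (i - (a + 3)) := by
        intro i hi
        by_cases c1 : i < a + 3
        · have := g12 i c1
          rw [if_pos c1, sw_o (by omega) (by omega)]
        · rw [if_neg c1, sw_o (by omega) (by omega)]
      intro i hi j hj
      beta_reduce
      rw [e i hi, e j hj]
      have i1 : i < a + 3 → g1 i < a' := fun c => g12 i (by omega)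
      have j1 : j < a + 3 → g1 j < a' := fun c => g12 j (by omega)
      have ij : i < a + 3 → j < a + 3 → (g1 i < g1 j ↔ i < j) := by
        intro c c'
        rcases lt_trichotomy i j with h3 | h3 | h3
        · exact ⟨fun _ => h3, fun _ => g11 i (by omega) j (by omega) h3⟩
        · subst h3
          exact ⟨fun h => absurd h (lt_irrefl _), fun h => absurd h (lt_irrefl _)⟩
        · have := g11 j (by omega) i (by omega) h3
          exact ⟨fun h => absurd h (by omega), fun h => absurd h (by omega)⟩
      have ij' : a + 3 ≤ i → a + 3 ≤ j → (g2 (i - (a + 3)) < g2 (j - (a + 3)) ↔ i < j) := by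
        intro c c'
        rcases lt_trichotomy i j with h3 | h3 | h3
        · exact ⟨fun _ => h3, fun _ => g21 _ (by omega) _ (by omega) (by omega)⟩
        · subst h3
          exact ⟨fun h => absurd h (lt_irrefl _), fun h => absurd h (lt_irrefl _)⟩
        · have := g21 (j - (a + 3)) (by omega) (i - (a + 3)) (by omega) (by omega)
          exact ⟨fun h => absurd h (by omega), fun h => absurd h (by omega)⟩
      split_ifs <;> omega
    · intro i hi
      beta_reduce
      split_ifs with c
      · rw [g13 i c]
      · exact (g23 _ (by omega)).symm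
  have R : GQL Q (a + b + 4) (sw (a + 1)) (lab2 (a + 1) (h1⁻¹ * lam a') (h1⁻¹ * lam (a' + 1))) := by
    refine A.div h H (fun i hi => hswb _ _ _ (by omega) hi) (fun i hi => rfl) ?_
    intro i hi
    unfold sw lab2
    rcases lt_trichotomy i (a + 1) with c | c | c
    · simp only [if_neg (show ¬ i = a + 1 by omega), if_neg (show ¬ i = a + 1 + 1 by omega),
        if_pos c, if_pos (show i < a + 3 by omega), inv_mul_cancel]
    · subst c
      simp
    · by_cases c2 : i = a + 2
      · subst c2
        simp
      · simp only [if_neg (show ¬ i = a + 1 by omega), if_neg (show ¬ i = a + 1 + 1 by omega),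
          if_neg (show ¬ i < a + 1 by omega), if_neg (show ¬ i < a + 3 by omega),
          if_neg (show ¬ i = a + 2 by omega), inv_mul_cancel]
  exact swap_two h R

end Pool.H5.AB
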