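import Pool.Agent.H5.AB.Kp

/-!
# Naming finitely many cells
-/

set_option autoImplicit false

namespace Pool.H5.AB

open Set Ordinal Pool.H62.VT

variable {a : ℕ → ℕ} {I : Type} {M : Str a} {E E' EE : Set ℕ} {m c r : ℕ} [LinearOrder I]
  {kd : I → ℕ} {sz : ℕ → ℕ} {x : I → ℕ → ℕ} {Rn : Finset I} {k a0 b0 m0 : ℕ} {Nm : Finset I}

/-- the cells `Nm` and the points `EE` are named -/
structure ND (M : Str a) (Rn : Finset I) (E' : Set ℕ) (c : ℕ) (kd : I → ℕ) (sz : ℕ → ℕ)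
    (x : I → ℕ → ℕ) (Nm : Finset I) (EE : Set ℕ) : Prop where
  fin : EE.Finite
  ren : Rn ⊆ Nm
  sub : E' ⊆ EE
  named : ∀ n ∈ Nm, ∀ y ∈ cell kd sz x n, y ∈ EE
  meet : ∀ i, ∀ y ∈ cell kd sz x i, y ∈ EE → i ∈ Nm
  recg : ∀ k < c, ∀ P : Pos, BF M univ M univ ω P → idOn EE ⊆ P → ∀ (U : Finset (Lk kd k))
    (φ : Lk kd k → Lk kd k) (γ : Lk kd k → Equiv.Perm (Fin (sz k))),
    (∀ u ∈ U, mvL x u.1 (φ u).1 (γ u) ⊆ P) → (∀ u ∈ U, u.1 ∉ Nm) →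
    (∀ u ∈ U, ∀ v ∈ U, u < v → φ u < φ v) ∧
      (∀ u ∈ U, ∀ n ∈ Nm, kd n = k → (n < u.1 ↔ n < (φ u).1)) ∧
      (∀ u ∈ U, (φ u).1 ∉ Nm) ∧ ∀ u ∈ U, GdL M kd sz x k (γ u)

theorem exists_nd (har : ∀ n, a n ≤ r) (hr : 2 ≤ r) (hF : FF M Rn E E' m c kd sz x)
    (hsw : ∀ k < c, ∃ a0 b0, ¬ GQ (Qi (QL M (Rs kd sz x k) kd sz x k)) (a0 + b0 + 2) (sw a0))
    (hrot : ∀ k < c, ∃ m0, ¬ GQ (Qi (QL M (Rs kd sz x k) kd sz x k)) m0 (rl m0)) :
    ∃ Nm EE, ND M Rn E' c kd sz x Nm EE := by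
  classical
  have h1 := fun k : Fin c => exists_kp har hr hF k.2 (hsw k k.2) (hrot k k.2)
  choose a0 b0 m0 F T T' Z hK using h1
  -- the points to be named
  set E1 : Set ℕ := E' ∪ ⋃ k : Fin c, F k with hE1
  have hE1f : E1.Finite := hF.fin.union (finite_iUnion fun k => (hK k).fin)
  -- the cells meeting them
  have hN1 : {i : I | i ∉ Rn ∧ ∃ y ∈ cell kd sz x i, y ∈ E1}.Finite := by
    have h2 : ∀ i : {i : I | i ∉ Rn ∧ ∃ y ∈ cell kd sz x i, y ∈ E1},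
        ∃ y, y ∈ cell kd sz x i.1 ∧ y ∈ E1 := fun i => i.2.2
    choose g hg1 hg2 using h2
    have hfin : Finite E1 := hE1f
    refine Set.finite_coe_iff.1 ?_
    exact Finite.of_injective (fun i => (⟨g i, hg2 i⟩ : E1)) fun i i' h => by
      have h3 : g i = g i' := congrArg Subtype.val h
      exact Subtype.ext (cell_eq hF (hg1 i) (h3 ▸ hg1 i') (Or.inr (Or.inl i.2.1)))
  set Nm : Finset I := (Rn ∪ hN1.toFinset) ∪ Finset.univ.biUnion fun k : Fin c =>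
    (T k ∪ T' k ∪ Z k).image Subtype.val with hNm
  have mNm : ∀ k : Fin c, ∀ t : Lk kd k, t ∈ T k ∪ T' k ∪ Z k → t.1 ∈ Nm := by
    intro k t ht
    rw [hNm, Finset.mem_union]
    exact Or.inr (Finset.mem_biUnion.2 ⟨k, Finset.mem_univ _, Finset.mem_image_of_mem _ ht⟩)
  have hRn : Rn ⊆ Nm := by
    rw [hNm]
    exact Finset.subset_union_left.trans Finset.subset_union_left
  refine ⟨Nm, E1 ∪ ⋃ n ∈ Nm, (cell kd sz x n : Set ℕ), ?_, hRn, ?_, ?_, ?_, ?_⟩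
  · exact hE1f.union (Nm.finite_toSet.biUnion fun n _ => (cell kd sz x n).finite_toSet)
  · exact fun y hy => Or.inl (Or.inl hy)
  · intro n hn y hy
    exact Or.inr (mem_iUnion₂.2 ⟨n, hn, hy⟩)
  · intro i y hy h
    by_cases hi : i ∈ Rn
    · exact hRn hi
    rcases h with h | h
    · rw [hNm, Finset.mem_union, Finset.mem_union]
      left
      right
      rw [Set.Finite.mem_toFinset]
      exact ⟨hi, y, hy, h⟩
    · obtain ⟨n, hn, hyn⟩ := mem_iUnion₂.1 h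
      rw [cell_eq hF hy hyn (Or.inr (Or.inl hi))]
      exact hn
  · intro k hk P hB hE U φ γ hU hUN
    have hE' : idOn E' ⊆ P := fun q hq => hE ⟨Or.inl (Or.inl hq.1), hq.2⟩
    have hFP : idOn (F ⟨k, hk⟩) ⊆ P := fun q hq =>
      hE ⟨Or.inl (Or.inr (mem_iUnion.2 ⟨⟨k, hk⟩, hq.1⟩)), hq.2⟩
    have hNn : ∀ n : Lk kd k, n.1 ∈ Nm → mvL x n.1 n.1 (1 : Equiv.Perm (Fin (sz k))) ⊆ P := by
      rintro n hn _ ⟨d, rfl⟩
      refine hE ⟨Or.inr (mem_iUnion₂.2 ⟨n.1, hn, ?_⟩), rfl⟩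
      refine mem_cell.2 ⟨d, ?_, rfl⟩
      rw [n.2]
      exact d.2
    have h2 := recog hF hk (hK ⟨k, hk⟩) hB hE' hFP (Nm.subtype (fun i => kd i = k))
      (fun t ht => Finset.mem_subtype.2 (mNm ⟨k, hk⟩ t (by
        rw [Finset.mem_union, Finset.mem_union]; exact Or.inl (Or.inl ht))))
      (fun t ht => Finset.mem_subtype.2 (mNm ⟨k, hk⟩ t (by
        rw [Finset.mem_union, Finset.mem_union]; exact Or.inl (Or.inr ht))))
      (fun t ht => Finset.mem_subtype.2 (mNm ⟨k, hk⟩ t (by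
        rw [Finset.mem_union]; exact Or.inr ht)))
      (fun n hn => hNn n (Finset.mem_subtype.1 hn)) U φ γ hU
      (fun u hu h => hUN u hu (Finset.mem_subtype.1 h))
    obtain ⟨e1, e2, e3, e4⟩ := h2
    refine ⟨e1, ?_, fun u hu h => e3 u hu (Finset.mem_subtype.2 h), e4⟩
    intro u hu n hn hkn
    exact e2 u hu ⟨n, hkn⟩ (Finset.mem_subtype.2 hn)

end Pool.H5.AB
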