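import Pool.Agent.H17.TA.Sim
import Pool.Agent.H63.PC.RatF

/-!
# Chains of cells of order type of the rationals: translation into block configurations
-/

set_option autoImplicit false

namespace Pool.H5.AB

open Set Function Pool.H22.VC Pool.H17.TA

variable {r : ℕ} {K κ : Type} {N : Col r K ℕ} {A : Set ℕ} {s : ℕ} {x : ℚ → Fin s → ℕ}

/-- the pattern property -/
def RPat (N : Col r K ℕ) (A : Set ℕ) (x : ℚ → Fin s → ℕ) : Prop :=
  ∀ t t' : Fin r → ℕ ⊕ (ℚ × Fin s), (∀ j a, t j = Sum.inl a → a ∈ A ∧ t' j = Sum.inl a) →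
      (∀ j p c, t j = Sum.inr (p, c) → ∃ p', t' j = Sum.inr (p', c)) →
      (∀ j j' p c p' c' k d k' d', t j = Sum.inr (p, c) → t j' = Sum.inr (p', c') →
        t' j = Sum.inr (k, d) → t' j' = Sum.inr (k', d') → (p < p' ↔ k < k')) →
      N (fun j => Sum.elim id (fun p => x p.1 p.2) (t j)) =
        N (fun j => Sum.elim id (fun p => x p.1 p.2) (t' j))

theorem rat_hom (inj : ∀ p q c d, x p c = x q d → p = q ∧ c = d) (notA : ∀ p c, x p c ∉ A)
    (pat : RPat N A x) : Hom N A (fun i : ℕ => x (i : ℚ)) := by
  refine ⟨fun i j c d h => ?_, fun i c => notA _ _, fun φ hφ t ht => ?_⟩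
  · obtain ⟨h1, h2⟩ := inj _ _ _ _ h
    exact ⟨by exact_mod_cast h1, h2⟩
  · have h := pat (fun j => Sum.map id (fun p : ℕ × Fin s => ((p.1 : ℚ), p.2)) (t j))
      (fun j => Sum.map id (fun p : ℕ × Fin s => ((φ p.1 : ℚ), p.2)) (t j)) ?_ ?_ ?_
    · refine Eq.trans ?_ (h.symm.trans ?_)
      · congr 1
        funext j
        rcases t j with a | p <;> rfl
      · congr 1
        funext j
        rcases t j with a | p <;> rfl
    · intro j a hj
      rcases htj : t j with b | p
      · simp only [htj, Sum.map_inl, id, Sum.inl.injEq] at hj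
        refine ⟨hj ▸ ht j b htj, ?_⟩
        simp [hj]
      · simp [htj] at hj
    · intro j p c hj
      rcases htj : t j with b | q
      · simp [htj] at hj
      · simp only [htj, Sum.map_inr, Sum.inr.injEq, Prod.mk.injEq] at hj
        exact ⟨(φ q.1 : ℚ), congrArg Sum.inr (Prod.ext rfl hj.2)⟩
    · intro j j' p c p' c' k d k' d' h1 h2 h3 h4
      rcases htj : t j with b | q
      · simp [htj] at h1
      · rcases htj' : t j' with b' | q'
        · simp [htj'] at h2
        · simp only [htj, Sum.map_inr, Sum.inr.injEq, Prod.mk.injEq] at h1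
          simp only [htj', Sum.map_inr, Sum.inr.injEq, Prod.mk.injEq] at h2
          simp only [htj, Sum.map_inr, Sum.inr.injEq, Prod.mk.injEq] at h3
          simp only [htj', Sum.map_inr, Sum.inr.injEq, Prod.mk.injEq] at h4
          rw [← h1.1, ← h2.1, ← h3.1, ← h4.1]
          have := hφ.lt_iff_lt (a := q.1) (b := q'.1)
          exact_mod_cast this.symm

/-- the frame: `A` and the cells `-r, …, -1` and `2, …, r + 1` -/
def Fm (r : ℕ) (A : Set ℕ) (x : ℚ → Fin s → ℕ) : Set ℕ :=
  A ∪ {y | ∃ (i : Fin r) (c : Fin s), y = x (-(r : ℚ) + (i : ℕ)) c ∨ y = x (2 + (i : ℕ)) c}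

theorem Fm_finite (hA : A.Finite) : (Fm r A x).Finite := by
  refine hA.union ?_
  have h1 : (range (fun p : Fin r × Fin s => x (-(r : ℚ) + (p.1 : ℕ)) p.2)).Finite :=
    Set.finite_range _
  have h2 : (range (fun p : Fin r × Fin s => x (2 + (p.1 : ℕ)) p.2)).Finite :=
    Set.finite_range _
  refine (h1.union h2).subset ?_
  rintro y ⟨i, c, h | h⟩
  · exact Or.inl ⟨(i, c), h.symm⟩
  · exact Or.inr ⟨(i, c), h.symm⟩

/-- translation into configurations -/
theorem teq_of_col [NeZero r] (pat : RPat N A x) (w w' : κ → ℚ × Fin s) (z z' : κ → ℕ × Fin s)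
    (h1 : ∀ k, (z k).2 = (w k).2) (h1' : ∀ k, (z' k).2 = (w' k).2)
    (h2 : ∀ k k', (z k).1 < (z k').1 ↔ (w k).1 < (w k').1)
    (h2' : ∀ k k', (z' k).1 < (z' k').1 ↔ (w' k).1 < (w' k').1)
    (h3 : ∀ k, 0 < (w k).1 ∧ (w k).1 < 1) (h3' : ∀ k, 0 < (w' k).1 ∧ (w' k).1 < 1)
    (hcol : ∀ t : Fin r → ℕ ⊕ κ, (∀ j a, t j = Sum.inl a → a ∈ Fm r A x) →
      N (fun j => Sum.elim id (fun k => x (w k).1 (w k).2) (t j)) =
        N (fun j => Sum.elim id (fun k => x (w' k).1 (w' k).2) (t j))) :
    Teq N A (fun i : ℕ => x (i : ℚ)) z z' := by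
  intro f b b' hfb hfb' hz hz' t ht
  obtain ⟨u, hu⟩ := exists_front t
  obtain ⟨v, hv⟩ := exists_front (κ := κ) (fun j => (Sum.elim Sum.inl (Sum.elim (fun _ => Sum.inl 0)
    (Sum.elim (fun _ => Sum.inl 0) (fun p => Sum.inr (Sum.inl p)))) (t j) :
      ℕ ⊕ ((ℕ × Fin s) ⊕ (κ ⊕ (ℕ × Fin s)))))
  have hv' : ∀ j j' p p', t j = Sum.inr (Sum.inr (Sum.inr p)) →
      t j' = Sum.inr (Sum.inr (Sum.inr p')) → (p.1 < p'.1 ↔ v p.1 < v p'.1) := by
    intro j j' p p' hj hj'
    refine hv j j' p p' ?_ ?_
    · simp only [hj, Sum.elim_inr]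
    · simp only [hj', Sum.elim_inr]
  -- the general statement
  have key : ∀ (w : κ → ℚ × Fin s) (z : κ → ℕ × Fin s) (b : ℕ), (∀ k, (z k).2 = (w k).2) →
      (∀ k k', (z k).1 < (z k').1 ↔ (w k).1 < (w k').1) → (∀ k, 0 < (w k).1 ∧ (w k).1 < 1) →
      f ≤ b → (∀ k, f + (z k).1 < b) →
      N (fun j => pl (fun i : ℕ => x (i : ℚ)) f b z (t j)) =
        N (fun j => Sum.elim id (fun p : ℚ × Fin s => x p.1 p.2)
          (Sum.elim Sum.inl (Sum.elim (fun p => Sum.inr (-(r : ℚ) + (u p.1 : ℕ), p.2))
            (Sum.elim (fun k => Sum.inr (w k))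
              (fun p => Sum.inr (2 + ((v p.1 : ℕ) : ℚ), p.2)))) (t j))) := by
    intro w z b h1 h2 h3 hfb hz
    have e1 : ∀ y, pl (fun i : ℕ => x (i : ℚ)) f b z y =
        Sum.elim id (fun p : ℚ × Fin s => x p.1 p.2)
          (Sum.elim Sum.inl (Sum.elim (fun p => Sum.inr ((p.1 : ℚ), p.2))
            (Sum.elim (fun k => Sum.inr (((f + (z k).1 : ℕ) : ℚ), (z k).2))
              (fun p => Sum.inr (((b + p.1 : ℕ) : ℚ), p.2)))) y) := by
      rintro (a | p | k | p) <;> rfl
    have e2 : (fun j => pl (fun i : ℕ => x (i : ℚ)) f b z (t j)) =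
      (fun j => Sum.elim id (fun p : ℚ × Fin s => x p.1 p.2)
          (Sum.elim Sum.inl (Sum.elim (fun p => Sum.inr ((p.1 : ℚ), p.2))
            (Sum.elim (fun k => Sum.inr (((f + (z k).1 : ℕ) : ℚ), (z k).2))
              (fun p => Sum.inr (((b + p.1 : ℕ) : ℚ), p.2)))) (t j))) := by
      funext j
      exact e1 _
    rw [e2]
    apply pat
    · intro j a hj
      rcases htj : t j with a' | p | k | p
      · rw [htj] at hj
        simp only [Sum.elim_inl, Sum.inl.injEq] at hj
        subst hj
        exact ⟨ht.1 j _ htj, rfl⟩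
      · rw [htj] at hj
        simp at hj
      · rw [htj] at hj
        simp at hj
      · rw [htj] at hj
        simp at hj
    · intro j q c hj
      rcases htj : t j with a' | p | k | p
      · rw [htj] at hj
        simp at hj
      · rw [htj] at hj
        simp only [Sum.elim_inr, Sum.elim_inl, Sum.inr.injEq, Prod.mk.injEq] at hj
        exact ⟨-(r : ℚ) + (u p.1 : ℕ), congrArg Sum.inr (Prod.ext rfl hj.2)⟩
      · rw [htj] at hj
        simp only [Sum.elim_inr, Sum.elim_inl, Sum.inr.injEq, Prod.mk.injEq] at hj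
        refine ⟨(w k).1, ?_⟩
        simp only [Sum.elim_inr, Sum.elim_inl, Sum.inr.injEq]
        refine Prod.ext rfl ?_
        rw [← h1 k]
        exact hj.2
      · rw [htj] at hj
        simp only [Sum.elim_inr, Sum.inr.injEq, Prod.mk.injEq] at hj
        exact ⟨2 + ((v p.1 : ℕ) : ℚ), congrArg Sum.inr (Prod.ext rfl hj.2)⟩
    · intro j j' p c p' c' k d k' d' g1 g2 g3 g4
      have hu0 : ∀ n, -(r : ℚ) + ((u n : ℕ) : ℚ) < 0 := by
        intro n
        have : ((u n : ℕ) : ℚ) < (r : ℚ) := by exact_mod_cast (u n).2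
        linarith
      have hv0 : ∀ n, (2 : ℚ) ≤ 2 + ((v n : ℕ) : ℚ) := by
        intro n
        have : (0 : ℚ) ≤ ((v n : ℕ) : ℚ) := by positivity
        linarith
      rcases htj : t j with a | q | l | q <;> rw [htj] at g1 g3 <;>
        simp only [Sum.elim_inl, Sum.elim_inr, Sum.inr.injEq, Prod.mk.injEq, reduceCtorEq]
          at g1 g3 <;>
      rcases htj' : t j' with a' | q' | l' | q' <;> rw [htj'] at g2 g4 <;>
        simp only [Sum.elim_inl, Sum.elim_inr, Sum.inr.injEq, Prod.mk.injEq, reduceCtorEq]
          at g2 g4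
      · -- front, front
        rw [← g1.1, ← g2.1, ← g3.1, ← g4.1]
        have := hu j j' q q' htj htj'
        have h5 : (u q.1 < u q'.1) ↔ ((u q.1 : ℕ) < (u q'.1 : ℕ)) := Fin.lt_def
        rw [h5] at this
        constructor
        · intro h
          have h6 : q.1 < q'.1 := by exact_mod_cast h
          have h7 := this.1 h6
          have : ((u q.1 : ℕ) : ℚ) < ((u q'.1 : ℕ) : ℚ) := by exact_mod_cast h7
          linarith
        · intro h
          have h6 : ((u q.1 : ℕ) : ℚ) < ((u q'.1 : ℕ) : ℚ) := by linarith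
          have h7 : (u q.1 : ℕ) < (u q'.1 : ℕ) := by exact_mod_cast h6
          exact_mod_cast this.2 h7
      · -- front, middle
        have g4' : (w l').1 = k' := congrArg Prod.fst g4
        rw [← g1.1, ← g2.1, ← g3.1, ← g4']
        have hq := ht.2 j q htj
        have := hu0 q.1
        have := (h3 l').1
        constructor
        · intro _
          linarith
        · intro _
          exact_mod_cast (by omega : q.1 < f + (z l').1)
      · -- front, behind
        rw [← g1.1, ← g2.1, ← g3.1, ← g4.1]
        have hq := ht.2 j q htj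
        have := hu0 q.1
        have := hv0 q'.1
        constructor
        · intro _
          linarith
        · intro _
          exact_mod_cast (by omega : q.1 < b + q'.1)
      · -- middle, front
        have g3' : (w l).1 = k := congrArg Prod.fst g3
        rw [← g1.1, ← g2.1, ← g3', ← g4.1]
        have hq := ht.2 j' q' htj'
        have := hu0 q'.1
        have := (h3 l).1
        constructor
        · intro h
          have : f + (z l).1 < q'.1 := by exact_mod_cast h
          omega
        · intro _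
          linarith
      · -- middle, middle
        have g3' : (w l).1 = k := congrArg Prod.fst g3
        have g4' : (w l').1 = k' := congrArg Prod.fst g4
        rw [← g1.1, ← g2.1, ← g3', ← g4', ← h2 l l']
        constructor
        · intro h
          have : f + (z l).1 < f + (z l').1 := by exact_mod_cast h
          omega
        · intro h
          exact_mod_cast (by omega : f + (z l).1 < f + (z l').1)
      · -- middle, behind
        have g3' : (w l).1 = k := congrArg Prod.fst g3
        rw [← g1.1, ← g2.1, ← g3', ← g4.1]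
        have := hv0 q'.1
        have := (h3 l).2
        have := hz l
        constructor
        · intro _
          linarith
        · intro _
          exact_mod_cast (by omega : f + (z l).1 < b + q'.1)
      · -- behind, front
        rw [← g1.1, ← g2.1, ← g3.1, ← g4.1]
        have hq := ht.2 j' q' htj'
        have := hu0 q'.1
        have := hv0 q.1
        constructor
        · intro h
          have : b + q.1 < q'.1 := by exact_mod_cast h
          omega
        · intro _
          linarith
      · -- behind, middle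
        have g4' : (w l').1 = k' := congrArg Prod.fst g4
        rw [← g1.1, ← g2.1, ← g3.1, ← g4']
        have := hv0 q.1
        have := (h3 l').2
        have := hz l'
        constructor
        · intro h
          have : b + q.1 < f + (z l').1 := by exact_mod_cast h
          omega
        · intro _
          linarith
      · -- behind, behind
        rw [← g1.1, ← g2.1, ← g3.1, ← g4.1]
        have := hv' j j' q q' htj htj'
        have h5 : (v q.1 < v q'.1) ↔ ((v q.1 : ℕ) < (v q'.1 : ℕ)) := Fin.lt_def
        rw [h5] at this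
        constructor
        · intro h
          have h6 : b + q.1 < b + q'.1 := by exact_mod_cast h
          have h7 := this.1 (by omega)
          have : ((v q.1 : ℕ) : ℚ) < ((v q'.1 : ℕ) : ℚ) := by exact_mod_cast h7
          linarith
        · intro h
          have h6 : ((v q.1 : ℕ) : ℚ) < ((v q'.1 : ℕ) : ℚ) := by linarith
          have h7 : (v q.1 : ℕ) < (v q'.1 : ℕ) := by exact_mod_cast h6
          have := this.2 h7
          exact_mod_cast (by omega : b + q.1 < b + q'.1)
  rw [key w z b h1 h2 h3 hfb hz, key w' z' b' h1' h2' h3' hfb' hz']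
  -- the colours over the frame
  have h5 := hcol (fun j => Sum.elim Sum.inl (Sum.elim
    (fun p => Sum.inl (x (-(r : ℚ) + (u p.1 : ℕ)) p.2))
      (Sum.elim Sum.inr (fun p => Sum.inl (x (2 + ((v p.1 : ℕ) : ℚ)) p.2)))) (t j)) ?_
  · refine Eq.trans ?_ (h5.trans ?_)
    · congr 1
      funext j
      rcases t j with a | p | k | p <;> rfl
    · congr 1
      funext j
      rcases t j with a | p | k | p <;> rfl
  · intro j a hj
    rcases htj : t j with a' | p | k | p
    · rw [htj] at hj
      simp only [Sum.elim_inl, Sum.inl.injEq] at hj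
      subst hj
      exact Or.inl (ht.1 j _ htj)
    · rw [htj] at hj
      simp only [Sum.elim_inl, Sum.elim_inr, Sum.inl.injEq] at hj
      subst hj
      exact Or.inr ⟨u p.1, p.2, Or.inl rfl⟩
    · rw [htj] at hj
      simp at hj
    · rw [htj] at hj
      simp only [Sum.elim_inr, Sum.inl.injEq] at hj
      subst hj
      exact Or.inr ⟨v p.1, p.2, Or.inr rfl⟩

/-- every finite configuration of rational positions can be translated -/
theorem exists_rank [Finite κ] (w : κ → ℚ × Fin s) :
    ∃ z : κ → ℕ × Fin s, (∀ k, (z k).2 = (w k).2) ∧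
      ∀ k k', (z k).1 < (z k').1 ↔ (w k).1 < (w k').1 := by
  classical
  let F := (Set.finite_range (fun k => (w k).1)).toFinset
  have hF : ∀ k, (w k).1 ∈ F := fun k => by simp [F]
  refine ⟨fun k => ((F.filter (· < (w k).1)).card, (w k).2), fun _ => rfl, fun k k' => ?_⟩
  have hmono : ∀ k k', (w k).1 ≤ (w k').1 →
      (F.filter (· < (w k).1)).card ≤ (F.filter (· < (w k').1)).card := by
    intro k k' h
    apply Finset.card_le_card
    intro y hy
    rw [Finset.mem_filter] at hy ⊢
    exact ⟨hy.1, hy.2.trans_le h⟩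
  constructor
  · intro h
    by_contra hcon
    exact absurd (hmono k' k (not_lt.1 hcon)) (not_le.2 h)
  · intro h
    apply Finset.card_lt_card
    rw [Finset.ssubset_iff_of_subset]
    · refine ⟨(w k).1, ?_, ?_⟩
      · rw [Finset.mem_filter]
        exact ⟨hF k, h⟩
      · rw [Finset.mem_filter]
        exact fun h' => lt_irrefl _ h'.2
    · intro y hy
      rw [Finset.mem_filter] at hy ⊢
      exact ⟨hy.1, hy.2.trans h⟩

end Pool.H5.AB
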