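import Pool.Agent.H5.AB.Rat1

/-!
# A visible chain of cells of order type of the rationals makes a structure wild
-/

set_option autoImplicit false

namespace Pool.H5.AB

open Set Function Pool.H22.VC Pool.H17.TA

variable {r : ℕ} {K κ : Type} {N : Col r K ℕ} {A : Set ℕ} {s : ℕ} {x : ℚ → Fin s → ℕ}

/-- the substructure given by the set `P` of positions and the set `S` of letters -/
def RO (r : ℕ) (A : Set ℕ) (x : ℚ → Fin s → ℕ) (P : Set ℚ) (S : Set (Fin s)) : Set ℕ :=
  Fm r A x ∪ {y | ∃ q ∈ P, ∃ c ∈ S, y = x q c}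

/-- an isomorphism between two such substructures over the frame gives a bijection between the
cells -/
theorem rat_iso (inj : ∀ p q c d, x p c = x q d → p = q ∧ c = d) (notA : ∀ p c, x p c ∉ A)
    (P P' : Set ℚ) (hP : ∀ q ∈ P, 0 < q ∧ q < 1) (hP' : ∀ q ∈ P', 0 < q ∧ q < 1)
    (S : Set (Fin s)) (B : Finset ℕ) (hB : (B : Set ℕ) = Fm r A x)
    (h : IsoOn N B (RO r A x P S) (RO r A x P' S)) :
    ∃ G : P × S ≃ P' × S, ∀ (κ : Type) (w : κ → P × S) (t : Fin r → ℕ ⊕ κ),
      (∀ j a, t j = Sum.inl a → a ∈ Fm r A x) →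
      N (fun j => Sum.elim id (fun k => x (w k).1 (w k).2) (t j)) =
        N (fun j => Sum.elim id (fun k => x (G (w k)).1 (G (w k)).2) (t j)) := by
  classical
  obtain ⟨g, hg1, hg2⟩ := h
  have hB' : ∀ y, y ∈ B ↔ y ∈ Fm r A x := by
    intro y
    rw [← hB]
    exact Finset.mem_coe.symm
  have hnot : ∀ (q : ℚ) (c : Fin s), 0 < q ∧ q < 1 → x q c ∉ Fm r A x := by
    rintro q c ⟨hq1, hq2⟩ (h | ⟨i, d, h | h⟩)
    · exact notA _ _ h
    · have h1 := (inj _ _ _ _ h).1
      have : ((i : ℕ) : ℚ) < (r : ℚ) := by exact_mod_cast i.2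
      linarith
    · have h1 := (inj _ _ _ _ h).1
      have : (0 : ℚ) ≤ ((i : ℕ) : ℚ) := by positivity
      linarith
  have hinB : ∀ (P : Set ℚ) (y : ℕ), y ∈ B → y ∈ RO r A x P S := fun P y hy =>
    Or.inl ((hB' y).1 hy)
  have hfixsymm : ∀ (y : ℕ) (hy : y ∈ B),
      ((g.symm ⟨y, hinB P' y hy⟩ : RO r A x P S) : ℕ) = y := by
    intro y hy
    have h1 := hg1 ⟨y, hinB P y hy⟩ hy
    have h2 : g ⟨y, hinB P y hy⟩ = ⟨y, hinB P' y hy⟩ := Subtype.ext h1
    rw [← h2]
    simp
  -- general statement for `g` and for its inverse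
  have hfwd : ∀ p : P × S, ∃ p' : P' × S, ∀ hx : x p.1 p.2 ∈ RO r A x P S,
      (g ⟨x p.1 p.2, hx⟩ : ℕ) = x p'.1 p'.2 := by
    intro p
    have hx : x p.1 p.2 ∈ RO r A x P S := Or.inr ⟨p.1, p.1.2, p.2, p.2.2, rfl⟩
    have h1 := (g ⟨x p.1 p.2, hx⟩).2
    by_cases h2 : (g ⟨x p.1 p.2, hx⟩ : ℕ) ∈ B
    · exfalso
      have h3 := hfixsymm _ h2
      have h4 : (⟨(g ⟨x p.1 p.2, hx⟩ : ℕ), hinB P' _ h2⟩ : RO r A x P' S) =
        g ⟨x p.1 p.2, hx⟩ := Subtype.ext rfl
      rw [h4] at h3
      simp only [Equiv.symm_apply_apply] at h3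
      exact hnot _ _ (hP _ p.1.2) ((hB' _).1 (by rw [h3]; exact h2))
    · rcases h1 with h1 | ⟨q, hq, c, hc, h1⟩
      · exact absurd ((hB' _).2 h1) h2
      · exact ⟨(⟨q, hq⟩, ⟨c, hc⟩), fun _ => h1⟩
  have hbwd : ∀ p : P' × S, ∃ p' : P × S, ∀ hx : x p.1 p.2 ∈ RO r A x P' S,
      (g.symm ⟨x p.1 p.2, hx⟩ : ℕ) = x p'.1 p'.2 := by
    intro p
    have hx : x p.1 p.2 ∈ RO r A x P' S := Or.inr ⟨p.1, p.1.2, p.2, p.2.2, rfl⟩
    have h1 := (g.symm ⟨x p.1 p.2, hx⟩).2
    by_cases h2 : (g.symm ⟨x p.1 p.2, hx⟩ : ℕ) ∈ B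
    · exfalso
      have h3 := hg1 _ h2
      simp only [Equiv.apply_symm_apply] at h3
      exact hnot _ _ (hP' _ p.1.2) ((hB' _).1 (by rw [h3]; exact h2))
    · rcases h1 with h1 | ⟨q, hq, c, hc, h1⟩
      · exact absurd ((hB' _).2 h1) h2
      · exact ⟨(⟨q, hq⟩, ⟨c, hc⟩), fun _ => h1⟩
  choose F hF using hfwd
  choose F' hF' using hbwd
  have hmem : ∀ p : P × S, x p.1 p.2 ∈ RO r A x P S := fun p =>
    Or.inr ⟨p.1, p.1.2, p.2, p.2.2, rfl⟩
  have hmem' : ∀ p : P' × S, x p.1 p.2 ∈ RO r A x P' S := fun p =>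
    Or.inr ⟨p.1, p.1.2, p.2, p.2.2, rfl⟩
  have hinj' : ∀ (P : Set ℚ) (p q : P × S), x p.1 p.2 = x q.1 q.2 → p = q := by
    intro P p q hpq
    obtain ⟨h1, h2⟩ := inj _ _ _ _ hpq
    exact Prod.ext (Subtype.ext h1) (Subtype.ext h2)
  have hl : ∀ p, F' (F p) = p := by
    intro p
    apply hinj'
    rw [← hF' (F p) (hmem' _)]
    have h2 : (⟨x (F p).1 (F p).2, hmem' _⟩ : RO r A x P' S) = g ⟨x p.1 p.2, hmem p⟩ :=
      Subtype.ext (hF p (hmem p)).symm
    rw [h2]
    simp
  have hr : ∀ p, F (F' p) = p := by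
    intro p
    apply hinj'
    rw [← hF (F' p) (hmem _)]
    have h2 : (⟨x (F' p).1 (F' p).2, hmem _⟩ : RO r A x P S) =
      g.symm ⟨x p.1 p.2, hmem' p⟩ := Subtype.ext (hF' p (hmem' p)).symm
    rw [h2]
    simp
  refine ⟨⟨F, F', hl, hr⟩, fun κ w t ht => ?_⟩
  have hin : ∀ j, Sum.elim id (fun k => x (w k).1 (w k).2) (t j) ∈ RO r A x P S := by
    intro j
    rcases htj : t j with a | k
    · exact Or.inl (ht j a htj)
    · exact hmem _
  refine (hg2 (fun j => ⟨_, hin j⟩)).symm.trans ?_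
  congr 1
  funext j
  have key : ∀ (u : ℕ ⊕ κ), (∀ a, u = Sum.inl a → a ∈ Fm r A x) →
      ∀ h3 : Sum.elim id (fun k => x (w k).1 (w k).2) u ∈ RO r A x P S,
      (g ⟨_, h3⟩ : ℕ) = Sum.elim id (fun k => x (F (w k)).1 (F (w k)).2) u := by
    rintro (a | k) ha h3
    · exact hg1 ⟨a, h3⟩ ((hB' a).2 (ha a rfl))
    · exact hF (w k) h3
  exact key (t j) (fun a h => ht j a h) (hin j)

/-- NO RATIONAL CHAINS. `x q` (`q ∈ ℚ`) are disjoint labelled cells, outside the finite set `A`; the
colour of a tuple of points of `A` and of cells depends only on the order pattern of the indices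
(`pat`), and the swap of two cells is visible over `A` (`vis`). Then `N` is wild.
PROOF. `e i = x (i : ℚ)` is a homogeneous block sequence over `A` (`Hom N A e`, letters `Fin s`).
`vis` says that `id : Fin s → Fin s` does not commute with itself. By `c1'` there is a chain atom
`τ = res S id`, `S ⊆ Fin s`. Put `A' = A ∪ {x q c | q ∈ {-1, …, -r} ∪ {2, …, r + 1}}` and, for the
family `S s ⊆ ℚ` of `Pool.H63.PC.fam_rat` moved into the interval `(0, 1)` by an order embedding `h`,
`Ω s = A' ∪ {x (h q) c | q ∈ S s, c ∈ S}`. Let `g` be an isomorphism from `Ω s` to `Ω s'` over `A'`.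
For `q ∈ S s` the tuple `y c = g (x (h q) c)`, `c ∈ S`, has the same colours over `A'` as the tuple
`x (h q) c`; it consists of points `x (h (q' c)) (c' c)`. Let `z c = (n c, c' c)` with `n c` natural
numbers in the order of the `q' c`. Then `Teq N A e z (blk 0 τ)`: a context uses at most `r` blocks in
front and at most `r` behind; by `pat` they may be replaced by the cells `-r, …, -1` and
`2, …, r + 1`. By `CA.inblk` all `n c` are equal: `g` maps the cell of `q` into the cell of one `q' =: ν q`,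
so onto it (the cells have the same finite number of points). The same for the inverse of `g`; so `ν`
is a bijection from `S s` to `S s'`. `ν` is strictly increasing: if `p < q` and `ν q < ν p` then the pair
of tuples `(x (h p), x (h q))` has the type of `((0, τ), (1, τ))` and also the type of
`((1, τ₁), (0, τ₂))`, where `τ₁`, `τ₂` have the type of `τ` (they are `τ` with permuted labels); so
`Perp N A e τ₁ τ₂`-like equality gives `Perp N A e τ τ` (`Perp.congr`), contradiction. By `fam_rat`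
`s = s'`. So `N` is wild (`Ω s` is infinite and `x ∈ Ω s` is a clopen condition on `s`). -/
theorem no_rat_chain {r : ℕ} {K : Type} (N : Col r K ℕ) (hW : ¬ Wild N univ) (A : Set ℕ)
    (hA : A.Finite) (s : ℕ) (x : ℚ → Fin s → ℕ)
    (inj : ∀ p q c d, x p c = x q d → p = q ∧ c = d) (notA : ∀ p c, x p c ∉ A)
    (pat : ∀ t t' : Fin r → ℕ ⊕ (ℚ × Fin s), (∀ j a, t j = Sum.inl a → a ∈ A ∧ t' j = Sum.inl a) →
      (∀ j p c, t j = Sum.inr (p, c) → ∃ p', t' j = Sum.inr (p', c)) →
      (∀ j j' p c p' c' k d k' d', t j = Sum.inr (p, c) → t j' = Sum.inr (p', c') →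
        t' j = Sum.inr (k, d) → t' j' = Sum.inr (k', d') → (p < p' ↔ k < k')) →
      N (fun j => Sum.elim id (fun p => x p.1 p.2) (t j)) =
        N (fun j => Sum.elim id (fun p => x p.1 p.2) (t' j)))
    (vis : ∃ t : Fin r → ℕ ⊕ (Bool × Fin s), (∀ j a, t j = Sum.inl a → a ∈ A) ∧
      N (fun j => Sum.elim id (fun p => x (if p.1 then 1 else 0) p.2) (t j)) ≠
        N (fun j => Sum.elim id (fun p => x (if p.1 then 0 else 1) p.2) (t j))) : False := by
  classical
  have hH := rat_hom inj notA pat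
  -- `r` is not zero
  rcases Nat.eq_zero_or_pos r with hr0 | hr0
  · subst hr0
    obtain ⟨t, -, ht⟩ := vis
    exact ht (congrArg N (funext fun j => j.elim0))
  haveI : NeZero r := ⟨hr0.ne'⟩
  -- the blocks do not commute
  have hn : ¬ Perp N A (fun i : ℕ => x (i : ℚ)) (id : Fin s → Fin s) (id : Fin s → Fin s) := by
    intro hp
    obtain ⟨t, htA, ht⟩ := vis
    apply ht
    have h1 := hp 0 2 2 (by omega) (by omega) ?_ ?_
      (fun j => Sum.map id (fun p : Bool × Fin s => (Sum.inr (Sum.inl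
        (if p.1 then Sum.inr p.2 else Sum.inl p.2)) :
          (ℕ × Fin s) ⊕ ((Fin s ⊕ Fin s) ⊕ (ℕ × Fin s)))) (t j)) ⟨?_, ?_⟩
    · refine Eq.trans ?_ (h1.trans ?_)
      · congr 1
        funext j
        rcases htj : t j with a | ⟨b, c⟩
        · rfl
        · cases b <;> simp [pl, blk]
      · congr 1
        funext j
        rcases htj : t j with a | ⟨b, c⟩
        · rfl
        · cases b <;> simp [pl, blk]
    · rintro (k | k) <;> simp [blk]
    · rintro (k | k) <;> simp [blk]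
    · intro j a hj
      beta_reduce at hj
      rcases htj : t j with b | p
      · rw [htj] at hj
        simp only [Sum.map_inl, id, Sum.inl.injEq] at hj
        exact hj ▸ htA j b htj
      · rw [htj] at hj
        simp at hj
    · intro j p hj
      beta_reduce at hj
      rcases htj : t j with b | q
      · rw [htj] at hj
        simp at hj
      · rw [htj] at hj
        simp at hj
  obtain ⟨S, -, hτ, -, -⟩ := c1' hW hH hA injective_id injective_id hn
  obtain ⟨c₀⟩ := hτ.nonempty hH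
  -- the family
  obtain ⟨F, hF1, hF2, hF3⟩ := Pool.H63.PC.fam_rat
  haveI : Nontrivial (Set.Ioo (0 : ℚ) 1) :=
    ⟨⟨⟨1 / 2, by norm_num⟩, ⟨1 / 3, by norm_num⟩, by
      intro h
      have := congrArg Subtype.val h
      norm_num at this⟩⟩
  obtain ⟨h⟩ := Order.embedding_from_countable_to_dense ℚ (Set.Ioo (0 : ℚ) 1)
  have hh : ∀ q, 0 < ((h q : Set.Ioo (0 : ℚ) 1) : ℚ) ∧ ((h q : Set.Ioo (0 : ℚ) 1) : ℚ) < 1 :=
    fun q => (h q).2
  let P : (ℕ → Bool) → Set ℚ := fun σ => (fun q => ((h q : Set.Ioo (0 : ℚ) 1) : ℚ)) '' F σ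
  have hP : ∀ σ, ∀ q ∈ P σ, 0 < q ∧ q < 1 := by
    rintro σ _ ⟨q, _, rfl⟩
    exact hh q
  have hfinF := Fm_finite (r := r) (x := x) hA
  apply hW
  refine ⟨hfinF.toFinset, fun σ => RO r A x (P σ) S, ?_, ?_, ?_, ?_, ?_⟩
  · intro σ y hy
    exact Or.inl (hfinF.mem_toFinset.1 hy)
  · intro σ
    exact subset_univ _
  · intro σ
    have h1 : Set.InjOn (fun q : ℚ => x ((h q : Set.Ioo (0 : ℚ) 1) : ℚ) c₀) (F σ) := by
      intro p _ q _ hpq
      have h2 := (inj _ _ _ _ hpq).1
      exact h.injective (Subtype.ext h2)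
    refine ((hF1 σ).image h1).mono ?_
    rintro _ ⟨q, hq, rfl⟩
    exact Or.inr ⟨_, ⟨q, hq, rfl⟩, c₀, c₀.2, rfl⟩
  · intro y
    by_cases hy : ∃ (q : ℚ) (c : Fin s), c ∈ S ∧ y = x ((h q : Set.Ioo (0 : ℚ) 1) : ℚ) c
    · obtain ⟨q, c, hc, rfl⟩ := hy
      by_cases hyF : x ((h q : Set.Ioo (0 : ℚ) 1) : ℚ) c ∈ Fm r A x
      · have : {σ : ℕ → Bool | x ((h q : Set.Ioo (0 : ℚ) 1) : ℚ) c ∈ RO r A x (P σ) S} =
          univ := by
          ext σ
          exact ⟨fun _ => trivial, fun _ => Or.inl hyF⟩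
        rw [this]
        exact isClopen_univ
      · obtain ⟨i, hi⟩ := hF2 q
        have h1 : {σ : ℕ → Bool | x ((h q : Set.Ioo (0 : ℚ) 1) : ℚ) c ∈ RO r A x (P σ) S} =
            (fun σ : ℕ → Bool => σ i) ⁻¹' {b | q ∈ F (fun _ => b)} := by
          ext σ
          have h2 : q ∈ F σ ↔ q ∈ F (fun _ => σ i) := hi _ _ rfl
          show _ ↔ q ∈ F (fun _ => σ i)
          rw [← h2]
          constructor
          · rintro (h3 | ⟨q', ⟨q'', hq'', rfl⟩, c', _, h3⟩)
            · exact absurd h3 hyF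
            · have h4 := (inj _ _ _ _ h3).1
              have h5 : q = q'' := h.injective (Subtype.ext h4)
              rw [h5]
              exact hq''
          · intro h3
            exact Or.inr ⟨_, ⟨q, h3, rfl⟩, c, hc, rfl⟩
        rw [h1]
        exact (isClopen_discrete _).preimage (continuous_apply i)
    · by_cases hyF : y ∈ Fm r A x
      · have : {σ : ℕ → Bool | y ∈ RO r A x (P σ) S} = univ := by
          ext σ
          exact ⟨fun _ => trivial, fun _ => Or.inl hyF⟩
        rw [this]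
        exact isClopen_univ
      · have : {σ : ℕ → Bool | y ∈ RO r A x (P σ) S} = ∅ := by
          ext σ
          refine ⟨?_, fun h => h.elim⟩
          rintro (h3 | ⟨q', ⟨q'', hq'', rfl⟩, c', hc', h3⟩)
          · exact hyF h3
          · exact hy ⟨q'', c', hc', h3⟩
        rw [this]
        exact isClopen_empty
  · intro σ σ' hiso
    apply hF3
    obtain ⟨G, hG⟩ := rat_iso inj notA (P σ) (P σ') (hP σ) (hP σ') S hfinF.toFinset
      (hfinF.coe_toFinset) hiso
    -- types are preserved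
    have hT : ∀ (κ : Type) [Finite κ] (w : κ → P σ × S) (z z' : κ → ℕ × Fin s),
        (∀ k, (z k).2 = (w k).2) → (∀ k, (z' k).2 = (G (w k)).2) →
        (∀ k k', (z k).1 < (z k').1 ↔ (w k).1 < (w k').1) →
        (∀ k k', (z' k).1 < (z' k').1 ↔ (G (w k)).1 < (G (w k')).1) →
        Teq N A (fun i : ℕ => x (i : ℚ)) z z' := by
      intro κ _ w z z' h1 h1' h2 h2'
      refine teq_of_col pat (fun k => (((w k).1 : ℚ), ((w k).2 : Fin s)))
        (fun k => (((G (w k)).1 : ℚ), ((G (w k)).2 : Fin s))) z z' h1 h1' h2 h2'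
        (fun k => hP σ _ (w k).1.2) (fun k => hP σ' _ (G (w k)).1.2) (fun t ht => ?_)
      exact hG κ w t ht
    -- cells go to cells
    have hcell : ∀ (q : P σ) (c d : S), (G (q, c)).1 = (G (q, d)).1 := by
      intro q c d
      obtain ⟨z', hz1, hz2⟩ := exists_rank (fun k : S =>
        (((G (q, k)).1 : ℚ), ((G (q, k)).2 : Fin s)))
      have h1 := hT S (fun k => (q, k)) (blk 0 (res S id)) z' (fun k => rfl) hz1
        (fun k k' => by simp [blk]) hz2
      have h2 := hτ.inblk hH z' h1.symm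
      have h3 := h2 c d
      by_contra hne
      rcases lt_or_gt_of_ne hne with h4 | h4
      · have := (hz2 c d).2 h4
        omega
      · have := (hz2 d c).2 h4
        omega
    let ν : P σ → P σ' := fun q => (G (q, c₀)).1
    have hν : ∀ q c, (G (q, c)).1 = ν q := fun q c => hcell q c c₀
    -- onto each cell
    have honto : ∀ q (d : S), ∃ c : S, G (q, c) = (ν q, d) := by
      intro q
      have hi : Injective (fun c : S => (G (q, c)).2) := by
        intro c d hcd
        have : G (q, c) = G (q, d) := Prod.ext (hcell q c d) hcd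
        have := G.injective this
        exact (Prod.mk.inj this).2
      intro d
      obtain ⟨c, hc⟩ := (Finite.injective_iff_surjective.1 hi) d
      exact ⟨c, Prod.ext (hν q c) hc⟩
    have hνinj : Injective ν := by
      intro p q hpq
      obtain ⟨c, hc⟩ := honto p (G (q, c₀)).2
      have h1 : G (p, c) = G (q, c₀) := by
        rw [hc]
        exact Prod.ext hpq rfl
      exact (Prod.mk.inj (G.injective h1)).1
    have hνsurj : Surjective ν := by
      intro q'
      obtain ⟨⟨q, c⟩, hqc⟩ := G.surjective (q', c₀)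
      refine ⟨q, ?_⟩
      rw [← hν q c, hqc]
    have hνmono : StrictMono ν := by
      intro p q hpq
      by_contra hcon
      have hne : ν p ≠ ν q := fun h => hpq.ne (hνinj h)
      have hlt : ν q < ν p := lt_of_le_of_ne (not_lt.1 hcon) hne.symm
      apply hτ.nperp
      let τ₁ : S → Fin s := fun c => ((G (p, c)).2 : Fin s)
      let τ₂ : S → Fin s := fun c => ((G (q, c)).2 : Fin s)
      have h1 := hT (S ⊕ S) (Sum.elim (fun c => (p, c)) (fun c => (q, c)))
        (Sum.elim (blk 0 (res S id)) (blk 1 (res S id))) (Sum.elim (blk 1 τ₁) (blk 0 τ₂))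
        (by rintro (k | k) <;> rfl) (by rintro (k | k) <;> rfl)
        (by
          rintro (k | k) (k' | k')
          · simp [blk]
          · simpa [blk] using hpq
          · simpa [blk] using hpq.le
          · simp [blk])
        (by
          rintro (k | k) (k' | k')
          · simp [blk, hν]
          · simpa [blk, hν] using hlt.le
          · simpa [blk, hν] using hlt
          · simp [blk, hν])
      have h2 : Teq N A (fun i : ℕ => x (i : ℚ)) (blk 0 (res S id)) (blk 1 τ₁) :=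
        h1.comp hH Sum.inl
      have h3 : Teq N A (fun i : ℕ => x (i : ℚ)) (blk 1 (res S id)) (blk 0 τ₂) :=
        h1.comp hH Sum.inr
      have h4 : Teq N A (fun i : ℕ => x (i : ℚ)) (Sum.elim (blk 1 τ₁) (blk 0 τ₂))
          (Sum.elim (blk 1 (res S id)) (blk 0 (res S id))) :=
        cp_front hH (h2.symm.trans (teq_blk hH 0 1 _)) (h3.symm.trans (teq_blk hH 1 0 _))
          (fun _ _ => Nat.zero_lt_one) (fun _ _ => Nat.zero_lt_one)
      exact h1.trans h4
    let ν' : P σ ≃o P σ' := hνmono.orderIsoOfSurjective ν hνsurj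
    have hFP : ∀ σ, Nonempty (F σ ≃o P σ) := by
      intro σ
      have hm : StrictMonoOn (fun q => ((h q : Set.Ioo (0 : ℚ) 1) : ℚ)) (F σ) := by
        intro p _ q _ hpq
        exact h.strictMono hpq
      exact ⟨hm.orderIso _ _⟩
    obtain ⟨e1⟩ := hFP σ
    obtain ⟨e2⟩ := hFP σ'
    exact ⟨(e1.trans ν').trans e2.symm⟩

end Pool.H5.AB
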