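import Pool.Agent.H5.AB.Cl
import Pool.Agent.H5.AB.LsLab

/-!
# Recognition of the order and of the labels
-/

set_option autoImplicit false

namespace Pool.H5.AB

open Set Ordinal Pool.H62.VT

variable {a : ℕ → ℕ} {I : Type} {M : Str a} {E E' : Set ℕ} {m c r : ℕ} [LinearOrder I]
  {kd : I → ℕ} {sz : ℕ → ℕ} {x : I → ℕ → ℕ} {Rn : Finset I} {k a0 b0 m0 : ℕ}

/-- parameters for the recognition of the cells of kind `k` -/
structure KP (M : Str a) (kd : I → ℕ) (sz : ℕ → ℕ) (x : I → ℕ → ℕ) (k r a0 b0 m0 : ℕ)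
    (F : Set ℕ) (T T' Z : Finset (Lk kd k)) : Prop where
  fin : F.Finite
  sub : F ⊆ Rs kd sz x k
  vs : ¬ GQ (Qi (QL M F kd sz x k)) (a0 + b0 + 2) (sw a0)
  rot : ¬ GQ (Qi (QL M F kd sz x k)) m0 (rl m0)
  lab : ∀ g, GQL (QL M F kd sz x k) (r + r + 1) (fun i => i) (lab1 r g) → GdL M kd sz x k g
  top : ∀ t ∈ T, ∀ y, t < y → y ∈ T
  bot : ∀ t ∈ T', ∀ y, y < t → y ∈ T'
  up : ∀ X : Finset (Lk kd k), ∃ W : Finset (Lk kd k),
    fN a0 b0 (lN a0 b0 r (Nat.card (Equiv.Perm (Fin (sz k))))) ≤ W.card ∧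
      ∀ w ∈ W, ∀ y ∈ X, y ∉ T → y < w
  dn : ∀ X : Finset (Lk kd k), ∃ W : Finset (Lk kd k),
    fN a0 b0 (lN a0 b0 r (Nat.card (Equiv.Perm (Fin (sz k))))) ≤ W.card ∧
      ∀ w ∈ W, ∀ y ∈ X, y ∉ T' → w < y
  zT : ∀ z ∈ Z, z ∉ T ∧ z ∉ T'
  cz : fA a0 b0 m0 ≤ Z.card
  cz2 : 2 * r + 2 ≤ Z.card

/-- the target and the label change are determined -/
theorem mvL_unique (hF : FF M Rn E E' m c kd sz x) {P : Pos} (hP : PI M M P) {u v v' : Lk kd k}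
    {g g' : Equiv.Perm (Fin (sz k))} (h : mvL x u.1 v.1 g ⊆ P) (h' : mvL x u.1 v'.1 g' ⊆ P) :
    v = v' ∧ g = g' := by
  have key : ∀ d : Fin (sz k), v.1 = v'.1 ∧ (g d : ℕ) = g' d := by
    intro d
    have h1 : x v.1 (g d) = x v'.1 (g' d) := (hP.2 _ (h ⟨d, rfl⟩) _ (h' ⟨d, rfl⟩)).1 rfl
    exact hF.inj _ _ _ _ (by rw [v.2]; exact (g d).2) (by rw [v'.2]; exact (g' d).2) h1
      (Or.inl (v.2.trans v'.2.symm))
  exact ⟨Subtype.ext (key ⟨0, hF.pos k⟩).1, Equiv.ext fun d => Fin.ext (key d).2⟩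

/-- the source is determined -/
theorem mvL_inj (hF : FF M Rn E E' m c kd sz x) {P : Pos} (hP : PI M M P) {u u' v : Lk kd k}
    {g g' : Equiv.Perm (Fin (sz k))} (h : mvL x u.1 v.1 g ⊆ P) (h' : mvL x u'.1 v.1 g' ⊆ P) :
    u = u' := by
  have h1 : (x u.1 (g⁻¹ (⟨0, hF.pos k⟩ : Fin (sz k)) : Fin (sz k)), x v.1 0) ∈ P :=
    h ⟨g⁻¹ ⟨0, hF.pos k⟩, by simp⟩
  have h2 : (x u'.1 (g'⁻¹ (⟨0, hF.pos k⟩ : Fin (sz k)) : Fin (sz k)), x v.1 0) ∈ P :=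
    h' ⟨g'⁻¹ ⟨0, hF.pos k⟩, by simp⟩
  have h3 := (hP.2 _ h1 _ h2).2 rfl
  exact Subtype.ext (hF.inj _ _ _ _ (by rw [u.2]; exact Fin.isLt _)
    (by rw [u'.2]; exact Fin.isLt _) h3 (Or.inl (u.2.trans u'.2.symm))).1

/-- a cell matched at level `m` is matched with a cell -/
theorem cell_reco (hF : FF M Rn E E' m c kd sz x) {P : Pos} (hB : BF M univ M univ m P)
    (hE : idOn E' ⊆ P) (u : Lk kd k) (hu : ∀ d < sz k, ∃ y, (x u.1 d, y) ∈ P) :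
    ∃ (v : Lk kd k) (g : Equiv.Perm (Fin (sz k))), mvL x u.1 v.1 g ⊆ P := by
  have h1 : ∀ d : ℕ, ∃ y, d < sz k → (x u.1 d, y) ∈ P := by
    intro d
    by_cases hd : d < sz k
    · obtain ⟨y, hy⟩ := hu d hd
      exact ⟨y, fun _ => hy⟩
    · exact ⟨0, fun h => absurd h hd⟩
  choose q hq using h1
  obtain ⟨i', hi', hset⟩ := hF.reco u.1 q (hB.mono (by
    rintro p (hp | ⟨d, hd, rfl⟩)
    · exact hE hp
    · rw [u.2] at hd
      exact hq d hd))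
  rw [u.2] at hset hi'
  have h2 : ∀ d : Fin (sz k), ∃ d' : Fin (sz k), x i' d' = q d := by
    intro d
    obtain ⟨d', hd', h⟩ := (hset (q d)).1 ⟨d, d.2, rfl⟩
    exact ⟨⟨d', hd'⟩, h⟩
  choose g0 hg0 using h2
  have hinj : Function.Injective g0 := by
    intro d e hde
    have h3 : q d = q e := by rw [← hg0, ← hg0, hde]
    have h4 := (hB.pi.2 _ (hq d d.2) _ (hq e e.2)).2 h3
    exact Fin.ext (hF.inj _ _ _ _ (by rw [u.2]; exact d.2) (by rw [u.2]; exact e.2) h4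
      (Or.inl rfl)).2
  refine ⟨⟨i', hi'⟩, Equiv.ofBijective g0 (Finite.injective_iff_bijective.1 hinj), ?_⟩
  rintro _ ⟨d, rfl⟩
  have h5 := hq d d.2
  rw [← hg0 d] at h5
  exact h5

/-- RECOGNITION. -/
theorem recog (hF : FF M Rn E E' m c kd sz x) (hk : k < c) {F : Set ℕ} {T T' Z : Finset (Lk kd k)}
    (hK : KP M kd sz x k r a0 b0 m0 F T T' Z) {P : Pos} (hB : BF M univ M univ ω P)
    (hE : idOn E' ⊆ P) (hFP : idOn F ⊆ P) (Nm : Finset (Lk kd k))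
    (hT : T ⊆ Nm) (hT' : T' ⊆ Nm) (hZ : Z ⊆ Nm)
    (hNm : ∀ n ∈ Nm, mvL x n.1 n.1 (1 : Equiv.Perm (Fin (sz k))) ⊆ P) (U : Finset (Lk kd k))
    (φ : Lk kd k → Lk kd k) (γ : Lk kd k → Equiv.Perm (Fin (sz k)))
    (hU : ∀ u ∈ U, mvL x u.1 (φ u).1 (γ u) ⊆ P) (hUN : ∀ u ∈ U, u ∉ Nm) :
    (∀ u ∈ U, ∀ v ∈ U, u < v → φ u < φ v) ∧ (∀ u ∈ U, ∀ n ∈ Nm, (n < u ↔ n < φ u)) ∧
      (∀ u ∈ U, φ u ∉ Nm) ∧ ∀ u ∈ U, GdL M kd sz x k (γ u) := by
  classical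
  have hinf : Infinite (Lk kd k) := (hF.inf k hk).to_subtype
  have hφN : ∀ u ∈ U, φ u ∉ Nm := by
    intro u hu hn
    have := mvL_inj hF hB.pi (hU u hu) (hNm _ hn)
    rw [← this] at hn
    exact hUN u hu hn
  obtain ⟨z0, hz0⟩ : ∃ z0, z0 ∈ Z := by
    have : 0 < Z.card := by
      have := hK.cz2
      omega
    exact Finset.card_pos.1 this
  obtain ⟨W, cW, hW⟩ := hK.up (U ∪ Nm)
  obtain ⟨V, cV, hV⟩ := hK.dn (U ∪ Nm ∪ W)
  have hWT' : ∀ w ∈ W, w ∉ T' := by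
    intro w hw hwT
    have h1 := hW w hw z0 (Finset.mem_union_right _ (hZ hz0)) (hK.zT z0 hz0).1
    exact (hK.zT z0 hz0).2 (hK.bot w hwT z0 h1)
  set X0 : Finset (Lk kd k) := (U ∪ Nm).filter (fun y => y ∉ T ∧ y ∉ T') with hX0
  have mX0 : ∀ y, y ∈ X0 ↔ (y ∈ U ∨ y ∈ Nm) ∧ y ∉ T ∧ y ∉ T' := by
    intro y
    rw [hX0, Finset.mem_filter, Finset.mem_union]
  set X : Finset (Lk kd k) := X0 ∪ W ∪ V with hX
  have mX : ∀ y, y ∈ X ↔ (y ∈ X0 ∨ y ∈ W) ∨ y ∈ V := by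
    intro y
    rw [hX, Finset.mem_union, Finset.mem_union]
  have hVW : ∀ v ∈ V, ∀ w ∈ W, v < w := fun v hv w hw =>
    hV v hv w (Finset.mem_union_right _ hw) (hWT' w hw)
  have hX0W : ∀ y ∈ X0, ∀ w ∈ W, y < w := fun y hy w hw =>
    hW w hw y (Finset.mem_union.2 ((mX0 y).1 hy).1) ((mX0 y).1 hy).2.1
  have hVX0 : ∀ v ∈ V, ∀ y ∈ X0, v < y := fun v hv y hy =>
    hV v hv y (Finset.mem_union_left _ (Finset.mem_union.2 ((mX0 y).1 hy).1)) ((mX0 y).1 hy).2.2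
  -- match the points of the cells in `W` and `V`
  set Pt : Set ℕ := {y | ∃ w ∈ W ∪ V, ∃ d < sz k, y = x w.1 d} with hPt
  have hPtf : Pt.Finite := by
    have h1 : Pt ⊆ ⋃ w ∈ (W ∪ V : Finset (Lk kd k)), (fun d => x w.1 d) '' Iio (sz k) := by
      rintro y ⟨w, hw, d, hd, rfl⟩
      exact mem_iUnion₂.2 ⟨w, hw, d, hd, rfl⟩
    exact ((W ∪ V).finite_toSet.biUnion fun w _ => (finite_Iio _).image _).subset h1
  obtain ⟨f, -, hf⟩ := BF.forth_omega (β := 0) hPtf (subset_univ _) m (by rwa [zero_add])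
  rw [zero_add] at hf
  set P' : Pos := P ∪ gr f Pt with hP'
  have hPP : P ⊆ P' := subset_union_left
  have hex : ∀ y ∈ X, ∃ (v : Lk kd k) (g : Equiv.Perm (Fin (sz k))), mvL x y.1 v.1 g ⊆ P' := by
    intro y hy
    rcases (mX y).1 hy with (hy | hy) | hy
    · rcases ((mX0 y).1 hy).1 with h | h
      · exact ⟨φ y, γ y, (hU y h).trans hPP⟩
      · exact ⟨y, 1, (hNm y h).trans hPP⟩
    · exact cell_reco hF hf (hE.trans hPP) y fun d hd =>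
        ⟨f (x y.1 d), Or.inr ⟨⟨y, Finset.mem_union_left _ hy, d, hd, rfl⟩, rfl⟩⟩
    · exact cell_reco hF hf (hE.trans hPP) y fun d hd =>
        ⟨f (x y.1 d), Or.inr ⟨⟨y, Finset.mem_union_right _ hy, d, hd, rfl⟩, rfl⟩⟩
  have hex' : ∀ y : Lk kd k, ∃ (v : Lk kd k) (g : Equiv.Perm (Fin (sz k))),
      y ∈ X → mvL x y.1 v.1 g ⊆ P' := by
    intro y
    by_cases hy : y ∈ X
    · obtain ⟨v, g, h⟩ := hex y hy
      exact ⟨v, g, fun _ => h⟩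
    · exact ⟨y, 1, fun h => absurd h hy⟩
  choose Φ Γ hΦ using hex'
  have hΦU : ∀ u ∈ U, u ∈ X → Φ u = φ u ∧ Γ u = γ u := fun u hu huX =>
    mvL_unique hF hf.pi (hΦ u huX) ((hU u hu).trans hPP)
  have hΦN : ∀ n ∈ Nm, n ∈ X → Φ n = n ∧ Γ n = 1 := fun n hn hnX =>
    mvL_unique hF hf.pi (hΦ n hnX) ((hNm n hn).trans hPP)
  have hinj : InjOn Φ X := by
    intro y hy y' hy' he
    have h1 := hΦ y hy
    have h2 := hΦ y' hy'
    rw [← he] at h2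
    exact mvL_inj hF hf.pi h1 h2
  have hls : LS (QL M F kd sz x k) := ls_kind hF k hK.sub
  have hQ : QL M F kd sz x k {q | q.1 ∈ X ∧ q.2.1 = Φ q.1 ∧ q.2.2 = Γ q.1} := by
    refine hf.pi.mono ?_
    rintro q (hq | ⟨g, ⟨hg1, hg2, hg3⟩, hq⟩)
    · exact hPP (hFP hq)
    · rw [hg2, hg3] at hq
      exact hΦ _ hg1 hq
  have hZX0 : ∀ z ∈ Z, z ∈ X0 := fun z hz =>
    (mX0 z).2 ⟨Or.inr (hZ hz), (hK.zT z hz).1, (hK.zT z hz).2⟩
  have hX0X : ∀ y ∈ X0, y ∈ X := fun y hy => (mX y).2 (Or.inl (Or.inl hy))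
  have hWX : ∀ y ∈ W, y ∈ X := fun y hy => (mX y).2 (Or.inl (Or.inr hy))
  have hVX : ∀ y ∈ V, y ∈ X := fun y hy => (mX y).2 (Or.inr hy)
  have mZ : StrictMonoOn Φ Z := by
    intro z hz z' hz' hlt
    rw [(hΦN z (hZ hz) (hX0X z (hZX0 z hz))).1, (hΦN z' (hZ hz') (hX0X z' (hZX0 z' hz'))).1]
    exact hlt
  have lZ : ∀ z ∈ Z, Γ z = 1 := fun z hz => (hΦN z (hZ hz) (hX0X z (hZX0 z hz))).2
  have hup : ∀ w ∈ W, ∀ y ∈ X, y ∉ W → y < w := by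
    intro w hw y hy hyW
    rcases (mX y).1 hy with (h | h) | h
    · exact hX0W y h w hw
    · exact absurd h hyW
    · exact hVW y h w hw
  have hdn : ∀ w ∈ V, ∀ y ∈ X, y ∉ V → w < y := by
    intro w hw y hy hyV
    rcases (mX y).1 hy with (h | h) | h
    · exact hVX0 w hw y h
    · exact hVW w hw y h
    · exact absurd h hyV
  have hX0nW : ∀ y ∈ X0, y ∉ W := fun y hy hyW => lt_irrefl _ (hX0W y hy y hyW)
  have hX0nV : ∀ y ∈ X0, y ∉ V := fun y hy hyV => lt_irrefl _ (hVX0 y hyV y hy)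
  have hlab := fun (u : Lk kd k) (hu : u ∈ X0) => label_thm hls hK.vs hK.rot r X Φ Γ hinj hQ Z V W
    (fun z hz => hX0X z (hZX0 z hz)) hVX hWX hK.cz hK.cz2 cV cW mZ lZ hup hdn
    (fun z hz => ⟨hX0nV z (hZX0 z hz), hX0nW z (hZX0 z hz)⟩) u (hX0X u hu) (hX0nV u hu)
    (hX0nW u hu)
  have hQi : Qi (QL M F kd sz x k) {q | q.1 ∈ X ∧ q.2 = Φ q.1} := by
    refine ⟨_, hQ, ?_⟩
    rintro q ⟨hq1, hq2⟩
    exact ⟨Γ q.1, hq1, hq2, rfl⟩
  have hl : 2 * a0 + 2 * b0 + 3 ≤ lN a0 b0 r (Nat.card (Equiv.Perm (Fin (sz k)))) := by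
    unfold lN
    omega
  have hord : ∀ u ∈ X0, ∀ v ∈ X0, u < v → Φ u < Φ v := fun u hu v hv huv =>
    frame_thm (gs_qi hls) hK.vs hK.rot X Φ hinj hQi Z V W
      (fun z hz => hX0X z (hZX0 z hz)) hVX hWX hK.cz hl cV cW mZ hup hdn
      (fun z hz => ⟨hX0nV z (hZX0 z hz), hX0nW z (hZX0 z hz)⟩) u (hX0X u hu) v (hX0X v hv)
      (hX0nV u hu) (hX0nW u hu) (hX0nV v hv) (hX0nW v hv) huv
  have hUX0 : ∀ u ∈ U, u ∈ X0 := fun u hu => (mX0 u).2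
    ⟨Or.inl hu, fun h => hUN u hu (hT h), fun h => hUN u hu (hT' h)⟩
  refine ⟨?_, ?_, hφN, ?_⟩
  · intro u hu v hv huv
    have h1 := hord u (hUX0 u hu) v (hUX0 v hv) huv
    rwa [(hΦU u hu (hX0X u (hUX0 u hu))).1, (hΦU v hv (hX0X v (hUX0 v hv))).1] at h1
  · intro u hu n hn
    have hun : u ≠ n := fun h => hUN u hu (h ▸ hn)
    have hφn : φ u ≠ n := fun h => hφN u hu (h ▸ hn)
    by_cases h1 : n ∈ T
    · have e1 : ¬ n < u := fun h => hUN u hu (hT (hK.top n h1 u h))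
      have e2 : ¬ n < φ u := fun h => hφN u hu (hT (hK.top n h1 _ h))
      exact ⟨fun h => absurd h e1, fun h => absurd h e2⟩
    by_cases h2 : n ∈ T'
    · have e1 : n < u := by
        rcases lt_trichotomy n u with h | h | h
        · exact h
        · exact absurd h.symm hun
        · exact absurd (hT' (hK.bot n h2 u h)) (hUN u hu)
      have e2 : n < φ u := by
        rcases lt_trichotomy n (φ u) with h | h | h
        · exact h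
        · exact absurd h.symm hφn
        · exact absurd (hT' (hK.bot n h2 _ h)) (hφN u hu)
      exact ⟨fun _ => e2, fun _ => e1⟩
    have hnX0 : n ∈ X0 := (mX0 n).2 ⟨Or.inr hn, h1, h2⟩
    have e1 := hΦU u hu (hX0X u (hUX0 u hu))
    have e2 := hΦN n hn (hX0X n hnX0)
    constructor
    · intro h
      have h3 := hord n hnX0 u (hUX0 u hu) h
      rwa [e1.1, e2.1] at h3
    · intro h
      rcases lt_trichotomy n u with h4 | h4 | h4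
      · exact h4
      · exact absurd h4.symm hun
      · have h3 := hord u (hUX0 u hu) n hnX0 h4
        rw [e1.1, e2.1] at h3
        exact absurd h h3.not_gt
  · intro u hu
    have h1 := hlab u (hUX0 u hu)
    rw [(hΦU u hu (hX0X u (hUX0 u hu))).2] at h1
    exact hK.lab _ h1

end Pool.H5.AB
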