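import Pool.Agent.H5.AB.Gs

/-!
# A system which is not symmetric has a visible swap
-/

set_option autoImplicit false

namespace Pool.H5.AB

open Set Function

variable {L : Type} [LinearOrder L] {Q : Set (L × L) → Prop} {n m p a b : ℕ} {σ τ ρ g : ℕ → ℕ}

/-- If all swaps of neighbours are good then all permutations are good. PROOF. For `n = 0` use
`h.ord` (`Gr 0` is empty). For `n = m + 1` use
`Submonoid.closure_induction` with `Equiv.Perm.mclosure_swap_castSucc_succ m`: the generator
`swap i.castSucc i.succ` is `sw i` on `Iio (m + 1)` (`GQ.congr`, `a = i`, `b = m - 1 - i`), one is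
`GQ.one`, products are `GQ.mul`. -/
theorem perm_good (h : GS Q) (hall : ∀ a b, GQ Q (a + b + 2) (sw a)) (n : ℕ)
    (σ : Equiv.Perm (Fin n)) : GQ Q n (fun i => if hi : i < n then (σ ⟨i, hi⟩ : ℕ) else i) := by
  cases n with
  | zero =>
    intro e _
    apply h.ord
    rintro _ ⟨i, hi, rfl⟩
    exact absurd hi (Nat.not_lt_zero i)
  | succ m =>
    have hσ : σ ∈ Submonoid.closure
        (Set.range fun i : Fin m => Equiv.swap i.castSucc i.succ) := by
      rw [Equiv.Perm.mclosure_swap_castSucc_succ]
      trivial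
    refine Submonoid.closure_induction (motive := fun (σ : Equiv.Perm (Fin (m + 1))) _ =>
      GQ Q (m + 1) (fun i => if hi : i < m + 1 then (σ ⟨i, hi⟩ : ℕ) else i)) ?_ ?_ ?_ hσ
    · rintro _ ⟨i, rfl⟩
      have h1 := hall i.val (m - 1 - i.val)
      have e : i.val + (m - 1 - i.val) + 2 = m + 1 := by
        have := i.isLt
        omega
      rw [e] at h1
      refine h1.congr h fun j hj => ?_
      simp only [dif_pos hj]
      unfold sw
      by_cases h2 : j = i.val
      · have : (⟨j, hj⟩ : Fin (m + 1)) = i.castSucc := Fin.ext h2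
        rw [this, Equiv.swap_apply_left, if_pos h2]
        rfl
      · by_cases h3 : j = i.val + 1
        · have : (⟨j, hj⟩ : Fin (m + 1)) = i.succ := Fin.ext h3
          rw [this, Equiv.swap_apply_right, if_neg h2, if_pos h3]
          rfl
        · rw [Equiv.swap_apply_of_ne_of_ne (fun h4 => h2 (Fin.ext_iff.1 h4))
            (fun h4 => h3 (Fin.ext_iff.1 h4)), if_neg h2, if_neg h3]
    · apply GQ.one h
      intro i hi
      simp [hi]
    · intro σ τ _ _ h1 h2
      refine h2.mul h h1 ?_ ?_
      · intro i hi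
        simp only [dif_pos hi]
        exact (τ ⟨i, hi⟩).isLt
      · intro i hi
        simp only [dif_pos hi, dif_pos (τ ⟨i, hi⟩).isLt]
        rfl

/-- A finite partial injection which is not good gives a visible swap. PROOF. Suppose that all swaps
are good. Let `S` be the (finite) set of the first components, `n` its number of elements, `u` its
increasing enumeration (`Finset.orderEmbOfFin`), `v i` the partner of `u i`; `v` is injective on
`Fin n` by `hi`. Let `σ = (Tuple.sort v)⁻¹`; `v ∘ Tuple.sort v` is strictly monotone, so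
`v i < v j ↔ σ i < σ j`. By `perm_good` and `GQ.of`, `Q (Gr n u v)`, and `Γ ⊆ Gr n u v`. -/
theorem exists_swap (h : GS Q) {Γ : Set (L × L)} (hf : Γ.Finite)
    (hi : ∀ g ∈ Γ, ∀ g' ∈ Γ, (g.1 = g'.1 ↔ g.2 = g'.2)) (hn : ¬ Q Γ) :
    ∃ a b, ¬ GQ Q (a + b + 2) (sw a) := by
  classical
  by_contra hc
  push Not at hc
  apply hn
  rcases Γ.eq_empty_or_nonempty with rfl | ⟨g0, hg0⟩
  · apply h.ord
    intro g hg
    exact absurd hg (Set.notMem_empty g)
  · let S : Finset L := hf.toFinset.image Prod.fst
    have hS : ∀ x, x ∈ S ↔ ∃ y, (x, y) ∈ Γ := by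
      intro x
      simp only [S, Finset.mem_image, Set.Finite.mem_toFinset]
      constructor
      · rintro ⟨⟨a, b⟩, hg, rfl⟩
        exact ⟨b, hg⟩
      · rintro ⟨y, hy⟩
        exact ⟨(x, y), hy, rfl⟩
    let n := S.card
    let u' : Fin n ↪o L := S.orderEmbOfFin rfl
    have hu' : ∀ i, ∃ y, (u' i, y) ∈ Γ := fun i => (hS _).1 (S.orderEmbOfFin_mem rfl i)
    choose v' hv' using hu'
    have hvi : Function.Injective v' := by
      intro i j hij
      have h1 := (hi _ (hv' i) _ (hv' j)).2 hij
      exact u'.injective h1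
    let σ0 : Equiv.Perm (Fin n) := (Tuple.sort v')⁻¹
    have hσ0 : ∀ i, v' i = (v' ∘ Tuple.sort v') (σ0 i) := by
      intro i
      simp [σ0]
    have hsm : StrictMono (v' ∘ Tuple.sort v') :=
      (Tuple.monotone_sort v').strictMono_of_injective (hvi.comp (Tuple.sort v').injective)
    let u : ℕ → L := fun i => if hi : i < n then u' ⟨i, hi⟩ else g0.1
    let v : ℕ → L := fun i => if hi : i < n then v' ⟨i, hi⟩ else g0.1
    have hQ : Q (Gr n u v) := by
      refine GQ.of h (σ := fun i => if hi : i < n then (σ0 ⟨i, hi⟩ : ℕ) else i) ?_ ?_ ?_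
        (perm_good h hc n σ0)
      · intro i hi j hj hij
        simp only [mem_Iio] at hi hj
        simp only [u, dif_pos hi, dif_pos hj]
        exact u'.strictMono hij
      · intro i hi j hj
        simp only [v, dif_pos hi, dif_pos hj]
        rw [hσ0 ⟨i, hi⟩, hσ0 ⟨j, hj⟩, hsm.lt_iff_lt, Fin.lt_def]
      · intro i hi
        simp only [dif_pos hi]
        exact (σ0 ⟨i, hi⟩).isLt
    refine h.mono _ _ ?_ hQ
    rintro ⟨x, y⟩ hg
    have hx : x ∈ S := (hS x).2 ⟨y, hg⟩
    have hr : x ∈ Set.range u' := by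
      rw [Finset.range_orderEmbOfFin]
      exact hx
    obtain ⟨i, rfl⟩ := hr
    refine ⟨i.val, i.isLt, ?_⟩
    have h1 : y = v' i := (hi _ hg _ (hv' i)).1 rfl
    simp only [u, v, dif_pos i.isLt]
    rw [h1]

end Pool.H5.AB
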