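import Pool.Agent.H5.AB.Nd
import Pool.Agent.H5.AB.LsRotG
import Pool.Agent.H5.AB.SymL

/-!
# Naming a cell and rotating the order: the new cells
-/

set_option autoImplicit false

namespace Pool.H5.AB

open Set Ordinal Pool.H62.VT

/-- the cells different from `z` -/
@[ext]
structure Iz {I : Type} (z : I) : Type where
  /-- the cell -/
  val : I
  /-- it is not `z` -/
  ne : val ≠ z

variable {a : ℕ → ℕ} {I : Type} {M : Str a} {E E' : Set ℕ} {m c : ℕ} [LinearOrder I]
  {kd : I → ℕ} {sz : ℕ → ℕ} {x : I → ℕ → ℕ} {Rn : Finset I} {k k' : ℕ} {z : Lk kd k}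
  {mu : Equiv.Perm (Fin (sz k))}

open Classical in
/-- the side of a cell -/
noncomputable def sd (kd : I → ℕ) (k : ℕ) (z i : I) : ℕ := if kd i = k ∧ i < z then 1 else 0

/-- the rotated order -/
noncomputable abbrev ordz (kd : I → ℕ) (k : ℕ) (z : I) : LinearOrder (Iz z) :=
  LinearOrder.lift' (fun i : Iz z => (toLex (kd i.val, toLex (sd kd k z i.val, i.val)) :
    ℕ ×ₗ (ℕ ×ₗ I))) (by
    intro i j h
    have h1 := congrArg (fun q : ℕ ×ₗ (ℕ ×ₗ I) => (ofLex (ofLex q).2).2) h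
    exact Iz.ext h1)

theorem ordz_lt (i j : Iz z.1) (h : kd i.val = kd j.val) :
    letI := ordz kd k z.1
    i < j ↔ (sd kd k z.1 i.val < sd kd k z.1 j.val ∨
      (sd kd k z.1 i.val = sd kd k z.1 j.val ∧ i.val < j.val)) := by
  letI := ordz kd k z.1
  have h1 : i < j ↔ (toLex (kd i.val, toLex (sd kd k z.1 i.val, i.val)) : ℕ ×ₗ (ℕ ×ₗ I)) <
      toLex (kd j.val, toLex (sd kd k z.1 j.val, j.val)) := Iff.rfl
  rw [h1, Prod.Lex.toLex_lt_toLex]
  simp only [h, lt_irrefl, false_or, true_and]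
  rw [Prod.Lex.toLex_lt_toLex]

/-- the order of the cells of another kind does not change -/
theorem ordz_other (i j : Iz z.1) (h : kd i.val = k') (h' : kd j.val = k') (hk : k' ≠ k) :
    letI := ordz kd k z.1
    i < j ↔ i.val < j.val := by
  letI := ordz kd k z.1
  rw [ordz_lt i j (h.trans h'.symm)]
  have e1 : sd kd k z.1 i.val = 0 := by
    unfold sd
    rw [if_neg]
    rintro ⟨h1, -⟩
    exact hk (h.symm.trans h1)
  have e2 : sd kd k z.1 j.val = 0 := by
    unfold sd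
    rw [if_neg]
    rintro ⟨h1, -⟩
    exact hk (h'.symm.trans h1)
  rw [e1, e2]
  simp

/-- the order of the cells of kind `k` is rotated -/
theorem ordz_rot (i j : Iz z.1) (h : kd i.val = k) (h' : kd j.val = k) :
    letI := ordz kd k z.1
    i < j ↔ rlt z (⟨i.val, h⟩ : Lk kd k) ⟨j.val, h'⟩ := by
  letI := ordz kd k z.1
  rw [ordz_lt i j (h.trans h'.symm)]
  have hi := i.ne
  have hj := j.ne
  unfold sd rlt
  have e0 : ∀ u v : Lk kd k, (u < v) ↔ (u.1 < v.1) := fun u v => Iff.rfl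
  simp only [e0, h, h', true_and]
  rcases lt_or_gt_of_ne hi with h1 | h1 <;> rcases lt_or_gt_of_ne hj with h2 | h2
  · simp [h1, h2, not_lt.2 h1.le, not_lt.2 h2.le]
  · simp [h1, h2, not_lt.2 h1.le, not_lt.2 h2.le]
  · simp [h1, h2, not_lt.2 h1.le, not_lt.2 h2.le]
  · simp [h1, h2, not_lt.2 h1.le, not_lt.2 h2.le]

open Classical in
/-- the new labels -/
noncomputable def xr (sz : ℕ → ℕ) (x : I → ℕ → ℕ) (z : Lk kd k) (mu : Equiv.Perm (Fin (sz k)))
    (i : Iz z.1) (d : ℕ) : ℕ :=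
  if h : kd i.val = k ∧ d < sz k then x i.val (tw mu z ⟨i.val, h.1⟩ ⟨d, h.2⟩ : Fin (sz k))
  else x i.val d

/-- the kinds of the new cells -/
def kr (kd : I → ℕ) (z : I) (i : Iz z) : ℕ := kd i.val

theorem xr_k (i : Iz z.1) (h : kd i.val = k) (d : Fin (sz k)) :
    xr sz x z mu i d = x i.val (tw mu z ⟨i.val, h⟩ d : Fin (sz k)) := by
  unfold xr
  rw [dif_pos ⟨h, d.2⟩]

theorem xr_o (i : Iz z.1) (h : kd i.val ≠ k) (d : ℕ) : xr sz x z mu i d = x i.val d := by
  unfold xr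
  rw [dif_neg]
  rintro ⟨h1, -⟩
  exact h h1

/-- the points of a new cell -/
theorem xr_mem (i : Iz z.1) (y : ℕ) :
    (∃ d < sz (kd i.val), xr sz x z mu i d = y) ↔ ∃ d < sz (kd i.val), x i.val d = y := by
  by_cases h : kd i.val = k
  · rw [h]
    constructor
    · rintro ⟨d, hd, rfl⟩
      exact ⟨tw mu z ⟨i.val, h⟩ ⟨d, hd⟩, Fin.isLt _, (xr_k i h ⟨d, hd⟩).symm⟩
    · rintro ⟨d, hd, rfl⟩
      refine ⟨((tw mu z ⟨i.val, h⟩)⁻¹ ⟨d, hd⟩ : Fin (sz k)), Fin.isLt _, ?_⟩
      rw [xr_k i h]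
      simp
  · constructor
    · rintro ⟨d, hd, rfl⟩
      exact ⟨d, hd, (xr_o i h d).symm⟩
    · rintro ⟨d, hd, rfl⟩
      exact ⟨d, hd, xr_o i h d⟩

/-- the points outside the cells of another kind -/
theorem rs_o (hk : k' ≠ k) : Rs (kr kd z.1) sz (xr sz x z mu) k' = Rs kd sz x k' := by
  ext y
  constructor
  · intro hy i hi d hd h
    have hiz : i ≠ z.1 := by
      rintro rfl
      exact hk (hi.symm.trans z.2)
    refine hy ⟨i, hiz⟩ hi d hd ?_
    rw [xr_o _ (show kd i ≠ k from fun h1 => hk (hi.symm.trans h1))]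
    exact h
  · intro hy i hi d hd h
    refine hy i.val hi d hd ?_
    rw [xr_o _ (fun h1 => hk (Eq.trans (Eq.symm hi) h1))] at h
    exact h

/-- the points outside the new cells of kind `k` -/
theorem rs_k (hF : FF M Rn E E' m c kd sz x) :
    Rs (kr kd z.1) sz (xr sz x z mu) k = Rs kd sz x k ∪ (cell kd sz x z.1 : Set ℕ) := by
  ext y
  constructor
  · intro hy
    by_cases h1 : y ∈ cell kd sz x z.1
    · exact Or.inr h1
    · left
      intro i hi d hd h
      have hiz : i ≠ z.1 := by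
        rintro rfl
        exact h1 (mem_cell.2 ⟨d, by rw [hi]; exact hd, h.symm⟩)
      obtain ⟨e, he, h2⟩ := (xr_mem (sz := sz) (x := x) (mu := mu) ⟨i, hiz⟩ y).2
        ⟨d, by rw [show kd i = k from hi]; exact hd, h.symm⟩
      rw [show kd i = k from hi] at he
      exact hy ⟨i, hiz⟩ hi e he h2.symm
  · intro hy i hi d hd h
    have hi' : kd i.val = k := hi
    obtain ⟨e, he, h2⟩ := (xr_mem (sz := sz) (x := x) (mu := mu) i y).1
      ⟨d, by rw [hi']; exact hd, h.symm⟩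
    rcases hy with hy | hy
    · rw [hi'] at he
      exact hy i.val hi' e he h2.symm
    · exact i.ne (cell_eq hF (mem_cell.2 ⟨e, he, h2⟩) hy (Or.inl (hi'.trans z.2.symm)))

/-- the named cells different from `z` -/
noncomputable def rnz (Rn : Finset I) (z : I) : Finset (Iz z) :=
  Set.Finite.toFinset (s := {i : Iz z | i.val ∈ Rn}) (by
    refine Set.Finite.of_finite_image (f := Iz.val) (Rn.finite_toSet.subset ?_) ?_
    · rintro _ ⟨i, hi, rfl⟩
      exact hi
    · intro i _ j _ h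
      exact Iz.ext h)

theorem mem_rnz {Rn : Finset I} {z : I} (i : Iz z) : i ∈ rnz Rn z ↔ i.val ∈ Rn := by
  unfold rnz
  rw [Set.Finite.mem_toFinset]
  rfl

end Pool.H5.AB
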