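import Pool.Agent.H5.AB.Ro1

/-!
# Naming a cell and rotating the order: good maps
-/

set_option autoImplicit false

namespace Pool.H5.AB

open Set Ordinal Pool.H62.VT

variable {a : ℕ → ℕ} {I : Type} {M : Str a} {E E' : Set ℕ} {m c : ℕ} [LinearOrder I]
  {kd : I → ℕ} {sz : ℕ → ℕ} {x : I → ℕ → ℕ} {Rn : Finset I} {k k' : ℕ} {z : Lk kd k}
  {mu : Equiv.Perm (Fin (sz k))}

/-- a new cell as an old cell -/
def em (z : I) (i : Lk (kr kd z) k') : Lk kd k' := ⟨i.1.val, i.2⟩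

/-- the transported labelled pair -/
noncomputable def tg (z : Lk kd k) (mu : Equiv.Perm (Fin (sz k)))
    (q : Lk (kr kd z.1) k × Lk (kr kd z.1) k × Equiv.Perm (Fin (sz k))) :
    Lk kd k × Lk kd k × Equiv.Perm (Fin (sz k)) :=
  (em z.1 q.1, em z.1 q.2.1, tw mu z (em z.1 q.2.1) * q.2.2 * (tw mu z (em z.1 q.1))⁻¹)

theorem mvL_k (i j : Lk (kr kd z.1) k) (g : Equiv.Perm (Fin (sz k))) :
    mvL (xr sz x z mu) i.1 j.1 g = mvL x (em z.1 i).1 (em z.1 j).1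
      (tw mu z (em z.1 j) * g * (tw mu z (em z.1 i))⁻¹) := by
  ext q
  constructor
  · rintro ⟨d, rfl⟩
    refine ⟨tw mu z (em z.1 i) d, ?_⟩
    rw [xr_k i.1 i.2, xr_k j.1 j.2]
    simp only [Equiv.Perm.mul_apply]
    have h1 : (tw mu z (em z.1 i))⁻¹ (tw mu z (em z.1 i) d) = d := by simp
    rw [h1]
    rfl
  · rintro ⟨d, rfl⟩
    refine ⟨(tw mu z (em z.1 i))⁻¹ d, ?_⟩
    rw [xr_k i.1 i.2, xr_k j.1 j.2]
    simp only [Equiv.Perm.mul_apply]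
    have h1 : tw mu z ⟨i.1.val, i.2⟩ ((tw mu z (em z.1 i))⁻¹ d) = d := by
      show tw mu z (em z.1 i) ((tw mu z (em z.1 i))⁻¹ d) = d
      simp
    rw [h1]
    rfl

theorem ql_k (hF : FF M Rn E E' m c kd sz x)
    (Γ : Set (Lk (kr kd z.1) k × Lk (kr kd z.1) k × Equiv.Perm (Fin (sz k)))) :
    QL M (Rs (kr kd z.1) sz (xr sz x z mu) k) (kr kd z.1) sz (xr sz x z mu) k Γ ↔
      QL M (Rs kd sz x k) kd sz x k ({(z, z, 1)} ∪ tg z mu '' Γ) := by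
  unfold QL
  have h : (idOn (Rs (kr kd z.1) sz (xr sz x z mu) k) ∪
      {q | ∃ g ∈ Γ, q ∈ mvL (xr sz x z mu) g.1.1 g.2.1.1 g.2.2} : Pos) =
      idOn (Rs kd sz x k) ∪ {q | ∃ g ∈ ({(z, z, 1)} ∪ tg z mu '' Γ :
        Set (Lk kd k × Lk kd k × Equiv.Perm (Fin (sz k)))), q ∈ mvL x g.1.1 g.2.1.1 g.2.2} := by
    rw [rs_k hF]
    ext ⟨q1, q2⟩
    constructor
    · rintro (⟨h1 | h1, h2⟩ | ⟨g, hg, h1⟩)
      · exact Or.inl ⟨h1, h2⟩
      · simp only at h1 h2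
        subst h2
        right
        refine ⟨(z, z, 1), Or.inl rfl, ?_⟩
        obtain ⟨d, hd, h3⟩ := mem_cell.1 (Finset.mem_coe.1 h1)
        rw [z.2] at hd
        exact ⟨⟨d, hd⟩, by rw [← h3]; rfl⟩
      · right
        rw [mvL_k] at h1
        exact ⟨tg z mu g, Or.inr ⟨g, hg, rfl⟩, h1⟩
    · rintro (⟨h1, h2⟩ | ⟨g, hg | ⟨g', hg', rfl⟩, h1⟩)
      · exact Or.inl ⟨Or.inl h1, h2⟩
      · left
        rw [mem_singleton_iff.1 hg] at h1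
        obtain ⟨d, h3⟩ := h1
        rw [Prod.mk.injEq] at h3
        obtain ⟨rfl, rfl⟩ := h3
        refine ⟨Or.inr (mem_cell.2 ⟨d, ?_, rfl⟩), rfl⟩
        show (d : ℕ) < sz (kd z.1)
        rw [z.2]
        exact d.2
      · right
        refine ⟨g', hg', ?_⟩
        rw [mvL_k]
        exact h1
  rw [h]

theorem ql_o (hk : k' ≠ k)
    (Γ : Set (Lk (kr kd z.1) k' × Lk (kr kd z.1) k' × Equiv.Perm (Fin (sz k')))) :
    QL M (Rs (kr kd z.1) sz (xr sz x z mu) k') (kr kd z.1) sz (xr sz x z mu) k' Γ ↔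
      QL M (Rs kd sz x k') kd sz x k' ((fun q => (em z.1 q.1, em z.1 q.2.1, q.2.2)) '' Γ) := by
  unfold QL
  have h : (idOn (Rs (kr kd z.1) sz (xr sz x z mu) k') ∪
      {q | ∃ g ∈ Γ, q ∈ mvL (xr sz x z mu) g.1.1 g.2.1.1 g.2.2} : Pos) =
      idOn (Rs kd sz x k') ∪ {q | ∃ g ∈ ((fun q => (em z.1 q.1, em z.1 q.2.1, q.2.2)) '' Γ :
        Set (Lk kd k' × Lk kd k' × Equiv.Perm (Fin (sz k')))), q ∈ mvL x g.1.1 g.2.1.1 g.2.2} := by
    rw [rs_o hk]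
    have key : ∀ g : Lk (kr kd z.1) k' × Lk (kr kd z.1) k' × Equiv.Perm (Fin (sz k')),
        mvL (xr sz x z mu) g.1.1 g.2.1.1 g.2.2 = mvL x (em z.1 g.1).1 (em z.1 g.2.1).1 g.2.2 := by
      intro g
      have h1 : ∀ i : Lk (kr kd z.1) k', ∀ d, xr sz x z mu i.1 d = x (em z.1 i).1 d := fun i d =>
        xr_o i.1 (fun h => hk (Eq.trans (Eq.symm i.2) h)) d
      unfold mvL
      simp only [h1]
    ext q
    constructor
    · rintro (h1 | ⟨g, hg, h1⟩)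
      · exact Or.inl h1
      · rw [key] at h1
        exact Or.inr ⟨_, ⟨g, hg, rfl⟩, h1⟩
    · rintro (h1 | ⟨g, ⟨g', hg', rfl⟩, h1⟩)
      · exact Or.inl h1
      · refine Or.inr ⟨g', hg', ?_⟩
        rw [key]
        exact h1
  rw [h]

end Pool.H5.AB
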