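import Pool.Agent.H5.AB.Ro2
import Pool.Agent.H5.AB.LsSwap

/-!
# Naming a cell and rotating the order: patterns
-/

set_option autoImplicit false

namespace Pool.H5.AB

open Set Ordinal Pool.H62.VT

section lin

variable {L : Type} [LinearOrder L]

/-- finitely many points on one side of `z` -/
theorem side_inc [Infinite L] (z : L) (n : ℕ) : ∃ e : ℕ → L, StrictMonoOn e (Iio n) ∧
    ((∀ i < n, e i < z) ∨ (∀ i < n, z < e i)) := by
  classical
  have h1 : (Iio z).Infinite ∨ (Ioi z).Infinite := by
    by_contra hc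
    push Not at hc
    obtain ⟨h2, h3⟩ := hc
    have h4 : (univ : Set L) ⊆ Iio z ∪ {z} ∪ Ioi z := by
      intro y _
      rcases lt_trichotomy y z with h | h | h
      · exact Or.inl (Or.inl h)
      · exact Or.inl (Or.inr h)
      · exact Or.inr h
    exact Set.infinite_univ (((h2.union (finite_singleton z)).union h3).subset h4)
  rcases h1 with h1 | h1
  · have h2 : Infinite (Iio z) := h1.to_subtype
    obtain ⟨e, he⟩ := exists_inc (L := Iio z) n
    exact ⟨fun i => (e i).1, fun i hi j hj hij => he hi hj hij, Or.inl fun i _ => (e i).2⟩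
  · have h2 : Infinite (Ioi z) := h1.to_subtype
    obtain ⟨e, he⟩ := exists_inc (L := Ioi z) n
    exact ⟨fun i => (e i).1, fun i hi j hj hij => he hi hj hij, Or.inr fun i _ => (e i).2⟩

end lin

variable {a : ℕ → ℕ} {I : Type} {M : Str a} {E E' : Set ℕ} {m c : ℕ} [LinearOrder I]
  {kd : I → ℕ} {sz : ℕ → ℕ} {x : I → ℕ → ℕ} {Rn : Finset I} {k k' n a0 b0 : ℕ} {z : Lk kd k}
  {mu : Equiv.Perm (Fin (sz k))} {σ : ℕ → ℕ}

/-- good patterns of another kind do not change -/
theorem gql_o (hk : k' ≠ k) {lam : ℕ → Equiv.Perm (Fin (sz k'))}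
    (hQ : letI := ordz kd k z.1
      GQL (QL M (Rs (kr kd z.1) sz (xr sz x z mu) k') (kr kd z.1) sz (xr sz x z mu) k') n σ lam) :
    GQL (QL M (Rs kd sz x k') kd sz x k') n σ lam := by
  letI := ordz kd k z.1
  intro e he
  have hne : ∀ i, (e i).1 ≠ z.1 := by
    intro i h
    exact hk (by rw [← (e i).2, h, z.2])
  have h1 := hQ (fun i => ⟨⟨(e i).1, hne i⟩, (e i).2⟩) (by
    intro i hi j hj hij
    exact (ordz_other (k' := k') (⟨(e i).1, hne i⟩ : Iz z.1) ⟨(e j).1, hne j⟩ (e i).2 (e j).2 hk).2
      (he hi hj hij))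
  rw [ql_o hk] at h1
  unfold QL at h1 ⊢
  refine h1.mono ?_
  rintro q (hq | ⟨_, ⟨i, hi, rfl⟩, hq⟩)
  · exact Or.inl hq
  · exact Or.inr ⟨_, ⟨_, ⟨i, hi, rfl⟩, rfl⟩, hq⟩

/-- good patterns of kind `k`: they are good in the old order, on one side of the fixed cell `z` -/
theorem gql_k (hF : FF M Rn E E' m c kd sz x) (hk : k < c) {lam : ℕ → Equiv.Perm (Fin (sz k))}
    (hσ : ∀ i < n, σ i < n)
    (hQ : letI := ordz kd k z.1
      GQL (QL M (Rs (kr kd z.1) sz (xr sz x z mu) k) (kr kd z.1) sz (xr sz x z mu) k) n σ lam) :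
    GQL (QL M (Rs kd sz x k) kd sz x k) (n + 1) (fun i => if i = 0 then 0 else σ (i - 1) + 1)
      (fun i => if i = 0 then 1 else lam (i - 1)) ∨
    GQL (QL M (Rs kd sz x k) kd sz x k) (n + 1) (fun i => if i < n then σ i else i)
      (fun i => if i < n then mu * lam i * mu⁻¹ else 1) := by
  classical
  have hinf : Infinite (Lk kd k) := (hF.inf k hk).to_subtype
  have hls := ls_kind hF k (subset_refl (Rs kd sz x k))
  obtain ⟨e, he, hs⟩ := side_inc z n
  have hez : ∀ i < n, e i ≠ z := by
    intro i hi
    rcases hs with h | h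
    · exact (h i hi).ne
    · exact (h i hi).ne'
  -- a cell different from `z`
  obtain ⟨w, hw⟩ := exists_ne z
  let e' : ℕ → Lk (kr kd z.1) k := fun i =>
    if h : e i ≠ z then ⟨⟨(e i).1, fun h' => h (Subtype.ext h')⟩, (e i).2⟩
    else ⟨⟨w.1, fun h' => hw (Subtype.ext h')⟩, w.2⟩
  have hem : ∀ i < n, em z.1 (e' i) = e i := by
    intro i hi
    simp only [e', dif_pos (hez i hi)]
    rfl
  letI := ordz kd k z.1
  have hval : ∀ i < n, (e' i).1.val = (e i).1 := fun i hi => congrArg Subtype.val (hem i hi)
  have he' : StrictMonoOn e' (Iio n) := by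
    intro i hi j hj hij
    have h1 := ordz_rot (e' i).1 (e' j).1 (e' i).2 (e' j).2
    refine h1.2 ?_
    have h2 : (⟨(e' i).1.val, (e' i).2⟩ : Lk kd k) = e i := hem i hi
    have h3 : (⟨(e' j).1.val, (e' j).2⟩ : Lk kd k) = e j := hem j hj
    rw [h2, h3]
    right
    refine ⟨?_, he hi hj hij⟩
    rcases hs with h | h
    · exact ⟨fun h4 => absurd h4 (lt_asymm (h i hi)), fun h4 => absurd h4 (lt_asymm (h j hj))⟩
    · exact ⟨fun _ => h j hj, fun _ => h i hi⟩
  have h1 := hQ e' he'
  rw [ql_k hF] at h1
  rcases hs with hs | hs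
  · -- below `z`
    right
    have htw : ∀ i < n, tw mu z (e i) = mu := by
      intro i hi
      unfold tw
      rw [if_pos (hs i hi)]
    refine gql_of hls (u := fun i => if i < n then e i else z)
      (v := fun i => if i < n then e (σ i) else z) ?_ ?_ ?_ ?_
    · intro i hi j hj hij
      simp only [mem_Iio] at hi hj
      beta_reduce
      rw [if_pos (by omega)]
      split_ifs with h
      · exact he (show i < n by omega) h hij
      · exact hs i (by omega)
    · intro i hi j hj
      beta_reduce
      by_cases hin : i < n <;> by_cases hjn : j < n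
      · rw [if_pos hin, if_pos hjn, if_pos hin, if_pos hjn]
        exact he.lt_iff_lt (hσ i hin) (hσ j hjn)
      · rw [if_pos hin, if_neg hjn, if_pos hin, if_neg hjn]
        exact ⟨fun _ => (hσ i hin).trans_le (not_lt.1 hjn), fun _ => hs _ (hσ i hin)⟩
      · rw [if_neg hin, if_pos hjn, if_neg hin, if_pos hjn]
        refine ⟨fun h => absurd h (lt_asymm (hs _ (hσ j hjn))), fun h => ?_⟩
        have := hσ j hjn
        omega
      · rw [if_neg hin, if_neg hjn, if_neg hin, if_neg hjn]
        refine ⟨fun h => absurd h (lt_irrefl _), fun h => ?_⟩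
        omega
    · intro i hi
      beta_reduce
      split_ifs with h
      · have := hσ i h
        omega
      · exact hi
    · refine hls.mono _ _ ?_ h1
      rintro _ ⟨i, hi, rfl⟩
      by_cases hin : i < n
      · right
        refine ⟨_, ⟨i, hin, rfl⟩, ?_⟩
        unfold tg
        dsimp only
        rw [hem i hin, hem (σ i) (hσ i hin), htw i hin, htw _ (hσ i hin), if_pos hin, if_pos hin,
          if_pos hin]
      · left
        simp only [if_neg hin]
        rfl
  · -- above `z`
    left
    have htw : ∀ i < n, tw mu z (e i) = 1 := by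
      intro i hi
      unfold tw
      rw [if_neg (lt_asymm (hs i hi))]
    refine gql_of hls (u := fun i => if i = 0 then z else e (i - 1))
      (v := fun i => if i = 0 then z else e (σ (i - 1))) ?_ ?_ ?_ ?_
    · intro i hi j hj hij
      simp only [mem_Iio] at hi hj
      beta_reduce
      rw [if_neg (show j ≠ 0 by omega)]
      split_ifs with h
      · exact hs _ (by omega)
      · exact he (show i - 1 < n by omega) (show j - 1 < n by omega) (by omega)
    · intro i hi j hj
      beta_reduce
      by_cases hi0 : i = 0 <;> by_cases hj0 : j = 0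
      · rw [if_pos hi0, if_pos hj0, if_pos hi0, if_pos hj0]
        exact ⟨fun h => absurd h (lt_irrefl _), fun h => absurd h (lt_irrefl _)⟩
      · rw [if_pos hi0, if_neg hj0, if_pos hi0, if_neg hj0]
        exact ⟨fun _ => by omega, fun _ => hs _ (hσ _ (by omega))⟩
      · rw [if_neg hi0, if_pos hj0, if_neg hi0, if_pos hj0]
        exact ⟨fun h => absurd h (lt_asymm (hs _ (hσ _ (by omega)))), fun h => by omega⟩
      · rw [if_neg hi0, if_neg hj0, if_neg hi0, if_neg hj0]
        rw [he.lt_iff_lt (hσ (i - 1) (by omega)) (hσ (j - 1) (by omega))]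
        omega
    · intro i hi
      beta_reduce
      split_ifs with h
      · omega
      · have := hσ (i - 1) (by omega)
        omega
    · refine hls.mono _ _ ?_ h1
      rintro _ ⟨i, hi, rfl⟩
      by_cases hi0 : i = 0
      · left
        simp only [if_pos hi0]
        rfl
      · right
        refine ⟨_, ⟨i - 1, by omega, rfl⟩, ?_⟩
        unfold tg
        dsimp only
        rw [hem (i - 1) (by omega), hem (σ (i - 1)) (hσ _ (by omega)), htw (i - 1) (by omega),
          htw _ (hσ _ (by omega)), if_neg hi0, if_neg hi0, if_neg hi0, one_mul, inv_one, mul_one]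

/-- the visible swap of kind `k` stays visible -/
theorem sw_k (hF : FF M Rn E E' m c kd sz x) (hk : k < c)
    (hsw : ¬ GQL (QL M (Rs kd sz x k) kd sz x k) (a0 + b0 + 2) (sw a0) (fun _ => 1)) :
    letI := ordz kd k z.1
    ¬ GQL (QL M (Rs (kr kd z.1) sz (xr sz x z mu) k) (kr kd z.1) sz (xr sz x z mu) k)
      (a0 + b0 + 2) (sw a0) (fun _ => 1) := by
  letI := ordz kd k z.1
  intro hQ
  have hinf : Infinite (Lk kd k) := (hF.inf k hk).to_subtype
  have hls := ls_kind hF k (subset_refl (Rs kd sz x k))
  have hσ : ∀ i < a0 + b0 + 2, sw a0 i < a0 + b0 + 2 := by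
    intro i hi
    unfold sw
    split_ifs <;> omega
  apply hsw
  rcases gql_k hF hk hσ hQ with h | h
  · refine GQL.sub hls h (g := fun i => i + 1) ?_ ?_ ?_ hσ ?_ ?_
    · intro i hi
      beta_reduce
      split_ifs with h0
      · omega
      · have := hσ (i - 1) (by omega)
        omega
    · intro i _ j _ hij
      omega
    · intro i hi
      omega
    · intro i hi j hj
      beta_reduce
      rw [if_neg (by omega), if_neg (by omega), Nat.add_sub_cancel, Nat.add_sub_cancel]
      omega
    · intro i hi
      beta_reduce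
      rw [if_neg (by omega)]
  · refine GQL.sub hls h (g := fun i => i) ?_ ?_ ?_ hσ ?_ ?_
    · intro i hi
      beta_reduce
      split_ifs with h0
      · have := hσ i h0
        omega
      · exact hi
    · intro i _ j _ hij
      exact hij
    · intro i hi
      omega
    · intro i hi j hj
      beta_reduce
      rw [if_pos hi, if_pos hj]
    · intro i hi
      beta_reduce
      rw [if_pos hi]
      simp

end Pool.H5.AB
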