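import Pool.Agent.H5.AB.Ro3
import Pool.Agent.H5.AA.Fre

/-!
# Naming a cell and rotating the order: the new free families
-/

set_option autoImplicit false

namespace Pool.H5.AB

open Set Ordinal Pool.H62.VT

variable {a : ℕ → ℕ} {I : Type} {M : Str a} {E E' : Set ℕ} {m c : ℕ} [LinearOrder I]
  {kd : I → ℕ} {sz : ℕ → ℕ} {x : I → ℕ → ℕ} {Rn : Finset I} {k k' n a0 b0 : ℕ} {z : Lk kd k}
  {mu : Equiv.Perm (Fin (sz k))} {σ : ℕ → ℕ}

/-- from a visible swap to the field `nsym` -/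
theorem nsym_of_sw (h : ¬ GQL (QL M (Rs kd sz x k) kd sz x k) (a0 + b0 + 2) (sw a0) (fun _ => 1)) :
    ∃ Γ : Set (I × I), Γ.Finite ∧ InjK kd Γ ∧ (∀ g ∈ Γ, kd g.1 = k) ∧
      ¬ PI M M (idOn (Rs kd sz x k) ∪ MV kd sz x Γ) := by
  unfold GQL at h
  push Not at h
  obtain ⟨e, he, hQ⟩ := h
  have hσ : ∀ i < a0 + b0 + 2, sw a0 i < a0 + b0 + 2 := by
    intro i hi
    unfold sw
    split_ifs <;> omega
  have hσi : ∀ i j, sw a0 i = sw a0 j → i = j := by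
    intro i j
    unfold sw
    split_ifs <;> omega
  have hinj : ∀ i < a0 + b0 + 2, ∀ j < a0 + b0 + 2, (e i).1 = (e j).1 → i = j := by
    intro i hi j hj hij
    exact he.injOn hi hj (Subtype.ext hij)
  refine ⟨(fun i => ((e i).1, (e (sw a0 i)).1)) '' Iio (a0 + b0 + 2), (finite_Iio _).image _,
    ⟨?_, ?_⟩, ?_, ?_⟩
  · rintro _ ⟨i, hi, rfl⟩
    exact (e i).2.trans (e (sw a0 i)).2.symm
  · rintro _ ⟨i, hi, rfl⟩ _ ⟨j, hj, rfl⟩
    constructor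
    · intro h1
      rw [hinj i hi j hj h1]
    · intro h1
      rw [hσi i j (hinj _ (hσ i hi) _ (hσ j hj) h1)]
  · rintro _ ⟨i, hi, rfl⟩
    exact (e i).2
  · intro hP
    apply hQ
    unfold QL
    refine hP.mono ?_
    rintro q (hq | ⟨_, ⟨i, hi, rfl⟩, d, rfl⟩)
    · exact Or.inl hq
    · refine Or.inr ⟨_, ⟨i, hi, rfl⟩, d, ?_, rfl⟩
      show (d : ℕ) < sz (kd (e i).1)
      rw [(e i).2]
      exact d.2

/-- the field `nsym` gives a visible swap -/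
theorem sw_of_nsym (hF : FF M Rn E E' m c kd sz x) (hk : k < c) :
    ∃ a0 b0, ¬ GQL (QL M (Rs kd sz x k) kd sz x k) (a0 + b0 + 2) (sw a0) (fun _ => 1) := by
  have hls := ls_kind hF k (subset_refl (Rs kd sz x k))
  obtain ⟨Γ, hΓ, hi, hkd, hn⟩ := hF.nsym k hk
  have h1 : ¬ Q1 (QL M (Rs kd sz x k) kd sz x k) {g : Lk kd k × Lk kd k | (g.1.1, g.2.1) ∈ Γ} := by
    intro hQ
    apply hn
    unfold Q1 QL at hQ
    refine hQ.mono ?_
    rintro q (hq | ⟨g, hg, d, hd, rfl⟩)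
    · exact Or.inl hq
    · have h1 := hkd g hg
      have h2 := (hi.1 g hg).symm.trans h1
      rw [h1] at hd
      exact Or.inr ⟨(⟨g.1, h1⟩, ⟨g.2, h2⟩, 1), ⟨hg, rfl⟩, ⟨d, hd⟩, rfl⟩
  obtain ⟨a0, b0, h2⟩ := exists_swap (gs_q1 hls) (hΓ.preimage (f := fun g : Lk kd k × Lk kd k =>
    (g.1.1, g.2.1)) (by
      intro g _ g' _ h
      rw [Prod.mk.injEq] at h
      exact Prod.ext (Subtype.ext h.1) (Subtype.ext h.2))) (by
    intro g hg g' hg'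
    have := hi.2 _ hg _ hg'
    rw [Subtype.ext_iff, Subtype.ext_iff]
    exact this) h1
  exact ⟨a0, b0, fun h => h2 ((gq_q1 hls).2 h)⟩

/-- visible swap up to labels -/
theorem hsw_of (hF : FF M Rn E E' m c kd sz x) (hk : k < c) :
    ∃ a0 b0, ¬ GQ (Qi (QL M (Rs kd sz x k) kd sz x k)) (a0 + b0 + 2) (sw a0) := by
  have hinf : Infinite (Lk kd k) := (hF.inf k hk).to_subtype
  have hls := ls_kind hF k (subset_refl (Rs kd sz x k))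
  obtain ⟨a0, b0, h⟩ := sw_of_nsym hF hk
  obtain ⟨a', b', h'⟩ := swap_lab hls h
  refine ⟨a', b', fun h1 => ?_⟩
  have hσ : ∀ i < a' + b' + 2, sw a' i < a' + b' + 2 := by
    intro i hi
    unfold sw
    split_ifs <;> omega
  obtain ⟨lam, h2⟩ := (gq_qi hls hσ).1 h1
  exact h' lam h2

theorem dr_rot : Dr (E ∪ (cell kd sz x z.1 : Set ℕ)) (kr kd z.1) sz (xr sz x z mu) =
    Dr E kd sz x := by
  ext y
  constructor
  · rintro ⟨h1, h2⟩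
    refine ⟨fun h => h1 (Or.inl h), fun i d hd h => ?_⟩
    by_cases hi : i = z.1
    · exact h1 (Or.inr (mem_cell.2 ⟨d, hi ▸ hd, by rw [h, hi]⟩))
    · obtain ⟨e, he, h3⟩ := (xr_mem (sz := sz) (x := x) (mu := mu) ⟨i, hi⟩ y).2 ⟨d, hd, h.symm⟩
      exact h2 ⟨i, hi⟩ e he h3.symm
  · rintro ⟨h1, h2⟩
    refine ⟨?_, fun i d hd h => ?_⟩
    · rintro (h | h)
      · exact h1 h
      · obtain ⟨d, hd, h3⟩ := mem_cell.1 (Finset.mem_coe.1 h)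
        exact h2 z.1 d hd h3.symm
    · obtain ⟨e, he, h3⟩ := (xr_mem (sz := sz) (x := x) (mu := mu) i y).1 ⟨d, hd, h.symm⟩
      exact h2 i.val e he h3.symm

/-- the rest is fixed together with the cell `z` -/
theorem rest_fix (hF : FF M Rn E E' m c kd sz x) {P : Pos}
    (hP : ∀ q ∈ P, q.1 ∈ Dr E kd sz x ∧ q.2 ∈ Dr E kd sz x) (hm : Mt P (Dr E kd sz x) (Dr E kd sz x))
    (hPI : PI M M (idOn E' ∪ P)) (S : Set ℕ) (hS : S ⊆ {y | ∃ i, y ∈ cell kd sz x i}) :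
    PI M M (idOn (E' ∪ S) ∪ P) := by
  have h1 := hF.free P {g | g.1 = g.2} hP hPI (by
    refine ⟨⟨?_, ?_⟩, ?_⟩
    · intro g hg
      rw [show g.1 = g.2 from hg]
    · intro g hg h hh
      rw [show g.1 = g.2 from hg, show h.1 = h.2 from hh]
    · intro g hg h hh _
      rw [show g.1 = g.2 from hg, show h.1 = h.2 from hh]) (fun i _ => rfl)
  refine h1.mono ?_
  have hcell : ∀ y i, y ∈ cell kd sz x i → (y, y) ∈ MV kd sz x {g | g.1 = g.2} := by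
    intro y i hy
    obtain ⟨d, hd, rfl⟩ := mem_cell.1 hy
    exact ⟨(i, i), rfl, d, hd, rfl⟩
  rintro ⟨q1, q2⟩ (⟨hq | hq, hq2⟩ | hq)
  · simp only at hq hq2
    subst hq2
    by_cases hE : q1 ∈ E
    · exact Or.inl (Or.inl ⟨hE, rfl⟩)
    · by_cases hc : ∃ i, q1 ∈ cell kd sz x i
      · obtain ⟨i, hi⟩ := hc
        exact Or.inr (hcell _ _ hi)
      · left
        right
        have hD : q1 ∈ Dr E kd sz x := ⟨hE, fun i d hd h => hc ⟨i, mem_cell.2 ⟨d, hd, h.symm⟩⟩⟩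
        obtain ⟨w, hw, hw2⟩ := hm.1 q1 hD
        have h3 := (hPI.2 (q1, q1) (Or.inl ⟨hq, rfl⟩) (q1, w) (Or.inr hw2)).1 rfl
        simp only at h3
        rw [← h3] at hw2
        exact hw2
  · simp only at hq hq2
    subst hq2
    obtain ⟨i, hi⟩ := hS hq
    exact Or.inr (hcell _ _ hi)
  · exact Or.inl (Or.inr hq)

/-- finitely many moves suffice -/
theorem fin_moves {J : Type} {kd' : J → ℕ} {x' : J → ℕ → ℕ} {B Q : Pos} {Γ : Set (J × J)}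
    (hQ : Q ⊆ B ∪ MV kd' sz x' Γ) (hf : Q.Finite) :
    ∃ Γ0 ⊆ Γ, Γ0.Finite ∧ Q ⊆ B ∪ MV kd' sz x' Γ0 := by
  classical
  have h1 : ∀ q : ℕ × ℕ, ∃ g : Option (J × J), q ∈ MV kd' sz x' Γ →
      ∃ g' ∈ Γ, g = some g' ∧ ∃ d < sz (kd' g'.1), q = (x' g'.1 d, x' g'.2 d) := by
    intro q
    by_cases hq : q ∈ MV kd' sz x' Γ
    · obtain ⟨g, hg, d, hd, h⟩ := hq
      exact ⟨some g, fun _ => ⟨g, hg, rfl, d, hd, h⟩⟩
    · exact ⟨none, fun h => absurd h hq⟩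
  choose G hG using h1
  refine ⟨{g | g ∈ Γ ∧ ∃ q ∈ Q, G q = some g}, fun g hg => hg.1, ?_, ?_⟩
  · have h2 : (Option.some '' {g | g ∈ Γ ∧ ∃ q ∈ Q, G q = some g}).Finite := by
      refine (hf.image G).subset ?_
      rintro _ ⟨g, ⟨-, q, hq, h⟩, rfl⟩
      exact ⟨q, hq, h⟩
    exact h2.of_finite_image (Option.some_injective _).injOn
  · intro q hq
    rcases hQ hq with h | h
    · exact Or.inl h
    · obtain ⟨g', hg', h2, d, hd, h3⟩ := hG q h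
      exact Or.inr ⟨g', ⟨hg', q, hq, h2⟩, d, hd, h3⟩

/-- the good map of kind `k` in the rotated presentation -/
theorem rot_ql (hF : FF M Rn E E' m c kd sz x) (hk : k < c)
    (hr : ∀ m, GQL (QL M (Rs kd sz x k) kd sz x k) m (rl m) (lab1 (m - 1) mu))
    (Γ0 : Set (Iz z.1 × Iz z.1)) (hΓf : Γ0.Finite)
    (hΓ : letI := ordz kd k z.1; MonK (kr kd z.1) Γ0) :
    QL M (Rs kd sz x k) kd sz x k {q | q = (z, z, 1) ∨
      ((∃ g ∈ Γ0, q.1.1 = g.1.val ∧ q.2.1.1 = g.2.val) ∧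
        q.2.2 = tw mu z q.2.1 * (tw mu z q.1)⁻¹)} := by
  classical
  letI := ordz kd k z.1
  have hinf : Infinite (Lk kd k) := (hF.inf k hk).to_subtype
  have hls := ls_kind hF k (subset_refl (Rs kd sz x k))
  let Γk : Set (Lk kd k × Lk kd k) := {h | ∃ g ∈ Γ0, h.1.1 = g.1.val ∧ h.2.1 = g.2.val}
  have hkf : Γk.Finite := by
    have h2 : ((fun g : Iz z.1 × Iz z.1 => (g.1.val, g.2.val)) '' Γ0).Finite := hΓf.image _
    refine (h2.preimage (f := fun h : Lk kd k × Lk kd k => (h.1.1, h.2.1)) ?_).subset ?_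
    · intro g _ g' _ h
      rw [Prod.mk.injEq] at h
      exact Prod.ext (Subtype.ext h.1) (Subtype.ext h.2)
    · rintro h ⟨g, hg, h3, h4⟩
      exact ⟨g, hg, Prod.ext h3.symm h4.symm⟩
  exact rot_good hls hr z hkf (by
      rintro h ⟨g, hg, h3, h4⟩
      exact ⟨fun h5 => g.1.ne (by rw [← h3, h5]), fun h5 => g.2.ne (by rw [← h4, h5])⟩) (by
      rintro h ⟨g, hg, h3, h4⟩ h' ⟨g', hg', h3', h4'⟩
      have e1 : kd g.1.val = k := h3 ▸ h.1.2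
      have e2 : kd g.2.val = k := h4 ▸ h.2.2
      have e1' : kd g'.1.val = k := h3' ▸ h'.1.2
      have e2' : kd g'.2.val = k := h4' ▸ h'.2.2
      have h5 := hΓ.2 g hg g' hg' (show kd g.1.val = kd g'.1.val from e1.trans e1'.symm)
      rw [ordz_rot g.1 g'.1 e1 e1', ordz_rot g.2 g'.2 e2 e2'] at h5
      have f1 : (⟨g.1.val, e1⟩ : Lk kd k) = h.1 := Subtype.ext h3.symm
      have f2 : (⟨g.2.val, e2⟩ : Lk kd k) = h.2 := Subtype.ext h4.symm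
      have f1' : (⟨g'.1.val, e1'⟩ : Lk kd k) = h'.1 := Subtype.ext h3'.symm
      have f2' : (⟨g'.2.val, e2'⟩ : Lk kd k) = h'.2 := Subtype.ext h4'.symm
      rw [f1, f2, f1', f2'] at h5
      exact h5)

/-- the movement of a new cell of kind `k` -/
theorem rot_mem {Γ0 : Set (Iz z.1 × Iz z.1)} {g : Iz z.1 × Iz z.1} (hg : g ∈ Γ0)
    (h1 : kd g.1.val = k) (h2 : kd g.2.val = k) {d : ℕ} (hd : d < sz k) :
    (x g.1.val (tw mu z ⟨g.1.val, h1⟩ ⟨d, hd⟩ : Fin (sz k)), xr sz x z mu g.2 d) ∈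
      {q : ℕ × ℕ | ∃ g' ∈ ({q | q = (z, z, 1) ∨
        ((∃ g ∈ Γ0, q.1.1 = g.1.val ∧ q.2.1.1 = g.2.val) ∧
          q.2.2 = tw mu z q.2.1 * (tw mu z q.1)⁻¹)} :
        Set (Lk kd k × Lk kd k × Equiv.Perm (Fin (sz k)))), q ∈ mvL x g'.1.1 g'.2.1.1 g'.2.2} := by
  have e2 : xr sz x z mu g.2 d = x g.2.val (tw mu z ⟨g.2.val, h2⟩ ⟨d, hd⟩ : Fin (sz k)) :=
    xr_k g.2 h2 ⟨d, hd⟩
  rw [e2]
  refine ⟨(⟨g.1.val, h1⟩, ⟨g.2.val, h2⟩, tw mu z ⟨g.2.val, h2⟩ * (tw mu z ⟨g.1.val, h1⟩)⁻¹),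
    Or.inr ⟨⟨g, hg, rfl, rfl⟩, rfl⟩, tw mu z ⟨g.1.val, h1⟩ ⟨d, hd⟩, ?_⟩
  simp

/-- the field `one` for the new cells -/
theorem one_rot (hF : FF M Rn E E' m c kd sz x) (hk : k < c)
    (hr : ∀ m, GQL (QL M (Rs kd sz x k) kd sz x k) m (rl m) (lab1 (m - 1) mu))
    (κ : ℕ) (Γ : Set (Iz z.1 × Iz z.1))
    (hΓ : letI := ordz kd k z.1; MonK (kr kd z.1) Γ) (hκ : ∀ g ∈ Γ, kr kd z.1 g.1 = κ) :
    PI M M (idOn (Rs (kr kd z.1) sz (xr sz x z mu) κ) ∪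
      MV (kr kd z.1) sz (xr sz x z mu) Γ) := by
  classical
  letI := ordz kd k z.1
  apply Pool.H5.AA.pi_of_fin
  intro Q hQ hQf
  obtain ⟨Γ0, hΓ0, hΓf, hQ0⟩ := fin_moves hQ hQf
  refine PI.mono ?_ hQ0
  have hkk : ∀ g ∈ Γ0, kd g.1.val = kd g.2.val := fun g hg => hΓ.1.1 g (hΓ0 hg)
  have hk1 : ∀ g ∈ Γ0, kd g.1.val = κ := fun g hg => hκ g (hΓ0 hg)
  by_cases hκk : κ = k
  · subst hκk
    have h2 := rot_ql hF hk hr Γ0 hΓf
      ⟨⟨fun g hg => hΓ.1.1 g (hΓ0 hg), fun g hg h hh => hΓ.1.2 g (hΓ0 hg) h (hΓ0 hh)⟩,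
        fun g hg h hh => hΓ.2 g (hΓ0 hg) h (hΓ0 hh)⟩
    rw [rs_k hF]
    unfold QL at h2
    refine h2.mono ?_
    rintro ⟨q1, q2⟩ (⟨hq | hq, hq2⟩ | ⟨g, hg, d, hd, hq⟩)
    · exact Or.inl ⟨hq, hq2⟩
    · simp only at hq hq2
      subst hq2
      obtain ⟨d, hd, rfl⟩ := mem_cell.1 (Finset.mem_coe.1 hq)
      refine Or.inr ⟨(z, z, 1), Or.inl rfl, ⟨d, ?_⟩, rfl⟩
      rw [z.2] at hd
      exact hd
    · rw [Prod.mk.injEq] at hq
      obtain ⟨rfl, rfl⟩ := hq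
      have hgk := hk1 g hg
      have hgk2 : kd g.2.val = κ := (hkk g hg).symm.trans hgk
      have hd' : d < sz κ := by
        rw [← hgk]
        exact hd
      have e1 : xr sz x z mu g.1 d = x g.1.val (tw mu z ⟨g.1.val, hgk⟩ ⟨d, hd'⟩ : Fin (sz κ)) :=
        xr_k g.1 hgk ⟨d, hd'⟩
      rw [e1]
      exact Or.inr (rot_mem hg hgk hgk2 hd')
  · rw [rs_o hκk]
    have h1 := hF.one κ {h | ∃ g ∈ Γ0, h = (g.1.val, g.2.val)} (by
      refine ⟨⟨?_, ?_⟩, ?_⟩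
      · rintro _ ⟨g, hg, rfl⟩
        exact hkk g hg
      · rintro _ ⟨g, hg, rfl⟩ _ ⟨g', hg', rfl⟩
        have e1 : ∀ i j : Iz z.1, (i.val = j.val ↔ i = j) := fun i j =>
          ⟨fun h => Iz.ext h, fun h => by rw [h]⟩
        simp only [e1]
        exact hΓ.1.2 g (hΓ0 hg) g' (hΓ0 hg')
      · rintro _ ⟨g, hg, rfl⟩ _ ⟨g', hg', rfl⟩ he
        have h2 := hΓ.2 g (hΓ0 hg) g' (hΓ0 hg') he
        rw [ordz_other g.1 g'.1 (hk1 g hg) (hk1 g' hg') hκk,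
          ordz_other g.2 g'.2 ((hkk g hg).symm.trans (hk1 g hg))
            ((hkk g' hg').symm.trans (hk1 g' hg')) hκk] at h2
        exact h2) (by
      rintro _ ⟨g, hg, rfl⟩
      exact hk1 g hg)
    refine h1.mono ?_
    rintro q (hq | ⟨g, hg, d, hd, rfl⟩)
    · exact Or.inl hq
    · have n1 : kd g.1.val ≠ k := fun h => hκk ((hk1 g hg).symm.trans h)
      have n2 : kd g.2.val ≠ k := fun h => n1 ((hkk g hg).trans h)
      rw [xr_o g.1 n1, xr_o g.2 n2]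
      exact Or.inr ⟨(g.1.val, g.2.val), ⟨g, hg, rfl⟩, d, hd, rfl⟩

theorem free_rot (hF : FF M Rn E E' m c kd sz x) (hk : k < c)
    (hr : ∀ m, GQL (QL M (Rs kd sz x k) kd sz x k) m (rl m) (lab1 (m - 1) mu))
    (p0 : Pos) (Γ : Set (Iz z.1 × Iz z.1))
    (hp0 : ∀ q ∈ p0, q.1 ∈ Dr E kd sz x ∧ q.2 ∈ Dr E kd sz x) (hPI : PI M M (idOn E' ∪ p0))
    (hΓ : letI := ordz kd k z.1; MonK (kr kd z.1) Γ) (hΓR : ∀ i ∈ rnz Rn z.1, (i, i) ∈ Γ) :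
    PI M M (idOn (E ∪ (cell kd sz x z.1 : Set ℕ)) ∪ p0 ∪ MV (kr kd z.1) sz (xr sz x z mu) Γ) := by
  classical
  letI := ordz kd k z.1
  apply Pool.H5.AA.pi_of_fin
  intro Q hQ hQf
  obtain ⟨Γ1, hΓ1, hΓ1f, hQ1⟩ := fin_moves hQ hQf
  obtain ⟨Γ0, hΓ0, hΓf, hQ0, hΓ0R⟩ : ∃ Γ0 ⊆ Γ, Γ0.Finite ∧
      Q ⊆ idOn (E ∪ (cell kd sz x z.1 : Set ℕ)) ∪ p0 ∪ MV (kr kd z.1) sz (xr sz x z mu) Γ0 ∧
      ∀ i ∈ rnz Rn z.1, (i, i) ∈ Γ0 := by
    refine ⟨Γ1 ∪ (fun i => (i, i)) '' (rnz Rn z.1 : Set (Iz z.1)), ?_, ?_, ?_, ?_⟩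
    · rintro g (hg | ⟨i, hi, rfl⟩)
      · exact hΓ1 hg
      · exact hΓR i hi
    · exact hΓ1f.union ((Finset.finite_toSet _).image _)
    · refine hQ1.trans ?_
      rintro q (hq | ⟨g, hg, d, hd, rfl⟩)
      · exact Or.inl hq
      · exact Or.inr ⟨g, Or.inl hg, d, hd, rfl⟩
    · intro i hi
      exact Or.inr ⟨i, hi, rfl⟩
  refine PI.mono ?_ hQ0
  have hkk : ∀ g ∈ Γ0, kd g.1.val = kd g.2.val := fun g hg => hΓ.1.1 g (hΓ0 hg)
  -- the other kinds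
  have h1 := hF.free p0 ({h | ∃ g ∈ Γ0, kd g.1.val ≠ k ∧ h = (g.1.val, g.2.val)} ∪
    {h | h.1 = h.2 ∧ kd h.1 = k}) hp0 hPI (by
      have e1 : ∀ i j : Iz z.1, (i.val = j.val ↔ i = j) := fun i j =>
        ⟨fun h => Iz.ext h, fun h => by rw [h]⟩
      refine ⟨⟨?_, ?_⟩, ?_⟩
      · rintro _ (⟨g, hg, -, rfl⟩ | ⟨h, -⟩)
        · exact hkk g hg
        · rw [h]
      · rintro _ (⟨g, hg, hgk, rfl⟩ | ⟨h, hk1⟩) _ (⟨g', hg', hgk', rfl⟩ | ⟨h', hk2⟩)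
        · simp only [e1]
          exact hΓ.1.2 g (hΓ0 hg) g' (hΓ0 hg')
        · constructor
          · intro h2
            exact absurd ((congrArg kd h2).trans hk2) hgk
          · intro h2
            rw [← h'] at h2
            exact absurd ((hkk g hg).trans ((congrArg kd h2).trans hk2)) hgk
        · constructor
          · intro h2
            exact absurd ((congrArg kd h2.symm).trans hk1) hgk'
          · intro h2
            rw [← h] at h2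
            exact absurd ((hkk g' hg').trans ((congrArg kd h2.symm).trans hk1)) hgk'
        · rw [h, h']
      · rintro _ (⟨g, hg, hgk, rfl⟩ | ⟨h, hk1⟩) _ (⟨g', hg', hgk', rfl⟩ | ⟨h', hk2⟩) he
        · have h2 := hΓ.2 g (hΓ0 hg) g' (hΓ0 hg') he
          rw [ordz_other g.1 g'.1 rfl he.symm hgk,
            ordz_other (k' := kd g.1.val) g.2 g'.2 (hkk g hg).symm
              ((hkk g' hg').symm.trans he.symm) hgk] at h2
          exact h2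
        · exact absurd (he.trans hk2) hgk
        · exact absurd (he.symm.trans hk1) hgk'
        · rw [h, h']) (by
      intro i hi
      by_cases hik : kd i = k
      · exact Or.inr ⟨rfl, hik⟩
      · have hiz : i ≠ z.1 := fun h => hik (h ▸ z.2)
        exact Or.inl ⟨(⟨i, hiz⟩, ⟨i, hiz⟩), hΓ0R ⟨i, hiz⟩ ((mem_rnz _).2 hi), hik, rfl⟩)
  -- the kind `k`
  have h2 := rot_ql hF hk hr Γ0 hΓf
      ⟨⟨fun g hg => hΓ.1.1 g (hΓ0 hg), fun g hg h hh => hΓ.1.2 g (hΓ0 hg) h (hΓ0 hh)⟩,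
        fun g hg h hh => hΓ.2 g (hΓ0 hg) h (hΓ0 hh)⟩
  unfold QL at h2
  -- the points of `E` are fixed by the second map
  have hE2 : ∀ y ∈ E, (y, y) ∈ (idOn (Rs kd sz x k) ∪ {q : ℕ × ℕ | ∃ g' ∈ ({q | q = (z, z, 1) ∨
        ((∃ g ∈ Γ0, q.1.1 = g.1.val ∧ q.2.1.1 = g.2.val) ∧
          q.2.2 = tw mu z q.2.1 * (tw mu z q.1)⁻¹)} :
        Set (Lk kd k × Lk kd k × Equiv.Perm (Fin (sz k)))), q ∈ mvL x g'.1.1 g'.2.1.1 g'.2.2} :
        Pos) := by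
    intro y hy
    by_cases hR : y ∈ Rs kd sz x k
    · exact Or.inl ⟨hR, rfl⟩
    · right
      unfold Rs at hR
      simp only [mem_setOf_eq] at hR
      push Not at hR
      obtain ⟨i, hik, d, hd, rfl⟩ := hR
      have hiR : i ∈ Rn := by
        by_contra hcon
        exact hF.notE i hcon d (by rw [hik]; exact hd) hy
      by_cases hiz : i = z.1
      · subst hiz
        exact ⟨(z, z, 1), Or.inl rfl, ⟨d, hd⟩, rfl⟩
      · obtain ⟨e, he⟩ : ∃ e : Fin (sz k), tw mu z ⟨i, hik⟩ e = ⟨d, hd⟩ :=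
          (tw mu z ⟨i, hik⟩).surjective ⟨d, hd⟩
        have h3 := rot_mem (mu := mu) (x := x) (hΓ0R ⟨i, hiz⟩ ((mem_rnz _).2 hiR)) hik hik e.2
        have e2 : xr sz x z mu (⟨i, hiz⟩ : Iz z.1) e = x i (tw mu z ⟨i, hik⟩ e : Fin (sz k)) :=
          xr_k (⟨i, hiz⟩ : Iz z.1) hik e
        rw [e2, he] at h3
        exact h3
  refine (h1.trans h2).mono ?_
  rintro ⟨q1, q2⟩ ((⟨hq | hq, hq2⟩ | hq) | ⟨g, hg, d, hd, hq⟩)
  · simp only at hq hq2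
    subst hq2
    exact ⟨q1, Or.inl (Or.inl ⟨hq, rfl⟩), hE2 q1 hq⟩
  · simp only at hq hq2
    subst hq2
    obtain ⟨d, hd, rfl⟩ := mem_cell.1 (Finset.mem_coe.1 hq)
    refine ⟨x z.1 d, Or.inr ⟨(z.1, z.1), Or.inr ⟨rfl, z.2⟩, d, hd, rfl⟩,
      Or.inr ⟨(z, z, 1), Or.inl rfl, ⟨d, ?_⟩, rfl⟩⟩
    rw [z.2] at hd
    exact hd
  · exact ⟨q2, Or.inl (Or.inr hq), Or.inl ⟨rs_D (hp0 _ hq).2, rfl⟩⟩
  · rw [Prod.mk.injEq] at hq
    obtain ⟨rfl, rfl⟩ := hq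
    by_cases hgk : kd g.1.val = k
    · have hgk2 : kd g.2.val = k := (hkk g hg).symm.trans hgk
      have hd' : d < sz k := by
        rw [← hgk]
        exact hd
      have e1 : xr sz x z mu g.1 d = x g.1.val (tw mu z ⟨g.1.val, hgk⟩ ⟨d, hd'⟩ : Fin (sz k)) :=
        xr_k g.1 hgk ⟨d, hd'⟩
      rw [e1]
      refine ⟨x g.1.val (tw mu z ⟨g.1.val, hgk⟩ ⟨d, hd'⟩ : Fin (sz k)),
        Or.inr ⟨(g.1.val, g.1.val), Or.inr ⟨rfl, hgk⟩,
          (tw mu z ⟨g.1.val, hgk⟩ ⟨d, hd'⟩ : Fin (sz k)), ?_, rfl⟩,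
        Or.inr (rot_mem hg hgk hgk2 hd')⟩
      show (tw mu z ⟨g.1.val, hgk⟩ ⟨d, hd'⟩ : ℕ) < sz (kd g.1.val)
      rw [hgk]
      exact Fin.isLt _
    · have hgk2 : kd g.2.val ≠ k := fun h => hgk ((hkk g hg).trans h)
      rw [xr_o g.1 hgk, xr_o g.2 hgk2]
      refine ⟨x g.2.val d, Or.inr ⟨(g.1.val, g.2.val), Or.inl ⟨g, hg, hgk, rfl⟩, d, hd, rfl⟩, ?_⟩
      by_cases hgR : g.2.val ∈ Rn
      · exact hE2 _ (hF.named _ hgR d (by rw [← hkk g hg]; exact hd))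
      · exact Or.inl ⟨rs_cell hF hgk2 hgR (by rw [← hkk g hg]; exact hd), rfl⟩

end Pool.H5.AB
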