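import Pool.Agent.H5.AB.Ro4

/-!
# Naming a cell and rotating the order: the new structure
-/

set_option autoImplicit false

namespace Pool.H5.AB

open Set Ordinal Pool.H62.VT

variable {a : ℕ → ℕ} {I : Type} {M : Str a} {E E' : Set ℕ} {m c : ℕ} [LinearOrder I]
  {kd : I → ℕ} {sz : ℕ → ℕ} {x : I → ℕ → ℕ} {Rn : Finset I} {k k' n a0 b0 : ℕ} {z : Lk kd k}
  {mu : Equiv.Perm (Fin (sz k))} {σ : ℕ → ℕ}

theorem xr_inj (hF : FF M Rn E E' m c kd sz x) (i i' : Iz z.1) (d d' : ℕ) (hd : d < sz (kd i.val))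
    (hd' : d' < sz (kd i'.val)) (h : xr sz x z mu i d = xr sz x z mu i' d')
    (hc : kd i.val = kd i'.val ∨ i.val ∉ Rn ∨ i'.val ∉ Rn) : i = i' ∧ d = d' := by
  obtain ⟨e, he, h1⟩ := (xr_mem (sz := sz) (x := x) (mu := mu) i _).1 ⟨d, hd, rfl⟩
  obtain ⟨e', he', h2⟩ := (xr_mem (sz := sz) (x := x) (mu := mu) i' _).1 ⟨d', hd', rfl⟩
  have h3 : i = i' := Iz.ext (hF.inj _ _ e e' he he' (h1.trans (h.trans h2.symm)) hc).1
  subst h3
  refine ⟨rfl, ?_⟩
  by_cases hk : kd i.val = k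
  · rw [hk] at hd hd'
    have e1 := xr_k (x := x) (mu := mu) i hk ⟨d, hd⟩
    have e2 := xr_k (x := x) (mu := mu) i hk ⟨d', hd'⟩
    have h4 := (hF.inj i.val i.val _ _ (by rw [hk]; exact Fin.isLt _) (by rw [hk]; exact Fin.isLt _)
      (e1.symm.trans (h.trans e2)) (Or.inl rfl)).2
    have h5 := (tw mu z ⟨i.val, hk⟩).injective (Fin.ext h4)
    exact congrArg Fin.val h5
  · rw [xr_o i hk, xr_o i hk] at h
    exact (hF.inj i.val i.val d d' hd hd' h (Or.inl rfl)).2

theorem reco_rot (hF : FF M Rn E E' m c kd sz x) (i : Iz z.1) (q : ℕ → ℕ)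
    (hB : BF M univ M univ m (idOn (E' ∪ (cell kd sz x z.1 : Set ℕ)) ∪
      {r | ∃ d < sz (kd i.val), r = (xr sz x z mu i d, q d)})) :
    ∃ i' : Iz z.1, kd i'.val = kd i.val ∧ ∀ y, (∃ d < sz (kd i.val), q d = y) ↔
      ∃ d < sz (kd i.val), xr sz x z mu i' d = y := by
  classical
  -- the labels corrected
  obtain ⟨q', hq1, hq2⟩ : ∃ q' : ℕ → ℕ, (∀ e < sz (kd i.val), ∃ d < sz (kd i.val),
      x i.val e = xr sz x z mu i d ∧ q' e = q d) ∧
      ∀ y, (∃ d < sz (kd i.val), q' d = y) ↔ ∃ d < sz (kd i.val), q d = y := by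
    by_cases hk : kd i.val = k
    · rw [hk]
      refine ⟨fun e => if h : e < sz k then q ((tw mu z ⟨i.val, hk⟩)⁻¹ ⟨e, h⟩ : Fin (sz k)) else 0,
        ?_, ?_⟩
      · intro e he
        refine ⟨((tw mu z ⟨i.val, hk⟩)⁻¹ ⟨e, he⟩ : Fin (sz k)), Fin.isLt _, ?_, ?_⟩
        · rw [xr_k i hk]
          simp
        · beta_reduce
          rw [dif_pos he]
      · intro y
        constructor
        · rintro ⟨d, hd, h⟩
          beta_reduce at h
          rw [dif_pos hd] at h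
          exact ⟨_, Fin.isLt _, h⟩
        · rintro ⟨d, hd, h⟩
          refine ⟨(tw mu z ⟨i.val, hk⟩ ⟨d, hd⟩ : Fin (sz k)), Fin.isLt _, ?_⟩
          beta_reduce
          rw [dif_pos (Fin.isLt _)]
          simpa using h
    · exact ⟨q, fun e he => ⟨e, he, (xr_o i hk e).symm, rfl⟩, fun y => Iff.rfl⟩
  obtain ⟨i', hi', hset⟩ := hF.reco i.val q' (hB.mono (by
    rintro r (hr | ⟨e, he, rfl⟩)
    · exact Or.inl ⟨Or.inl hr.1, hr.2⟩
    · obtain ⟨d, hd, h1, h2⟩ := hq1 e he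
      exact Or.inr ⟨d, hd, by rw [h1, h2]⟩))
  have hne : i' ≠ z.1 := by
    rintro rfl
    obtain ⟨e, he, h1⟩ := (hset (x z.1 0)).2 ⟨0, hF.pos _, rfl⟩
    obtain ⟨d, hd, h2, h3⟩ := hq1 e he
    have h4 := (hB.pi.2 (x z.1 0, x z.1 0) (Or.inl ⟨Or.inr (mem_cell.2 ⟨0, hF.pos _, rfl⟩), rfl⟩)
      (xr sz x z mu i d, q d) (Or.inr ⟨d, hd, rfl⟩)).2 (h1.symm.trans h3)
    simp only at h4
    rw [← h2] at h4
    exact i.ne (hF.inj _ _ _ _ he (hF.pos _) h4.symm (Or.inl hi'.symm)).1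
  refine ⟨⟨i', hne⟩, hi', fun y => ?_⟩
  rw [← hq2 y, hset y, ← hi']
  exact (xr_mem (sz := sz) (x := x) (mu := mu) (⟨i', hne⟩ : Iz z.1) y).symm

/-- The structure with the named cell and the rotated order. -/
theorem ff_rot (hF : FF M Rn E E' m c kd sz x) (hk : k < c)
    (hr : ∀ m, GQL (QL M (Rs kd sz x k) kd sz x k) m (rl m) (lab1 (m - 1) mu)) :
    letI := ordz kd k z.1
    FF M (rnz Rn z.1) (E ∪ (cell kd sz x z.1 : Set ℕ)) (E' ∪ (cell kd sz x z.1 : Set ℕ)) m c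
      (kr kd z.1) sz (xr sz x z mu) := by
  letI := ordz kd k z.1
  refine { fin := hF.fin.union (Finset.finite_toSet _)
           sub := union_subset_union_left _ hF.sub
           kdc := fun i => hF.kdc i.val
           pos := hF.pos
           inj := fun i i' d d' hd hd' h hc => xr_inj hF i i' d d' hd hd' h (by
             rw [mem_rnz, mem_rnz] at hc
             exact hc)
           notE := ?_, named := ?_, inf := ?_
           one := fun κ Γ hΓ hκ => one_rot hF hk hr κ Γ hΓ hκ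
           free := ?_, nsym := ?_, reco := ?_, cel := ?_ }
  · intro i hi d hd h
    rw [mem_rnz] at hi
    obtain ⟨e, he, h1⟩ := (xr_mem (sz := sz) (x := x) (mu := mu) i _).1 ⟨d, hd, rfl⟩
    rw [← h1] at h
    rcases h with h | h
    · exact hF.notE _ hi e he h
    · exact i.ne (cell_eq hF (mem_cell.2 ⟨e, he, rfl⟩) h (Or.inr (Or.inl hi)))
  · intro i hi d hd
    rw [mem_rnz] at hi
    obtain ⟨e, he, h1⟩ := (xr_mem (sz := sz) (x := x) (mu := mu) i _).1 ⟨d, hd, rfl⟩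
    rw [← h1]
    exact Or.inl (hF.named _ hi e he)
  · intro κ hκ
    have h1 : ({i | kd i = κ} \ {z.1}).Infinite := (hF.inf κ hκ).diff (finite_singleton z.1)
    have h2 : ({i | kd i = κ} \ {z.1} : Set I) = Iz.val '' {i : Iz z.1 | kr kd z.1 i = κ} := by
      ext i
      constructor
      · rintro ⟨h3, h4⟩
        exact ⟨⟨i, h4⟩, h3, rfl⟩
      · rintro ⟨i', h3, rfl⟩
        exact ⟨h3, i'.ne⟩
    rw [h2] at h1
    exact h1.of_image _
  · intro p0 Γ hp0 hPI hΓ hΓR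
    rw [dr_rot] at hp0
    exact free_rot hF hk hr p0 Γ hp0 (hPI.mono (by
      rintro q (hq | hq)
      · exact Or.inl ⟨Or.inl hq.1, hq.2⟩
      · exact Or.inr hq)) hΓ hΓR
  · intro κ hκ
    by_cases hκk : κ = k
    · subst hκk
      obtain ⟨a0, b0, hsw⟩ := sw_of_nsym hF hk
      exact nsym_of_sw (sw_k hF hk hsw)
    · obtain ⟨a0, b0, hsw⟩ := sw_of_nsym hF hκ
      exact nsym_of_sw fun h => hsw (gql_o hκk h)
  · intro i q hB
    exact reco_rot hF i q hB
  · intro n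
    obtain ⟨R, hR, h⟩ := hF.cel n
    rw [dr_rot]
    refine ⟨R, hR, fun u hu => ?_⟩
    obtain ⟨v, hv, P, h1, h2, h3, h4⟩ := h u hu
    exact ⟨v, hv, P, h1, h2, rest_fix hF h1 h2 h3 _ fun y hy => ⟨z.1, hy⟩, h4⟩

/-- After naming a cell no rotation of kind `k` is good. -/
theorem norot_k (hF : FF M Rn E E' m c kd sz x) (hk : k < c)
    (hr : ∀ m, GQL (QL M (Rs kd sz x k) kd sz x k) m (rl m) (lab1 (m - 1) mu)) :
    letI := ordz kd k z.1
    ∃ m0, ¬ GQ (Qi (QL M (Rs (kr kd z.1) sz (xr sz x z mu) k) (kr kd z.1) sz (xr sz x z mu) k)) m0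
      (rl m0) := by
  letI := ordz kd k z.1
  by_contra hcon
  push Not at hcon
  have hFr := ff_rot (z := z) hF hk hr
  have hinf : Infinite (Lk kd k) := (hF.inf k hk).to_subtype
  have hinf' : Infinite (Lk (kr kd z.1) k) := (hFr.inf k hk).to_subtype
  have hls := ls_kind hF k (subset_refl (Rs kd sz x k))
  have hls' := ls_kind hFr k (subset_refl (Rs (kr kd z.1) sz (xr sz x z mu) k))
  have hrl : ∀ n, ∀ i < n, rl n i < n := by
    intro n i hi
    unfold rl
    split_ifs <;> omega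
  obtain ⟨mu', hmu'⟩ := rot_normal hls' fun m => (gq_qi hls' (hrl m)).1 (hcon m)
  obtain ⟨a0, b0, hsw⟩ := sw_of_nsym hF hk
  apply hsw
  have hm := hmu' (a0 + b0 + 3)
  have key : ∃ nu1 nu2, GQL (QL M (Rs kd sz x k) kd sz x k) (a0 + b0 + 3 + 1) (sw (a0 + 1))
      (lab2 (a0 + 1) nu1 nu2) := by
    rcases gql_k hF hk (hrl _) hm with h | h
    · refine rot_fixL hls (mu := mu) (mu' := mu') (m := a0 + b0 + 3) hr (by omega) (Or.inl ?_)
        (by omega)
      refine h.congr hls ?_ ?_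
      · intro i hi
        beta_reduce
        unfold rl
        split_ifs <;> omega
      · intro i hi
        beta_reduce
        unfold lab1
        by_cases h0 : i = 0
        · rw [if_pos h0, if_neg (by omega)]
        · rw [if_neg h0]
          by_cases h1 : i = a0 + b0 + 3
          · rw [if_pos h1, if_pos (by omega)]
          · rw [if_neg h1, if_neg (by omega)]
    · refine rot_fixL hls (mu := mu) (mu' := mu * mu' * mu⁻¹) (m := a0 + b0 + 3) hr (by omega)
        (Or.inr ?_) (by omega)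
      refine h.congr hls ?_ ?_
      · intro i hi
        beta_reduce
        unfold rl
        split_ifs <;> omega
      · intro i hi
        beta_reduce
        unfold lab1
        by_cases h1 : i < a0 + b0 + 3
        · rw [if_pos h1]
          by_cases h2 : i = a0 + b0 + 3 - 1
          · rw [if_pos h2, if_pos h2]
          · rw [if_neg h2, if_neg h2]
            simp
        · rw [if_neg h1, if_neg (by omega)]
  obtain ⟨nu1, nu2, h1⟩ := key
  exact swap_two hls h1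

/-- Every structure with free families has one in which no kind has all rotations. -/
theorem ff_norm : ∀ (N : ℕ) (I : Type) [LinearOrder I] (Rn : Finset I) (E E' : Set ℕ)
    (kd : I → ℕ) (x : I → ℕ → ℕ), FF M Rn E E' m c kd sz x →
    {k | k < c ∧ ∀ m0, GQ (Qi (QL M (Rs kd sz x k) kd sz x k)) m0 (rl m0)}.ncard = N →
    ∃ (I' : Type) (_ : LinearOrder I') (Rn' : Finset I') (E1 E1' : Set ℕ) (kd' : I' → ℕ)
      (x' : I' → ℕ → ℕ), FF M Rn' E1 E1' m c kd' sz x' ∧
      (∀ k < c, ∃ m0, ¬ GQ (Qi (QL M (Rs kd' sz x' k) kd' sz x' k)) m0 (rl m0)) ∧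
      Dr E1 kd' sz x' = Dr E kd sz x := by
  intro N
  induction N using Nat.strong_induction_on with
  | _ N ih =>
  intro I _ Rn E E' kd x hF hN
  have hfin : {k | k < c ∧ ∀ m0, GQ (Qi (QL M (Rs kd sz x k) kd sz x k)) m0 (rl m0)}.Finite :=
    (finite_Iio c).subset fun k hk => hk.1
  rcases Set.eq_empty_or_nonempty {k | k < c ∧ ∀ m0,
    GQ (Qi (QL M (Rs kd sz x k) kd sz x k)) m0 (rl m0)} with he | ⟨k, hk, hall⟩
  · refine ⟨I, inferInstance, Rn, E, E', kd, x, hF, fun k hk => ?_, rfl⟩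
    by_contra hcon
    push Not at hcon
    have : k ∈ {k | k < c ∧ ∀ m0, GQ (Qi (QL M (Rs kd sz x k) kd sz x k)) m0 (rl m0)} := ⟨hk, hcon⟩
    rw [he] at this
    exact this
  · have hinf : Infinite (Lk kd k) := (hF.inf k hk).to_subtype
    have hls := ls_kind hF k (subset_refl (Rs kd sz x k))
    have hrl : ∀ n, ∀ i < n, rl n i < n := by
      intro n i hi
      unfold rl
      split_ifs <;> omega
    obtain ⟨mu, hmu⟩ := rot_normal hls fun m => (gq_qi hls (hrl m)).1 (hall m)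
    obtain ⟨z⟩ : Nonempty (Lk kd k) := inferInstance
    letI := ordz kd k z.1
    have hFr := ff_rot (z := z) hF hk hmu
    suffices hlt : {κ | κ < c ∧ ∀ m0, GQ (Qi (QL M (Rs (kr kd z.1) sz (xr sz x z mu) κ)
        (kr kd z.1) sz (xr sz x z mu) κ)) m0 (rl m0)}.ncard < N by
      obtain ⟨I', hI', Rn', E1, E1', kd', x', h1, h2, h3⟩ := ih _ hlt (Iz z.1) _ _ _ _ _ hFr rfl
      exact ⟨I', hI', Rn', E1, E1', kd', x', h1, h2, h3.trans dr_rot⟩
    rw [← hN]
    refine Set.ncard_lt_ncard ⟨?_, ?_⟩ hfin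
    · rintro κ ⟨hκ, h1⟩
      refine ⟨hκ, fun m0 => ?_⟩
      by_cases hκk : κ = k
      · subst hκk
        exact hall m0
      · have hls1 := ls_kind hF κ (subset_refl (Rs kd sz x κ))
        have hls2 := ls_kind hFr κ (subset_refl (Rs (kr kd z.1) sz (xr sz x z mu) κ))
        have hi1 : Infinite (Lk kd κ) := (hF.inf κ hκ).to_subtype
        have hi2 : Infinite (Lk (kr kd z.1) κ) := (hFr.inf κ hκ).to_subtype
        obtain ⟨lam, h2⟩ := (gq_qi hls2 (hrl m0)).1 (h1 m0)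
        exact (gq_qi hls1 (hrl m0)).2 ⟨lam, gql_o hκk h2⟩
    · intro hsub
      obtain ⟨m0, h1⟩ := norot_k (z := z) hF hk hmu
      exact h1 ((hsub ⟨hk, hall⟩).2 m0)

end Pool.H5.AB
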