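import Pool.Agent.H5.AB.StF

/-!
# From free families to the structure `ST`
-/

set_option autoImplicit false

namespace Pool.H5.AB

open Set Ordinal Pool.H62.VT Pool.H5.AA

variable {a : ℕ → ℕ} {I : Type} {M : Str a} {E E' EE : Set ℕ} {m c r : ℕ} [LinearOrder I]
  {kd : I → ℕ} {sz : ℕ → ℕ} {x : I → ℕ → ℕ} {Rn : Finset I} {Nm : Finset I}

/-- the kind of the family `j` -/
def kk {c n : ℕ} (j : Fin (c * (n + 1))) : ℕ := (finProdFinEquiv.symm j).1

/-- the gap of the family `j` -/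
def gg {c n : ℕ} (j : Fin (c * (n + 1))) : ℕ := (finProdFinEquiv.symm j).2

theorem kk_lt {c n : ℕ} (j : Fin (c * (n + 1))) : kk j < c := (finProdFinEquiv.symm j).1.2

theorem kg_inj {c n : ℕ} {j j' : Fin (c * (n + 1))} (h1 : kk j = kk j') (h2 : gg j = gg j') :
    j = j' := by
  apply finProdFinEquiv.symm.injective
  exact Prod.ext (Fin.ext h1) (Fin.ext h2)

theorem kg_surj {c n k g : ℕ} (hk : k < c) (hg : g < n + 1) :
    ∃ j : Fin (c * (n + 1)), kk j = k ∧ gg j = g := by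
  refine ⟨finProdFinEquiv (⟨k, hk⟩, ⟨g, hg⟩), ?_, ?_⟩
  · unfold kk
    rw [Equiv.symm_apply_apply]
  · unfold gg
    rw [Equiv.symm_apply_apply]

theorem d0_iff (hF : FF M Rn E E' m c kd sz x) (hN : ND M Rn E' c kd sz x Nm EE) (y : ℕ) :
    y ∈ D0 EE (fun j : Fin (c * (Nm.card + 1)) => CI kd sz x Nm (kk j) (gg j)) ↔
      y ∉ EE ∧ ∀ i, y ∉ cell kd sz x i := by
  constructor
  · rintro ⟨h1, h2⟩
    refine ⟨h1, fun i hi => ?_⟩
    by_cases hiN : i ∈ Nm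
    · exact h1 (hN.named i hiN y hi)
    · obtain ⟨j, hj1, hj2⟩ := kg_surj (hF.kdc i) (gap_le (kd := kd) (Nm := Nm) i)
      exact h2 j (cell kd sz x i) ⟨i, hiN, hj1.symm, hj2.symm, rfl⟩ hi
  · rintro ⟨h1, h2⟩
    refine ⟨h1, ?_⟩
    rintro j S ⟨i, -, -, -, rfl⟩ hy
    exact h2 i hy

/-- A structure with free families and named cells is composed of chains of cells and a rest. -/
theorem st_of_nd (hF : FF M Rn E E' m c kd sz x) (hN : ND M Rn E' c kd sz x Nm EE) :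
    ST M EE (fun j : Fin (c * (Nm.card + 1)) => CI kd sz x Nm (kk j) (gg j))
      (fun j => LI kd sz x (kk j)) (fun j => BI M kd sz x (kk j)) where
  finE := hN.fin
  ne := by
    rintro j _ ⟨i, -, -, -, rfl⟩
    exact cell_ne hF i
  dE := by
    rintro j _ ⟨i, hi, -, -, rfl⟩ y hy h
    exact hi (hN.meet i y hy h)
  dj := by
    rintro j j' _ _ ⟨i, hi, hk, hg, rfl⟩ ⟨i', hi', hk', hg', rfl⟩ ⟨y, hy, hy'⟩
    have e := cell_eq hF hy hy' (Or.inr (Or.inl fun h => hi (hN.ren h)))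
    subst e
    exact ⟨kg_inj (hk.symm.trans hk') (hg.symm.trans hg'), rfl⟩
  irr := by
    rintro j _ ⟨i, hi, hk, hg, rfl⟩ ⟨i1, i2, h1, h2, h3, h4, h5⟩
    rw [← cell_inj hF h3 (Or.inl (hk.trans h1.symm)), ← cell_inj hF h4 (Or.inl (hk.trans h2.symm))]
      at h5
    exact lt_irrefl _ h5
  tr := by
    rintro j S hS T hT U hU ⟨i1, i2, h1, h2, h3, h4, h5⟩ ⟨i3, i4, h6, h7, h8, h9, h10⟩
    have e : i2 = i3 := cell_inj hF (h4.symm.trans h8) (Or.inl (h2.trans h6.symm))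
    subst e
    exact ⟨i1, i4, h1, h7, h3, h9, h5.trans h10⟩
  tot := by
    rintro j _ ⟨i, hi, hk, hg, rfl⟩ _ ⟨i', hi', hk', hg', rfl⟩ hne
    rcases lt_trichotomy i i' with h | h | h
    · exact Or.inl ⟨i, i', hk, hk', rfl, rfl, h⟩
    · exact absurd (by rw [h]) hne
    · exact Or.inr ⟨i', i, hk', hk, rfl, rfl, h⟩
  reco := fun j S hS S' p hB hE hm => reco_fam hF hN (kk_lt j) hB hE hS hm
  ord := fun j S hS T hT S' T' p hB hE hm hm' h =>
    ord_fam hF hN (kk_lt j) hB hE hS hT hm hm' h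
  hom := by
    rintro j _ ⟨i, hi, hk, hg, rfl⟩ _ ⟨i', hi', hk', hg', rfl⟩
    exact ⟨mvL x i i' (1 : Equiv.Perm (Fin (sz (kk j)))), mts_mvL hk hk' 1, i, i', 1, hk, hk',
      gl_one, rfl⟩
  comp := fun j S hS S' hS' S'' hS'' b b' h1 h2 h3 h4 => comp_fam hF h1 h2 h3 h4
  lab := fun j S hS S' hS' p hB hE hm => lab_fam hF hN (kk_lt j) hB hE hS hm
  free := by
    intro p0 ι j S S' b hp0f hι hPI hp0 hb hne hlt
    refine free_fam hF hN kk gg (fun j j' h1 h2 => kg_inj h1 h2) p0 ι j S S' b hι hPI ?_ hb hne hlt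
    intro q hq
    exact ⟨(d0_iff hF hN q.1).1 (hp0 q hq).1, (d0_iff hF hN q.2).1 (hp0 q hq).2⟩
  cel := by
    intro n
    obtain ⟨R, hR, h⟩ := cel_fam hF hN n
    exact ⟨R, hR, fun u hu => h u fun i => (d0_iff hF hN (u i)).1 (hu i)⟩

end Pool.H5.AB
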