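import Pool.Agent.H5.AB.Nd
import Pool.Agent.H5.AA.Glue

/-!
# The chains of cells between the named cells
-/

set_option autoImplicit false

namespace Pool.H5.AB

open Set Ordinal Pool.H62.VT Pool.H5.AA

variable {a : ℕ → ℕ} {I : Type} {M : Str a} {E E' EE : Set ℕ} {m c r : ℕ} [LinearOrder I]
  {kd : I → ℕ} {sz : ℕ → ℕ} {x : I → ℕ → ℕ} {Rn : Finset I} {k g g' : ℕ} {Nm : Finset I}

open Classical in
/-- number of named cells of the same kind below `i` -/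
noncomputable def gap (kd : I → ℕ) (Nm : Finset I) (i : I) : ℕ :=
  (Nm.filter (fun n => kd n = kd i ∧ n < i)).card

theorem gap_le (i : I) : gap kd Nm i < Nm.card + 1 :=
  Nat.lt_succ_of_le (Finset.card_le_card (Finset.filter_subset _ _))

theorem gap_mono {i i' : I} (hk : kd i = kd i') (h : i ≤ i') : gap kd Nm i ≤ gap kd Nm i' := by
  apply Finset.card_le_card
  intro n hn
  rw [Finset.mem_filter] at hn ⊢
  exact ⟨hn.1, hn.2.1.trans hk, hn.2.2.trans_le h⟩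

/-- the number of named cells below determines the position -/
theorem gap_lt {i i' n : I} (hk : kd i = kd i') (hn : n ∈ Nm) (hkn : kd n = kd i) (h : i < n)
    (h' : n < i') : gap kd Nm i < gap kd Nm i' := by
  apply Finset.card_lt_card
  refine Finset.ssubset_iff_subset_ne.2 ⟨?_, ?_⟩
  · intro p hp
    rw [Finset.mem_filter] at hp ⊢
    exact ⟨hp.1, hp.2.1.trans hk, hp.2.2.trans (h.trans h')⟩
  · intro he
    have h1 : n ∈ Nm.filter (fun n => kd n = kd i' ∧ n < i') :=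
      Finset.mem_filter.2 ⟨hn, hkn.trans hk, h'⟩
    rw [← he, Finset.mem_filter] at h1
    exact lt_asymm h h1.2.2

/-- cells with the same gap have the same position with respect to the named cells -/
theorem gap_side {i i' n : I} (hk : kd i = kd i') (hg : gap kd Nm i = gap kd Nm i') (hn : n ∈ Nm)
    (hkn : kd n = kd i) (hi : i ∉ Nm) (hi' : i' ∉ Nm) : i < n ↔ i' < n := by
  have h1 : i ≠ n := fun h => hi (h ▸ hn)
  have h2 : i' ≠ n := fun h => hi' (h ▸ hn)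
  constructor
  · intro h
    rcases lt_trichotomy i' n with h3 | h3 | h3
    · exact h3
    · exact absurd h3 h2
    · exact absurd hg (gap_lt hk hn hkn h h3).ne
  · intro h
    rcases lt_trichotomy i n with h3 | h3 | h3
    · exact h3
    · exact absurd h3 h1
    · exact absurd hg (gap_lt hk.symm hn (hkn.trans hk) h h3).ne'

/-- the family of cells of kind `k` in the gap `g` -/
def CI (kd : I → ℕ) (sz : ℕ → ℕ) (x : I → ℕ → ℕ) (Nm : Finset I) (k g : ℕ) : Set (Finset ℕ) :=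
  {S | ∃ i, i ∉ Nm ∧ kd i = k ∧ gap kd Nm i = g ∧ S = cell kd sz x i}

/-- the order of the cells of kind `k` -/
def LI (kd : I → ℕ) (sz : ℕ → ℕ) (x : I → ℕ → ℕ) (k : ℕ) (S T : Finset ℕ) : Prop :=
  ∃ i i', kd i = k ∧ kd i' = k ∧ S = cell kd sz x i ∧ T = cell kd sz x i' ∧ i < i'

/-- the admissible matchings of cells of kind `k` -/
def BI (M : Str a) (kd : I → ℕ) (sz : ℕ → ℕ) (x : I → ℕ → ℕ) (k : ℕ) (b : Pos) : Prop :=
  ∃ (i i' : I) (g : Equiv.Perm (Fin (sz k))), kd i = k ∧ kd i' = k ∧ GdL M kd sz x k g ∧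
    b = mvL x i i' g

theorem cell_inj (hF : FF M Rn E E' m c kd sz x) {i i' : I} (h : cell kd sz x i = cell kd sz x i')
    (hk : kd i = kd i' ∨ i ∉ Rn ∨ i' ∉ Rn) : i = i' := by
  obtain ⟨y, hy⟩ := cell_ne hF i
  exact cell_eq hF hy (h ▸ hy) hk

theorem mts_mvL {i i' : I} (hi : kd i = k) (hi' : kd i' = k) (g : Equiv.Perm (Fin (sz k))) :
    MtS (mvL x i i' g) (cell kd sz x i) (cell kd sz x i') := by
  refine ⟨?_, ?_, ?_⟩
  · rintro _ ⟨d, rfl⟩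
    exact ⟨mem_cell.2 ⟨d, by rw [hi]; exact d.2, rfl⟩,
      mem_cell.2 ⟨g d, by rw [hi']; exact (g d).2, rfl⟩⟩
  · intro y hy
    obtain ⟨d, hd, rfl⟩ := mem_cell.1 (Finset.mem_coe.1 hy)
    rw [hi] at hd
    exact ⟨x i' (g ⟨d, hd⟩), mem_cell.2 ⟨g ⟨d, hd⟩, by rw [hi']; exact (g _).2, rfl⟩,
      ⟨⟨d, hd⟩, rfl⟩⟩
  · intro y hy
    obtain ⟨d, hd, rfl⟩ := mem_cell.1 (Finset.mem_coe.1 hy)
    rw [hi'] at hd
    refine ⟨x i (g⁻¹ ⟨d, hd⟩ : Fin (sz k)), mem_cell.2 ⟨(g⁻¹ ⟨d, hd⟩ : Fin (sz k)),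
      by rw [hi]; exact Fin.isLt _, rfl⟩, ⟨g⁻¹ ⟨d, hd⟩, ?_⟩⟩
    simp

/-- a matching determines its cells -/
theorem mts_left {i i' : I} (hi : kd i = k) (hi' : kd i' = k) {g : Equiv.Perm (Fin (sz k))}
    {S S' : Finset ℕ} (h : MtS (mvL x i i' g) S S') : S = cell kd sz x i ∧
      S' = cell kd sz x i' := by
  have h1 := mts_mvL (x := x) hi hi' g
  constructor
  · ext y
    constructor
    · intro hy
      obtain ⟨z, -, hz⟩ := h.2.1 y hy
      exact (h1.1 _ hz).1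
    · intro hy
      obtain ⟨z, -, hz⟩ := h1.2.1 y hy
      exact (h.1 _ hz).1
  · ext y
    constructor
    · intro hy
      obtain ⟨z, -, hz⟩ := h.2.2 y hy
      exact (h1.1 _ hz).2
    · intro hy
      obtain ⟨z, -, hz⟩ := h1.2.2 y hy
      exact (h.1 _ hz).2

/-- a cell matched with a finite set at level `ω` -/
theorem match_cell (hF : FF M Rn E E' m c kd sz x) (hN : ND M Rn E' c kd sz x Nm EE) {P : Pos}
    (hB : BF M univ M univ ω P) (hE : idOn EE ⊆ P) (u : Lk kd k) {S' : Finset ℕ}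
    (hm : Mt P (cell kd sz x u.1 : Set ℕ) (S' : Set ℕ)) :
    ∃ (v : Lk kd k) (g : Equiv.Perm (Fin (sz k))), mvL x u.1 v.1 g ⊆ P ∧
      S' = cell kd sz x v.1 := by
  obtain ⟨v, g, hv⟩ := cell_reco hF (hB.level (nat_lt_omega0 m).le)
    (fun q hq => hE ⟨hN.sub hq.1, hq.2⟩) u (fun d hd => by
      obtain ⟨y, -, hy⟩ := hm.1 (x u.1 d) (mem_cell.2 ⟨d, by rw [u.2]; exact hd, rfl⟩)
      exact ⟨y, hy⟩)
  refine ⟨v, g, hv, ?_⟩
  have h1 : Mt P (cell kd sz x u.1 : Set ℕ) (cell kd sz x v.1 : Set ℕ) :=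
    (mts_mvL u.2 v.2 g).2.mono hv
  exact mt_inj hB.pi hm h1

/-- cells of the families, found again -/
theorem match_fam (hF : FF M Rn E E' m c kd sz x) (hN : ND M Rn E' c kd sz x Nm EE) {P : Pos}
    (hk : k < c) (hB : BF M univ M univ ω P) (hE : idOn EE ⊆ P) {u v : Lk kd k}
    {γ : Equiv.Perm (Fin (sz k))} (hu : u.1 ∉ Nm) (h : mvL x u.1 v.1 γ ⊆ P) :
    v.1 ∉ Nm ∧ gap kd Nm v.1 = gap kd Nm u.1 ∧ GdL M kd sz x k γ := by
  classical
  obtain ⟨-, h2, h3, h4⟩ := hN.recg k hk P hB hE {u} (fun _ => v) (fun _ => γ)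
    (fun w hw => by
      rw [Finset.mem_singleton] at hw
      rw [hw]
      exact h) (fun w hw => by
      rw [Finset.mem_singleton] at hw
      rw [hw]
      exact hu)
  refine ⟨h3 u (Finset.mem_singleton_self u), ?_, h4 u (Finset.mem_singleton_self u)⟩
  unfold gap
  congr 1
  ext n
  rw [Finset.mem_filter, Finset.mem_filter, u.2, v.2]
  constructor
  · rintro ⟨h5, h6, h7⟩
    exact ⟨h5, h6, (h2 u (Finset.mem_singleton_self u) n h5 h6).2 h7⟩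
  · rintro ⟨h5, h6, h7⟩
    exact ⟨h5, h6, (h2 u (Finset.mem_singleton_self u) n h5 h6).1 h7⟩

theorem reco_fam (hF : FF M Rn E E' m c kd sz x) (hN : ND M Rn E' c kd sz x Nm EE) {P : Pos}
    (hk : k < c) (hB : BF M univ M univ ω P) (hE : idOn EE ⊆ P) {S S' : Finset ℕ}
    (hS : S ∈ CI kd sz x Nm k g) (hm : Mt P (S : Set ℕ) (S' : Set ℕ)) :
    S' ∈ CI kd sz x Nm k g := by
  obtain ⟨i, hi, hik, hig, rfl⟩ := hS
  obtain ⟨v, γ, hv, rfl⟩ := match_cell hF hN hB hE ⟨i, hik⟩ hm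
  obtain ⟨h1, h2, -⟩ := match_fam hF hN hk hB hE (u := ⟨i, hik⟩) hi hv
  exact ⟨v.1, h1, v.2, h2.trans hig, rfl⟩

theorem ord_fam (hF : FF M Rn E E' m c kd sz x) (hN : ND M Rn E' c kd sz x Nm EE) {P : Pos}
    (hk : k < c) (hB : BF M univ M univ ω P) (hE : idOn EE ⊆ P) {S S' T T' : Finset ℕ}
    (hS : S ∈ CI kd sz x Nm k g) (hT : T ∈ CI kd sz x Nm k g') (hm : Mt P (S : Set ℕ) (S' : Set ℕ))
    (hm' : Mt P (T : Set ℕ) (T' : Set ℕ)) (h : LI kd sz x k S T) : LI kd sz x k S' T' := by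
  classical
  obtain ⟨i, hi, hik, hig, rfl⟩ := hS
  obtain ⟨j, hj, hjk, hjg, rfl⟩ := hT
  obtain ⟨i', j', hi', hj', hii, hjj, hlt⟩ := h
  have e1 := cell_inj hF hii (Or.inl (hik.trans hi'.symm))
  have e2 := cell_inj hF hjj (Or.inl (hjk.trans hj'.symm))
  subst e1
  subst e2
  obtain ⟨v, γ, hv, rfl⟩ := match_cell hF hN hB hE ⟨i, hik⟩ hm
  obtain ⟨w, δ, hw, rfl⟩ := match_cell hF hN hB hE ⟨j, hjk⟩ hm'
  have hne : (⟨j, hjk⟩ : Lk kd k) ≠ ⟨i, hik⟩ := fun h => hlt.ne' (congrArg Subtype.val h)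
  obtain ⟨h1, -⟩ := hN.recg k hk P hB hE {⟨i, hik⟩, ⟨j, hjk⟩}
    (fun y => if y = ⟨i, hik⟩ then v else w) (fun y => if y = ⟨i, hik⟩ then γ else δ) (by
      intro u hu
      rw [Finset.mem_insert, Finset.mem_singleton] at hu
      rcases hu with rfl | rfl
      · beta_reduce
        rw [if_pos rfl, if_pos rfl]
        exact hv
      · beta_reduce
        rw [if_neg hne, if_neg hne]
        exact hw) (by
      intro u hu
      rw [Finset.mem_insert, Finset.mem_singleton] at hu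
      rcases hu with rfl | rfl
      · exact hi
      · exact hj)
  have h2 := h1 ⟨i, hik⟩ (by simp) ⟨j, hjk⟩ (by simp) hlt
  rw [if_pos rfl, if_neg hne] at h2
  exact ⟨v.1, w.1, v.2, w.2, rfl, rfl, h2⟩

theorem comp_fam (hF : FF M Rn E E' m c kd sz x) {S S' S'' : Finset ℕ} {b b' : Pos}
    (h1 : MtS b S S') (h2 : MtS b' S' S'') (h3 : BI M kd sz x k b) (h4 : BI M kd sz x k b') :
    BI M kd sz x k (pcomp b b') := by
  obtain ⟨i, i', γ, hi, hi', hγ, rfl⟩ := h3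
  obtain ⟨j, j', δ, hj, hj', hδ, rfl⟩ := h4
  have e1 := mts_left hi hi' h1
  have e2 := mts_left hj hj' h2
  have e3 : i' = j := cell_inj hF (e1.2.symm.trans e2.1) (Or.inl (hi'.trans hj.symm))
  subst e3
  refine ⟨i, j', δ * γ, hi, hj', gl_mul hγ hδ, ?_⟩
  ext q
  constructor
  · rintro ⟨y, ⟨d, hd⟩, ⟨e, he⟩⟩
    rw [Prod.mk.injEq] at hd he
    have h5 : γ d = e := by
      apply Fin.ext
      exact (hF.inj i' i' _ _ (by rw [hi']; exact (γ d).2) (by rw [hi']; exact e.2)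
        (hd.2.symm.trans he.1) (Or.inl rfl)).2
    refine ⟨d, Prod.ext hd.1 ?_⟩
    rw [he.2, ← h5]
    rfl
  · rintro ⟨d, rfl⟩
    exact ⟨x i' (γ d), ⟨d, rfl⟩, ⟨γ d, rfl⟩⟩

theorem lab_fam (hF : FF M Rn E E' m c kd sz x) (hN : ND M Rn E' c kd sz x Nm EE) {P : Pos}
    (hk : k < c) (hB : BF M univ M univ ω P) (hE : idOn EE ⊆ P) {S S' : Finset ℕ}
    (hS : S ∈ CI kd sz x Nm k g) (hm : Mt P (S : Set ℕ) (S' : Set ℕ)) :
    BI M kd sz x k {q | q ∈ P ∧ q.1 ∈ S ∧ q.2 ∈ S'} := by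
  obtain ⟨i, hi, hik, hig, rfl⟩ := hS
  obtain ⟨v, γ, hv, rfl⟩ := match_cell hF hN hB hE ⟨i, hik⟩ hm
  obtain ⟨h1, h2, h3⟩ := match_fam hF hN hk hB hE (u := ⟨i, hik⟩) hi hv
  refine ⟨i, v.1, γ, hik, v.2, h3, ?_⟩
  ext q
  constructor
  · rintro ⟨hq, hq1, -⟩
    obtain ⟨d, hd, h4⟩ := mem_cell.1 hq1
    rw [hik] at hd
    refine ⟨⟨d, hd⟩, Prod.ext h4.symm ?_⟩
    have h5 := hv ⟨⟨d, hd⟩, rfl⟩
    exact ((hB.pi.2 _ hq _ h5).1 h4.symm)
  · rintro ⟨d, rfl⟩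
    have h5 := mts_mvL (x := x) hik v.2 γ
    exact ⟨hv ⟨d, rfl⟩, (h5.1 _ ⟨d, rfl⟩).1, (h5.1 _ ⟨d, rfl⟩).2⟩

end Pool.H5.AB
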